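import Pool.Agent.BE.Base

/-!
# BE-Aff: affine inclusions

`affInc_of_affine`: `S` separated: intersections of affine opens are affine
(`IsAffineOpen.inter`/`isAffineOpen_inter`... for separated schemes). `affInc_preimage`: `p⁻¹ᵁ N` with `N` affine in
the separated scheme `C`: for affine `U` the morphism `U → C` is affine (a morphism from an affine scheme to
a separated scheme is affine, Mathlib/AlgebraicGeometry/Morphisms/Affine.lean, Separated.lean), and
`U ⊓ p⁻¹ᵁ N` is the preimage of `N` in `U`.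
-/

open CategoryTheory CategoryTheory.Limits AlgebraicGeometry Opposite TopologicalSpace

namespace Pool.Agent.BE

variable {S : Scheme.{0}}

theorem affInc_top : AffInc (⊤ : S.Opens) := by
  intro U
  rw [inf_top_eq]
  exact U.2

theorem affInc_inf {W W' : S.Opens} (h : AffInc W) (h' : AffInc W') : AffInc (W ⊓ W') := by
  intro U
  rw [← inf_assoc]
  exact h' ⟨U.1 ⊓ W, h U⟩

theorem affInc_preimage {C : Scheme.{0}} [C.IsSeparated] (p : S ⟶ C) (N : C.Opens)
    (hN : IsAffineOpen N) : AffInc (p ⁻¹ᵁ N) := by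
  intro U
  have : IsAffine U.1 := U.2
  have haff : IsAffineHom (U.1.ι ≫ p) := by
    have h1 : IsAffineHom ((U.1.ι ≫ p) ≫ terminal.from C) := inferInstance
    exact IsAffineHom.of_comp (U.1.ι ≫ p) (terminal.from C)
  have h2 : IsAffineOpen ((U.1.ι ≫ p) ⁻¹ᵁ N) := hN.preimage _
  have h3 : IsAffineOpen (U.1.ι ''ᵁ ((U.1.ι ≫ p) ⁻¹ᵁ N)) := h2.image_of_isOpenImmersion _
  have h4 : U.1.ι ''ᵁ ((U.1.ι ≫ p) ⁻¹ᵁ N) = U.1 ⊓ p ⁻¹ᵁ N := by
    rw [Scheme.Hom.comp_preimage, Scheme.Hom.image_preimage_eq_opensRange_inf, Scheme.Opens.opensRange_ι]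
  rw [← h4]
  exact h3

theorem affInc_of_affine [S.IsSeparated] (U : Aff S) : AffInc U.1 := by
  have := affInc_preimage (𝟙 S) U.1 U.2
  simpa using this

end Pool.Agent.BE
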