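import Pool.Agent.BE.JQC

/-!
# BE: the exact functors `J W : M ↦ (U ↦ M(U ∩ W))` and `ιJ : 𝟭 ⟶ J W`
-/

open CategoryTheory CategoryTheory.Limits AlgebraicGeometry Opposite TopologicalSpace

namespace Pool.Agent.BE

variable {S : Scheme.{0}}

/-- `J_W M` : `U ↦ M(U ∩ W)` -/
noncomputable def JObj {W : S.Opens} (hW : AffInc W) (M : QCoh S) : QCoh S :=
  ⟨(JData hW M.obj).toPM, JData_isQC hW M⟩

/-- sections of `J_W M` over `U` are sections of `M` over `U ∩ W` (auxiliary version) -/
noncomputable def jeq0 {W : S.Opens} (hW : AffInc W) (M : QCoh S) (U : Aff S) :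
    sec (JObj hW M) U ≃+ sec M (cap hW U) := AddEquiv.refl _

/-- the functor `J_W` -/
noncomputable def J {W : S.Opens} (hW : AffInc W) : QCoh S ⥤ QCoh S where
  obj M := JObj hW M
  map {M N} f := mkHom (M := JObj hW M) (N := JObj hW N)
    (fun U =>
      { toFun := fun m => (jeq0 hW N U).symm (ap f (cap hW U) (jeq0 hW M U m))
        map_add' := fun a b => by simp only [map_add]
        map_smul' := fun a m => map_smul (ap f (cap hW U)) (rst (cap_le hW U) a) (jeq0 hW M U m) })
    (fun {V U} h m => res_ap f (cap_mono hW h) (jeq0 hW M U m))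
  map_id M := rfl
  map_comp f g := rfl

/-- sections of `J_W M` over `U` are sections of `M` over `U ∩ W` (identity map) -/
noncomputable def jeq {W : S.Opens} (hW : AffInc W) (M : QCoh S) (U : Aff S) :
    sec ((J hW).obj M) U ≃+ sec M (cap hW U) := AddEquiv.refl _

lemma jeq_smul {W : S.Opens} (hW : AffInc W) (M : QCoh S) (U : Aff S) (a : Γ(S, U.1))
    (m : sec ((J hW).obj M) U) : jeq hW M U (a • m) = rst (cap_le hW U) a • jeq hW M U m := rfl

lemma jeq_symm_smul {W : S.Opens} (hW : AffInc W) (M : QCoh S) (U : Aff S) (a : Γ(S, U.1))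
    (m : sec M (cap hW U)) :
    (jeq hW M U).symm (rst (cap_le hW U) a • m) = a • (jeq hW M U).symm m := rfl

lemma jeq_res {W : S.Opens} (hW : AffInc W) (M : QCoh S) {V U : Aff S} (h : V ≤ U)
    (m : sec ((J hW).obj M) U) :
    jeq hW M V (res ((J hW).obj M) h m) = res M (cap_mono hW h) (jeq hW M U m) := rfl

lemma ap_J {W : S.Opens} (hW : AffInc W) {M N : QCoh S} (f : M ⟶ N) (U : Aff S)
    (m : sec ((J hW).obj M) U) :
    jeq hW N U (ap ((J hW).map f) U m) = ap f (cap hW U) (jeq hW M U m) := rfl

/-- the natural map `M ⟶ J_W M` -/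
noncomputable def ιJ {W : S.Opens} (hW : AffInc W) : 𝟭 (QCoh S) ⟶ J hW where
  app M := mkHom (M := M) (N := (J hW).obj M)
    (fun U =>
      { toFun := fun m => (jeq hW M U).symm (res M (cap_le hW U) m)
        map_add' := fun a b => by simp only [map_add]
        map_smul' := fun a m => M.obj.res_smul (cap_le hW U) a m })
    (fun {V U} h m => by
      change M.obj.res (cap_mono hW h) (M.obj.res (cap_le hW U) m) =
        M.obj.res (cap_le hW V) (M.obj.res h m)
      rw [PM.res_res, PM.res_res])
  naturality M N f := by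
    apply qhom_ext
    intro U m
    apply (jeq hW N U).injective
    exact res_ap f (cap_le hW U) m

lemma ap_ιJ {W : S.Opens} (hW : AffInc W) (M : QCoh S) (U : Aff S) (m : sec M U) :
    jeq hW M U (ap ((ιJ hW).app M) U m) = res M (cap_le hW U) m := rfl

end Pool.Agent.BE
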