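import Pool.Agent.BE.SuppA

/-!
# BE-CohB: coherent modules and exact sequences (pointwise, `Γ(S, U)` is noetherian)
-/

open CategoryTheory CategoryTheory.Limits AlgebraicGeometry Opposite TopologicalSpace

namespace Pool.Agent.BE

variable {S : Scheme.{0}}

theorem coh_of_mono [IsLocallyNoetherian S] {M N : QCoh S} (f : M ⟶ N) [Mono f] (h : Coh N) :
    Coh M := by
  intro U
  have h1 : Function.Injective (ap f U) := (mono_iff f).1 inferInstance U
  have h2 : IsNoetherianRing Γ(S, U.1) := IsLocallyNoetherian.component_noetherian U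
  have h3 : Module.Finite Γ(S, U.1) (sec N U) := h U
  have h4 : IsNoetherian Γ(S, U.1) (sec N U) := isNoetherian_of_isNoetherianRing_of_finite _ _
  exact Module.Finite.of_injective (ap f U) h1

theorem coh_of_epi {M N : QCoh S} (f : M ⟶ N) [Epi f] (h : Coh M) : Coh N := by
  intro U
  have h1 : Function.Surjective (ap f U) := (epi_iff f).1 inferInstance U
  have h3 : Module.Finite Γ(S, U.1) (sec M U) := h U
  exact Module.Finite.of_surjective (ap f U) h1

theorem coh_of_exact [IsLocallyNoetherian S] (T : ShortComplex (QCoh S)) (h : T.Exact)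
    (h1 : Coh T.X₁) (h3 : Coh T.X₃) : Coh T.X₂ := by
  intro U
  have hex := (exact_iff T).1 h U
  have h2 : IsNoetherianRing Γ(S, U.1) := IsLocallyNoetherian.component_noetherian U
  have h4 : Module.Finite Γ(S, U.1) (sec T.X₃ U) := h3 U
  have h5 : IsNoetherian Γ(S, U.1) (sec T.X₃ U) := isNoetherian_of_isNoetherianRing_of_finite _ _
  have h6 : Module.Finite Γ(S, U.1) (sec T.X₁ U) := h1 U
  refine ⟨Submodule.fg_of_fg_map_of_fg_inf_ker (ap T.g U) (IsNoetherian.noetherian _) ?_⟩
  rw [top_inf_eq, hex.linearMap_ker_eq, LinearMap.range_eq_map]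
  exact h6.fg_top.map _

theorem supp_of_exact (T : ShortComplex (QCoh S)) (h : T.Exact) :
    Supp T.X₂ ⊆ Supp T.X₁ ∪ Supp T.X₃ := by
  intro s hs
  by_contra hcon
  rw [Set.mem_union, not_or] at hcon
  obtain ⟨hc1, hc3⟩ := hcon
  have k1 : ∃ U : Aff S, s ∈ U.1 ∧ Subsingleton (sec T.X₁ U) := by
    by_contra hh
    push Not at hh
    exact hc1 fun U hU => hh U hU
  have k3 : ∃ U : Aff S, s ∈ U.1 ∧ Subsingleton (sec T.X₃ U) := by
    by_contra hh
    push Not at hh
    exact hc3 fun U hU => hh U hU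
  obtain ⟨U1, hU1, e1⟩ := k1
  obtain ⟨U3, hU3, e3⟩ := k3
  obtain ⟨D, hD1, hD3, -, -, hsD, -, -⟩ := exists_basic U1 U3 s hU1 hU3
  have z1 : Subsingleton (sec T.X₁ D) :=
    subsingleton_of_local _ D fun t ht => ⟨U1, hD1 ht, e1⟩
  have z3 : Subsingleton (sec T.X₃ D) :=
    subsingleton_of_local _ D fun t ht => ⟨U3, hD3 ht, e3⟩
  have hex := (exact_iff T).1 h D
  have hn := hs D hsD
  obtain ⟨a, b, hab⟩ := hn
  have key : ∀ y : sec T.X₂ D, y = 0 := by
    intro y
    obtain ⟨x, rfl⟩ := (hex y).1 (Subsingleton.elim _ _)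
    rw [Subsingleton.elim x 0, map_zero]
  exact hab (by rw [key a, key b])

end Pool.Agent.BE
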