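import Pool.Agent.BE.QCAb

/-!
# BE-Pt: exactness in `QCoh S` is pointwise

`(qcProp S).ι : QCoh S ⥤ PM S` preserves and reflects kernels and cokernels (it preserves kernels and
cokernels by Mathlib's `ObjectProperty.preservesKernels_ι` ..., so it is exact, and it is fully
faithful), and `PresheafOfModules.evaluation` is exact and jointly reflects. See also
`PresheafOfModules.mono_iff_surjective`, `epi_iff_surjective`.
-/

open CategoryTheory CategoryTheory.Limits AlgebraicGeometry Opposite TopologicalSpace

namespace Pool.Agent.BE

variable {S : Scheme.{0}}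

theorem mono_iff {M N : QCoh S} (f : M ⟶ N) :
    Mono f ↔ ∀ U, Function.Injective (ap f U) := by
  constructor
  · intro hf U
    have := (qcProp S).preservesMonomorphisms_ι_of_isNormalEpiCategory
    have h : Mono ((qcProp S).ι.map f) := inferInstance
    have h' : Mono f.hom := h
    exact PresheafOfModules.injective_of_mono f.hom (op U)
  · intro h
    have h1 : Mono f.hom := PresheafOfModules.mono_of_injective fun X => h X.unop
    have h2 : Mono ((qcProp S).ι.map f) := h1
    exact (qcProp S).ι.mono_of_mono_map h2

theorem epi_iff {M N : QCoh S} (f : M ⟶ N) :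
    Epi f ↔ ∀ U, Function.Surjective (ap f U) := by
  constructor
  · intro hf U
    have := (qcProp S).preservesEpimorphisms_ι_of_isNormalMonoCategory
    have h : Epi ((qcProp S).ι.map f) := inferInstance
    have h' : Epi f.hom := h
    exact PresheafOfModules.surjective_of_epi f.hom (op U)
  · intro h
    have h1 : Epi f.hom := PresheafOfModules.epi_of_surjective fun X => h X.unop
    have h2 : Epi ((qcProp S).ι.map f) := h1
    exact (qcProp S).ι.epi_of_epi_map h2

theorem iso_iff {M N : QCoh S} (f : M ⟶ N) :
    IsIso f ↔ ∀ U, Function.Bijective (ap f U) := by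
  rw [isIso_iff_mono_and_epi, mono_iff, epi_iff]
  exact forall_and.symm

theorem isZero_iff (M : QCoh S) : IsZero M ↔ ∀ U, Subsingleton (sec M U) := by
  rw [IsZero.iff_id_eq_zero]
  constructor
  · intro h U
    refine ⟨fun a b => ?_⟩
    have h1 : ∀ m : sec M U, m = 0 := by
      intro m
      have h2 : ap (𝟙 M) U m = m := rfl
      rw [← h2, h]
      rfl
    rw [h1 a, h1 b]
  · intro h
    apply qhom_ext
    intro U m
    exact (h U).elim _ _

private instance : (qcProp S).ι.PreservesHomology where
  preservesKernels {_ _} f := (qcProp S).preservesKernels_ι f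
  preservesCokernels {_ _} f := (qcProp S).preservesCokernels_ι f

private theorem pm_isZero_iff (M : PM S) : IsZero M ↔ ∀ U : Aff S, Subsingleton (M.sec U) := by
  rw [IsZero.iff_id_eq_zero]
  constructor
  · intro h U
    refine ⟨fun a b => ?_⟩
    have h1 : ∀ m : M.sec U, m = 0 := by
      intro m
      have h2 : PM.ap (𝟙 M) U m = m := rfl
      rw [← h2, h]
      rfl
    rw [h1 a, h1 b]
  · intro h
    apply PM.hom_ext
    intro U m
    exact (h U).elim _ _

private theorem pm_exact_iff (T : ShortComplex (PM S)) :
    T.Exact ↔ ∀ U : Aff S, Function.Exact (PM.ap T.f U) (PM.ap T.g U) := by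
  rw [ShortComplex.exact_iff_isZero_homology, pm_isZero_iff]
  refine forall_congr' fun U => ?_
  have h1 : Subsingleton (T.homology.sec U) ↔
      IsZero ((PresheafOfModules.evaluation (RAff S) (op U)).obj T.homology) :=
    ModuleCat.isZero_iff_subsingleton.symm
  rw [h1]
  have h2 : IsZero ((PresheafOfModules.evaluation (RAff S) (op U)).obj T.homology) ↔
      IsZero (T.map (PresheafOfModules.evaluation (RAff S) (op U))).homology :=
    (T.mapHomologyIso (PresheafOfModules.evaluation (RAff S) (op U))).symm.isZero_iff
  rw [h2, ← ShortComplex.exact_iff_isZero_homology,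
    ShortComplex.ShortExact.moduleCat_exact_iff_function_exact]
  rfl

theorem exact_iff (T : ShortComplex (QCoh S)) :
    T.Exact ↔ ∀ U, Function.Exact (ap T.f U) (ap T.g U) := by
  rw [← ShortComplex.exact_map_iff_of_faithful T (qcProp S).ι, pm_exact_iff]
  rfl

theorem shortExact_iff (T : ShortComplex (QCoh S)) :
    T.ShortExact ↔ (∀ U, Function.Injective (ap T.f U)) ∧
      (∀ U, Function.Exact (ap T.f U) (ap T.g U)) ∧ (∀ U, Function.Surjective (ap T.g U)) := by
  rw [← mono_iff, ← exact_iff, ← epi_iff]
  constructor
  · intro h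
    exact ⟨h.mono_f, h.exact, h.epi_g⟩
  · rintro ⟨h1, h2, h3⟩
    exact { exact := h2, mono_f := h1, epi_g := h3 }

end Pool.Agent.BE
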