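import Pool.Agent.BE.Sky
import Pool.Agent.BE.Pt

/-!
# BE-SkyS: the skyscraper sheaf at a closed point is a simple object

`x` closed, `U` affine containing `x`: `{x}` is closed in `U`, so the prime of `x` is maximal and
`ev x h : Γ(S, U) → κ(x)` is surjective (Mathlib: `IsAffineOpen.primeIdealOf`, `isMaximal` of closed
points, residue field of a maximal ideal). Hence a nonzero subobject of the skyscraper is all of it.
-/

open CategoryTheory CategoryTheory.Limits AlgebraicGeometry Opposite TopologicalSpace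

namespace Pool.Agent.BE

variable {S : Scheme.{0}}

theorem ev_surjective (x : S) (hx : IsClosed ({x} : Set S)) (U : Aff S) (h : x ∈ U.1) :
    Function.Surjective (ev x h) := by
  obtain ⟨U, hU⟩ := U
  change x ∈ U at h
  have hmax := hU.primeIdealOf_isMaximal_of_isClosed ⟨x, h⟩ hx
  let : Algebra Γ(S, U) (S.presheaf.stalk x) := S.presheaf.algebra_section_stalk ⟨x, h⟩
  have hloc : IsLocalization.AtPrime (S.presheaf.stalk x) (hU.primeIdealOf ⟨x, h⟩).asIdeal :=
    hU.isLocalization_stalk ⟨x, h⟩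
  have hev : ∀ a : Γ(S, U), ev x h a = S.residue x (algebraMap Γ(S, U) (S.presheaf.stalk x) a) :=
    fun a => rfl
  have hp0 : ∀ a : Γ(S, U), a ∈ (hU.primeIdealOf ⟨x, h⟩).asIdeal → ev x h a = 0 := by
    intro a ha
    rw [hev]
    have h1 := (IsLocalization.AtPrime.to_map_mem_maximal_iff (S.presheaf.stalk x)
      (hU.primeIdealOf ⟨x, h⟩).asIdeal a).2 ha
    exact Ideal.Quotient.eq_zero_iff_mem.2 h1
  intro c
  obtain ⟨b, rfl⟩ := S.residue_surjective x c
  obtain ⟨⟨a, s⟩, hs⟩ := IsLocalization.surj (hU.primeIdealOf ⟨x,h⟩).asIdeal.primeCompl b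
  have hs1 : (s : Γ(S, U)) ∉ (hU.primeIdealOf ⟨x, h⟩).asIdeal := s.2
  obtain ⟨t, ht⟩ := hmax.exists_inv hs1
  obtain ⟨q, hq, htq⟩ := ht
  refine ⟨a * t, ?_⟩
  have e1 : ev x h (s : Γ(S, U)) * ev x h t = 1 := by
    have h2 := congrArg (ev x h) htq
    simp only [map_add, map_mul, map_one, hp0 q hq, add_zero] at h2
    rw [mul_comm]; exact h2
  have e2 : S.residue x b * ev x h (s : Γ(S, U)) = ev x h a := by
    rw [hev, hev, ← map_mul]
    exact congrArg (S.residue x) hs
  rw [map_mul, ← e2, mul_assoc, e1, mul_one]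


lemma sky_sub (x : S) (hx : IsClosed ({x} : Set S)) (U : Aff S) (h : x ∉ U.1) :
    Subsingleton (sec (sky x hx) U) := by
  refine (skyeq x hx U).toEquiv.subsingleton_congr.2 ⟨fun a b => ?_⟩
  funext k
  exact absurd k.down h

lemma sky_nontriv (x : S) (hx : IsClosed ({x} : Set S)) (U : Aff S) (h : x ∈ U.1) :
    Nontrivial (sec (sky x hx) U) := by
  refine (skyeq x hx U).toEquiv.nontrivial_congr.2 ⟨fun _ => 0, fun _ => 1, fun e => ?_⟩
  exact zero_ne_one (congrFun e ⟨h⟩)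

lemma sky_surj_aux (x : S) (hx : IsClosed ({x} : Set S)) {Y : QCoh S} (f : Y ⟶ sky x hx)
    (hf : f ≠ 0) (V : Aff S) : Function.Surjective (ap f V) := by
  classical
  by_cases hV : x ∈ V.1
  swap
  · have := sky_sub x hx V hV
    intro s
    exact ⟨0, Subsingleton.elim _ _⟩
  obtain ⟨U, m, hU, hm⟩ : ∃ (U : Aff S) (m : sec Y U) (h : PLift (x ∈ U.1)),
      skyeq x hx U (ap f U m) h ≠ 0 := by
    by_contra hcon
    push Not at hcon
    apply hf
    apply qhom_ext
    intro U m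
    apply (skyeq x hx U).injective
    funext h
    rw [hcon U m h]
    rfl
  obtain ⟨g, hg1, hg2⟩ := V.2.exists_basicOpen_le (V := U.1) ⟨x, hU.down⟩ hV
  have hDV : bas V g ≤ V := bas_le V g
  have hDU : bas V g ≤ U := hg1
  have hxD : x ∈ (bas V g).1 := hg2
  obtain ⟨n, m', hm'⟩ := Y.property.surj V g (res Y hDU m)
  have hgx : ev x hxD (rst hDV g) ≠ 0 := by
    rw [ev_rst]
    exact (S.evaluation_ne_zero_iff_mem_basicOpen x hV g).2 hg2
  have hval : skyeq x hx V (ap f V m') ⟨hV⟩ =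
      ev x hxD (rst hDV g) ^ n * skyeq x hx U (ap f U m) hU := by
    have e1 : skyeq x hx (bas V g) (res (sky x hx) hDV (ap f V m')) ⟨hxD⟩ =
        skyeq x hx V (ap f V m') ⟨hV⟩ := skyeq_res x hx hDV _ _
    rw [← e1, res_ap]
    have e2 : res Y hDV m' = (rst hDV g) ^ n • res Y hDU m := hm'
    rw [e2, map_smul, skyeq_smul, map_pow, ← res_ap, skyeq_res]
  have hv : skyeq x hx V (ap f V m') ⟨hV⟩ ≠ 0 := by
    rw [hval]
    exact mul_ne_zero (pow_ne_zero _ hgx) hm
  intro s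
  obtain ⟨a, ha⟩ := ev_surjective x hx V hV (skyeq x hx V s ⟨hV⟩ / skyeq x hx V (ap f V m') ⟨hV⟩)
  refine ⟨a • m', ?_⟩
  rw [map_smul]
  apply (skyeq x hx V).injective
  funext h
  obtain ⟨h⟩ := h
  rw [skyeq_smul, ha, div_mul_cancel₀ _ hv]

instance sky_simple (x : S) (hx : IsClosed ({x} : Set S)) : Simple (sky x hx) where
  mono_isIso_iff_nonzero {Y} f hf := by
    constructor
    · intro hiso h0
      subst h0
      obtain ⟨U, hU, hxU⟩ : ∃ U : Aff S, x ∈ U.1 ∧ True := by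
        obtain ⟨U, hU, hxU, -⟩ := (Opens.isBasis_iff_nbhd.1 S.isBasis_affineOpens)
          (show x ∈ (⊤ : S.Opens) from trivial)
        exact ⟨⟨U, hU⟩, hxU, trivial⟩
      have := sky_nontriv x hx U hU
      obtain ⟨s, hs⟩ := exists_ne (0 : sec (sky x hx) U)
      obtain ⟨m, hm⟩ := ((iso_iff _).1 hiso U).2 s
      exact hs (hm.symm.trans (PM.ap_zero U m))
    · intro hne
      rw [iso_iff]
      intro U
      exact ⟨(mono_iff f).1 hf U, sky_surj_aux x hx f hne U⟩

lemma sky_coh (x : S) (hx : IsClosed ({x} : Set S)) : Coh (sky x hx) := by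
  intro U
  refine Module.Finite.of_surjective (LinearMap.toSpanSingleton Γ(S, U.1) (sec (sky x hx) U)
    ((skyeq x hx U).symm (fun _ => 1))) ?_
  intro s
  by_cases hU : x ∈ U.1
  swap
  · have := sky_sub x hx U hU
    exact ⟨0, Subsingleton.elim _ _⟩
  obtain ⟨a, ha⟩ := ev_surjective x hx U hU (skyeq x hx U s ⟨hU⟩)
  refine ⟨a, ?_⟩
  rw [LinearMap.toSpanSingleton_apply]
  apply (skyeq x hx U).injective
  funext h
  obtain ⟨h⟩ := h
  rw [skyeq_smul, ha, AddEquiv.apply_symm_apply, mul_one]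

theorem supp_sky (x : S) (hx : IsClosed ({x} : Set S)) : Supp (sky x hx) = {x} := by
  ext s
  constructor
  · intro hs
    by_contra hne
    have hsx : s ∈ (⟨({x} : Set S)ᶜ, hx.isOpen_compl⟩ : S.Opens) := hne
    obtain ⟨U, hU, hsU, hUx⟩ := (Opens.isBasis_iff_nbhd.1 S.isBasis_affineOpens) hsx
    have h1 := hs ⟨U, hU⟩ hsU
    have h2 : Subsingleton (sec (sky x hx) ⟨U, hU⟩) :=
      sky_sub x hx ⟨U, hU⟩ (fun hxU => (hUx hxU : x ∈ ({x} : Set S)ᶜ) rfl)
    exact not_subsingleton_iff_nontrivial.2 h1 h2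
  · intro hs
    have hs' : s = x := hs
    subst hs'
    intro U hU
    exact sky_nontriv _ hx U hU

end Pool.Agent.BE
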