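import Pool.Agent.BE.Loc

/-!
# BE-SuppA: supports

`res_bijective`: injective by `eq_zero_of_local` (near points outside `V` the module vanishes);
surjective: the cokernel of `M → N`, `N(U') = M(U' ∩ V)` would vanish locally; elementwise: given `x`
over `V`, cover `U` by finitely many basic opens `D(f_i)` with `D(f_i) ≤ V` basic in `V` or `M(D(f_i)) = 0`,
lift `f_i^n x`, glue with a partition of unity. (Alternatively use `iso_iff` locally for the
quasi-coherent module `J_V M`, `V` affine: `AffInc V` holds if `S` is separated, but here `S` is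
arbitrary, so argue inside `U`.)
-/

open CategoryTheory CategoryTheory.Limits AlgebraicGeometry Opposite TopologicalSpace

namespace Pool.Agent.BE

variable {S : Scheme.{0}}

/-! ### supports -/

private theorem exists_of_notMem (M : QCoh S) {s : S} (hs : s ∉ Supp M) :
    ∃ V : Aff S, s ∈ V.1 ∧ Subsingleton (sec M V) := by
  simp only [Supp, Set.mem_ofPred_eq, not_forall] at hs
  obtain ⟨U, hU, hn⟩ := hs
  exact ⟨U, hU, not_nontrivial_iff_subsingleton.1 hn⟩

private theorem subsingleton_of_le (M : QCoh S) {D V : Aff S} (h : D ≤ V)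
    (hV : Subsingleton (sec M V)) : Subsingleton (sec M D) :=
  subsingleton_of_local M D fun _ hs => ⟨V, h hs, hV⟩

theorem supp_closed (M : QCoh S) : IsClosed (Supp M) := by
  rw [← isOpen_compl_iff, isOpen_iff_forall_mem_open]
  intro s hs
  obtain ⟨U, hU, hn⟩ := exists_of_notMem M hs
  refine ⟨U.1, fun t ht hts => ?_, U.1.isOpen, hU⟩
  exact not_nontrivial_iff_subsingleton.2 hn (hts U ht)

theorem isZero_iff_supp (M : QCoh S) : IsZero M ↔ Supp M = ∅ := by
  rw [isZero_iff]
  constructor
  · intro h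
    ext s
    simp only [Set.mem_empty_iff_false, iff_false]
    intro hs
    obtain ⟨W, hW, hsW, -⟩ := exists_isAffineOpen_mem_and_subset (X := S) (x := s) (U := ⊤) trivial
    exact not_nontrivial_iff_subsingleton.2 (h ⟨W, hW⟩) (hs ⟨W, hW⟩ hsW)
  · intro h U
    refine subsingleton_of_local M U fun s _ => ?_
    exact exists_of_notMem M (by rw [h]; exact Set.notMem_empty s)

theorem subsingleton_of_disjoint (M : QCoh S) (U : Aff S) (h : ∀ s ∈ U.1, s ∉ Supp M) :
    Subsingleton (sec M U) :=
  subsingleton_of_local M U fun s hs => exists_of_notMem M (h s hs)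

/-- the ideal of the functions `a` for which `a x` extends -/
private noncomputable def extIdeal (M : QCoh S) {V U : Aff S} (h : V ≤ U) (x : sec M V) :
    Ideal Γ(S, U.1) where
  carrier := {a | ∃ m : sec M U, res M h m = rst h a • x}
  add_mem' := by
    rintro a b ⟨m, hm⟩ ⟨m', hm'⟩
    exact ⟨m + m', by rw [map_add, hm, hm', map_add, add_smul]⟩
  zero_mem' := ⟨0, by rw [map_zero, map_zero, zero_smul]⟩
  smul_mem' := by
    rintro c a ⟨m, hm⟩
    exact ⟨c • m, by rw [M.obj.res_smul h c m]; change rst h c • res M h m = _; rw [hm, smul_smul, smul_eq_mul, map_mul]⟩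

private theorem mem_extIdeal (M : QCoh S) {V U : Aff S} (h : V ≤ U) (x : sec M V) (a : Γ(S, U.1)) :
    a ∈ extIdeal M h x ↔ ∃ m : sec M U, res M h m = rst h a • x := Iff.rfl

private theorem basicOpen_rst {V U : Aff S} (h : V ≤ U) (f : Γ(S, U.1)) :
    S.basicOpen (rst (show V.1 ≤ U.1 from h) f) = V.1 ⊓ S.basicOpen f :=
  S.basicOpen_res f _

/-- restricting to a smaller affine open whose complement in `U` does not meet the support -/
theorem res_bijective (M : QCoh S) {V U : Aff S} (h : V ≤ U)
    (hs : ∀ s ∈ U.1, s ∈ Supp M → s ∈ V.1) : Function.Bijective (res M h) := by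
  constructor
  · rw [injective_iff_map_eq_zero]
    intro m hm
    refine eq_zero_of_local M U m fun s hsU => ?_
    by_cases hsV : s ∈ V.1
    · exact ⟨V, h, hsV, hm⟩
    · obtain ⟨V', hsV', hV'⟩ := exists_of_notMem M (fun h' => hsV (hs s hsU h'))
      obtain ⟨D, hDU, hDV, f, g, hsD, -, -⟩ := exists_basic U V' s hsU hsV'
      have := subsingleton_of_le M hDV hV'
      exact ⟨D, hDU, hsD, Subsingleton.elim _ _⟩
  · intro x
    have key : ∀ s ∈ U.1, ∃ f : Γ(S, U.1), s ∈ S.basicOpen f ∧ ∃ n : ℕ, f ^ n ∈ extIdeal M h x := by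
      intro s hsU
      by_cases hsV : s ∈ V.1
      · obtain ⟨D, hDU, hDV, f, g, hsD, hf, -⟩ := exists_basic U V s hsU hsV
        refine ⟨f, hf ▸ hsD, ?_⟩
        obtain ⟨n, m, hm⟩ := res_surj M hDU f hf (res M hDV x)
        have hf' : D.1 = S.basicOpen (rst (show V.1 ≤ U.1 from h) f) := by
          rw [basicOpen_rst h f, ← hf]
          exact (inf_eq_right.2 hDV).symm
        have hy : res M hDV (res M h m - (rst h f) ^ n • x) = 0 := by
          have e1 : M.obj.res hDV (M.obj.res h m) = M.obj.res hDU m := M.obj.res_res h hDV m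
          have e2 : M.obj.res hDV ((rst h f) ^ n • x) = (rst hDU f) ^ n • M.obj.res hDV x := by
            rw [M.obj.res_smul hDV ((rst h f) ^ n) x, map_pow, rst_rst]
          rw [map_sub, e1, e2, sub_eq_zero]
          exact hm
        obtain ⟨k, hk⟩ := res_inj M hDV (rst h f) hf' _ hy
        rw [smul_sub, sub_eq_zero, smul_smul, ← pow_add] at hk
        refine ⟨k + n, (mem_extIdeal M h x _).2 ⟨f ^ k • m, ?_⟩⟩
        rw [map_pow, ← hk]
        have e3 := M.obj.res_smul h (f ^ k) m
        rw [map_pow] at e3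
        exact e3
      · obtain ⟨V', hsV', hV'⟩ := exists_of_notMem M (fun h' => hsV (hs s hsU h'))
        obtain ⟨D, hDU, hDV, f, g, hsD, hf, -⟩ := exists_basic U V' s hsU hsV'
        refine ⟨f, hf ▸ hsD, ?_⟩
        have hle : bas V (rst h f) ≤ V' := by
          change S.basicOpen (rst (show V.1 ≤ U.1 from h) f) ≤ V'.1
          rw [basicOpen_rst h f, ← hf]
          exact inf_le_right.trans hDV
        have := subsingleton_of_le M hle hV'
        obtain ⟨n, hn⟩ := res_inj M (bas_le V (rst h f)) (rst h f) rfl x (Subsingleton.elim _ _)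
        refine ⟨n, (mem_extIdeal M h x _).2 ⟨0, ?_⟩⟩
        rw [map_zero, map_pow, hn]
    have htop : Ideal.span (extIdeal M h x : Set Γ(S, U.1)) = ⊤ := by
      rw [← U.2.self_le_iSup_basicOpen_iff]
      intro s hsU
      obtain ⟨f, hsf, n, hn⟩ := key s hsU
      refine Opens.mem_iSup.2 ⟨⟨f ^ (n + 1), ?_⟩, ?_⟩
      · rw [pow_succ]
        exact Ideal.mul_mem_right _ _ hn
      · rw [S.basicOpen_pow f (Nat.succ_pos n)]
        exact hsf
    rw [Ideal.span_eq] at htop
    have h1 : (1 : Γ(S, U.1)) ∈ extIdeal M h x := by rw [htop]; exact Submodule.mem_top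
    obtain ⟨m, hm⟩ := (mem_extIdeal M h x _).1 h1
    refine ⟨m, ?_⟩
    rw [hm, map_one, one_smul]

end Pool.Agent.BE
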