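import Pool.Agent.BE.MainDefs
import Pool.Agent.BE.CohB
import Pool.Agent.BE.SkyS
import Pool.Agent.BE.SuppA

/-!
# BE-DbcT: `Dbc S` is a triangulated subcategory

`dbc_tri`: fields of `ObjectProperty.IsTriangulated` (shift: `Hn_shift`; third object of a triangle: long exact
sequence `DerivedCategory.HomologySequence.exact₁/₂/₃`, `coh_of_exact`; if `X₁, X₂` are in `Dbc` then `H^n(X₃)` sits in
`H^n X₂ → H^n X₃ → H^{n+1} X₁`). `coh_of_iso`, `supp_of_iso`: `coh_of_epi` etc.
-/

open CategoryTheory CategoryTheory.Limits CategoryTheory.Pretriangulated AlgebraicGeometry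
  Opposite TopologicalSpace DerivedCategory

namespace Pool.Agent.BE

universe w

variable {S : Scheme.{0}}

theorem coh_of_iso {M N : QCoh S} (e : M ≅ N) (h : Coh M) : Coh N := coh_of_epi e.hom h

private theorem nontriv_of_iso {M N : QCoh S} (e : M ≅ N) (U : Aff S) (h : Nontrivial (sec M U)) :
    Nontrivial (sec N U) := by
  have hinj : Function.Injective (ap e.hom U) := by
    intro a b hab
    have h1 := congrArg (ap e.inv U) hab
    have h2 : ∀ m : sec M U, ap e.inv U (ap e.hom U m) = m := by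
      intro m
      change ap (e.hom ≫ e.inv) U m = m
      rw [e.hom_inv_id]
      rfl
    rwa [h2, h2] at h1
  exact hinj.nontrivial

theorem supp_of_iso {M N : QCoh S} (e : M ≅ N) : Supp M = Supp N := by
  ext s
  exact ⟨fun h U hU => nontriv_of_iso e U (h U hU), fun h U hU => nontriv_of_iso e.symm U (h U hU)⟩

private theorem coh_of_isZero {M : QCoh S} (h : IsZero M) : Coh M := by
  intro U
  have h1 : Supp M = ∅ := (isZero_iff_supp M).1 h
  have : Subsingleton (sec M U) := subsingleton_of_disjoint M U (fun s _ => by rw [h1]; exact id)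
  refine ⟨⟨∅, ?_⟩⟩
  exact Subsingleton.elim _ _

section

variable [HasDerivedCategory.{w} (QCoh S)]

private theorem hn_iso {X Y : DerivedCategory (QCoh S)} (e : X ≅ Y) (n : ℤ) :
    Nonempty (Hn n X ≅ Hn n Y) := ⟨(homologyFunctor (QCoh S) n).mapIso e⟩

instance dbc_iso : (Dbc S).IsClosedUnderIsomorphisms where
  of_iso {X Y} e hX := by
    obtain ⟨h1, a, b, h2⟩ := hX
    refine ⟨fun n => ?_, a, b, fun n hn => ?_⟩
    · obtain ⟨f⟩ := hn_iso e n
      exact coh_of_iso f (h1 n)
    · obtain ⟨f⟩ := hn_iso e n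
      exact (h2 n hn).of_iso f.symm

private theorem hn_zero {X : DerivedCategory (QCoh S)} (h : IsZero X) (n : ℤ) : IsZero (Hn n X) :=
  Functor.map_isZero (homologyFunctor (QCoh S) n) h

instance dbc_tri [IsLocallyNoetherian S] : (Dbc S).IsTriangulated where
  exists_zero := by
    obtain ⟨Z, hZ⟩ := HasZeroObject.zero (C := DerivedCategory (QCoh S))
    exact ⟨Z, hZ, fun n => coh_of_isZero (hn_zero hZ n), 0, 0, fun n _ => hn_zero hZ n⟩
  isStableUnderShiftBy i := ⟨fun X hX => by
    obtain ⟨h1, a, b, h2⟩ := hX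
    change Dbc S (X⟦i⟧)
    refine ⟨fun n => ?_, a - i, b - i, fun n hn => ?_⟩
    · obtain ⟨f⟩ := Hn_shift X n i
      exact coh_of_iso f.symm (h1 _)
    · obtain ⟨f⟩ := Hn_shift X n i
      exact (h2 (n + i) (by omega)).of_iso f⟩
  toIsTriangulatedClosed₂ := ObjectProperty.IsTriangulatedClosed₂.mk' (fun T hT hX hZ => by
    obtain ⟨h1, a, b, h2⟩ := hX
    obtain ⟨h3, c, d, h4⟩ := hZ
    refine ⟨fun n => ?_, min a c, max b d, fun n hn => ?_⟩
    · exact coh_of_exact _ (HomologySequence.exact₂ T hT n) (h1 n) (h3 n)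
    · refine (HomologySequence.exact₂ T hT n).isZero_of_both_zeros ?_ ?_
      · exact (h2 n (by omega)).eq_of_src _ _
      · exact (h4 n (by omega)).eq_of_tgt _ _)

theorem dbc_Ox (x : S) (hx : IsClosed ({x} : Set S)) : Dbc S (Ox x hx) := by
  refine ⟨fun n => ?_, 0, 0, fun n hn => ?_⟩
  · by_cases h : n = 0
    · subst h
      obtain ⟨f⟩ := Hn_single (sky x hx)
      exact coh_of_iso f.symm (sky_coh x hx)
    · exact coh_of_isZero (Hn_single_ne _ n h)
  · exact Hn_single_ne _ n (by omega)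

/-- `O_x` is nonzero and its nonzero endomorphisms are isomorphisms -/
theorem Ox_ne (x : S) (hx : IsClosed ({x} : Set S)) : ¬ IsZero (Ox x hx) := by
  intro h
  obtain ⟨f⟩ := Hn_single (sky x hx)
  have h1 : IsZero (sky x hx) := (hn_zero h 0).of_iso f.symm
  have h2 := (isZero_iff_supp _).1 h1
  rw [supp_sky] at h2
  exact Set.singleton_ne_empty x h2

theorem Ox_end (x : S) (hx : IsClosed ({x} : Set S)) (u : Ox x hx ⟶ Ox x hx) (hu : u ≠ 0) :
    IsIso u := by
  obtain ⟨f, rfl⟩ := (singleFunctor (QCoh S) 0).map_surjective u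
  have hf : f ≠ 0 := by
    rintro rfl
    exact hu ((singleFunctor (QCoh S) 0).map_zero _ _)
  have h1 : IsIso f := isIso_of_hom_simple hf
  exact Functor.map_isIso (singleFunctor (QCoh S) 0) f

/-- supports and shifts -/
theorem supp_shift (X : DerivedCategory (QCoh S)) (n i : ℤ) :
    Supp (Hn n (X⟦i⟧)) = Supp (Hn (n + i) X) := by
  obtain ⟨f⟩ := Hn_shift X n i
  exact supp_of_iso f

/-- supports in a triangle -/
theorem supp_tri {X Y Z : DerivedCategory (QCoh S)} (f : X ⟶ Y) (g : Y ⟶ Z) (h : Z ⟶ X⟦(1 : ℤ)⟧)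
    (hT : Triangle.mk f g h ∈ distTriang (DerivedCategory (QCoh S))) (n : ℤ) :
    Supp (Hn n Y) ⊆ Supp (Hn n X) ∪ Supp (Hn n Z) :=
  supp_of_exact _ (HomologySequence.exact₂ _ hT n)

end

end Pool.Agent.BE
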