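import Mathlib

/-!
# BE-DerH: cohomology of objects of the derived category: basic facts

`homology_der`: `Functor.mapDerivedCategoryFactors`, `homologyFunctorFactors`, and exact functors commute with
the homology of complexes (Mathlib: `Functor.mapHomologicalComplex`, `HomologicalComplex.homologyFunctor`,
`Functor.PreservesHomology`, look for `mapHomologyIso`/`homologyMapIso`), lift along the localisation `Q`
(`Localization.liftNatIso`). `isZero_of_Hn`: `DerivedCategory.isIso_iff` for `0 → X`. `Hn_shift`:
`ShiftSequence` (`homologyFunctor` is a shift sequence, `shift_homologyFunctor`). `Hn_single`: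
`singleFunctorCompHomologyFunctorIso`; `Hn_single_ne`: `isGE_iff`, `isLE_iff`.
-/

open CategoryTheory CategoryTheory.Limits CategoryTheory.Pretriangulated DerivedCategory

namespace Pool.Agent.BE

universe w v u

variable {A : Type u} [Category.{v} A] [Abelian A] [HasDerivedCategory.{w} A]

/-- cohomology objects -/
noncomputable abbrev Hn (n : ℤ) (X : DerivedCategory A) : A := (homologyFunctor A n).obj X

/-- on complexes -/
private noncomputable def hcIso (F : A ⥤ A) [F.Additive] [PreservesFiniteLimits F]
    [PreservesFiniteColimits F] (n : ℤ) :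
    F.mapHomologicalComplex (ComplexShape.up ℤ) ⋙ HomologicalComplex.homologyFunctor A (ComplexShape.up ℤ) n ≅
      HomologicalComplex.homologyFunctor A (ComplexShape.up ℤ) n ⋙ F :=
  Functor.isoWhiskerLeft (HomologicalComplex.shortComplexFunctor A (ComplexShape.up ℤ) n)
    (ShortComplex.homologyFunctorIso F)

/-- an exact functor commutes with cohomology -/
theorem homology_der (F : A ⥤ A) [F.Additive] [PreservesFiniteLimits F]
    [PreservesFiniteColimits F] (n : ℤ) :
    Nonempty (F.mapDerivedCategory ⋙ homologyFunctor A n ≅ homologyFunctor A n ⋙ F) := by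
  let G₁ : CochainComplex A ℤ ⥤ A := F.mapHomologicalComplex (ComplexShape.up ℤ) ⋙
    HomologicalComplex.homologyFunctor A (ComplexShape.up ℤ) n
  let G₂ : CochainComplex A ℤ ⥤ A := HomologicalComplex.homologyFunctor A (ComplexShape.up ℤ) n ⋙ F
  let l₁ : Localization.Lifting (Q (C := A)) (HomologicalComplex.quasiIso A (ComplexShape.up ℤ)) G₁
      (F.mapDerivedCategory ⋙ homologyFunctor A n) :=
    ⟨Functor.isoWhiskerRight F.mapDerivedCategoryFactors (homologyFunctor A n) ≪≫
      Functor.isoWhiskerLeft (F.mapHomologicalComplex (ComplexShape.up ℤ)) (homologyFunctorFactors A n)⟩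
  let l₂ : Localization.Lifting (Q (C := A)) (HomologicalComplex.quasiIso A (ComplexShape.up ℤ)) G₂
      (homologyFunctor A n ⋙ F) :=
    ⟨Functor.isoWhiskerRight (homologyFunctorFactors A n) F⟩
  exact ⟨Localization.liftNatIso (Q (C := A)) (HomologicalComplex.quasiIso A (ComplexShape.up ℤ)) G₁ G₂ _ _
    (hcIso F n)⟩

/-- an object with zero cohomology is zero -/
theorem isZero_of_Hn (X : DerivedCategory A) (h : ∀ n, IsZero (Hn n X)) : IsZero X := by
  obtain ⟨Z, hZ⟩ : ∃ Z : DerivedCategory A, IsZero Z := HasZeroObject.zero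
  have h1 : IsIso (0 : X ⟶ Z) := by
    rw [DerivedCategory.isIso_iff]
    intro n
    have h2 : IsZero ((homologyFunctor A n).obj Z) := (homologyFunctor A n).map_isZero hZ
    exact ⟨0, (h n).eq_of_src _ _, h2.eq_of_src _ _⟩
  exact hZ.of_iso (@asIso _ _ _ _ (0 : X ⟶ Z) h1)

theorem Hn_shift (X : DerivedCategory A) (n i : ℤ) :
    Nonempty (Hn n (X⟦i⟧) ≅ Hn (n + i) X) :=
  ⟨((homologyFunctor A 0).shiftIso i n (n + i) (add_comm i n)).app X⟩

theorem Hn_single (M : A) : Nonempty (Hn 0 ((singleFunctor A 0).obj M) ≅ M) :=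
  ⟨(singleFunctorCompHomologyFunctorIso A 0).app M⟩

theorem Hn_single_ne (M : A) (n : ℤ) (hn : n ≠ 0) : IsZero (Hn n ((singleFunctor A 0).obj M)) := by
  rcases lt_or_gt_of_ne hn with h | h
  · exact isZero_of_isGE _ 0 n h
  · exact isZero_of_isLE _ 0 n h

end Pool.Agent.BE
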