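import Pool.Agent.BE.Sky
import Pool.Agent.BE.DerH

/-!
# BE: the bounded coherent derived category, skyscrapers, fibre data, base data
-/

open CategoryTheory CategoryTheory.Limits CategoryTheory.Pretriangulated AlgebraicGeometry
  Opposite TopologicalSpace DerivedCategory

namespace Pool.Agent.BE

universe w

variable {S : Scheme.{0}}

section

variable [HasDerivedCategory.{w} (QCoh S)]

/-- bounded complexes of quasi-coherent modules with coherent cohomology -/
def Dbc (S : Scheme.{0}) [HasDerivedCategory.{w} (QCoh S)] :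
    ObjectProperty (DerivedCategory (QCoh S)) :=
  fun X => (∀ n, Coh (Hn n X)) ∧ ∃ a b : ℤ, ∀ n, (n < a ∨ b < n) → IsZero (Hn n X)

/-- the skyscraper sheaf `O_x` as an object of the derived category -/
noncomputable def Ox (x : S) (hx : IsClosed ({x} : Set S)) : DerivedCategory (QCoh S) :=
  (singleFunctor (QCoh S) 0).obj (sky x hx)

end

/-- A good fibre of `p : S ⟶ C` over the point `c`: the fibre is covered by two affine opens
`W0, W1` of `S` (over an affine neighbourhood `N0` of `c`), it is irreducible with generic point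
`z` and all its other points are closed, the reduced fibre is normal on `W0, W1`, and
its first cohomology is nonzero. -/
structure FibreData {C : Scheme.{0}} (p : S ⟶ C) (c : C) where
  /-- affine neighbourhood of `c` -/
  N0 : C.Opens
  hN0 : IsAffineOpen N0
  hc : c ∈ N0
  /-- first affine open -/
  W0 : Aff S
  /-- second affine open -/
  W1 : Aff S
  le0 : W0.1 ≤ p ⁻¹ᵁ N0
  le1 : W1.1 ≤ p ⁻¹ᵁ N0
  /-- generic point of the fibre -/
  z : S
  hz : p.base z = c
  z0 : z ∈ W0.1
  z1 : z ∈ W1.1
  gen : ∀ s : S, p.base s = c → z ⤳ s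
  cover : ∀ s : S, p.base s = c → s ∈ W0.1 ∨ s ∈ W1.1
  closed : ∀ s : S, p.base s = c → s ≠ z → IsClosed ({s} : Set S)
  n0 : ∀ a : S.residueField z, IsIntegral (ev z z0).range a → a ∈ (ev z z0).range
  n1 : ∀ a : S.residueField z, IsIntegral (ev z z1).range a → a ∈ (ev z z1).range
  /-- a function whose restriction to the fibre is not a coboundary -/
  g : Γ(S, W0.1 ⊓ W1.1)
  hg : ∀ (a0 : Γ(S, W0.1)) (a1 : Γ(S, W1.1)),
      ev (U := W0.1 ⊓ W1.1) z ⟨z0, z1⟩ g ≠ ev z z0 a0 + ev z z1 a1

/-- Hypotheses on the base: an integral scheme of dimension `≤ 1` with `H^1(C, O_C) ≠ 0`. -/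
structure BaseData (C : Scheme.{0}) where
  /-- first affine open -/
  C0 : C.Opens
  /-- second affine open -/
  C1 : C.Opens
  h0 : IsAffineOpen C0
  h1 : IsAffineOpen C1
  sup : C0 ⊔ C1 = ⊤
  n0 : IsIntegrallyClosed Γ(C, C0)
  n1 : IsIntegrallyClosed Γ(C, C1)
  /-- a cocycle which is not a coboundary -/
  f : Γ(C, C0 ⊓ C1)
  hf : ∀ (a0 : Γ(C, C0)) (a1 : Γ(C, C1)), f ≠ rst inf_le_left a0 + rst inf_le_right a1

end Pool.Agent.BE
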