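import Pool.Agent.BE.QCAb

/-!
# BE-Sky0: `ev_rst` and quasi-coherence of the skyscraper presheaf

`x` is a closed point. Let `U` be affine, `f` in `Γ(U)`. If `x ∈ D(f)`: `f(x) ≠ 0`, both properties
are clear (`f(x)` is a unit of `κ(x)`; take `n = 0`). If `x ∉ D(f)`: sections over `D(f)` are zero
(functions from an empty type) and `f(x) = 0`, so `f^1 m = 0`. (Closedness of `x` is not even needed.)
-/

open CategoryTheory CategoryTheory.Limits AlgebraicGeometry Opposite TopologicalSpace

namespace Pool.Agent.BE

variable {S : Scheme.{0}}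

/-- value of a function at a point -/
noncomputable def ev {U : S.Opens} (x : S) (h : x ∈ U) : Γ(S, U) →+* S.residueField x :=
  (S.evaluation U x h).hom

lemma ev_rst {V U : S.Opens} (hVU : V ≤ U) (x : S) (h : x ∈ V) (a : Γ(S, U)) :
    ev x h (rst hVU a) = ev x (hVU h) a := by
  unfold ev rst Scheme.evaluation
  rw [CommRingCat.comp_apply, CommRingCat.comp_apply, TopCat.Presheaf.germ_res_apply]

/-- the presheaf `U ↦ κ(x)` if `x ∈ U`, `0` otherwise (functions from the proposition `x ∈ U`
to `κ(x)`) -/
noncomputable def kData (x : S) : SecData S where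
  X U := PLift (x ∈ U.1) → S.residueField x
  grp U := inferInstance
  mod U :=
    { smul := fun a m h => ev x h.down a * m h
      one_smul := fun m => by funext h; change ev x h.down 1 * m h = m h; rw [map_one, one_mul]
      mul_smul := fun a b m => by
        funext h; change ev x h.down (a * b) * m h = ev x h.down a * (ev x h.down b * m h)
        rw [map_mul, mul_assoc]
      smul_zero := fun a => by funext h; exact mul_zero _
      smul_add := fun a m n => by funext h; exact mul_add _ _ _
      add_smul := fun a b m => by
        funext h; change ev x h.down (a + b) * m h = ev x h.down a * m h + ev x h.down b * m h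
        rw [map_add, add_mul]
      zero_smul := fun m => by funext h; change ev x h.down 0 * m h = 0; rw [map_zero, zero_mul] }
  r {V U} hVU :=
    { toFun := fun m h => m ⟨hVU h.down⟩
      map_zero' := rfl
      map_add' := fun _ _ => rfl }
  r_smul {V U} hVU a m := by
    funext h
    change ev x (hVU h.down) a * m ⟨hVU h.down⟩ = ev x h.down (rst hVU a) * m ⟨hVU h.down⟩
    rw [ev_rst]
  r_id U m := rfl
  r_comp h h' m := rfl

private lemma ev_eq_zero (x : S) (U : Aff S) (f : Γ(S, U.1)) (hU : x ∈ U.1) (h : x ∉ (bas U f).1) :
    ev x hU f = 0 := by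
  by_contra hne
  exact h ((S.evaluation_ne_zero_iff_mem_basicOpen x hU f).1 hne)

lemma kData_isQC (x : S) (hx : IsClosed ({x} : Set S)) : IsQC (kData x).toPM := by
  constructor
  · intro U f m hm
    by_cases h : x ∈ (bas U f).1
    · refine ⟨0, ?_⟩
      rw [pow_zero, one_smul]
      have h1 := congrFun (show (fun h' : PLift (x ∈ (bas U f).1) =>
        (m : PLift (x ∈ U.1) → S.residueField x) ⟨bas_le U f h'.down⟩) = fun _ => 0 from hm) ⟨h⟩
      show (m : PLift (x ∈ U.1) → S.residueField x) = 0
      funext h'
      exact h1
    · refine ⟨1, ?_⟩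
      rw [pow_one]
      show (fun h' : PLift (x ∈ U.1) => ev x h'.down f *
        (m : PLift (x ∈ U.1) → S.residueField x) h') = fun _ => 0
      funext h'
      rw [ev_eq_zero x U f h'.down h, zero_mul]
  · intro U f y
    by_cases h : x ∈ (bas U f).1
    · refine ⟨0, (fun _ => (y : PLift (x ∈ (bas U f).1) → S.residueField x) ⟨h⟩ :
        PLift (x ∈ U.1) → S.residueField x), ?_⟩
      rw [pow_zero, one_smul]
      rfl
    · refine ⟨0, 0, ?_⟩
      rw [pow_zero, one_smul, map_zero]
      show (0 : PLift (x ∈ (bas U f).1) → S.residueField x) = y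
      funext h'
      exact absurd h'.down h

end Pool.Agent.BE
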