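import Mathlib

/-!
# Project BE: Bridgeland stability conditions on a full triangulated subcategory

`D` is a triangulated category and `T : ObjectProperty D` describes the objects of a full
triangulated subcategory (later: the bounded complexes with coherent cohomology).
-/

open CategoryTheory CategoryTheory.Limits CategoryTheory.Pretriangulated

namespace Pool.Agent.BE

universe v u

variable {D : Type u} [Category.{v} D] [Preadditive D] [HasZeroObject D] [HasShift D ℤ]
  [∀ n : ℤ, (shiftFunctor D n).Additive] [Pretriangulated D]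

/-- `HNFilt P l X`: the object `X` has a Harder-Narasimhan filtration
`0 = E_0 → E_1 → ... → E_n = X` whose factors `A_i` (cone of `E_{i-1} → E_i`) are nonzero objects
of `P φ_i` with `φ_1 > ... > φ_n`; the list `l` is `[φ_n, ..., φ_1]`. -/
inductive HNFilt (P : ℝ → ObjectProperty D) : List ℝ → D → Prop
  | zero (X : D) (h : IsZero X) : HNFilt P [] X
  | cons (φ : ℝ) (l : List ℝ) (E X A : D) (f : E ⟶ X) (g : X ⟶ A) (h : A ⟶ E⟦(1 : ℤ)⟧)
      (hT : Triangle.mk f g h ∈ distTriang D) (hA : P φ A) (hA0 : ¬ IsZero A)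
      (hl : ∀ ψ ∈ l, φ < ψ) (hE : HNFilt P l E) : HNFilt P (φ :: l) X

/-- `Chain Q n X`: a chain `0 = E_0 → E_1 → ... → E_n = X` of objects of `Q` all whose successive
cones are nonzero objects of `Q` (a chain of `n` strict subobjects in the abelian category
`Q = P φ`). -/
inductive Chain (Q : ObjectProperty D) : ℕ → D → Prop
  | zero (X : D) (h : IsZero X) : Chain Q 0 X
  | succ (n : ℕ) (E X A : D) (f : E ⟶ X) (g : X ⟶ A) (h : A ⟶ E⟦(1 : ℤ)⟧)
      (hT : Triangle.mk f g h ∈ distTriang D) (hA : Q A) (hA0 : ¬ IsZero A) (hX : Q X)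
      (hE : Chain Q n E) (hQE : Q E) : Chain Q (n + 1) X

/-- A (locally finite) Bridgeland stability condition on the full triangulated subcategory of `D`
with objects `T`: a slicing `P` and a central charge `Z`. -/
structure StabCond (T : ObjectProperty D) where
  /-- the slices -/
  P : ℝ → ObjectProperty D
  P_le : ∀ φ X, P φ X → T X
  P_iso : ∀ φ (X Y : D), (X ≅ Y) → P φ X → P φ Y
  P_zero : ∀ φ (X : D), IsZero X → P φ X
  P_shift : ∀ φ (X : D), P φ X ↔ P (φ + 1) (X⟦(1 : ℤ)⟧)
  hom_zero : ∀ (φ ψ : ℝ), ψ < φ → ∀ X Y : D, P φ X → P ψ Y → ∀ f : X ⟶ Y, f = 0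
  hn : ∀ X, T X → ∃ l, HNFilt P l X
  /-- the central charge, a function on objects which is additive on distinguished triangles -/
  Z : D → ℂ
  Z_add : ∀ (X Y W : D) (f : X ⟶ Y) (g : Y ⟶ W) (h : W ⟶ X⟦(1 : ℤ)⟧),
    Triangle.mk f g h ∈ distTriang D → T X → T Y → T W → Z Y = Z X + Z W
  Z_P : ∀ φ X, P φ X → ¬ IsZero X → ∃ m : ℝ, 0 < m ∧
    Z X = m * Complex.exp (Real.pi * φ * Complex.I)
  fin_len : ∀ φ X, P φ X → ∃ N : ℕ, ∀ n, Chain (P φ) n X → n ≤ N

variable {T : ObjectProperty D}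

/-- `X` is `σ`-stable of phase `φ`: a nonzero object of `P φ` without proper nonzero strict
subobjects in `P φ`. -/
def StabCond.StableOf (σ : StabCond T) (φ : ℝ) (X : D) : Prop :=
  σ.P φ X ∧ ¬ IsZero X ∧ ∀ (A B : D) (f : A ⟶ X) (g : X ⟶ B) (h : B ⟶ A⟦(1 : ℤ)⟧),
    Triangle.mk f g h ∈ distTriang D → σ.P φ A → σ.P φ B → IsZero A ∨ IsZero B

/-- `X` is `σ`-stable. -/
def StabCond.Stable (σ : StabCond T) (X : D) : Prop := ∃ φ, σ.StableOf φ X

end Pool.Agent.BE
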