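import Pool.Agent.BE.QC

/-!
# BE: projective curves and quotients by free actions (definitions)
-/

open CategoryTheory CategoryTheory.Limits AlgebraicGeometry Opposite TopologicalSpace

namespace Pool.Agent.BE

/-- `Spec ℂ` -/
noncomputable abbrev SpecC : Scheme.{0} := Spec (CommRingCat.of ℂ)

noncomputable instance gradedPoly (n : ℕ) :
    GradedAlgebra (MvPolynomial.homogeneousSubmodule (Fin (n + 1)) ℂ) :=
  MvPolynomial.gradedAlgebra

/-- Projective space `ℙ^n` over `ℂ`: `Proj` of the graded ring `ℂ[x_0, ..., x_n]`. -/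
noncomputable abbrev PN (n : ℕ) : Scheme.{0} :=
  Proj (MvPolynomial.homogeneousSubmodule (Fin (n + 1)) ℂ)

/-- The structure morphism `ℙ^n → Spec ℂ`. -/
noncomputable def PN.toC (n : ℕ) : PN n ⟶ SpecC :=
  Proj.toSpecZero _ ≫ Spec.map (CommRingCat.ofHom
    (algebraMap ℂ (MvPolynomial.homogeneousSubmodule (Fin (n + 1)) ℂ 0)))

/-- `s : X → Spec ℂ` is projective: `X` is a closed subscheme of some `ℙ^n`, over `ℂ`. -/
def IsProj {X : Scheme.{0}} (s : X ⟶ SpecC) : Prop :=
  ∃ (n : ℕ) (i : X ⟶ PN n), IsClosedImmersion i ∧ i ≫ PN.toC n = s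

/-- A smooth projective (connected) curve over `ℂ`: an integral projective scheme of dimension 1
whose local rings are integrally closed (for a curve over `ℂ`, normal is the same as smooth). -/
structure IsCurve {X : Scheme.{0}} (s : X ⟶ SpecC) : Prop where
  proj : IsProj s
  int : IsIntegral X
  normal : ∀ x : X, IsIntegrallyClosed (X.presheaf.stalk x)
  dim : topologicalKrullDim X = 1

/-- Positive genus, `H^1(X, O_X) ≠ 0`, by Čech cohomology: for every covering of `X` by two affine
open subsets `U`, `V` some function on `U ∩ V` is not the sum of a function on `U` and a function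
on `V`. (Every smooth projective curve has such a covering, and the cokernel of
`Γ(U) × Γ(V) → Γ(U ∩ V)` is `H^1(X, O_X)`, whose dimension is the genus.) -/
def PosGenus (X : Scheme.{0}) : Prop :=
  ∀ U V : X.Opens, IsAffineOpen U → IsAffineOpen V → U ⊔ V = ⊤ →
    ∃ g : Γ(X, U ⊓ V), ∀ (a : Γ(X, U)) (b : Γ(X, V)),
      g ≠ rst inf_le_left a + rst inf_le_right b

/-- `π : X → Y` is the quotient of `X` by a free action of the finite group `G` (`act g` is the
action of `g` on `X`): `π` is invariant, finite, étale, surjective, and the map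
`G × X → X ×_Y X`, `(g, x) ↦ (x, g x)` is an isomorphism. -/
structure IsFreeQuotient {X Y : Scheme.{0}} {G : Type} (act : G → (X ⟶ X)) (π : X ⟶ Y) :
    Prop where
  inv : ∀ g, act g ≫ π = π
  finite : IsFinite π
  etale : Etale π
  surj : Surjective π
  iso : IsIso (Sigma.desc (fun g : G => pullback.lift (𝟙 X) (act g)
    (by rw [inv g, Category.id_comp] : 𝟙 X ≫ π = act g ≫ π)))

/-- The action of an automorphism pair on `E ×_ℂ F`. -/
noncomputable def prodAct {E F : Scheme.{0}} (sE : E ⟶ SpecC) (sF : F ⟶ SpecC) (a : E ⟶ E)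
    (b : F ⟶ F) (ha : a ≫ sE = sE) (hb : b ≫ sF = sF) : pullback sE sF ⟶ pullback sE sF :=
  pullback.map sE sF sE sF a b (𝟙 _) (by simp [ha]) (by simp [hb])

end Pool.Agent.BE
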