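import Pool.Agent.BE.GeoDefs

/-!
# BE-GeoB: projective schemes are proper, noetherian and separated

`Proj.toSpecZero` is proper (Mathlib/AlgebraicGeometry/ProjectiveSpectrum/Proper.lean, needs
`Algebra.FiniteType (𝒜 0) A`), `algebraMap ℂ (𝒜 0)` is bijective (degree 0 homogeneous polynomials are
constants), a closed immersion is proper. Noetherian: locally of finite type over `ℂ` and quasi-compact
(`LocallyOfFiniteType.isLocallyNoetherian`). `proper_of_over`: `IsProper.of_comp`
(`p ≫ sC = sS` proper, `sC` separated).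
-/

open CategoryTheory CategoryTheory.Limits AlgebraicGeometry Opposite TopologicalSpace

namespace Pool.Agent.BE

private theorem gb_bij (n : ℕ) : Function.Bijective
    (algebraMap ℂ (MvPolynomial.homogeneousSubmodule (Fin (n + 1)) ℂ 0)) := by
  constructor
  · intro a b h
    have h1 := congrArg (fun x : MvPolynomial.homogeneousSubmodule (Fin (n + 1)) ℂ 0 =>
      (x : MvPolynomial (Fin (n + 1)) ℂ)) h
    have h2 : (MvPolynomial.C a : MvPolynomial (Fin (n + 1)) ℂ) = MvPolynomial.C b := h1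
    exact MvPolynomial.C_injective _ _ h2
  · rintro ⟨p, hp⟩
    have hp' : p.IsHomogeneous 0 := hp
    have h1 : p.totalDegree = 0 := by
      by_cases h0 : p = 0
      · rw [h0]; simp
      · exact hp'.totalDegree h0
    have h2 := MvPolynomial.totalDegree_eq_zero_iff_eq_C.1 h1
    refine ⟨p.coeff 0, Subtype.ext ?_⟩
    exact h2.symm

private instance gb_iso (n : ℕ) : IsIso (Spec.map (CommRingCat.ofHom
    (algebraMap ℂ (MvPolynomial.homogeneousSubmodule (Fin (n + 1)) ℂ 0)))) := by
  have : IsIso (CommRingCat.ofHom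
    (algebraMap ℂ (MvPolynomial.homogeneousSubmodule (Fin (n + 1)) ℂ 0))) :=
    (ConcreteCategory.isIso_iff_bijective _).2 (gb_bij n)
  infer_instance

private instance gb_ft (n : ℕ) : Algebra.FiniteType (MvPolynomial.homogeneousSubmodule (Fin (n + 1)) ℂ 0)
    (MvPolynomial (Fin (n + 1)) ℂ) := by
  have : IsScalarTower ℂ (MvPolynomial.homogeneousSubmodule (Fin (n + 1)) ℂ 0)
      (MvPolynomial (Fin (n + 1)) ℂ) := ⟨fun a b c => smul_mul_assoc a (b : MvPolynomial (Fin (n + 1)) ℂ) c⟩
  exact Algebra.FiniteType.of_restrictScalars_finiteType ℂ _ _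

private instance gb_pn (n : ℕ) : IsProper (PN.toC n) := by
  unfold PN.toC
  infer_instance

theorem proper_of_proj {X : Scheme.{0}} (s : X ⟶ SpecC) (h : IsProj s) : IsProper s := by
  obtain ⟨n, i, hi, rfl⟩ := h
  infer_instance

theorem noeth_of_proj {X : Scheme.{0}} (s : X ⟶ SpecC) (h : IsProj s) : IsNoetherian X := by
  have := proper_of_proj s h
  have h1 : IsLocallyNoetherian X := LocallyOfFiniteType.isLocallyNoetherian s
  have h2 : CompactSpace X := by
    exact (quasiCompact_iff_compactSpace s).mp inferInstance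
  exact {}

theorem sep_of_proj {X : Scheme.{0}} (s : X ⟶ SpecC) (h : IsProj s) : X.IsSeparated := by
  have := proper_of_proj s h
  refine ⟨?_⟩
  rw [← terminal.comp_from s]
  infer_instance

theorem proper_of_over {S C : Scheme.{0}} (sS : S ⟶ SpecC) (sC : C ⟶ SpecC) (hS : IsProj sS)
    (hC : IsProj sC) (p : S ⟶ C) (hp : p ≫ sC = sS) : IsProper p := by
  have h1 := proper_of_proj sS hS
  have h2 := proper_of_proj sC hC
  rw [← hp] at h1
  exact IsProper.of_comp p sC

/-- nonzero integers are invertible -/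
theorem inv_of_over {X : Scheme.{0}} (s : X ⟶ SpecC) (n : ℕ) (hn : n ≠ 0) :
    ∃ a : Γ(X, ⊤), (n : Γ(X, ⊤)) * a = 1 := by
  let f : ℂ →+* Γ(X, ⊤) := ((Scheme.ΓSpecIso (CommRingCat.of ℂ)).inv ≫ s.appTop).hom
  refine ⟨f (n : ℂ)⁻¹, ?_⟩
  have h : ((n : ℂ)) * (n : ℂ)⁻¹ = 1 := mul_inv_cancel₀ (by exact_mod_cast hn)
  have h2 := congrArg f h
  rw [map_mul, map_natCast, map_one] at h2
  exact h2

end Pool.Agent.BE
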