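import Pool.Agent.BE.GeoDefs

/-!
# BE-GeoC: dimension

`closed_of_dim_one`: if `x` is not generic and `{x}` is not closed there is `y ≠ x` in `closure {x}` and
`closure {y} ⊊ closure {x} ⊊ X` is a chain of irreducible closed subsets of length 2 (`topologicalKrullDim` =
`krullDim (IrreducibleCloseds X)`). `stalk_dim_le`: `ringKrullDim_stalk_eq_coheight`; a chain above `y` in the
specialisation order gives a chain of irreducible closed subsets (`closure`, injective: `T0`), or
use `Order.krullDim`/`coheight ≤ krullDim` and `irreducibleSetEquivPoints`. `not_closed_of_dim`: if the generic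
point is closed then `X` is a point, of dimension 0.
-/

open CategoryTheory CategoryTheory.Limits AlgebraicGeometry Opposite TopologicalSpace

namespace Pool.Agent.BE

private theorem krullDim_points (X : Scheme.{0}) : topologicalKrullDim X = Order.krullDim X :=
  Order.krullDim_eq_of_orderIso (irreducibleSetEquivPoints (α := X))

theorem closed_of_dim_one {X : Scheme.{0}} [IsIntegral X] (hd : topologicalKrullDim X = 1) (x : X)
    (hx : x ≠ genericPoint X) : IsClosed ({x} : Set X) := by
  rw [krullDim_points] at hd
  rcases Order.krullDim_le_one_iff.1 hd.le x with h | h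
  · rw [← closure_subset_iff_isClosed]
    intro y hy
    have h1 : x ⤳ y := specializes_iff_mem_closure.2 hy
    have h2 : y ≤ x := Scheme.le_iff_specializes.2 h1
    have h3 : y ⤳ x := Scheme.le_iff_specializes.1 (h h2)
    exact (h3.antisymm h1).eq
  · exfalso
    apply hx
    have h1 : x ≤ genericPoint X := Scheme.le_iff_specializes.2 (genericPoint_specializes x)
    have h2 : x ⤳ genericPoint X := Scheme.le_iff_specializes.1 (h h1)
    exact (h2.antisymm (genericPoint_specializes x)).eq

theorem not_closed_of_dim {X : Scheme.{0}} [IsIntegral X] (hd : 1 ≤ topologicalKrullDim X) :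
    ¬ IsClosed ({genericPoint X} : Set X) := by
  rw [krullDim_points, Order.one_le_krullDim_iff] at hd
  obtain ⟨x, y, hxy⟩ := hd
  intro hc
  have h : ∀ t : X, t = genericPoint X := by
    intro t
    have h1 : t ∈ closure ({genericPoint X} : Set X) :=
      specializes_iff_mem_closure.1 (genericPoint_specializes t)
    rwa [hc.closure_eq] at h1
  rw [h x, h y] at hxy
  exact lt_irrefl _ hxy

theorem stalk_dim_le {X : Scheme.{0}} (n : ℕ) (hd : topologicalKrullDim X ≤ n) (x : X) :
    ringKrullDim (X.presheaf.stalk x) ≤ n := by
  rw [ringKrullDim_stalk_eq_coheight]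
  rw [krullDim_points] at hd
  exact (Order.coheight_le_krullDim x).trans hd

end Pool.Agent.BE
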