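import Pool.Agent.BE.GeoDefs

/-!
# BE-GeoD: functions on affine opens of a normal integral scheme

`Γ(X, U)` is a domain (if `U` is nonempty; otherwise it is the zero ring, for which the statement is
trivial), its localisations at primes are the stalks at the points of `U`
(`IsAffineOpen.isLocalization_stalk`), and being integrally closed is local
(Mathlib: `IsIntegrallyClosed.of_localization_maximal`/`of_localization...`).
-/

open CategoryTheory CategoryTheory.Limits AlgebraicGeometry Opposite TopologicalSpace

namespace Pool.Agent.BE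

theorem normal_affine {X : Scheme.{0}} [IsIntegral X]
    (hn : ∀ x : X, IsIntegrallyClosed (X.presheaf.stalk x)) (U : X.Opens) (hU : IsAffineOpen U) :
    IsIntegrallyClosed Γ(X, U) := by
  by_cases hUe : Nonempty U
  · refine IsIntegrallyClosed.of_localization_maximal fun p _ hpm => ?_
    haveI : p.IsPrime := hpm.isPrime
    have hy : hU.fromSpec ⟨p, hpm.isPrime⟩ ∈ U := (hU.isoSpec.inv _).2
    letI := TopCat.Presheaf.algebra_section_stalk X.presheaf
      ⟨hU.fromSpec ⟨p, hpm.isPrime⟩, hy⟩
    haveI : IsLocalization.AtPrime (X.presheaf.stalk (hU.fromSpec ⟨p, hpm.isPrime⟩)) p :=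
      hU.isLocalization_stalk' ⟨p, hpm.isPrime⟩ hy
    haveI := hn (hU.fromSpec ⟨p, hpm.isPrime⟩)
    exact IsIntegrallyClosed.of_equiv
      (IsLocalization.algEquiv p.primeCompl (X.presheaf.stalk (hU.fromSpec ⟨p, hpm.isPrime⟩))
        (Localization.AtPrime p)).toRingEquiv
  · have hbot : U = ⊥ := by
      rw [eq_bot_iff]
      intro x hx
      exact absurd ⟨⟨x, hx⟩⟩ hUe
    haveI : Subsingleton Γ(X, U) := by
      rw [hbot]
      infer_instance
    haveI : Subsingleton (FractionRing Γ(X, U)) := by
      refine subsingleton_of_zero_eq_one ?_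
      rw [← map_zero (algebraMap Γ(X, U) (FractionRing Γ(X, U))),
        ← map_one (algebraMap Γ(X, U) (FractionRing Γ(X, U))), Subsingleton.elim (0 : Γ(X, U)) 1]
    exact
      { algebraMap_injective := fun a b _ => Subsingleton.elim a b
        isIntegral_iff := fun {x} => ⟨fun _ => ⟨0, Subsingleton.elim _ _⟩,
          fun _ => ⟨1, Polynomial.monic_one, Subsingleton.elim _ _⟩⟩ }

end Pool.Agent.BE
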