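import Mathlib

/-!
# BE-M4: closed sets not meeting the generic fibre lie over finitely many closed points

A closed subset of the noetherian space `S` is a finite union of irreducible closed sets `t`; `p(t)` is closed
(`p` proper) and irreducible, so it has a generic point (`QuasiSober`), which is a closed point of `C` by `hC`, so
`p(t)` is a point.
`finite_of_closed_points`: the same for a closed subset of `S` all of whose points are closed.
-/

open CategoryTheory CategoryTheory.Limits AlgebraicGeometry Opposite TopologicalSpace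

namespace Pool.Agent.BE

variable {S : Scheme.{0}}

private theorem point_of_irr {α : Type*} [TopologicalSpace α] [QuasiSober α] {t : Set α}
    (h1 : IsClosed t) (h2 : IsIrreducible t) (h3 : ∀ s ∈ t, IsClosed ({s} : Set α)) :
    ∃ c, t = {c} := by
  obtain ⟨c, hc⟩ := QuasiSober.sober h2 h1
  have h4 : c ∈ t := hc.mem
  refine ⟨c, ?_⟩
  rw [← (h3 c h4).closure_eq]
  exact hc.def.symm

theorem finite_of_closed_points [IsNoetherian S] (Z : Set S) (hZ : IsClosed Z)
    (h : ∀ s ∈ Z, IsClosed ({s} : Set S)) : Z.Finite := by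
  obtain ⟨T, hT, hTc, hTi, hTZ⟩ := NoetherianSpace.exists_finite_set_isClosed_irreducible hZ
  rw [hTZ]
  refine hT.sUnion fun t ht => ?_
  obtain ⟨c, rfl⟩ := point_of_irr (hTc t ht) (hTi t ht) fun s hs => h s (by
    rw [hTZ]
    exact Set.mem_sUnion_of_mem hs ht)
  exact Set.finite_singleton c

theorem finite_image {C : Scheme.{0}} (p : S ⟶ C) [IsProper p] [IsNoetherian S] [IsIntegral C]
    (hC : ∀ c : C, c ≠ genericPoint C → IsClosed ({c} : Set C))
    (Z : Set S) (hZ : IsClosed Z) (h : ∀ s ∈ Z, p.base s ≠ genericPoint C) :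
    (p.base '' Z).Finite := by
  obtain ⟨T, hT, hTc, hTi, hTZ⟩ := NoetherianSpace.exists_finite_set_isClosed_irreducible hZ
  have h1 : p.base '' Z = ⋃ t ∈ T, p.base '' t := by
    rw [hTZ, Set.sUnion_eq_biUnion, Set.image_iUnion₂]
  rw [h1]
  refine hT.biUnion fun t ht => ?_
  have hsub : t ⊆ Z := by
    rw [hTZ]
    exact Set.subset_sUnion_of_mem ht
  have h2 : IsClosed (p.base '' t) := p.isClosedMap _ (hTc t ht)
  have h3 : IsIrreducible (p.base '' t) := (hTi t ht).image _ p.continuous.continuousOn
  obtain ⟨c, hc⟩ := point_of_irr h2 h3 (by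
    rintro _ ⟨s, hs, rfl⟩
    exact hC _ (h s (hsub hs)))
  rw [hc]
  exact Set.finite_singleton c

end Pool.Agent.BE
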