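import Pool.Agent.BE.GeoA
import Pool.Agent.BE.GeoB
import Pool.Agent.BE.GeoC
import Pool.Agent.BE.GeoD
import Pool.Agent.BE.MainDefs
import Pool.Agent.BE.M4

/-!
# BE-GeoE: coverings of projective curves by two affine opens; base data

Generic point `η`. `U ∋ η` affine open from `exists_affine_contains` (`Z = {η}`). `X \ U` is closed, does not
contain `η`; it is finite: noetherian space all of whose points are closed in a sober space
(`finite_of_closed_points` of BE-M4 is exactly this: you may import `Pool.Agent.BE.M4`). `V` affine containing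
`X \ U`. `baseData_of_curve`: `PosGenus`, `normal_affine`.
-/

open CategoryTheory CategoryTheory.Limits AlgebraicGeometry Opposite TopologicalSpace

namespace Pool.Agent.BE

theorem exists_two_affine_cover {X : Scheme.{0}} (s : X ⟶ SpecC) (h : IsProj s) [IsIntegral X]
    (hc : ∀ x : X, x ≠ genericPoint X → IsClosed ({x} : Set X)) :
    ∃ U V : X.Opens, IsAffineOpen U ∧ IsAffineOpen V ∧ U ⊔ V = ⊤ := by
  have hnoeth : IsNoetherian X := noeth_of_proj s h
  obtain ⟨U, hU, hzU⟩ := exists_affine_contains s h {genericPoint X} (Set.finite_singleton _)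
  have hz : genericPoint X ∈ U := hzU rfl
  have hZc : IsClosed ((U : Set X)ᶜ) := U.isOpen.isClosed_compl
  have hZf : ((U : Set X)ᶜ).Finite := by
    apply finite_of_closed_points _ hZc
    intro t ht
    apply hc
    rintro rfl
    exact ht hz
  obtain ⟨V, hV, hzV⟩ := exists_affine_contains s h _ hZf
  refine ⟨U, V, hU, hV, ?_⟩
  rw [eq_top_iff]
  intro t _
  by_cases ht : t ∈ U
  · exact Or.inl ht
  · exact Or.inr (hzV ht)

theorem baseData_of_curve {C : Scheme.{0}} (s : C ⟶ SpecC) (h : IsCurve s) (g : PosGenus C) :
    Nonempty (BaseData C) := by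
  haveI := h.int
  obtain ⟨U, V, hU, hV, hUV⟩ := exists_two_affine_cover s h.proj
    (fun x hx => closed_of_dim_one h.dim x hx)
  obtain ⟨f, hf⟩ := g U V hU hV hUV
  exact ⟨{
    C0 := U
    C1 := V
    h0 := hU
    h1 := hV
    sup := hUV
    n0 := normal_affine h.normal U hU
    n1 := normal_affine h.normal V hV
    f := f
    hf := hf }⟩

end Pool.Agent.BE
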