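import Pool.Agent.BE.GeoF
import Pool.Agent.BE.GeoE
import Pool.Agent.BE.Aff
import Pool.Agent.BE.MainDefs
import Pool.Agent.BE.M4

/-!
# BE-GeoG: fibre data from a closed immersion of a curve onto the fibre

`N0` an affine neighbourhood of `c`. `z = i ξ`. `U0` affine open of `S` containing `z` (`exists_affine_contains`),
`i⁻¹ U0` is a nonempty open subset of the curve `F`, its complement is a finite set of (closed) points
(`closed_of_dim_one`, noetherian), so there is an affine open `U1` of `S` containing `z` and the images of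
these points. `W_i = U_i ⊓ p⁻¹ᵁ N0`, affine (`affInc_preimage`). `cover`: every `s` over `c` is `i t`. `gen`: `ξ ⤳ t` so
`z ⤳ i t`. `closed`: `t ≠ ξ` is closed in `F`, `i` is a closed map. `n0`, `n1`: `range_integral`. `g`: `i⁻¹ W_0`, `i⁻¹ W_1` are
affine and cover `F`: `PosGenus`, `cocycle_lift`.
-/

open CategoryTheory CategoryTheory.Limits AlgebraicGeometry Opposite TopologicalSpace

namespace Pool.Agent.BE

variable {S C F : Scheme.{0}}

theorem fibreData_of_immersion (sS : S ⟶ SpecC) (hS : IsProj sS) (sF : F ⟶ SpecC)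
    (hF : IsCurve sF) (gF : PosGenus F) [S.IsSeparated] [C.IsSeparated] (p : S ⟶ C) (c : C)
    (i : F ⟶ S) [IsClosedImmersion i] (hi : Set.range i.base = p.base ⁻¹' {c}) :
    Nonempty (FibreData p c) := by
  classical
  haveI := hF.int
  haveI hnoeth : IsNoetherian F := noeth_of_proj sF hF.proj
  have hrange : ∀ t : F, p.base (i.base t) = c := by
    intro t
    have h1 : i.base t ∈ Set.range i.base := ⟨t, rfl⟩
    rw [hi] at h1
    exact h1
  have hlift : ∀ s : S, p.base s = c → ∃ t : F, i.base t = s := by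
    intro s hs
    have h1 : s ∈ p.base ⁻¹' {c} := hs
    rw [← hi] at h1
    exact h1
  obtain ⟨N0, hN0, hc, -⟩ := exists_isAffineOpen_mem_and_subset (x := c) (U := ⊤) trivial
  obtain ⟨U0, hU0, hz0⟩ := exists_affine_contains sS hS {i.base (genericPoint F)}
    (Set.finite_singleton _)
  have hz0' : i.base (genericPoint F) ∈ U0 := hz0 rfl
  have hZc : IsClosed (((i ⁻¹ᵁ U0 : F.Opens) : Set F)ᶜ) := (i ⁻¹ᵁ U0).isOpen.isClosed_compl
  have hZf : (((i ⁻¹ᵁ U0 : F.Opens) : Set F)ᶜ).Finite := by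
    apply finite_of_closed_points _ hZc
    intro t ht
    apply closed_of_dim_one hF.dim
    rintro rfl
    exact ht hz0'
  obtain ⟨U1, hU1, hz1⟩ := exists_affine_contains sS hS
    (insert (i.base (genericPoint F)) (i.base '' (((i ⁻¹ᵁ U0 : F.Opens) : Set F)ᶜ)))
    ((hZf.image _).insert _)
  have hz1' : i.base (genericPoint F) ∈ U1 := hz1 (Set.mem_insert _ _)
  have hA := affInc_preimage p N0 hN0
  have hW0 : IsAffineOpen (U0 ⊓ p ⁻¹ᵁ N0) := hA ⟨U0, hU0⟩
  have hW1 : IsAffineOpen (U1 ⊓ p ⁻¹ᵁ N0) := hA ⟨U1, hU1⟩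
  have hN : ∀ t : F, i.base t ∈ p ⁻¹ᵁ N0 := by
    intro t
    show p.base (i.base t) ∈ N0
    rw [hrange t]
    exact hc
  have hcov : ∀ t : F, i.base t ∈ U0 ∨ i.base t ∈ U1 := by
    intro t
    by_cases h : i.base t ∈ U0
    · exact Or.inl h
    · exact Or.inr (hz1 (Set.mem_insert_of_mem _ ⟨t, h, rfl⟩))
  have hsup : i ⁻¹ᵁ (U0 ⊓ p ⁻¹ᵁ N0) ⊔ i ⁻¹ᵁ (U1 ⊓ p ⁻¹ᵁ N0) = ⊤ := by
    rw [eq_top_iff]
    intro t _
    rcases hcov t with h | h
    · exact Or.inl ⟨h, hN t⟩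
    · exact Or.inr ⟨h, hN t⟩
  obtain ⟨g', hg'⟩ := gF (i ⁻¹ᵁ (U0 ⊓ p ⁻¹ᵁ N0)) (i ⁻¹ᵁ (U1 ⊓ p ⁻¹ᵁ N0)) (hW0.preimage i)
    (hW1.preimage i) hsup
  have hm0 : i.base (genericPoint F) ∈ U0 ⊓ p ⁻¹ᵁ N0 := ⟨hz0', hN _⟩
  have hm1 : i.base (genericPoint F) ∈ U1 ⊓ p ⁻¹ᵁ N0 := ⟨hz1', hN _⟩
  obtain ⟨g, hg⟩ := cocycle_lift i ⟨U0 ⊓ p ⁻¹ᵁ N0, hW0⟩ ⟨U1 ⊓ p ⁻¹ᵁ N0, hW1⟩ hm0 hm1 g' hg'
  exact ⟨{
    N0 := N0
    hN0 := hN0
    hc := hc
    W0 := ⟨U0 ⊓ p ⁻¹ᵁ N0, hW0⟩
    W1 := ⟨U1 ⊓ p ⁻¹ᵁ N0, hW1⟩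
    le0 := inf_le_right
    le1 := inf_le_right
    z := i.base (genericPoint F)
    hz := hrange _
    z0 := hm0
    z1 := hm1
    gen := by
      intro s hs
      obtain ⟨t, rfl⟩ := hlift s hs
      exact (genericPoint_specializes t).map i.base.hom.continuous
    cover := by
      intro s hs
      obtain ⟨t, rfl⟩ := hlift s hs
      rcases hcov t with h | h
      · exact Or.inl ⟨h, hN t⟩
      · exact Or.inr ⟨h, hN t⟩
    closed := by
      intro s hs hne
      obtain ⟨t, rfl⟩ := hlift s hs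
      have ht : t ≠ genericPoint F := by
        rintro rfl
        exact hne rfl
      have h1 : IsClosed ({t} : Set F) := closed_of_dim_one hF.dim t ht
      have h2 := i.isClosedEmbedding.isClosedMap _ h1
      rwa [Set.image_singleton] at h2
    n0 := range_integral i hF.normal _ hm0
    n1 := range_integral i hF.normal _ hm1
    g := g
    hg := hg }⟩

end Pool.Agent.BE
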