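import Pool.Agent.BE.GeoDefs

/-!
# BE-GeoH: the fibres of a fibration which becomes a product after a surjective base change

`c` closed point of `C`. `q⁻¹{c}` is nonempty and closed in `E`; `E` is locally of finite type over `ℂ`
(Jacobson): it contains a closed point `e` of `E`. `pointOfClosedPoint sE e : SpecC → E` (Mathlib
AlgebraicGeometry/AlgClosed/Basic.lean) with `pointOfClosedPoint ≫ sE = 𝟙`. `c' = pointOfClosedPoint sE e ≫ q :
SpecC → C` is a section of the separated `sC`, hence a closed immersion (`IsClosedImmersion` of sections of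
separated morphisms: `IsSeparated`/`Over`: search `instIsClosedImmersion...of_comp`), with image `{c}`.
`F → pullback sE sF`, `(e, 𝟙)`: the square `F → pullback sE sF`, `F → SpecC`, over `E` is cartesian (pasting:
`pullback.snd`...). Paste with `h`: `F → S` is the base change of `c'` along `p`: a closed immersion with range
`p⁻¹{c}` (`IsPullback.image_preimage`/`Scheme.Pullback.range_fst`).
-/

open CategoryTheory CategoryTheory.Limits AlgebraicGeometry Opposite TopologicalSpace

namespace Pool.Agent.BE

variable {E F C S : Scheme.{0}}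

theorem exists_fibre_immersion (sE : E ⟶ SpecC) [LocallyOfFiniteType sE] (sF : F ⟶ SpecC)
    (sC : C ⟶ SpecC) [IsSeparated sC] (q : E ⟶ C) [Surjective q] (hq : q ≫ sC = sE)
    (p : S ⟶ C) (π : pullback sE sF ⟶ S) (h : IsPullback π (pullback.fst sE sF) p q) (c : C)
    (hc : IsClosed ({c} : Set C)) :
    ∃ i : F ⟶ S, IsClosedImmersion i ∧ Set.range i.base = p.base ⁻¹' {c} := by
  have hJ : JacobsonSpace E := LocallyOfFiniteType.jacobsonSpace sE
  obtain ⟨e0, he0⟩ := q.surjective c
  have hZ : IsClosed (q.base ⁻¹' {c}) := hc.preimage q.continuous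
  have hne : ((q.base ⁻¹' {c}) ∩ closedPoints E).Nonempty := by
    rw [← closure_nonempty_iff, JacobsonSpace.closure_inter_closedPoints hZ]
    exact ⟨e0, he0⟩
  obtain ⟨e, he, hecl⟩ := hne
  have hecl' : IsClosed ({e} : Set E) := hecl
  let pe : SpecC ⟶ E := pointOfClosedPoint sE e hecl'
  have hpe : pe ≫ sE = 𝟙 _ := pointOfClosedPoint_comp sE e hecl'
  have hc' : (pe ≫ q) ≫ sC = 𝟙 _ := by rw [Category.assoc, hq, hpe]
  have hci : IsClosedImmersion (pe ≫ q) := isClosedImmersion_of_comp_eq_id sC _ hc'
  let j : F ⟶ pullback sE sF := pullback.lift (sF ≫ pe) (𝟙 F) (by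
    rw [Category.assoc, hpe, Category.comp_id, Category.id_comp])
  have hj1 : j ≫ pullback.fst sE sF = sF ≫ pe := pullback.lift_fst _ _ _
  have hj2 : j ≫ pullback.snd sE sF = 𝟙 F := pullback.lift_snd _ _ _
  have s1 : IsPullback (pullback.snd sE sF) (pullback.fst sE sF) sF sE :=
    (IsPullback.of_hasPullback sE sF).flip
  have s2 : IsPullback (j ≫ pullback.snd sE sF) sF sF (pe ≫ sE) := by
    rw [hj2, hpe]
    exact IsPullback.of_horiz_isIso ⟨by simp⟩
  have s3 : IsPullback j sF (pullback.fst sE sF) pe := IsPullback.of_right s2 hj1 s1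
  have s4 : IsPullback (j ≫ π) sF p (pe ≫ q) := s3.paste_horiz h
  refine ⟨j ≫ π, MorphismProperty.of_isPullback s4.flip hci, ?_⟩
  have h1 := Scheme.image_preimage_eq_of_isPullback s4.flip Set.univ
  have h2 : Set.range (pe ≫ q).base = {c} := by
    ext t
    constructor
    · rintro ⟨a, rfl⟩
      have h3 : pe.base a = e := pointOfClosedPoint_apply sE e hecl' a
      have h4 : (pe ≫ q).base a = q.base (pe.base a) := rfl
      rw [h4, h3]
      exact he
    · intro ht
      rw [Set.mem_singleton_iff.1 ht]
      refine ⟨IsLocalRing.closedPoint ℂ, ?_⟩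
      have h3 : pe.base (IsLocalRing.closedPoint ℂ) = e := pointOfClosedPoint_apply sE e hecl' _
      have h4 : (pe ≫ q).base (IsLocalRing.closedPoint ℂ) =
        q.base (pe.base (IsLocalRing.closedPoint ℂ)) := rfl
      rw [h4, h3]
      exact he
  rw [Set.preimage_univ, Set.image_univ, Set.image_univ] at h1
  rw [← h2]
  exact h1

end Pool.Agent.BE
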