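import Pool.Agent.BE.GeoDefs

/-!
# BE-GeoQ: descent of invariant morphisms to the quotient

`π` is flat, surjective and quasi-compact, so it is an effective epimorphism
(Mathlib/AlgebraicGeometry/EffectiveEpi.lean or Morphisms/FlatDescent.lean, end of file): `f` descends if the two
composites `pullback π π ⇉ X → C` agree; precompose with the isomorphism `hπ.iso`: on the component `g` they
are `f` and `act g ≫ f`.
-/

open CategoryTheory CategoryTheory.Limits AlgebraicGeometry Opposite TopologicalSpace

namespace Pool.Agent.BE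

private theorem effEpi {X S : Scheme.{0}} {G : Type} [Finite G] (act : G → (X ⟶ X)) (π : X ⟶ S)
    (hπ : IsFreeQuotient act π) : EffectiveEpi π := by
  have h1 := hπ.finite
  have h2 := hπ.etale
  have h3 := hπ.surj
  have h4 : Flat π := inferInstance
  have h5 : QuasiCompact π := inferInstance
  infer_instance

theorem exists_descent {X S C : Scheme.{0}} {G : Type} [Finite G] (act : G → (X ⟶ X)) (π : X ⟶ S)
    (hπ : IsFreeQuotient act π) (f : X ⟶ C) (hf : ∀ g, act g ≫ f = f) :
    ∃ p : S ⟶ C, π ≫ p = f := by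
  have hE := effEpi act π hπ
  have hiso := hπ.iso
  have key : pullback.fst π π ≫ f = pullback.snd π π ≫ f := by
    rw [← cancel_epi (Sigma.desc (fun g : G => pullback.lift (𝟙 X) (act g)
      (by rw [hπ.inv g, Category.id_comp] : 𝟙 X ≫ π = act g ≫ π)))]
    refine Sigma.hom_ext _ _ fun g => ?_
    rw [Sigma.ι_desc_assoc, Sigma.ι_desc_assoc, pullback.lift_fst_assoc, pullback.lift_snd_assoc,
      Category.id_comp, hf g]
  refine ⟨EffectiveEpi.desc π f fun {Z} g₁ g₂ h => ?_, EffectiveEpi.fac π f _⟩
  have h1 : g₁ = pullback.lift g₁ g₂ h ≫ pullback.fst π π := (pullback.lift_fst _ _ _).symm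
  have h2 : g₂ = pullback.lift g₁ g₂ h ≫ pullback.snd π π := (pullback.lift_snd _ _ _).symm
  have h3 : pullback.lift g₁ g₂ h ≫ pullback.fst π π ≫ f =
      pullback.lift g₁ g₂ h ≫ pullback.snd π π ≫ f := by rw [key]
  rw [pullback.lift_fst_assoc, pullback.lift_snd_assoc] at h3
  exact h3

theorem epi_of_quotient {X S : Scheme.{0}} {G : Type} [Finite G] (act : G → (X ⟶ X)) (π : X ⟶ S)
    (hπ : IsFreeQuotient act π) : Epi π := by
  have hE := effEpi act π hπ
  infer_instance

end Pool.Agent.BE
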