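import Pool.Agent.BE.GeoDefs

/-!
# BE-GeoT: an equivariant map of free quotients gives a cartesian square

`φ : X → P := pullback p q`, `φ = pullback.lift π f`. Descend along `π : X → S` (finite étale surjective: flat,
surjective, quasi-compact): Mathlib/AlgebraicGeometry/Morphisms/FlatDescent.lean
`descendsAlong_isomorphisms_surjective_inf_flat_inf_quasicompact`: it is enough that the base change
`φ' : pullback π π → pullback π (pullback.fst p q)` (or in the form required by `DescendsAlong`) is an
isomorphism. `pullback π (fst : P → S) ≅ pullback (π ≫ p) q = pullback (f ≫ q) q ≅ pullback f (fst : pullback q q → E)`.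
Precompose with the isomorphism `∐_G X → pullback π π` (`hπ.iso`): the map
`∐_G X → pullback f (fst : pullback q q → E)` is on the component `g` `(𝟙 X, (f, f ≫ actE g))` (equivariance
`actX g ≫ f = f ≫ actE g`), so it is the base change along `f` of the isomorphism `∐_G E → pullback q q`
(`hq.iso`), because coproducts of schemes are universal (`FinitaryExtensive Scheme`, or
`∐_G X ≅ pullback of ∐_G E`: `Limits.Sigma`, `IsPullback` of coproducts: `FinitaryPreExtensive`, `isPullback_sigmaDesc`…).
Alternatively check bijectivity and isomorphism on the open cover `E_g`.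
-/

open CategoryTheory CategoryTheory.Limits AlgebraicGeometry Opposite TopologicalSpace

namespace Pool.Agent.BE

variable {X E C S : Scheme.{0}}

private theorem GeoT_sigma {G : Type} [Finite G] (actE : G → (E ⟶ E)) (q : E ⟶ C)
    (hq : IsFreeQuotient actE q) (f : X ⟶ E) (ψ : G → (X ⟶ pullback f (pullback.fst q q)))
    (h1 : ∀ g, ψ g ≫ pullback.fst f (pullback.fst q q) = 𝟙 X)
    (h2 : ∀ g, ψ g ≫ pullback.snd f (pullback.fst q q) =
      f ≫ pullback.lift (𝟙 E) (actE g) (by rw [hq.inv g, Category.id_comp])) :
    IsIso (Sigma.desc ψ) := by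
  have hiso := hq.iso
  have hu : IsUniversalColimit (Cofan.mk (pullback q q) (fun g : G => pullback.lift (𝟙 E) (actE g)
      (by rw [hq.inv g, Category.id_comp] : 𝟙 E ≫ q = actE g ≫ q))) :=
    FinitaryPreExtensive.isUniversal_finiteCoproducts
      ((Cofan.nonempty_isColimit_iff_isIso_sigmaDesc _).mpr hiso).some
  have hc := hu (Cofan.mk (pullback f (pullback.fst q q)) ψ) (Discrete.natTrans fun _ => f)
    (pullback.snd f (pullback.fst q q)) (by
      ext ⟨g⟩
      exact (h2 g).symm) (NatTrans.Equifibered.of_discrete _) (by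
      rintro ⟨g⟩
      have hbot : IsPullback (pullback.snd f (pullback.fst q q)) (pullback.fst f (pullback.fst q q))
        (pullback.fst q q) f := (IsPullback.of_hasPullback f (pullback.fst q q)).flip
      have hout : IsPullback f (ψ g ≫ pullback.fst f (pullback.fst q q))
          (pullback.lift (𝟙 E) (actE g) (by rw [hq.inv g, Category.id_comp] : 𝟙 E ≫ q = actE g ≫ q)
            ≫ pullback.fst q q) f := by
        rw [h1 g, pullback.lift_fst]
        exact IsPullback.of_vert_isIso ⟨by simp⟩
      exact (IsPullback.of_bot hout (h2 g).symm hbot).flip)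
  exact (Cofan.nonempty_isColimit_iff_isIso_sigmaDesc _).mp hc

theorem isPullback_of_quotients {G : Type} [Finite G] (actX : G → (X ⟶ X)) (actE : G → (E ⟶ E))
    (π : X ⟶ S) (q : E ⟶ C) (hπ : IsFreeQuotient actX π) (hq : IsFreeQuotient actE q)
    (f : X ⟶ E) (p : S ⟶ C) (hf : ∀ g, actX g ≫ f = f ≫ actE g) (hp : π ≫ p = f ≫ q) :
    IsPullback π f p q := by
  -- the pullback of `f ≫ q` and `q`
  have hY1 : IsPullback (pullback.fst f (pullback.fst q q))
      (pullback.snd f (pullback.fst q q)) f (pullback.fst q q) := IsPullback.of_hasPullback _ _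
  have hY : IsPullback (pullback.fst f (pullback.fst q q))
      (pullback.snd f (pullback.fst q q) ≫ pullback.snd q q) (f ≫ q) q := by
    have := hY1.paste_vert (IsPullback.of_hasPullback q q)
    exact this
  -- the comparison map
  let θ : pullback π π ⟶ pullback f (pullback.fst q q) :=
    hY.lift (pullback.fst π π) (pullback.snd π π ≫ f) (by
      rw [Category.assoc, ← hp, ← Category.assoc, ← Category.assoc, pullback.condition])
  have hθ1 : θ ≫ pullback.fst f (pullback.fst q q) = pullback.fst π π := hY.lift_fst _ _ _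
  have hθ2 : θ ≫ (pullback.snd f (pullback.fst q q) ≫ pullback.snd q q) =
      pullback.snd π π ≫ f := hY.lift_snd _ _ _
  let e : (∐ fun _ : G => X) ⟶ pullback π π := Sigma.desc (fun g : G => pullback.lift (𝟙 X) (actX g)
    (by rw [hπ.inv g, Category.id_comp] : 𝟙 X ≫ π = actX g ≫ π))
  have he : IsIso e := hπ.iso
  let ψ : G → (X ⟶ pullback f (pullback.fst q q)) := fun g =>
    pullback.lift (𝟙 X) (actX g) (by rw [hπ.inv g, Category.id_comp]) ≫ θ
  have hψ1 : ∀ g, ψ g ≫ pullback.fst f (pullback.fst q q) = 𝟙 X := by
    intro g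
    simp only [ψ, Category.assoc, hθ1, pullback.lift_fst]
  have hψ2 : ∀ g, ψ g ≫ pullback.snd f (pullback.fst q q) =
      f ≫ pullback.lift (𝟙 E) (actE g) (by rw [hq.inv g, Category.id_comp]) := by
    intro g
    apply pullback.hom_ext
    · rw [Category.assoc, ← pullback.condition, ← Category.assoc, hψ1, Category.id_comp,
        Category.assoc, pullback.lift_fst, Category.comp_id]
    · have h3 : ψ g ≫ pullback.snd f (pullback.fst q q) ≫ pullback.snd q q = f ≫ actE g := by
        simp only [ψ, Category.assoc]
        rw [hθ2, ← Category.assoc, pullback.lift_snd, hf g]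
      rw [Category.assoc, h3, Category.assoc, pullback.lift_snd]
  have hψ := GeoT_sigma actE q hq f ψ hψ1 hψ2
  have hcomp : e ≫ θ = Sigma.desc ψ := by
    apply Sigma.hom_ext
    intro g
    simp only [e, ψ, Sigma.ι_desc_assoc, Sigma.ι_desc]
  have hθ : IsIso θ := by
    have : IsIso (e ≫ θ) := by rw [hcomp]; exact hψ
    exact IsIso.of_isIso_comp_left e θ
  have hW : IsPullback (pullback.fst π π) (pullback.snd π π ≫ f) (π ≫ p) q := by
    rw [hp]
    refine IsPullback.of_iso hY (asIso θ).symm (Iso.refl _) (Iso.refl _) (Iso.refl _) ?_ ?_ ?_ ?_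
    · simp only [Iso.symm_hom, asIso_inv, Iso.refl_hom, Category.comp_id]
      rw [← hθ1, IsIso.inv_hom_id_assoc]
    · simp only [Iso.symm_hom, asIso_inv, Iso.refl_hom, Category.comp_id]
      rw [← hθ2, IsIso.inv_hom_id_assoc]
    · simp
    · simp
  -- descent
  have hP := IsPullback.of_hasPullback p q
  let φ : X ⟶ pullback p q := pullback.lift π f hp
  have hφ1 : φ ≫ pullback.fst p q = π := pullback.lift_fst _ _ _
  have hφ2 : φ ≫ pullback.snd p q = f := pullback.lift_snd _ _ _
  have hQ := IsPullback.of_hasPullback π (pullback.fst p q)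
  -- `Q'` is a pullback of `π ≫ p` and `q`
  have hQ' : IsPullback (pullback.fst π (pullback.fst p q))
      (pullback.snd π (pullback.fst p q) ≫ pullback.snd p q) (π ≫ p) q := hQ.paste_vert hP
  let ρ : pullback π π ⟶ pullback π (pullback.fst p q) :=
    pullback.lift (pullback.fst π π) (pullback.snd π π ≫ φ) (by
      rw [Category.assoc, hφ1, pullback.condition])
  have hρ1 : ρ ≫ pullback.fst π (pullback.fst p q) = pullback.fst π π := pullback.lift_fst _ _ _
  have hρ2 : ρ ≫ pullback.snd π (pullback.fst p q) = pullback.snd π π ≫ φ := pullback.lift_snd _ _ _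
  have hρ : IsIso ρ := by
    have h1 : ρ = (hW.isoIsPullback _ _ hQ').hom := by
      apply hQ'.hom_ext
      · rw [hρ1, IsPullback.isoIsPullback_hom_fst]
      · rw [IsPullback.isoIsPullback_hom_snd, ← Category.assoc, hρ2, Category.assoc, hφ2]
    rw [h1]
    infer_instance
  have htop : IsPullback ρ (pullback.snd π π) (pullback.snd π (pullback.fst p q)) φ := by
    have hout : IsPullback (ρ ≫ pullback.fst π (pullback.fst p q)) (pullback.snd π π) π (φ ≫ pullback.fst p q) := by
      rw [hρ1, hφ1]
      exact IsPullback.of_hasPullback π π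
    exact IsPullback.of_right hout hρ2 hQ
  have hprop : (@Surjective ⊓ @Flat ⊓ @QuasiCompact : MorphismProperty Scheme) (pullback.snd π (pullback.fst p q)) := by
    have := hπ.finite
    have := hπ.etale
    have := hπ.surj
    refine ⟨⟨inferInstance, inferInstance⟩, inferInstance⟩
  have hφ : IsIso φ := by
    have : (MorphismProperty.isomorphisms Scheme) φ :=
      MorphismProperty.of_isPullback_of_descendsAlong (P := MorphismProperty.isomorphisms Scheme)
        (Q := @Surjective ⊓ @Flat ⊓ @QuasiCompact) htop hprop hρ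
    exact this
  refine IsPullback.of_iso hP (asIso φ).symm (Iso.refl _) (Iso.refl _) (Iso.refl _) ?_ ?_ ?_ ?_
  · simp only [Iso.symm_hom, asIso_inv, Iso.refl_hom, Category.comp_id]
    rw [← hφ1, IsIso.inv_hom_id_assoc]
  · simp only [Iso.symm_hom, asIso_inv, Iso.refl_hom, Category.comp_id]
    rw [← hφ2, IsIso.inv_hom_id_assoc]
  · simp
  · simp

end Pool.Agent.BE
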