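import Pool.Agent.BE.DerH

/-!
# BE-DerN: a natural transformation `𝟭 ⟶ F` (`F` exact) extends to the derived category

Lift along the localisation `Q`: `NatTrans.mapHomologicalComplex`, `Localization.liftNatTrans`,
`Functor.mapDerivedCategoryFactors`. On cohomology it is the original transformation.
-/

open CategoryTheory CategoryTheory.Limits CategoryTheory.Pretriangulated DerivedCategory

namespace Pool.Agent.BE

universe w v u

variable {A : Type u} [Category.{v} A] [Abelian A] [HasDerivedCategory.{w} A]

/-- an exact functor commutes with the homology of complexes -/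
private noncomputable def isoC (F : A ⥤ A) [F.Additive] [PreservesFiniteLimits F]
    [PreservesFiniteColimits F] (n : ℤ) :
    F.mapHomologicalComplex (ComplexShape.up ℤ) ⋙
        HomologicalComplex.homologyFunctor A (ComplexShape.up ℤ) n ≅
      HomologicalComplex.homologyFunctor A (ComplexShape.up ℤ) n ⋙ F :=
  NatIso.ofComponents (fun K => (K.sc n).mapHomologyIso F)
    (fun {_ _} f => ShortComplex.mapHomologyIso_hom_naturality
      ((HomologicalComplex.shortComplexFunctor A (ComplexShape.up ℤ) n).map f) F)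

/-- the isomorphism before localisation -/
private noncomputable def isoQ (F : A ⥤ A) [F.Additive] [PreservesFiniteLimits F]
    [PreservesFiniteColimits F] (n : ℤ) :
    Q ⋙ (F.mapDerivedCategory ⋙ homologyFunctor A n) ≅ Q ⋙ (homologyFunctor A n ⋙ F) :=
  (Functor.associator _ _ _).symm ≪≫
    Functor.isoWhiskerRight F.mapDerivedCategoryFactors (homologyFunctor A n) ≪≫
    Functor.associator _ _ _ ≪≫
    Functor.isoWhiskerLeft _ (homologyFunctorFactors A n) ≪≫ isoC F n ≪≫
    Functor.isoWhiskerRight (homologyFunctorFactors A n).symm F ≪≫ Functor.associator _ _ _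

/-- an exact functor commutes with cohomology -/
private noncomputable def isoH (F : A ⥤ A) [F.Additive] [PreservesFiniteLimits F]
    [PreservesFiniteColimits F] (n : ℤ) :
    F.mapDerivedCategory ⋙ homologyFunctor A n ≅ homologyFunctor A n ⋙ F :=
  Localization.liftNatIso Q (HomologicalComplex.quasiIso A (ComplexShape.up ℤ))
    (Q ⋙ (F.mapDerivedCategory ⋙ homologyFunctor A n)) (Q ⋙ (homologyFunctor A n ⋙ F))
    _ _ (isoQ F n)

private theorem isoH_app (F : A ⥤ A) [F.Additive] [PreservesFiniteLimits F]
    [PreservesFiniteColimits F] (n : ℤ) (K : CochainComplex A ℤ) :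
    (isoH F n).hom.app (Q.obj K) =
      (homologyFunctor A n).map (F.mapDerivedCategoryFactors.hom.app K) ≫
        (homologyFunctorFactors A n).hom.app ((F.mapHomologicalComplex _).obj K) ≫
        ((K.sc n).mapHomologyIso F).hom ≫
        F.map ((homologyFunctorFactors A n).inv.app K) := by
  rw [isoH, Localization.liftNatIso_hom, Localization.liftNatTrans_app]
  simp [isoQ, isoC]
  rfl

private theorem mapHomologyIso_id (S : ShortComplex A) :
    (S.mapHomologyIso (𝟭 A)).hom = 𝟙 S.homology := by
  rw [S.leftHomologyData.mapHomologyIso_eq]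
  simp only [Iso.trans_hom, Functor.mapIso_hom, Iso.symm_hom, Functor.id_map]
  let h := S.leftHomologyData
  let γ : ShortComplex.LeftHomologyMapData (𝟙 S) (h.map (𝟭 A)) h :=
    { φK := 𝟙 _
      φH := 𝟙 _
      commi := (Category.id_comp _).trans (Category.comp_id _).symm
      commf' := (Category.comp_id _).trans
        ((ShortComplex.LeftHomologyData.map_f' h (𝟭 A)).trans (Category.id_comp _).symm)
      commπ := (Category.comp_id _).trans (Category.id_comp _).symm }
  have e := γ.homologyMap_eq
  have e2 : ShortComplex.homologyMap (𝟙 S) = 𝟙 _ := ShortComplex.homologyMap_id S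
  have e3 : (h.map (𝟭 A)).homologyIso.hom ≫ γ.φH ≫ h.homologyIso.inv = 𝟙 _ := e.symm.trans e2
  exact (congrArg (fun z => (h.map (𝟭 A)).homologyIso.hom ≫ z) (Category.id_comp _).symm).trans e3

private theorem chase1 {C : Type*} [Category C] {X0 X1 X2 X3 X4 X5 : C} (x : X0 ⟶ X1)
    (y : X1 ⟶ X2) (p : X0 ⟶ X3) (q : X3 ⟶ X2) (m : X2 ⟶ X4) (r : X3 ⟶ X4) (i : X3 ⟶ X0)
    (s : X0 ⟶ X5) (t : X4 ⟶ X5) (h2 : x ≫ y = p ≫ q) (h1 : q ≫ m = r) (h4 : i ≫ s = r ≫ t)
    (h5 : p ≫ i = 𝟙 X0) : x ≫ y ≫ m ≫ t = s := by
  rw [reassoc_of% h2, reassoc_of% h1, ← h4, reassoc_of% h5]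

private theorem chase2 {C : Type*} [Category C] {X1 X2 X4 X5 : C} (x : X1 ⟶ X1)
    (y : X1 ⟶ X2) (q : X2 ⟶ X2) (m : X2 ⟶ X4) (r : X4 ⟶ X4)
    (s : X5 ⟶ X5) (t : X4 ⟶ X5) (h2 : x ≫ y = y ≫ q) (h1 : q ≫ m = m ≫ r)
    (h4 : r ≫ t = t ≫ s) : x ≫ y ≫ m ≫ t = y ≫ m ≫ t ≫ s := by
  rw [reassoc_of% h2, reassoc_of% h1, h4]

/-- the natural transformation of complexes -/
private noncomputable def etaC (F : A ⥤ A) [F.Additive] (η : 𝟭 A ⟶ F)
    (K : CochainComplex A ℤ) : K ⟶ (F.mapHomologicalComplex (ComplexShape.up ℤ)).obj K where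
  f i := η.app (K.X i)
  comm' i j _ := (η.naturality (K.d i j)).symm

private noncomputable def etaN (F : A ⥤ A) [F.Additive] (η : 𝟭 A ⟶ F) :
    𝟭 (CochainComplex A ℤ) ⟶ F.mapHomologicalComplex (ComplexShape.up ℤ) where
  app K := etaC F η K
  naturality K L f := by
    ext i
    exact η.naturality (f.f i)

private theorem homologyMap_eta (F : A ⥤ A) [F.Additive] [PreservesFiniteLimits F]
    [PreservesFiniteColimits F] (η : 𝟭 A ⟶ F) (K : CochainComplex A ℤ) (n : ℤ) :
    HomologicalComplex.homologyMap (etaC F η K) n ≫ ((K.sc n).mapHomologyIso F).hom =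
      η.app (K.homology n) := by
  have h := NatTrans.app_homology η (K.sc n)
  have h2 := mapHomologyIso_id (K.sc n)
  have h3 : ((K.sc n).mapHomologyIso (𝟭 A)).inv = 𝟙 (K.sc n).homology := by
    have := ((K.sc n).mapHomologyIso (𝟭 A)).hom_inv_id
    rw [h2] at this
    exact (Category.id_comp _).symm.trans this
  rw [h3] at h
  refine Eq.trans ?_ h.symm
  exact (Category.id_comp _).symm

theorem exists_natTrans (F : A ⥤ A) [F.Additive] [PreservesFiniteLimits F]
    [PreservesFiniteColimits F] (η : 𝟭 A ⟶ F) :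
    ∃ η' : 𝟭 (DerivedCategory A) ⟶ F.mapDerivedCategory, ∀ n : ℤ,
      ∃ e : F.mapDerivedCategory ⋙ homologyFunctor A n ≅ homologyFunctor A n ⋙ F,
        ∀ X : DerivedCategory A, (homologyFunctor A n).map (η'.app X) ≫ e.hom.app X =
          η.app ((homologyFunctor A n).obj X) := by
  let η' : 𝟭 (DerivedCategory A) ⟶ F.mapDerivedCategory :=
    Localization.liftNatTrans Q (HomologicalComplex.quasiIso A (ComplexShape.up ℤ))
      Q (F.mapHomologicalComplex (ComplexShape.up ℤ) ⋙ Q) _ _
      ((Functor.leftUnitor _).inv ≫ Functor.whiskerRight (etaN F η) Q)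
  have hη' : ∀ K : CochainComplex A ℤ, η'.app (Q.obj K) =
      Q.map (etaC F η K) ≫ F.mapDerivedCategoryFactors.inv.app K := by
    intro K
    refine (Localization.liftNatTrans_app Q (HomologicalComplex.quasiIso A (ComplexShape.up ℤ))
      Q (F.mapHomologicalComplex (ComplexShape.up ℤ) ⋙ Q) (𝟭 _) F.mapDerivedCategory
      ((Functor.leftUnitor _).inv ≫ Functor.whiskerRight (etaN F η) Q) K).trans ?_
    simp [etaN]
    rfl
  refine ⟨η', fun n => ⟨isoH F n, ?_⟩⟩
  have key : Functor.whiskerRight η' (homologyFunctor A n) ≫ (isoH F n).hom =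
      (Functor.leftUnitor _).hom ≫ (Functor.rightUnitor _).inv ≫
        Functor.whiskerLeft (homologyFunctor A n) η := by
    refine Localization.natTrans_ext Q (HomologicalComplex.quasiIso A (ComplexShape.up ℤ)) ?_
    intro K
    have h1 := homologyMap_eta F η K n
    have h2 := homologyFunctorFactors_hom_naturality (etaC F η K) n
    simp only [NatTrans.comp_app, Functor.whiskerRight_app, Functor.whiskerLeft_app,
      Functor.leftUnitor_hom_app, Functor.rightUnitor_inv_app, Category.id_comp]
    rw [isoH_app, hη', Functor.map_comp]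
    simp only [Category.assoc]
    rw [← (homologyFunctor A n).map_comp_assoc (F.mapDerivedCategoryFactors.inv.app K),
      Iso.inv_hom_id_app]
    erw [CategoryTheory.Functor.map_id, Category.id_comp]
    refine (chase1 _ _ _ _ _ _ _ _ _ h2 h1
      (η.naturality ((homologyFunctorFactors A n).inv.app K))
      ((homologyFunctorFactors A n).hom_inv_id_app K)).trans (Category.id_comp _).symm
  intro X
  have := congr_app key X
  simpa using this

/-- the same for an endomorphism of an exact functor -/
theorem exists_natEnd (F : A ⥤ A) [F.Additive] [PreservesFiniteLimits F]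
    [PreservesFiniteColimits F] (μ : F ⟶ F) :
    ∃ μ' : F.mapDerivedCategory ⟶ F.mapDerivedCategory, ∀ n : ℤ,
      ∃ e : F.mapDerivedCategory ⋙ homologyFunctor A n ≅ homologyFunctor A n ⋙ F,
        ∀ X : DerivedCategory A, (homologyFunctor A n).map (μ'.app X) ≫ e.hom.app X =
          e.hom.app X ≫ μ.app ((homologyFunctor A n).obj X) := by
  let μ' : F.mapDerivedCategory ⟶ F.mapDerivedCategory :=
    Localization.liftNatTrans Q (HomologicalComplex.quasiIso A (ComplexShape.up ℤ))
      (F.mapHomologicalComplex (ComplexShape.up ℤ) ⋙ Q)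
      (F.mapHomologicalComplex (ComplexShape.up ℤ) ⋙ Q) _ _
      (Functor.whiskerRight (NatTrans.mapHomologicalComplex μ (ComplexShape.up ℤ)) Q)
  have hμ' : ∀ K : CochainComplex A ℤ, μ'.app (Q.obj K) =
      F.mapDerivedCategoryFactors.hom.app K ≫
      Q.map ((NatTrans.mapHomologicalComplex μ (ComplexShape.up ℤ)).app K) ≫
      F.mapDerivedCategoryFactors.inv.app K := by
    intro K
    refine (Localization.liftNatTrans_app Q (HomologicalComplex.quasiIso A (ComplexShape.up ℤ))
      (F.mapHomologicalComplex (ComplexShape.up ℤ) ⋙ Q)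
      (F.mapHomologicalComplex (ComplexShape.up ℤ) ⋙ Q) F.mapDerivedCategory F.mapDerivedCategory
      (Functor.whiskerRight (NatTrans.mapHomologicalComplex μ (ComplexShape.up ℤ)) Q) K).trans ?_
    rfl
  refine ⟨μ', fun n => ⟨isoH F n, ?_⟩⟩
  have key : Functor.whiskerRight μ' (homologyFunctor A n) ≫ (isoH F n).hom =
      (isoH F n).hom ≫ Functor.whiskerLeft (homologyFunctor A n) μ := by
    refine Localization.natTrans_ext Q (HomologicalComplex.quasiIso A (ComplexShape.up ℤ)) ?_
    intro K
    have h1 := NatTrans.app_homology μ (K.sc n)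
    have h2 := homologyFunctorFactors_hom_naturality
      ((NatTrans.mapHomologicalComplex μ (ComplexShape.up ℤ)).app K) n
    have h3 : HomologicalComplex.homologyMap
        ((NatTrans.mapHomologicalComplex μ (ComplexShape.up ℤ)).app K) n ≫
          ((K.sc n).mapHomologyIso F).hom =
        ((K.sc n).mapHomologyIso F).hom ≫ μ.app (K.homology n) := by
      have h4 : μ.app (K.homology n) = _ := h1
      rw [h4]
      erw [Iso.hom_inv_id_assoc]
      rfl
    simp only [NatTrans.comp_app, Functor.whiskerRight_app, Functor.whiskerLeft_app]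
    rw [isoH_app, hμ', Functor.map_comp, Functor.map_comp]
    simp only [Category.assoc]
    rw [← (homologyFunctor A n).map_comp_assoc (F.mapDerivedCategoryFactors.inv.app K),
      Iso.inv_hom_id_app]
    erw [CategoryTheory.Functor.map_id, Category.id_comp]
    congr 1
    exact chase2 _ _ _ _ _ _ _ h2 h3
      (μ.naturality ((homologyFunctorFactors A n).inv.app K)).symm
  intro X
  have := congr_app key X
  simpa using this

end Pool.Agent.BE
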