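import Pool.Agent.BE.DerH

/-!
# BE-DerT: lowest and highest cohomology

Truncations (Mathlib/Algebra/Homology/DerivedCategory/TStructure.lean: `TStructure.t`, `isGE_iff`, `isLE_iff`,
`exists_iso_singleFunctor_obj_of_isGE_of_isLE`; `Triangulated.TStructure.exists_triangle`). For
the lowest cohomology: triangle `τ≤b X → X → τ≥(b+1) X`, `τ≤b X` is `≥ b` and `≤ b`, so it is isomorphic to
`(singleFunctor A b).obj Y`, `Y ≅ Hn b X`; `(singleFunctor A b).obj Y ≅ ((singleFunctor A 0).obj Y)⟦-b⟧`
(`singleFunctors` shift isomorphisms); precompose with the map induced by `i`. Dually for `exists_from_top`.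
-/

open CategoryTheory CategoryTheory.Limits CategoryTheory.Pretriangulated DerivedCategory

namespace Pool.Agent.BE

universe w v u

variable {A : Type u} [Category.{v} A] [Abelian A] [HasDerivedCategory.{w} A]

/-- the complexes `M[-n]` concentrated in degree `n` -/
private noncomputable def sIso (n : ℤ) (M : A) :
    ((singleFunctor A 0).obj M)⟦-n⟧ ≅ (singleFunctor A n).obj M :=
  ((singleFunctors A).shiftIso (-n) n 0 (by simp)).app M

private noncomputable def αIso (n : ℤ) (M : A) : Hn n ((singleFunctor A n).obj M) ≅ M :=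
  (singleFunctorCompHomologyFunctorIso A n).app M

private theorem αIso_nat (n : ℤ) {M N : A} (f : M ⟶ N) :
    (homologyFunctor A n).map ((singleFunctor A n).map f) ≫ (αIso n N).hom = (αIso n M).hom ≫ f :=
  (singleFunctorCompHomologyFunctorIso A n).hom.naturality f

/-- the triangle of the lowest cohomology -/
private theorem bottom_aux (X : DerivedCategory A) (b : ℤ) (h : ∀ n, n < b → IsZero (Hn n X)) :
    ∃ (Y : A) (v : (singleFunctor A b).obj Y ⟶ X), IsIso ((homologyFunctor A b).map v) := by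
  obtain ⟨K, L, hK, hL, f, g, δ, hT⟩ := TStructure.t.exists_triangle X b (b + 1) rfl
  have : K.IsLE b := ⟨hK⟩
  have hL' : L.IsGE (b + 1) := ⟨hL⟩
  have hLz : ∀ n, n < b + 1 → IsZero (Hn n L) := fun n hn => (isGE_iff L (b + 1)).1 hL' n hn
  have : K.IsGE b := by
    rw [isGE_iff]
    intro n hn
    have h1 := HomologySequence.exact₁ _ hT (n - 1) n (by lia)
    exact h1.isZero_X₂ ((hLz (n - 1) (by lia)).eq_zero_of_src _) ((h n hn).eq_zero_of_tgt _)
  obtain ⟨Y, ⟨e⟩⟩ := exists_iso_singleFunctor_obj_of_isGE_of_isLE K b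
  refine ⟨Y, e.inv ≫ f, ?_⟩
  have hmono : Mono ((homologyFunctor A b).map f) :=
    (HomologySequence.mono_homologyMap_mor₁_iff _ hT (b - 1) b (by lia)).2
      ((hLz (b - 1) (by lia)).eq_zero_of_src _)
  have hepi : Epi ((homologyFunctor A b).map f) :=
    (HomologySequence.epi_homologyMap_mor₁_iff _ hT b).2
      ((hLz b (by lia)).eq_zero_of_tgt _)
  have : IsIso ((homologyFunctor A b).map f) := isIso_of_mono_of_epi _
  rw [Functor.map_comp]
  infer_instance

/-- the triangle of the highest cohomology -/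
private theorem top_aux (X : DerivedCategory A) (t : ℤ) (h : ∀ n, t < n → IsZero (Hn n X)) :
    ∃ (Y : A) (v : X ⟶ (singleFunctor A t).obj Y), IsIso ((homologyFunctor A t).map v) := by
  obtain ⟨K, L, hK, hL, f, g, δ, hT⟩ := TStructure.t.exists_triangle X (t - 1) t (by lia)
  have hK' : K.IsLE (t - 1) := ⟨hK⟩
  have : L.IsGE t := ⟨hL⟩
  have hKz : ∀ n, t - 1 < n → IsZero (Hn n K) := fun n hn => (isLE_iff K (t - 1)).1 hK' n hn
  have : L.IsLE t := by
    rw [isLE_iff]
    intro n hn
    have h1 := HomologySequence.exact₃ _ hT n (n + 1) rfl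
    exact h1.isZero_X₂ ((h n hn).eq_zero_of_src _) ((hKz (n + 1) (by lia)).eq_zero_of_tgt _)
  obtain ⟨Y, ⟨e⟩⟩ := exists_iso_singleFunctor_obj_of_isGE_of_isLE L t
  refine ⟨Y, g ≫ e.hom, ?_⟩
  have hmono : Mono ((homologyFunctor A t).map g) :=
    (HomologySequence.mono_homologyMap_mor₂_iff _ hT t).2
      ((hKz t (by lia)).eq_zero_of_src _)
  have hepi : Epi ((homologyFunctor A t).map g) :=
    (HomologySequence.epi_homologyMap_mor₂_iff _ hT t (t + 1) rfl).2
      ((hKz (t + 1) (by lia)).eq_zero_of_tgt _)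
  have : IsIso ((homologyFunctor A t).map g) := isIso_of_mono_of_epi _
  rw [Functor.map_comp]
  infer_instance

/-- a map into the lowest cohomology comes from the derived category -/
theorem exists_from_bottom (X : DerivedCategory A) (b : ℤ) (h : ∀ n, n < b → IsZero (Hn n X))
    (M : A) (i : M ⟶ Hn b X) :
    ∃ (u : ((singleFunctor A 0).obj M)⟦-b⟧ ⟶ X)
      (e : M ≅ Hn b (((singleFunctor A 0).obj M)⟦-b⟧)),
      e.hom ≫ (homologyFunctor A b).map u = i := by
  obtain ⟨Y, v, hv⟩ := bottom_aux X b h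
  refine ⟨(sIso b M).hom ≫
      (singleFunctor A b).map (i ≫ inv ((homologyFunctor A b).map v) ≫ (αIso b Y).hom) ≫ v,
    (αIso b M).symm ≪≫ (homologyFunctor A b).mapIso (sIso b M).symm, ?_⟩
  have h1 := αIso_nat b (i ≫ inv ((homologyFunctor A b).map v) ≫ (αIso b Y).hom)
  have h2 : (homologyFunctor A b).map
      ((singleFunctor A b).map (i ≫ inv ((homologyFunctor A b).map v) ≫ (αIso b Y).hom)) =
      (αIso b M).hom ≫ i ≫ inv ((homologyFunctor A b).map v) := by
    rw [← cancel_mono (αIso b Y).hom, h1]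
    simp only [Category.assoc]
  rw [Functor.map_comp, Functor.map_comp, h2]
  simp only [Iso.trans_hom, Iso.symm_hom, Functor.mapIso_hom, Category.assoc]
  rw [← Functor.map_comp_assoc, Iso.inv_hom_id, CategoryTheory.Functor.map_id, Category.id_comp,
    Iso.inv_hom_id_assoc, IsIso.inv_hom_id, Category.comp_id]

/-- a map from the highest cohomology comes from the derived category -/
theorem exists_from_top (X : DerivedCategory A) (t : ℤ) (h : ∀ n, t < n → IsZero (Hn n X))
    (M : A) (p : Hn t X ⟶ M) :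
    ∃ (u : X ⟶ ((singleFunctor A 0).obj M)⟦-t⟧)
      (e : Hn t (((singleFunctor A 0).obj M)⟦-t⟧) ≅ M),
      (homologyFunctor A t).map u ≫ e.hom = p := by
  obtain ⟨Y, v, hv⟩ := top_aux X t h
  refine ⟨v ≫ (singleFunctor A t).map ((αIso t Y).inv ≫ inv ((homologyFunctor A t).map v) ≫ p) ≫
      (sIso t M).inv,
    (homologyFunctor A t).mapIso (sIso t M) ≪≫ αIso t M, ?_⟩
  have h1 := αIso_nat t ((αIso t Y).inv ≫ inv ((homologyFunctor A t).map v) ≫ p)
  rw [Iso.hom_inv_id_assoc] at h1
  rw [Functor.map_comp, Functor.map_comp]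
  simp only [Iso.trans_hom, Functor.mapIso_hom, Category.assoc]
  rw [← Functor.map_comp_assoc (homologyFunctor A t) (sIso t M).inv, Iso.inv_hom_id, CategoryTheory.Functor.map_id,
    Category.id_comp, h1, IsIso.hom_inv_id_assoc]

end Pool.Agent.BE
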