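import Pool.Agent.BE.CohA
import Pool.Agent.BE.SkyS

/-!
# BE-SkyTo: a nonzero map to the skyscraper at a closed point of the support

Take `φ : M(U) → κ(x)` from `fibre_ne`. For an affine `V` containing `x` choose `D` basic in `U` and `V`
(`exists_basic`), and define `M(V) → κ(x)` as: `m ↦ f(x)^{-n} φ(m')` where `res m' = f^n res m` on `D`,
`f` defining `D` in `U`. Independence of choices by `res_inj`, `f(x) ≠ 0`. The value
`c ∈ κ(x)` of `m ∈ M(V)` is characterised by the relation `Val`: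
`∃ (D ≤ U) (D ≤ V) with x ∈ D, m' ∈ M(U), f ∈ Γ(U) with f(x) ≠ 0, res_D m' = f • res_D m and
φ m' = f(x) c`; we prove existence and uniqueness of `c` and additivity, linearity.
-/

open CategoryTheory CategoryTheory.Limits AlgebraicGeometry Opposite TopologicalSpace

namespace Pool.Agent.BE

variable {S : Scheme.{0}}

private theorem skyTo_ev_ne {V : S.Opens} (x : S) (h : x ∈ V) (f : Γ(S, V))
    (hf : x ∈ S.basicOpen f) : ev x h f ≠ 0 :=
  (Scheme.evaluation_ne_zero_iff_mem_basicOpen (X := S) x h f).2 hf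

/-- extension of a function from a basic open -/
private theorem skyTo_ext (U : Aff S) (f : Γ(S, U.1)) {D : Aff S} (h : D ≤ U)
    (hD : D.1 = S.basicOpen f) (a : Γ(S, D.1)) :
    ∃ (n : ℕ) (b : Γ(S, U.1)), rst h b = (rst h f) ^ n * a := by
  obtain ⟨D, hD'⟩ := D
  change D = S.basicOpen f at hD
  subst hD
  have := U.2.isLocalization_basicOpen f
  obtain ⟨⟨b, ⟨_, n, rfl⟩⟩, hb⟩ := IsLocalization.surj (Submonoid.powers f) a
  refine ⟨n, b, ?_⟩
  have h1 : rst h b = algebraMap Γ(S, U.1) Γ(S, S.basicOpen f) b := rfl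
  have h2 : rst h f = algebraMap Γ(S, U.1) Γ(S, S.basicOpen f) f := rfl
  rw [h1, h2, ← map_pow, mul_comm]
  exact hb.symm

/-- `c` is the value of `m` at `x` -/
private def Val (M : QCoh S) (x : S) (U : Aff S) (hU : x ∈ U.1) (φ : sec M U →+ S.residueField x)
    (V : Aff S) (m : sec M V) (c : S.residueField x) : Prop :=
  ∃ (D : Aff S) (h : D ≤ U) (h' : D ≤ V) (m' : sec M U) (f : Γ(S, U.1)), x ∈ D.1 ∧
    ev x hU f ≠ 0 ∧ res M h m' = rst h f • res M h' m ∧ φ m' = ev x hU f * c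

section
variable {M : QCoh S} {x : S} {U : Aff S} {hU : x ∈ U.1} {φ : sec M U →+ S.residueField x}
  {V : Aff S}

private theorem Val.exist (hV : x ∈ V.1) (m : sec M V) : ∃ c, Val M x U hU φ V m c := by
  obtain ⟨D, h, h', f, g, hx, hf, hg⟩ := exists_basic U V x hU hV
  obtain ⟨n, m', hm⟩ := res_surj M h f hf (res M h' m)
  have h1 : ev x hU (f ^ n) ≠ 0 := by
    rw [map_pow]
    exact pow_ne_zero _ (skyTo_ev_ne x hU f (hf ▸ hx))
  refine ⟨(ev x hU (f ^ n))⁻¹ * φ m', D, h, h', m', f ^ n, hx, h1, ?_, ?_⟩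
  · rw [map_pow]
    exact hm
  · rw [mul_inv_cancel_left₀ h1]

/-- shrink the neighbourhood -/
private theorem Val.shrink {D D₂ : Aff S} (hD : x ∈ D.1) (hD₂ : x ∈ D₂.1) (hU : x ∈ U.1) :
    ∃ (E : Aff S) (_ : E ≤ U) (_ : E ≤ D) (_ : E ≤ D₂) (f : Γ(S, U.1)), x ∈ E.1 ∧
      E.1 = S.basicOpen f := by
  obtain ⟨E, h, h', _, _, hx, -, -⟩ := exists_basic D D₂ x hD hD₂
  obtain ⟨E', k, k', f, _, hx', hf, -⟩ := exists_basic U E x hU hx
  exact ⟨E', k, k'.trans h, k'.trans h', f, hx', hf⟩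

private theorem Val.unique (hφ : ∀ (a : Γ(S, U.1)) m, φ (a • m) = ev x hU a * φ m) {m : sec M V}
    {c c' : S.residueField x} (h : Val M x U hU φ V m c) (h' : Val M x U hU φ V m c') : c = c' := by
  obtain ⟨D₁, a₁, b₁, m₁, f₁, hx₁, hf₁, hm₁, hc₁⟩ := h
  obtain ⟨D₂, a₂, b₂, m₂, f₂, hx₂, hf₂, hm₂, hc₂⟩ := h'
  obtain ⟨E, k, k₁, k₂, f, hx, hf⟩ := Val.shrink hx₁ hx₂ hU
  have e₁ : res M k m₁ = rst k f₁ • res M (k₁.trans b₁) m := by
    have := congrArg (res M k₁) hm₁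
    rw [M.obj.res_res, M.obj.res_smul, M.obj.res_res, rst_rst] at this
    exact this
  have e₂ : res M k m₂ = rst k f₂ • res M (k₁.trans b₁) m := by
    have := congrArg (res M k₂) hm₂
    rw [M.obj.res_res, M.obj.res_smul, M.obj.res_res, rst_rst] at this
    exact this
  have e₃ : res M k (f₂ • m₁ - f₁ • m₂) = 0 := by
    rw [map_sub, M.obj.res_smul, M.obj.res_smul, e₁, e₂, smul_smul, smul_smul, mul_comm, sub_self]
  obtain ⟨n, hn⟩ := res_inj M k f hf _ e₃
  have h1 : ev x hU (f ^ n) ≠ 0 := by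
    rw [map_pow]
    exact pow_ne_zero _ (skyTo_ev_ne x hU f (hf ▸ hx))
  have h2 := congrArg φ hn
  rw [hφ, map_sub, hφ, hφ, hc₁, hc₂, map_zero] at h2
  have h3 := (mul_eq_zero.1 h2).resolve_left h1
  have h4 : ev x hU f₂ * ev x hU f₁ * (c - c') = 0 := by
    rw [← h3]; ring
  have h5 := (mul_eq_zero.1 h4).resolve_left (mul_ne_zero hf₂ hf₁)
  exact sub_eq_zero.1 h5

private theorem Val.add (hφ : ∀ (a : Γ(S, U.1)) m, φ (a • m) = ev x hU a * φ m) {m n : sec M V}
    {c c' : S.residueField x} (h : Val M x U hU φ V m c) (h' : Val M x U hU φ V n c') :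
    Val M x U hU φ V (m + n) (c + c') := by
  obtain ⟨D₁, a₁, b₁, m₁, f₁, hx₁, hf₁, hm₁, hc₁⟩ := h
  obtain ⟨D₂, a₂, b₂, m₂, f₂, hx₂, hf₂, hm₂, hc₂⟩ := h'
  obtain ⟨E, k, k₁, k₂, f, hx, hf⟩ := Val.shrink hx₁ hx₂ hU
  have e₁ : res M k m₁ = rst k f₁ • res M (k₁.trans b₁) m := by
    have := congrArg (res M k₁) hm₁
    rw [M.obj.res_res, M.obj.res_smul, M.obj.res_res, rst_rst] at this
    exact this
  have e₂ : res M k m₂ = rst k f₂ • res M (k₁.trans b₁) n := by
    have := congrArg (res M k₂) hm₂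
    rw [M.obj.res_res, M.obj.res_smul, M.obj.res_res, rst_rst] at this
    exact this
  refine ⟨E, k, k₁.trans b₁, f₂ • m₁ + f₁ • m₂, f₁ * f₂, hx, ?_, ?_, ?_⟩
  · rw [map_mul]
    exact mul_ne_zero hf₁ hf₂
  · rw [map_add, M.obj.res_smul, M.obj.res_smul, e₁, e₂, smul_smul, smul_smul, map_add, smul_add,
      map_mul, mul_comm (rst k f₂)]
  · rw [map_add, hφ, hφ, hc₁, hc₂, map_mul]
    ring

private theorem Val.smul (hφ : ∀ (a : Γ(S, U.1)) m, φ (a • m) = ev x hU a * φ m) {m : sec M V}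
    (hV : x ∈ V.1) {c : S.residueField x} (a : Γ(S, V.1)) (h : Val M x U hU φ V m c) :
    Val M x U hU φ V (a • m) (ev x hV a * c) := by
  obtain ⟨D₁, a₁, b₁, m₁, f₁, hx₁, hf₁, hm₁, hc₁⟩ := h
  obtain ⟨E, k, k₁, k₂, f, hx, hf⟩ := Val.shrink hx₁ hx₁ hU
  have e₁ : res M k m₁ = rst k f₁ • res M (k₁.trans b₁) m := by
    have := congrArg (res M k₁) hm₁
    rw [M.obj.res_res, M.obj.res_smul, M.obj.res_res, rst_rst] at this
    exact this
  obtain ⟨n, b, hb⟩ := skyTo_ext U f k hf (rst (k₁.trans b₁) a)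
  have hb' : ev x hU b = ev x hU f ^ n * ev x hV a := by
    have := congrArg (ev x hx) hb
    rw [map_mul, map_pow, ev_rst, ev_rst, ev_rst] at this
    exact this
  refine ⟨E, k, k₁.trans b₁, b • m₁, f ^ n * f₁, hx, ?_, ?_, ?_⟩
  · rw [map_mul, map_pow]
    exact mul_ne_zero (pow_ne_zero _ (skyTo_ev_ne x hU f (hf ▸ hx))) hf₁
  · rw [M.obj.res_smul, e₁, hb, M.obj.res_smul, smul_smul, smul_smul, map_mul, map_pow]
    congr 1
    ring
  · rw [hφ, hb', hc₁, map_mul, map_pow]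
    ring

private theorem Val.of_res {W : Aff S} (hW : W ≤ V) {m : sec M V} {c : S.residueField x}
    (h : Val M x U hU φ W (res M hW m) c) : Val M x U hU φ V m c := by
  obtain ⟨D₁, a₁, b₁, m₁, f₁, hx₁, hf₁, hm₁, hc₁⟩ := h
  rw [M.obj.res_res] at hm₁
  exact ⟨D₁, a₁, b₁.trans hW, m₁, f₁, hx₁, hf₁, hm₁, hc₁⟩

private theorem Val.self (m : sec M U) : Val M x U hU φ U m (φ m) := by
  refine ⟨U, le_rfl, le_rfl, m, 1, hU, ?_, ?_, ?_⟩
  · rw [map_one]
    exact one_ne_zero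
  · rw [map_one, one_smul]
  · rw [map_one, one_mul]

end

theorem exists_toSky (M : QCoh S) (x : S) (hx : IsClosed ({x} : Set S))
    (h : x ∈ Supp M) (U : Aff S) (hU : x ∈ U.1) (hM : Module.Finite Γ(S, U.1) (sec M U)) :
    ∃ p : M ⟶ sky x hx, p ≠ 0 := by
  obtain ⟨φ, hφ, hφ0⟩ := fibre_ne M x h U hU hM
  have hex : ∀ (V : Aff S) (_ : x ∈ V.1) (m : sec M V), ∃ c, Val M x U hU φ V m c :=
    fun V hV m => Val.exist hV m
  choose v hv using hex
  let F : ∀ V : Aff S, sec M V →ₗ[Γ(S, V.1)] sec (sky x hx) V := fun V =>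
    { toFun := fun m => (skyeq x hx V).symm fun k => v V k.down m
      map_add' := fun a b => by
        apply (skyeq x hx V).injective
        funext k
        rw [map_add]
        exact (hv V k.down (a + b)).unique hφ ((hv V k.down a).add hφ (hv V k.down b))
      map_smul' := fun a m => by
        apply (skyeq x hx V).injective
        funext k
        rw [RingHom.id_apply, skyeq_smul]
        exact (hv V k.down (a • m)).unique hφ ((hv V k.down m).smul hφ k.down a) }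
  let p : M ⟶ sky x hx := mkHom F (fun {W V} hW m => by
    apply (skyeq x hx W).injective
    funext k
    rw [skyeq_res]
    exact (hv V (hW k.down) m).unique hφ (Val.of_res hW (hv W k.down (res M hW m))))
  refine ⟨p, fun hp => hφ0 ?_⟩
  ext m
  have h1 : ap p U m = F U m := rfl
  have h2 : ap p U m = 0 := by rw [hp]; rfl
  have h3 : skyeq x hx U (F U m) ⟨hU⟩ = v U hU m := rfl
  have h4 : v U hU m = φ m := (hv U hU m).unique hφ (Val.self m)
  rw [← h1, h2, map_zero] at h3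
  rw [← h4, ← h3]
  rfl

end Pool.Agent.BE
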