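import Mathlib

/-!
# BE-ExF: an additive functor between abelian categories which preserves short exact sequences is
exact (see Mathlib `CategoryTheory/Preadditive/LeftExact`, `CategoryTheory/Abelian/Exact`,
`Functor.preservesFiniteLimits_tfae`, `Functor.preservesFiniteColimits_tfae`,
`ShortComplex.ShortExact`)
-/

open CategoryTheory CategoryTheory.Limits AlgebraicGeometry Opposite TopologicalSpace

namespace Pool.Agent.BE

variable {S : Scheme.{0}}

theorem exact_of_shortExact {A B : Type*} [Category A] [Abelian A] [Category B] [Abelian B]
    (F : A ⥤ B) [F.Additive]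
    (h : ∀ T : ShortComplex A, T.ShortExact → (T.map F).ShortExact) :
    PreservesFiniteLimits F ∧ PreservesFiniteColimits F :=
  ((Functor.exact_tfae F).out 0 3).1 h

end Pool.Agent.BE
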