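import Pool.Agent.BE.Base
import Pool.Agent.BE.Pt
import Pool.Agent.BE.ExF

/-!
# BE-JEx: `J W` is additive and exact (pointwise, `ap_J`, `shortExact_iff`, `exact_of_shortExact`)
-/

open CategoryTheory CategoryTheory.Limits AlgebraicGeometry Opposite TopologicalSpace

namespace Pool.Agent.BE

variable {S : Scheme.{0}}

instance J_additive {W : S.Opens} (hW : AffInc W) : (J hW).Additive := by
  refine ⟨fun {M N f g} => ?_⟩
  apply qhom_ext
  intro U m
  apply (jeq hW N U).injective
  have h1 : ap ((J hW).map f + (J hW).map g) U m =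
      ap ((J hW).map f) U m + ap ((J hW).map g) U m := rfl
  have h2 : ap (f + g) (cap hW U) (jeq hW M U m) =
      ap f (cap hW U) (jeq hW M U m) + ap g (cap hW U) (jeq hW M U m) := rfl
  rw [h1, map_add, ap_J, ap_J, ap_J, h2]

theorem J_exact {W : S.Opens} (hW : AffInc W) :
    PreservesFiniteLimits (J hW) ∧ PreservesFiniteColimits (J hW) := by
  refine exact_of_shortExact (J hW) fun T hT => ?_
  rw [shortExact_iff] at hT ⊢
  obtain ⟨h1, h2, h3⟩ := hT
  refine ⟨fun U a b hab => ?_, fun U b => ?_, fun U c => ?_⟩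
  · apply (jeq hW T.X₁ U).injective
    apply h1 (cap hW U)
    have h := congrArg (jeq hW T.X₂ U) hab
    exact h
  · constructor
    · intro hb
      have hb' : ap T.g (cap hW U) (jeq hW T.X₂ U b) = 0 := congrArg (jeq hW T.X₃ U) hb
      obtain ⟨a, ha⟩ := (h2 (cap hW U) _).1 hb'
      refine ⟨(jeq hW T.X₁ U).symm a, ?_⟩
      exact (jeq hW T.X₂ U).injective ha
    · rintro ⟨a, rfl⟩
      have ha : ap T.g (cap hW U) (ap T.f (cap hW U) (jeq hW T.X₁ U a)) = 0 :=
        (h2 (cap hW U) _).2 ⟨_, rfl⟩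
      exact (jeq hW T.X₃ U).injective ha
  · obtain ⟨b, hb⟩ := h3 (cap hW U) (jeq hW T.X₃ U c)
    refine ⟨(jeq hW T.X₂ U).symm b, ?_⟩
    exact (jeq hW T.X₃ U).injective hb

noncomputable instance J_finLim {W : S.Opens} (hW : AffInc W) : PreservesFiniteLimits (J hW) :=
  (J_exact hW).1

noncomputable instance J_finColim {W : S.Opens} (hW : AffInc W) : PreservesFiniteColimits (J hW) :=
  (J_exact hW).2

end Pool.Agent.BE
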