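import Pool.Agent.BE.SuppA
import Pool.Agent.BE.JEx

/-!
# BE-SuppJ: supports and the functors `J W`

All from `subsingleton_of_disjoint` and `res_bijective`. `pi_iso`: check on sections over small affine
opens: a morphism of quasi-coherent modules which is bijective on sections over a neighbourhood basis
of every point is an isomorphism (kernel and cokernel vanish locally, `subsingleton_of_local`).
-/

open CategoryTheory CategoryTheory.Limits AlgebraicGeometry Opposite TopologicalSpace

namespace Pool.Agent.BE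

variable {S : Scheme.{0}}

private theorem sj_not_mem {M : QCoh S} {s : S} (h : s ∉ Supp M) :
    ∃ U : Aff S, s ∈ U.1 ∧ Subsingleton (sec M U) := by
  by_contra hc
  apply h
  intro U hU
  rw [← not_subsingleton_iff_nontrivial]
  exact fun h1 => hc ⟨U, hU, h1⟩

private theorem sj_disj {M : QCoh S} {U : Aff S} (h : Subsingleton (sec M U)) :
    ∀ s ∈ U.1, s ∉ Supp M := fun _ hs h1 =>
  not_subsingleton_iff_nontrivial.2 (h1 U hs) h

private theorem sj_sub {W : S.Opens} (hW : AffInc W) (M : QCoh S) (U : Aff S)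
    (h : ∀ s ∈ U.1, s ∈ W → s ∉ Supp M) : Subsingleton (sec ((J hW).obj M) U) := by
  have h1 : Subsingleton (sec M (cap hW U)) :=
    subsingleton_of_disjoint M (cap hW U) fun s hs => h s hs.1 hs.2
  exact (jeq hW M U).toEquiv.subsingleton

theorem supp_J {W : S.Opens} (hW : AffInc W) (M : QCoh S) :
    Supp ((J hW).obj M) ⊆ Supp M := by
  intro s hs
  by_contra hc
  obtain ⟨U, hU, hU0⟩ := sj_not_mem hc
  exact sj_disj (sj_sub hW M U fun s' hs' _ => sj_disj hU0 s' hs') s hU hs

/-- `J_W M = 0` if `W` does not meet the support -/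
theorem J_zero {W : S.Opens} (hW : AffInc W) (M : QCoh S) (h : ∀ s ∈ Supp M, s ∉ W) :
    IsZero ((J hW).obj M) := by
  rw [isZero_iff]
  exact fun U => sj_sub hW M U fun s _ hs hc => h s hc hs

private theorem sj_bij {W : S.Opens} (hW : AffInc W) (M : QCoh S) (U : Aff S)
    (h : ∀ s ∈ U.1, s ∈ Supp M → s ∈ W) : Function.Bijective (ap ((ιJ hW).app M) U) := by
  have h1 : Function.Bijective (res M (cap_le hW U)) :=
    res_bijective M (cap_le hW U) fun s hs hs' => ⟨hs, h s hs hs'⟩
  exact (jeq hW M U).symm.bijective.comp h1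

/-- `M → J_W M` is an isomorphism if the support lies in `W` -/
theorem ιJ_iso {W : S.Opens} (hW : AffInc W) (M : QCoh S) (h : ∀ s ∈ Supp M, s ∈ W) :
    IsIso ((ιJ hW).app M) := by
  rw [iso_iff]
  exact fun U => sj_bij hW M U fun s _ hs => h s hs

/-- a morphism which is bijective near every point is an isomorphism -/
private theorem sj_iso_of_local {M N : QCoh S} (f : M ⟶ N)
    (h : ∀ (U : Aff S), ∀ s ∈ U.1, ∃ D : Aff S, s ∈ D.1 ∧ Function.Bijective (ap f D)) :
    IsIso f := by
  have h1 : IsZero (kernel f) := by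
    rw [isZero_iff]
    intro U
    refine subsingleton_of_local _ U fun s hs => ?_
    obtain ⟨D, hD, hb⟩ := h U s hs
    refine ⟨D, hD, ⟨fun a b => ?_⟩⟩
    apply (mono_iff (kernel.ι f)).1 inferInstance D
    apply hb.1
    have key : ∀ x : sec (kernel f) D, ap f D (ap (kernel.ι f) D x) = 0 := by
      intro x
      have e1 : ap f D (ap (kernel.ι f) D x) = ap (kernel.ι f ≫ f) D x := rfl
      rw [e1, kernel.condition]
      rfl
    rw [key, key]
  have h2 : IsZero (cokernel f) := by
    rw [isZero_iff]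
    intro U
    refine subsingleton_of_local _ U fun s hs => ?_
    obtain ⟨D, hD, hb⟩ := h U s hs
    have key : ∀ x : sec (cokernel f) D, x = 0 := by
      intro x
      obtain ⟨y, rfl⟩ := (epi_iff (cokernel.π f)).1 inferInstance D x
      obtain ⟨z, rfl⟩ := hb.2 y
      have e1 : ap (cokernel.π f) D (ap f D z) = ap (f ≫ cokernel.π f) D z := rfl
      rw [e1, cokernel.condition]
      rfl
    exact ⟨D, hD, ⟨fun a b => by rw [key a, key b]⟩⟩
  have : Mono f := Preadditive.mono_of_isZero_kernel f h1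
  have : Epi f := Preadditive.epi_of_isZero_cokernel f h2
  exact isIso_of_mono_of_epi f

private theorem sj_ap_sum {ι : Type} (s : Finset ι) {M N : QCoh S} (f : ι → (M ⟶ N)) (U : Aff S)
    (m : sec M U) : ap (∑ i ∈ s, f i) U m = ∑ i ∈ s, ap (f i) U m := by
  classical
  induction s using Finset.induction_on with
  | empty => simp only [Finset.sum_empty]; rfl
  | insert a s ha ih =>
    rw [Finset.sum_insert ha, Finset.sum_insert ha, ← ih]
    rfl

private theorem sj_joint {ι : Type} [Fintype ι] (F : ι → QCoh S) (U : Aff S) {x y : sec (∏ᶜ F) U}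
    (h : ∀ i, ap (Pi.π F i) U x = ap (Pi.π F i) U y) : x = y := by
  classical
  have h1 : ∑ i, Pi.π F i ≫ Pi.ι F i = 𝟙 (∏ᶜ F) := by
    apply Pi.hom_ext
    intro j
    rw [Preadditive.sum_comp, Finset.sum_eq_single j]
    · rw [Category.assoc, Pi.ι_π_eq_id, Category.comp_id, Category.id_comp]
    · intro i _ hi
      rw [Category.assoc, Pi.ι_π_of_ne _ hi, comp_zero]
    · intro hj
      exact absurd (Finset.mem_univ j) hj
  have key : ∀ z : sec (∏ᶜ F) U, z = ∑ i, ap (Pi.ι F i) U (ap (Pi.π F i) U z) := by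
    intro z
    have e1 : z = ap (𝟙 (∏ᶜ F)) U z := rfl
    conv_lhs => rw [e1, ← h1, sj_ap_sum]
    rfl
  rw [key x, key y]
  exact Finset.sum_congr rfl fun i _ => by rw [h i]

/-- decomposition according to a finite family of opens which separates the support -/
theorem pi_iso {ι : Type} [Fintype ι] (W : ι → S.Opens) (hW : ∀ i, AffInc (W i)) (M : QCoh S)
    (h : ∀ s ∈ Supp M, ∃! i, s ∈ W i) :
    IsIso (Pi.lift (fun i => (ιJ (hW i)).app M)) := by
  classical
  apply sj_iso_of_local
  have hπ : ∀ (D : Aff S) (i : ι) (m : sec M D),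
      ap (Pi.π (fun i => (J (hW i)).obj M) i) D (ap (Pi.lift (fun i => (ιJ (hW i)).app M)) D m) =
        ap ((ιJ (hW i)).app M) D m := by
    intro D i m
    have e1 : ap (Pi.π (fun i => (J (hW i)).obj M) i) D
        (ap (Pi.lift (fun i => (ιJ (hW i)).app M)) D m) =
        ap (Pi.lift (fun i => (ιJ (hW i)).app M) ≫ Pi.π (fun i => (J (hW i)).obj M) i) D m := rfl
    rw [e1, Pi.lift_π]
  intro U s hs
  by_cases hM : s ∈ Supp M
  · obtain ⟨i, hi, hu⟩ := h s hM
    refine ⟨cap (hW i) U, ⟨hs, hi⟩, ?_⟩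
    have hb : Function.Bijective (ap ((ιJ (hW i)).app M) (cap (hW i) U)) :=
      sj_bij (hW i) M _ fun s hs _ => hs.2
    have hz : ∀ j, j ≠ i → Subsingleton (sec ((J (hW j)).obj M) (cap (hW i) U)) := fun j hj =>
      sj_sub (hW j) M _ fun s' hs' hs'' hc => hj ((h s' hc).unique hs'' hs'.2)
    refine ⟨fun a b hab => hb.1 ?_, fun x => ?_⟩
    · rw [← hπ, ← hπ]
      exact congrArg _ hab
    · obtain ⟨m, hm⟩ := hb.2 (ap (Pi.π (fun i => (J (hW i)).obj M) i) _ x)
      refine ⟨m, sj_joint _ _ fun j => ?_⟩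
      rw [hπ]
      by_cases hj : j = i
      · subst hj
        exact hm
      · exact (hz j hj).elim _ _
  · obtain ⟨V, hV, hV0⟩ := sj_not_mem hM
    refine ⟨V, hV, ⟨fun a b _ => hV0.elim a b, fun x => ⟨0, sj_joint _ _ fun j => ?_⟩⟩⟩
    exact (sj_sub (hW j) M V fun s' hs' _ => sj_disj hV0 s' hs').elim _ _

end Pool.Agent.BE
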