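import Pool.Agent.BE.MainDefs
import Pool.Agent.BE.DerN
import Pool.Agent.BE.DerT
import Pool.Agent.BE.SuppJ
import Pool.Agent.BE.Aff
import Pool.Agent.BE.SkyTo
import Pool.Agent.BE.DbcT

/-!
# BE-PhC: the highest cohomology at a closed point

Choose an affine `U ∋ y` which does not meet `Supp (Hn n X)` for `t < n` (finitely many nonzero, closed sets
not containing `y`). `η' : X → J_U X` (`exists_natTrans`), `Hn n (J_U X) ≅ J_U (Hn n X)`, zero for `n > t` (`J_zero`).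
`p : Hn t X → sky y` nonzero (`exists_toSky`). `ιJ` is an isomorphism on `sky y` (`ιJ_iso`, `supp_sky`). Map
`q : Hn t (J_U X) ≅ J_U (Hn t X) → J_U (sky y) ≅ sky y`; `exists_from_top` gives `u : J_U X → O_y⟦-t⟧`; `η'_X ≫ u` is on `H^t`
(up to `e`) `ιJ ≫ J_U(p) ≫ (ιJ)⁻¹ = p ≠ 0`.
-/

open CategoryTheory CategoryTheory.Limits CategoryTheory.Pretriangulated AlgebraicGeometry
  Opposite TopologicalSpace DerivedCategory

namespace Pool.Agent.BE

universe w

variable {S : Scheme.{0}}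

theorem top_sky [IsNoetherian S] [S.IsSeparated] [HasDerivedCategory.{w} (QCoh S)]
    (y : S) (hy : IsClosed ({y} : Set S)) (X : DerivedCategory (QCoh S)) (hX : Dbc S X)
    (t : ℤ) (ht : y ∈ Supp (Hn t X)) (htop : ∀ n, t < n → y ∉ Supp (Hn n X)) :
    ∃ u : X ⟶ (Ox y hy)⟦-t⟧, u ≠ 0 := by
  obtain ⟨hcoh, a, b, hab⟩ := hX
  have hcl : IsClosed (⋃ n ∈ Finset.Ioc t b, Supp (Hn n X)) :=
    isClosed_biUnion_finset fun n _ => supp_closed _
  have hy2 : y ∈ (⟨(⋃ n ∈ Finset.Ioc t b, Supp (Hn n X))ᶜ, hcl.isOpen_compl⟩ : S.Opens) := by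
    intro h
    rw [Set.mem_iUnion₂] at h
    obtain ⟨n, hn, h⟩ := h
    exact htop n (Finset.mem_Ioc.1 hn).1 h
  obtain ⟨U0, hU0, hyU, hle⟩ := (Opens.isBasis_iff_nbhd.1 S.isBasis_affineOpens) hy2
  let U : Aff S := ⟨U0, hU0⟩
  have hW : AffInc U.1 := affInc_of_affine U
  have hdis : ∀ n, t < n → ∀ s ∈ Supp (Hn n X), s ∉ U.1 := by
    intro n hn s hs hsU
    by_cases hnb : n ≤ b
    · exact hle hsU (Set.mem_iUnion₂.2 ⟨n, Finset.mem_Ioc.2 ⟨hn, hnb⟩, hs⟩)
    · have h1 := (isZero_iff_supp _).1 (hab n (Or.inr (not_le.1 hnb)))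
      rw [h1] at hs
      exact hs
  obtain ⟨η', hη⟩ := exists_natTrans (J hW) (ιJ hW)
  have hz : ∀ n, t < n → IsZero (Hn n ((J hW).mapDerivedCategory.obj X)) := by
    intro n hn
    obtain ⟨e, -⟩ := hη n
    exact (J_zero hW (Hn n X) (hdis n hn)).of_iso (e.app X)
  obtain ⟨p, hp⟩ := exists_toSky (Hn t X) y hy ht U hyU (hcoh t U)
  have hiso : IsIso ((ιJ hW).app (sky y hy)) := by
    refine ιJ_iso hW _ fun s hs => ?_
    rw [supp_sky] at hs
    rw [Set.mem_singleton_iff.1 hs]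
    exact hyU
  obtain ⟨e, he⟩ := hη t
  obtain ⟨u, e', hu⟩ := exists_from_top ((J hW).mapDerivedCategory.obj X) t hz (sky y hy)
    (e.hom.app X ≫ (J hW).map p ≫ inv ((ιJ hW).app (sky y hy)))
  refine ⟨η'.app X ≫ u, fun h0 => hp ?_⟩
  have h1 : (homologyFunctor (QCoh S) t).map (η'.app X) ≫
      ((homologyFunctor (QCoh S) t).map u ≫ e'.hom) = 0 := by
    have h3 : (homologyFunctor (QCoh S) t).map (η'.app X ≫ u) = 0 :=
      (congrArg _ h0).trans (Functor.map_zero _ _ _)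
    rw [← Category.assoc, ← Functor.map_comp, h3, zero_comp]
  rw [hu, ← Category.assoc, he X, ← Category.assoc] at h1
  have h2 := (ιJ hW).naturality p
  rw [← h2, Category.assoc, IsIso.hom_inv_id, Category.comp_id] at h1
  exact h1

end Pool.Agent.BE
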