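import Pool.Agent.BE.StF

/-!
# BE-StI: induction on stable objects

`X ∈ T` has an HN filtration; by induction on it it is enough to treat `A ∈ P φ`. For `A ∈ P φ` use strong
induction on the maximal length `n` of a chain `Chain (P φ) n A` (bounded by `fin_len`): if `A ≠ 0` take
`A' → A → B` with `B` stable, `A' ∈ P φ` (`exists_stable_quot`): the chains of `A'` are shorter, so `Q A'`, `Q B` by `hQs`,
so `Q A` by `hQe`.
-/

open CategoryTheory CategoryTheory.Limits CategoryTheory.Pretriangulated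
open scoped ZeroObject

namespace Pool.Agent.BE

universe v u

variable {D : Type u} [Category.{v} D] [Preadditive D] [HasZeroObject D] [HasShift D ℤ]
  [∀ n : ℤ, (shiftFunctor D n).Additive] [Pretriangulated D] [IsTriangulated D]
  {T : ObjectProperty D} [T.IsTriangulated] [T.IsClosedUnderIsomorphisms]

namespace StabCond

variable (σ : StabCond T)

private theorem sti_semistable (Q : ObjectProperty D) (hQ0 : ∀ X, IsZero X → Q X)
    (hQe : ∀ (A X B : D) (f : A ⟶ X) (g : X ⟶ B) (h : B ⟶ A⟦(1 : ℤ)⟧),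
      Triangle.mk f g h ∈ distTriang D → Q A → Q B → Q X)
    (hQs : ∀ X, σ.Stable X → Q X) (φ : ℝ) : ∀ (N : ℕ) (A : D), σ.P φ A →
      (∀ n, Chain (σ.P φ) n A → n ≤ N) → Q A := by
  intro N
  induction N with
  | zero =>
    intro A hA hN
    by_cases h0 : IsZero A
    · exact hQ0 A h0
    · have h1 : Chain (σ.P φ) 1 A :=
        Chain.succ 0 (0 : D) A A 0 (𝟙 A) 0 (contractible_distinguished₁ A) hA h0 hA
          (Chain.zero _ (isZero_zero D)) (σ.P_zero φ _ (isZero_zero D))
      have := hN 1 h1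
      omega
  | succ N ih =>
    intro A hA hN
    by_cases h0 : IsZero A
    · exact hQ0 A h0
    · obtain ⟨A', B, f, g, h, hT, hA', hB⟩ := σ.exists_stable_quot hA h0
      refine hQe A' A B f g h hT (ih A' hA' ?_) (hQs B ⟨φ, hB⟩)
      intro n hn
      have h1 : Chain (σ.P φ) (n + 1) A :=
        Chain.succ n A' A B f g h hT hB.1 hB.2.1 hA hn hA'
      have := hN _ h1
      omega

private theorem sti_hn (Q : ObjectProperty D) (hQ0 : ∀ X, IsZero X → Q X)
    (hQe : ∀ (A X B : D) (f : A ⟶ X) (g : X ⟶ B) (h : B ⟶ A⟦(1 : ℤ)⟧),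
      Triangle.mk f g h ∈ distTriang D → Q A → Q B → Q X)
    (hQs : ∀ X, σ.Stable X → Q X) {l : List ℝ} {X : D} (h : HNFilt σ.P l X) : Q X := by
  induction h with
  | zero X h => exact hQ0 X h
  | cons φ l E X A f g h hT hA hA0 hl hE ih =>
    obtain ⟨N, hN⟩ := σ.fin_len φ A hA
    exact hQe E X A f g h hT ih (sti_semistable σ Q hQ0 hQe hQs φ N A hA hN)

/-- induction on stable objects -/
theorem stable_induction (Q : ObjectProperty D) (hQ0 : ∀ X, IsZero X → Q X)
    (hQe : ∀ (A X B : D) (f : A ⟶ X) (g : X ⟶ B) (h : B ⟶ A⟦(1 : ℤ)⟧),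
      Triangle.mk f g h ∈ distTriang D → Q A → Q B → Q X)
    (hQs : ∀ X, σ.Stable X → Q X) : ∀ X, T X → Q X := by
  intro X hX
  obtain ⟨l, hl⟩ := σ.hn X hX
  exact sti_hn σ Q hQ0 hQe hQs hl

end StabCond

end Pool.Agent.BE
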