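import Pool.Agent.BE.PhO
import Pool.Agent.BE.DbcT
import Pool.Agent.BE.StI

/-!
# BE-PhD: a stable object supported everywhere

`stable_induction` with `Q X := ∀ n, genericPoint S ∉ Supp (Hn n X)` (`supp_tri`, zero objects have empty supports): if no
stable object is as claimed then `Q` holds for all objects of `Dbc S`; but `(singleFunctor _ 0).obj M` with `M` from
`exists_coh_generic` is in `Dbc S` (`Hn_single`, `Hn_single_ne`) and does not satisfy `Q`.
-/

open CategoryTheory CategoryTheory.Limits CategoryTheory.Pretriangulated AlgebraicGeometry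
  Opposite TopologicalSpace DerivedCategory

namespace Pool.Agent.BE

universe w

variable {S : Scheme.{0}}

private theorem coh_of_isZero {M : QCoh S} (h : IsZero M) : Coh M := by
  intro U
  have hs : Supp M = ∅ := (isZero_iff_supp M).1 h
  have : Subsingleton (sec M U) := subsingleton_of_disjoint M U fun s _ hs' => by
    rw [hs] at hs'
    exact hs'
  infer_instance

theorem exists_stable_generic [IsNoetherian S] [IsIntegral S] [HasDerivedCategory.{w} (QCoh S)]
    (σ : StabCond (Dbc S)) :
    ∃ X, σ.Stable X ∧ Dbc S X ∧ ∃ n, genericPoint S ∈ Supp (Hn n X) := by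
  by_contra hno
  have hQ : ∀ X, Dbc S X → ∀ n, genericPoint S ∉ Supp (Hn n X) := by
    refine σ.stable_induction (fun X => ∀ n, genericPoint S ∉ Supp (Hn n X)) ?_ ?_ ?_
    · intro X hX n hn
      have h1 : IsZero (Hn n X) := (homologyFunctor (QCoh S) n).map_isZero hX
      rw [(isZero_iff_supp _).1 h1] at hn
      exact hn
    · intro A X B f g h hT hA hB n hn
      rcases supp_tri f g h hT n hn with h1 | h1
      · exact hA n h1
      · exact hB n h1
    · intro X hX n hn
      obtain ⟨φ, hφ⟩ := hX
      exact hno ⟨X, ⟨φ, hφ⟩, σ.P_le φ X hφ.1, n, hn⟩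
  obtain ⟨M, hM, hg⟩ := exists_coh_generic (S := S)
  obtain ⟨e⟩ := Hn_single M
  refine hQ ((singleFunctor (QCoh S) 0).obj M) ⟨fun n => ?_, 0, 0, fun n hn => ?_⟩ 0 ?_
  · rcases eq_or_ne n 0 with rfl | hn
    · exact coh_of_iso e.symm hM
    · exact coh_of_isZero (Hn_single_ne M n hn)
  · exact Hn_single_ne M n (by omega)
  · rw [supp_of_iso e]
    exact hg

end Pool.Agent.BE
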