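import Pool.Agent.BE.Sky0

/-!
# BE-PhE: systems of parameters

`R = O_{S,y}` is noetherian local of dimension `≤ 2`. `Ideal.exists_spanRank_eq_and_height_eq` (Krull height
theorem file) for the maximal ideal `𝔪`: an ideal `J ≤ 𝔪` generated by at most two elements with
`J.height = 𝔪.height`; a prime `P ⊇ J`, `P ≤ 𝔪` minimal over `J` has `height P ≥ height J = height 𝔪`, so `P = 𝔪`. Let `U0` be an
affine neighbourhood of `y`, `A = Γ(U0)`, `R = A_𝔫`, `𝔫` maximal. Multiply the two generators by units: they come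
from `a1, a2 ∈ A`. `𝔫` is minimal over `(a1, a2)`; the other minimal primes `P_j` of `(a1, a2)` (finitely many) are not
contained in `𝔫` and... choose `f ∈ ⋂ P_j`, `f ∉ 𝔫` (prime avoidance: `∏ P_j ⊄ 𝔫` because `P_j ⊄ 𝔫`: `P_j ⊆ 𝔫` would
contradict minimality of `𝔫`). `U = D(f)`: a point `s ∈ D(f)` with `a1(s) = a2(s) = 0` has prime containing `𝔫`
(not any `P_j`), so it is `𝔫` (maximal), `s = y`.
-/

open CategoryTheory CategoryTheory.Limits AlgebraicGeometry Opposite TopologicalSpace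

namespace Pool.Agent.BE

variable {S : Scheme.{0}}

private lemma two_gen {A : Type} [CommRing A] (s : Finset A) (h : s.card ≤ 2) :
    ∃ a1 a2 : A, Ideal.span (s : Set A) = Ideal.span {a1, a2} := by
  classical
  have : s.card = 0 ∨ s.card = 1 ∨ s.card = 2 := by omega
  rcases this with h | h | h
  · rw [Finset.card_eq_zero] at h
    subst h
    exact ⟨0, 0, by simp⟩
  · obtain ⟨a, rfl⟩ := Finset.card_eq_one.1 h
    exact ⟨a, a, by simp⟩
  · obtain ⟨a, b, -, rfl⟩ := Finset.card_eq_two.1 h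
    exact ⟨a, b, by simp⟩

private lemma mem_prime_iff {U : S.Opens} (hU : IsAffineOpen U) (x : S) (hx : x ∈ U) (f : Γ(S, U)) :
    f ∈ (hU.primeIdealOf ⟨x, hx⟩).asIdeal ↔ ev x hx f = 0 := by
  have h1 : ev x hx f = 0 ↔ x ∉ S.basicOpen f :=
    Scheme.evaluation_eq_zero_iff_notMem_basicOpen S x hx f
  rw [h1]
  have h2 : hU.fromSpec (hU.primeIdealOf ⟨x, hx⟩) = x := hU.fromSpec_primeIdealOf ⟨x, hx⟩
  have h3 : hU.primeIdealOf ⟨x, hx⟩ ∈ hU.fromSpec ⁻¹ᵁ S.basicOpen f ↔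
      hU.primeIdealOf ⟨x, hx⟩ ∈ PrimeSpectrum.basicOpen f := by
    rw [hU.fromSpec_preimage_basicOpen f]
    rfl
  have h4 : hU.primeIdealOf ⟨x, hx⟩ ∈ hU.fromSpec ⁻¹ᵁ S.basicOpen f ↔ x ∈ S.basicOpen f := by
    change hU.fromSpec (hU.primeIdealOf ⟨x, hx⟩) ∈ S.basicOpen f ↔ _
    rw [h2]
  rw [← h4, h3]
  change _ ↔ ¬ (f ∉ _)
  rw [not_not]

theorem exists_sop [IsLocallyNoetherian S] (y : S) (hy : IsClosed ({y} : Set S))
    (hd : ringKrullDim (S.presheaf.stalk y) ≤ 2) :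
    ∃ (U : Aff S) (hU : y ∈ U.1) (a1 a2 : Γ(S, U.1)), ev y hU a1 = 0 ∧ ev y hU a2 = 0 ∧
      ∀ s (hs : s ∈ U.1), ev s hs a1 = 0 → ev s hs a2 = 0 → s = y := by
  classical
  obtain ⟨U0, hU0, hy0, -⟩ := exists_isAffineOpen_mem_and_subset (X := S) (x := y) (U := ⊤)
    (by trivial)
  have hN : IsNoetherianRing Γ(S, U0) := IsLocallyNoetherian.component_noetherian ⟨U0, hU0⟩
  set n : Ideal Γ(S, U0) := (hU0.primeIdealOf ⟨y, hy0⟩).asIdeal with hn
  have hnp : n.IsPrime := (hU0.primeIdealOf ⟨y, hy0⟩).isPrime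
  -- height
  have hht : n.height ≤ 2 := by
    have hloc := hU0.isLocalization_stalk ⟨y, hy0⟩
    have h1 := @IsLocalization.AtPrime.ringKrullDim_eq_height Γ(S, U0) _ n hnp
      (S.presheaf.stalk y) _ (S.presheaf.algebra_section_stalk ⟨y, hy0⟩) hloc
    rw [h1] at hd
    exact WithBot.coe_le_coe.1 hd
  obtain ⟨G, hG, hcard⟩ := Ideal.exists_finset_card_eq_height_of_isNoetherianRing n
  have hc2 : G.card ≤ 2 := by
    rw [← hcard] at hht
    exact_mod_cast hht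
  obtain ⟨a1, a2, ha⟩ := two_gen G hc2
  rw [ha] at hG
  have hfin : (Ideal.span {a1, a2}).minimalPrimes.Finite :=
    Ideal.finite_minimalPrimes_of_isNoetherianRing _ _
  -- the function `f`
  have hf : ∃ f ∉ n, ∀ P ∈ (Ideal.span {a1, a2}).minimalPrimes, P ≠ n → f ∈ P := by
    by_contra hcon
    push Not at hcon
    have h1 : ∏ P ∈ hfin.toFinset.erase n, P ≤ n := by
      intro f hf
      by_contra hfn
      obtain ⟨P, hP, hPn, hfP⟩ := hcon f hfn
      apply hfP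
      have h2 : ∏ P ∈ hfin.toFinset.erase n, P ≤ P :=
        Ideal.prod_le_inf.trans (Finset.inf_le (f := id)
          (Finset.mem_erase.2 ⟨hPn, hfin.mem_toFinset.2 hP⟩))
      exact h2 hf
    obtain ⟨P, hP, hPn⟩ := (Ideal.IsPrime.prod_le hnp).1 h1
    obtain ⟨h3, h4⟩ := Finset.mem_erase.1 hP
    rw [hfin.mem_toFinset] at h4
    exact h3 (le_antisymm hPn (hG.2 h4.1 hPn))
  obtain ⟨f, hfn, hf⟩ := hf
  have hyf : y ∈ S.basicOpen f := by
    by_contra h
    exact hfn ((mem_prime_iff hU0 y hy0 f).2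
      ((Scheme.evaluation_eq_zero_iff_notMem_basicOpen S y hy0 f).2 h))
  have hle : S.basicOpen f ≤ U0 := S.basicOpen_le f
  have hsub : ({a1, a2} : Set Γ(S, U0)) ⊆ n := fun a h => hG.1.2 (Ideal.subset_span h)
  refine ⟨⟨S.basicOpen f, hU0.basicOpen f⟩, hyf, rst hle a1, rst hle a2, ?_, ?_, ?_⟩
  · rw [ev_rst]
    exact (mem_prime_iff hU0 y hy0 a1).1 (hsub (by simp))
  · rw [ev_rst]
    exact (mem_prime_iff hU0 y hy0 a2).1 (hsub (by simp))
  · intro s hs h1 h2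
    have hs0 : s ∈ U0 := hle hs
    rw [ev_rst] at h1 h2
    have hsp : (hU0.primeIdealOf ⟨s, hs0⟩).asIdeal.IsPrime := (hU0.primeIdealOf ⟨s, hs0⟩).isPrime
    have h3 : Ideal.span {a1, a2} ≤ (hU0.primeIdealOf ⟨s, hs0⟩).asIdeal := by
      rw [Ideal.span_le]
      rintro a (rfl | rfl)
      · exact (mem_prime_iff hU0 s hs0 a).2 h1
      · exact (mem_prime_iff hU0 s hs0 a).2 h2
    obtain ⟨Q, hQ, hQs⟩ := Ideal.exists_minimalPrimes_le h3
    have hQn : Q = n := by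
      by_contra hne
      have h4 := hQs (hf Q hQ hne)
      rw [mem_prime_iff hU0 s hs0 f] at h4
      exact (Scheme.evaluation_eq_zero_iff_notMem_basicOpen S s hs0 f).1 h4 hs
    rw [hQn] at hQs
    have h5 : hU0.primeIdealOf ⟨y, hy0⟩ ⤳ hU0.primeIdealOf ⟨s, hs0⟩ :=
      (PrimeSpectrum.le_iff_specializes _ _).1 hQs
    have h6 := h5.map hU0.fromSpec.continuous
    rw [hU0.fromSpec_primeIdealOf, hU0.fromSpec_primeIdealOf] at h6
    have h7 := h6.mem_closed hy (Set.mem_singleton y)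
    exact h7

end Pool.Agent.BE
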