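import Pool.Agent.BE.StE

/-!
# BE-StH: phases of stable objects with a nonzero morphism

`φ ≤ ψ` by `σ.hom_zero`. If `φ = ψ`: `exists_kernel` gives `K → X → Y`, `K ∈ P φ`; `X` stable: `K = 0` or `Y = 0`; `Y ≠ 0`,
so `K = 0` and `f` is an isomorphism.
-/

open CategoryTheory CategoryTheory.Limits CategoryTheory.Pretriangulated

namespace Pool.Agent.BE

universe v u

variable {D : Type u} [Category.{v} D] [Preadditive D] [HasZeroObject D] [HasShift D ℤ]
  [∀ n : ℤ, (shiftFunctor D n).Additive] [Pretriangulated D] [IsTriangulated D]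
  {T : ObjectProperty D} [T.IsTriangulated] [T.IsClosedUnderIsomorphisms]

namespace StabCond

variable (σ : StabCond T)

/-- phases of stable objects with a nonzero morphism -/
theorem stable_hom_le {φ ψ : ℝ} {X Y : D} (hX : σ.StableOf φ X) (hY : σ.StableOf ψ Y)
    (f : X ⟶ Y) (hf : f ≠ 0) : φ < ψ ∨ (φ = ψ ∧ IsIso f) := by
  have hle : φ ≤ ψ := by
    by_contra hlt
    exact hf (σ.hom_zero φ ψ (not_le.mp hlt) X Y hX.1 hY.1 f)
  rcases hle.lt_or_eq with h | h
  · exact Or.inl h
  · right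
    subst h
    refine ⟨rfl, ?_⟩
    obtain ⟨K, k, h, hT, hK⟩ := σ.exists_kernel hX.1 hY f hf
    rcases hX.2.2 K Y k f h hT hK hY.1 with hz | hz
    · exact (Triangle.isZero₁_iff_isIso₂ _ hT).1 hz
    · exact absurd hz hY.2.1

end StabCond

end Pool.Agent.BE
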