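import Pool.Agent.BE.PhB2
import Pool.Agent.BE.PhC
import Pool.Agent.BE.PhD
import Pool.Agent.BE.PhE
import Pool.Agent.BE.StH

/-!
# BE-PhF: the phases of stable skyscraper sheaves differ by less than 2 (see be/proof.md, (8))

`M` from `exists_stable_generic`, stable of phase `θ`, `genericPoint S ∈ Supp (Hn n0 M)`, so `Supp (Hn n0 M) = univ`
(closed, contains the generic point). `t` = largest `n` with `x ∈ Supp (Hn n M)`, `t ≥ n0`: `top_sky` and
`stable_hom_le` (`(Ox x)⟦-t⟧` is stable of phase `φ - t`: `P_shift_int`, shift of triangles; isomorphism is impossible: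
the generic point is in `Supp (Hn n0 M)`, not in the supports of `(Ox x)⟦-t⟧`, which are `⊆ {x}`, `x` closed,
`hg`): `θ < φ - t`. `b` = least `n` with `y ∈ Supp (Hn n M)`, `b ≤ n0`: `exists_sop`, `koszul`: `ψ < θ + i`,
`i ≤ b + 2`. So `ψ < φ - t + b + 2 ≤ φ + 2`.
-/

open CategoryTheory CategoryTheory.Limits CategoryTheory.Pretriangulated AlgebraicGeometry
  Opposite TopologicalSpace DerivedCategory

namespace Pool.Agent.BE

universe w v u

section

variable {D : Type u} [Category.{v} D] [Preadditive D] [HasZeroObject D] [HasShift D ℤ]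
  [∀ n : ℤ, (shiftFunctor D n).Additive] [Pretriangulated D] [IsTriangulated D]
  {T : ObjectProperty D} [T.IsTriangulated] [T.IsClosedUnderIsomorphisms]

omit [HasZeroObject D] [Pretriangulated D] [IsTriangulated D] in
private lemma phf_isZero_shift (X : D) (n : ℤ) : IsZero (X⟦n⟧) ↔ IsZero X := by
  constructor
  · intro h
    have h1 : IsZero (X⟦n⟧⟦-n⟧) := Functor.map_isZero (shiftFunctor D (-n)) h
    exact h1.of_iso ((shiftShiftNeg X n).symm)
  · intro h
    exact Functor.map_isZero (shiftFunctor D n) h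

omit [IsTriangulated D] in
/-- replacing the middle object of a triangle by an isomorphic object -/
private lemma phf_mid {A Y B X : D} (f : A ⟶ Y) (g : Y ⟶ B) (k : B ⟶ A⟦(1 : ℤ)⟧)
    (hT : Triangle.mk f g k ∈ distTriang D) (e : Y ≅ X) :
    Triangle.mk (f ≫ e.hom) (e.inv ≫ g) k ∈ distTriang D := by
  refine isomorphic_distinguished _ hT _ ?_
  refine Triangle.isoMk _ _ (Iso.refl _) e.symm (Iso.refl _) ?_ ?_ ?_
  · show (f ≫ e.hom) ≫ e.inv = 𝟙 A ≫ f
    rw [Category.assoc, e.hom_inv_id, Category.comp_id, Category.id_comp]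
  · show (e.inv ≫ g) ≫ 𝟙 B = e.inv ≫ g
    rw [Category.comp_id]
  · show k ≫ (shiftFunctor D (1 : ℤ)).map (𝟙 A) = 𝟙 B ≫ k
    rw [CategoryTheory.Functor.map_id, Category.comp_id, Category.id_comp]

/-- shifts of stable objects are stable -/
private lemma phf_stable_shift (σ : StabCond T) {φ : ℝ} {X : D} (h : σ.StableOf φ X) (n : ℤ) :
    σ.StableOf (φ + n) (X⟦n⟧) := by
  obtain ⟨h1, h2, h3⟩ := h
  refine ⟨(σ.P_shift_int φ n X).1 h1, fun h4 => h2 ((phf_isZero_shift X n).1 h4), ?_⟩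
  intro A B f g k hT hA hB
  have hT' := Triangle.shift_distinguished _ hT (-n)
  have hc : φ + (n : ℝ) + ((-n : ℤ) : ℝ) = φ := by push_cast; ring
  have hA' := (σ.P_shift_int (φ + n) (-n) A).1 hA
  have hB' := (σ.P_shift_int (φ + n) (-n) B).1 hB
  rw [hc] at hA' hB'
  have h5 := phf_mid ((Triangle.shiftFunctor D (-n)).obj (Triangle.mk f g k)).mor₁
    ((Triangle.shiftFunctor D (-n)).obj (Triangle.mk f g k)).mor₂
    ((Triangle.shiftFunctor D (-n)).obj (Triangle.mk f g k)).mor₃ hT' (shiftShiftNeg X n)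
  exact (h3 _ _ _ _ _ h5 hA' hB').imp (phf_isZero_shift A (-n)).1 (phf_isZero_shift B (-n)).1

end

variable {S : Scheme.{0}}

private lemma phf_supp_Ox [HasDerivedCategory.{w} (QCoh S)] (x : S) (hx : IsClosed ({x} : Set S))
    (n : ℤ) : Supp (Hn n (Ox x hx)) ⊆ {x} := by
  by_cases hn : n = 0
  · subst hn
    obtain ⟨e⟩ := Hn_single (sky x hx)
    have h1 : Supp (Hn 0 (Ox x hx)) = Supp (sky x hx) := supp_of_iso e
    rw [h1, supp_sky]
  · have h1 : Supp (Hn n (Ox x hx)) = ∅ := (isZero_iff_supp _).1 (Hn_single_ne (sky x hx) n hn)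
    rw [h1]
    exact Set.empty_subset _

private lemma phf_iso [HasDerivedCategory.{w} (QCoh S)] {X Y : DerivedCategory (QCoh S)}
    (u : X ⟶ Y) [IsIso u] (n : ℤ) : Supp (Hn n X) = Supp (Hn n Y) :=
  supp_of_iso ((homologyFunctor (QCoh S) n).mapIso (asIso u))

theorem phase_lt [IsNoetherian S] [S.IsSeparated] [IsIntegral S]
    [HasDerivedCategory.{w} (QCoh S)] (hg : ¬ IsClosed ({genericPoint S} : Set S))
    (hd : ∀ y : S, IsClosed ({y} : Set S) → ringKrullDim (S.presheaf.stalk y) ≤ 2)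
    (σ : StabCond (Dbc S)) (x y : S) (hx : IsClosed ({x} : Set S)) (hy : IsClosed ({y} : Set S))
    (φ ψ : ℝ) (h1 : σ.StableOf φ (Ox x hx)) (h2 : σ.StableOf ψ (Ox y hy)) : ψ < φ + 2 := by
  obtain ⟨M, ⟨θ, hM⟩, hMD, n0, hn0⟩ := exists_stable_generic σ
  have hall : ∀ s : S, s ∈ Supp (Hn n0 M) := by
    intro s
    have h3 := supp_closed (Hn n0 M)
    have h4 : genericPoint S ⤳ s := genericPoint_specializes s
    exact h4.mem_closed h3 hn0
  obtain ⟨hcoh, lo, hi, hlohi⟩ := hMD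
  have hemp : ∀ (s : S) n, s ∈ Supp (Hn n M) → lo ≤ n ∧ n ≤ hi := by
    intro s n hs
    by_contra hcon
    have h5 : n < lo ∨ hi < n := by omega
    have h6 := (isZero_iff_supp _).1 (hlohi n h5)
    rw [h6] at hs
    exact hs
  -- top degree at `x`
  obtain ⟨t, ht, htop⟩ : ∃ t, x ∈ Supp (Hn t M) ∧ ∀ n, t < n → x ∉ Supp (Hn n M) := by
    obtain ⟨t, ht, hmax⟩ := Int.exists_greatest_of_bdd (P := fun n => x ∈ Supp (Hn n M))
      ⟨hi, fun n hn => (hemp x n hn).2⟩ ⟨n0, hall x⟩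
    exact ⟨t, ht, fun n hn hcon => by have := hmax n hcon; omega⟩
  obtain ⟨b, hb, hbot⟩ : ∃ b, y ∈ Supp (Hn b M) ∧ ∀ n, n < b → y ∉ Supp (Hn n M) := by
    obtain ⟨t, ht, hmin⟩ := Int.exists_least_of_bdd (P := fun n => y ∈ Supp (Hn n M))
      ⟨lo, fun n hn => (hemp y n hn).1⟩ ⟨n0, hall y⟩
    exact ⟨t, ht, fun n hn hcon => by have := hmin n hcon; omega⟩
  have htn : n0 ≤ t := by
    by_contra hcon
    exact htop n0 (by omega) (hall x)
  have hbn : b ≤ n0 := by
    by_contra hcon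
    exact hbot n0 (by omega) (hall y)
  obtain ⟨u, hu⟩ := top_sky x hx M ⟨hcoh, lo, hi, hlohi⟩ t ht htop
  have k1 : θ < φ + ((-t : ℤ) : ℝ) := by
    rcases σ.stable_hom_le hM (phf_stable_shift σ h1 (-t)) u hu with h7 | ⟨-, h7⟩
    · exact h7
    · exfalso
      have h8 := phf_iso u n0
      rw [supp_shift] at h8
      have h9 := hn0
      rw [h8] at h9
      have h10 : genericPoint S = x := phf_supp_Ox x hx _ h9
      rw [h10] at hg
      exact hg hx
  obtain ⟨U, hU, a1, a2, ha1, ha2, hV⟩ := exists_sop y hy (hd y hy)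
  obtain ⟨i, hi2, v, hv⟩ := koszul y hy U hU a1 a2 ha1 ha2 hV M hcoh b hb hbot
  have k2 : ψ < θ + (i : ℝ) := by
    rcases σ.stable_hom_le h2 (phf_stable_shift σ hM i) v hv with h7 | ⟨-, h7⟩
    · exact h7
    · exfalso
      have h8 := phf_iso v (n0 - i)
      rw [supp_shift, sub_add_cancel] at h8
      have h9 := hn0
      rw [← h8] at h9
      have h10 : genericPoint S = y := phf_supp_Ox y hy _ h9
      rw [h10] at hg
      exact hg hy
  have k3 : ((i : ℤ) : ℝ) ≤ b + 2 := by exact_mod_cast hi2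
  have k4 : ((b : ℤ) : ℝ) ≤ t := by exact_mod_cast hbn.trans htn
  push_cast at k1
  linarith

end Pool.Agent.BE
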