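import Pool.Agent.BE.Stab

/-!
# BE-PhG: equal central charges and phases at distance `< 2`: equal phases

`Z_P`: `m e^{iπφ} = m' e^{iπψ}`, `m, m' > 0`: norms: `m = m'`; `e^{iπ(φ-ψ)} = 1`: `φ - ψ ∈ 2ℤ`.
-/

open CategoryTheory CategoryTheory.Limits

namespace Pool.Agent.BE

open CategoryTheory.Pretriangulated

theorem phase_eq_of_Z {D : Type*} [Category D] [Preadditive D] [HasZeroObject D] [HasShift D ℤ]
    [∀ n : ℤ, (shiftFunctor D n).Additive] [Pretriangulated D] {T : ObjectProperty D}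
    (σ : StabCond T) (X Y : D) (φ ψ : ℝ) (hX : σ.StableOf φ X) (hY : σ.StableOf ψ Y)
    (hZ : σ.Z X = σ.Z Y) (h1 : φ < ψ + 2) (h2 : ψ < φ + 2) : φ = ψ := by
  obtain ⟨m, hm, hmX⟩ := σ.Z_P φ X hX.1 hX.2.1
  obtain ⟨m', hm', hmY⟩ := σ.Z_P ψ Y hY.1 hY.2.1
  rw [hmX, hmY] at hZ
  have hn : ∀ x : ℝ, ‖Complex.exp (Real.pi * x * Complex.I)‖ = 1 := by
    intro x
    have := Complex.norm_exp_ofReal_mul_I (Real.pi * x)
    rwa [Complex.ofReal_mul] at this
  have hmm : m = m' := by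
    have h3 := congrArg norm hZ
    rw [norm_mul, norm_mul, hn, hn, mul_one, mul_one, Complex.norm_real, Complex.norm_real,
      Real.norm_of_nonneg hm.le, Real.norm_of_nonneg hm'.le] at h3
    exact h3
  rw [hmm] at hZ
  have h4 := mul_left_cancel₀ (Complex.ofReal_ne_zero.2 hm'.ne') hZ
  obtain ⟨n, h5⟩ := Complex.exp_eq_exp_iff_exists_int.1 h4
  have hpi : (Real.pi : ℂ) ≠ 0 := Complex.ofReal_ne_zero.2 Real.pi_ne_zero
  have h6 : ((Real.pi : ℂ) * Complex.I) * ((φ : ℂ) - (ψ + 2 * n)) = 0 := by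
    linear_combination h5
  have h7 : (φ : ℂ) - (ψ + 2 * n) = 0 :=
    (mul_eq_zero.1 h6).resolve_left (mul_ne_zero hpi Complex.I_ne_zero)
  have h8 : φ = ψ + 2 * n := by
    have h9 : ((φ : ℝ) : ℂ) = ((ψ + 2 * n : ℝ) : ℂ) := by
      push_cast
      linear_combination h7
    exact Complex.ofReal_injective h9
  have h10 : (n : ℝ) < 1 := by linarith
  have h11 : (-1 : ℝ) < n := by linarith
  have h12 : n < 1 := by exact_mod_cast h10
  have h13 : -1 < n := by exact_mod_cast h11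
  have h14 : n = 0 := by omega
  rw [h8, h14]
  simp

end Pool.Agent.BE
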