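import Pool.Agent.BE.M9
import Pool.Agent.BE.PhF
import Pool.Agent.BE.PhG
import Pool.Agent.BE.GeoG
import Pool.Agent.BE.GeoH
import Pool.Agent.BE.GeoT
import Pool.Agent.BE.GeoQ

/-!
# Project BE: all stability conditions on certain fibred surfaces are geometric
-/

open CategoryTheory CategoryTheory.Limits CategoryTheory.Pretriangulated AlgebraicGeometry
  Opposite TopologicalSpace DerivedCategory

namespace Pool.Agent.BE

universe w

/-- `σ` is geometric, up to the phases: every skyscraper sheaf `O_x` at a closed point is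
`σ`-stable, the phases of two of them differ by less than `2`, and if `Z(O_x)` does not depend on
`x` (for example if `Z` factors through the numerical Grothendieck group) then they all have the
same phase. -/
def Geometric (S : Scheme.{0}) [HasDerivedCategory.{w} (QCoh S)] (σ : StabCond (Dbc S)) : Prop :=
  (∀ (x : S) (hx : IsClosed ({x} : Set S)), σ.Stable (Ox x hx)) ∧
  (∀ (x y : S) (hx : IsClosed ({x} : Set S)) (hy : IsClosed ({y} : Set S)) (φ ψ : ℝ),
    σ.StableOf φ (Ox x hx) → σ.StableOf ψ (Ox y hy) → |φ - ψ| < 2) ∧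
  ((∀ (x y : S) (hx : IsClosed ({x} : Set S)) (hy : IsClosed ({y} : Set S)),
    σ.Z (Ox x hx) = σ.Z (Ox y hy)) →
    ∃ φ : ℝ, ∀ (x : S) (hx : IsClosed ({x} : Set S)), σ.StableOf φ (Ox x hx))

theorem one_le_of_two {X : Scheme.{0}} (hd : topologicalKrullDim X = 2) :
    1 ≤ topologicalKrullDim X := by
  rw [hd]
  exact_mod_cast (by norm_num : (1 : ℕ) ≤ 2)

theorem geometric_of_curves {S C : Scheme.{0}} (sS : S ⟶ SpecC) (sC : C ⟶ SpecC)
    (hS : IsProj sS) (hC : IsCurve sC) (gC : PosGenus C) [IsIntegral S]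
    (hd : topologicalKrullDim S = 2) (p : S ⟶ C) (hp : p ≫ sC = sS)
    (hF : ∀ c : C, IsClosed ({c} : Set C) → ∃ (F : Scheme.{0}) (sF : F ⟶ SpecC) (i : F ⟶ S),
      IsCurve sF ∧ PosGenus F ∧ IsClosedImmersion i ∧ Set.range i.base = p.base ⁻¹' {c})
    [HasDerivedCategory.{w} (QCoh S)] (σ : StabCond (Dbc S)) : Geometric S σ := by
  haveI := hC.int
  haveI := noeth_of_proj sS hS
  haveI := sep_of_proj sS hS
  haveI := sep_of_proj sC hC.proj
  haveI : IsProper p := proper_of_over sS sC hS hC.proj p hp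
  obtain ⟨B⟩ := baseData_of_curve sC hC gC
  have hcl : ∀ c : C, c ≠ genericPoint C → IsClosed ({c} : Set C) :=
    fun c hc => closed_of_dim_one hC.dim c hc
  have F : ∀ c : C, c ≠ genericPoint C → Nonempty (FibreData p c) := by
    intro c hc
    obtain ⟨F, sF, i, h1, h2, h3, h4⟩ := hF c (hcl c hc)
    exact fibreData_of_immersion sS hS sF h1 h2 p c i h4
  have hstab : ∀ (x : S) (hx : IsClosed ({x} : Set S)), σ.Stable (Ox x hx) := fun x hx =>
    stable_of_fibred p (inv_of_over sC) hcl B F σ x hx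
  have hlt : ∀ (x y : S) (hx : IsClosed ({x} : Set S)) (hy : IsClosed ({y} : Set S)) (φ ψ : ℝ),
      σ.StableOf φ (Ox x hx) → σ.StableOf ψ (Ox y hy) → ψ < φ + 2 := fun x y hx hy φ ψ h1 h2 =>
    phase_lt (not_closed_of_dim (one_le_of_two hd)) (fun y _ => stalk_dim_le 2 hd.le y) σ x y hx
      hy φ ψ h1 h2
  refine ⟨hstab, ?_, ?_⟩
  · intro x y hx hy φ ψ h1 h2
    have a := hlt x y hx hy φ ψ h1 h2
    have b := hlt y x hy hx ψ φ h2 h1
    rw [abs_lt]
    constructor <;> linarith
  · intro hZ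
    by_cases hne : ∃ x : S, IsClosed ({x} : Set S)
    · obtain ⟨x, hx⟩ := hne
      obtain ⟨φ, hφ⟩ := hstab x hx
      refine ⟨φ, fun y hy => ?_⟩
      obtain ⟨ψ, hψ⟩ := hstab y hy
      have := phase_eq_of_Z σ _ _ φ ψ hφ hψ (hZ x y hx hy) (hlt y x hy hx ψ φ hψ hφ)
        (hlt x y hx hy φ ψ hφ hψ)
      rw [this]
      exact hψ
    · exact ⟨0, fun x hx => absurd ⟨x, hx⟩ hne⟩

/-- The surfaces `S = (E × F)/G`: `E`, `F`, `C = E/G` smooth projective curves over `ℂ` of positive
genus, `G` a finite group acting on `E` (freely, with quotient `C`) and on `F`, and `S` the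
quotient of `E × F` by the diagonal action, a projective surface. If `E`, `F` are elliptic curves,
`G` acts on `E` by translations and `F/G ≅ ℙ^1` this is a bielliptic surface. -/
structure QuotSurface where
  /-- first curve -/
  E : Scheme.{0}
  /-- second curve -/
  F : Scheme.{0}
  /-- the quotient `E/G` -/
  C : Scheme.{0}
  /-- the surface -/
  S : Scheme.{0}
  /-- structure morphism of `E` -/
  sE : E ⟶ SpecC
  /-- structure morphism of `F` -/
  sF : F ⟶ SpecC
  /-- structure morphism of `C` -/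
  sC : C ⟶ SpecC
  /-- structure morphism of `S` -/
  sS : S ⟶ SpecC
  hE : IsCurve sE
  hF : IsCurve sF
  hC : IsCurve sC
  gE : PosGenus E
  gF : PosGenus F
  gC : PosGenus C
  hS : IsProj sS
  intS : IsIntegral S
  dimS : topologicalKrullDim S = 2
  /-- the finite group -/
  G : Type
  /-- group structure -/
  grp : Group G
  fin : Finite G
  /-- action on `E` -/
  ρE : G →* Aut E
  /-- action on `F` -/
  ρF : G →* Aut F
  overE : ∀ g, (ρE g).hom ≫ sE = sE
  overF : ∀ g, (ρF g).hom ≫ sF = sF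
  /-- the quotient map `E → C = E/G` -/
  q : E ⟶ C
  overq : q ≫ sC = sE
  hq : IsFreeQuotient (fun g => (ρE g).hom) q
  /-- the quotient map `E × F → S = (E × F)/G` -/
  π : pullback sE sF ⟶ S
  overπ : π ≫ sS = pullback.fst sE sF ≫ sE
  hπ : IsFreeQuotient (fun g => prodAct sE sF (ρE g).hom (ρF g).hom (overE g) (overF g)) π

theorem geometric_of_quot (B : QuotSurface) [HasDerivedCategory.{w} (QCoh B.S)]
    (σ : StabCond (Dbc B.S)) : Geometric B.S σ := by
  haveI := B.grp
  haveI := B.fin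
  haveI := B.intS
  haveI := B.hC.int
  haveI := proper_of_proj B.sE B.hE.proj
  haveI := proper_of_proj B.sC B.hC.proj
  haveI := B.hq.surj
  have hinv : ∀ g, prodAct B.sE B.sF (B.ρE g).hom (B.ρF g).hom (B.overE g) (B.overF g) ≫
      (pullback.fst B.sE B.sF ≫ B.q) = pullback.fst B.sE B.sF ≫ B.q := by
    intro g
    rw [← Category.assoc, prodAct, pullback.map, pullback.lift_fst, Category.assoc, B.hq.inv g]
  obtain ⟨p, hp⟩ := exists_descent _ B.π B.hπ (pullback.fst B.sE B.sF ≫ B.q) hinv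
  haveI := epi_of_quotient _ B.π B.hπ
  have hover : p ≫ B.sC = B.sS := by
    rw [← cancel_epi B.π, ← Category.assoc, hp, Category.assoc, B.overq, B.overπ]
  have hpb : IsPullback B.π (pullback.fst B.sE B.sF) p B.q := by
    refine isPullback_of_quotients _ _ B.π B.q B.hπ B.hq _ p ?_ hp
    intro g
    rw [prodAct, pullback.map, pullback.lift_fst]
  refine geometric_of_curves B.sS B.sC B.hS B.hC B.gC B.dimS p hover (fun c hc => ?_) σ
  obtain ⟨i, h1, h2⟩ := exists_fibre_immersion B.sE B.sF B.sC B.q B.overq p B.π hpb c hc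
  exact ⟨B.F, B.sF, i, B.hF, B.gF, h1, h2⟩

end Pool.Agent.BE
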