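import Pool.Agent.BE.QC

/-!
# BE-QAb2: quasi-coherent modules are closed under cokernels

`PresheafOfModules.evaluation` preserves colimits, so for `p = cokernel.π f` the map `PM.ap p U` is
surjective with kernel the range of `PM.ap f U`. inj: `p(m)` dies on `D(g)`: `m = f(y)` on `D(g)`,
lift `g^n y`, ... surj: immediate from surjectivity of `p` and `IsQC.surj`.
-/

open CategoryTheory CategoryTheory.Limits AlgebraicGeometry Opposite TopologicalSpace

namespace Pool.Agent.BE

variable {S : Scheme.{0}}

private lemma qab2_ker {M N : PM S} {f : M ⟶ N} {k : CokernelCofork f} (hk : IsColimit k)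
    (U : Aff S) (m : N.sec U) (hm : PM.ap k.π U m = 0) : ∃ y : M.sec U, PM.ap f U y = m := by
  have hex : (ShortComplex.mk f k.π k.condition).Exact :=
    ShortComplex.exact_of_g_is_cokernel _ (IsColimit.ofIsoColimit hk (Cofork.ext (Iso.refl _) (by simp)))
  have h2 := hex.map (PresheafOfModules.evaluation (RAff S) (op U))
  rw [ShortComplex.moduleCat_exact_iff] at h2
  exact h2 m hm

private lemma qab2_surj {M N : PM S} {f : M ⟶ N} {k : CokernelCofork f} (hk : IsColimit k)
    (U : Aff S) (z : PM.sec k.pt U) : ∃ m : N.sec U, PM.ap k.π U m = z := by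
  have : Epi k.π := Cofork.IsColimit.epi hk
  exact PresheafOfModules.surjective_of_epi k.π (op U) z

instance qc_cokernels : (qcProp S).IsClosedUnderCokernels where
  cokernels_le := by
    intro _ ⟨f, k, hk, hf⟩
    have h1 : IsQC _ := hf.1
    have h2 : IsQC _ := hf.2
    constructor
    · intro U g z hz
      obtain ⟨m, rfl⟩ := qab2_surj hk U z
      rw [PM.res_ap] at hz
      obtain ⟨y, hy⟩ := qab2_ker hk _ _ hz
      obtain ⟨n, y', hy'⟩ := h1.surj U g y
      have h3 : PM.res _ (bas_le U g) (g ^ n • m - PM.ap f U y') = 0 := by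
        rw [map_sub, PM.res_smul, PM.res_ap, hy', map_smul, hy, map_pow, sub_self]
      obtain ⟨l, hl⟩ := h2.inj U g _ h3
      refine ⟨l + n, ?_⟩
      rw [smul_sub, sub_eq_zero, smul_smul, ← pow_add] at hl
      rw [← map_smul, hl, map_smul, ← PM.ap_comp, k.condition, PM.ap_zero, smul_zero]
    · intro U g x
      obtain ⟨m, rfl⟩ := qab2_surj hk _ x
      obtain ⟨n, m', hm'⟩ := h2.surj U g m
      exact ⟨n, PM.ap k.π U m', by rw [PM.res_ap, hm', map_smul]⟩

end Pool.Agent.BE
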