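import Pool.Agent.BE.QC

/-!
# BE-QAb3: quasi-coherent modules are closed under finite products

Elementwise: sections of a finite product (of presheaves of modules) are the product of the
sections (evaluation preserves limits). For surj take a common exponent.
-/

open CategoryTheory CategoryTheory.Limits AlgebraicGeometry Opposite TopologicalSpace

namespace Pool.Agent.BE

variable {S : Scheme.{0}}

private lemma qab3_ap_sum {M N : PM S} {J : Type} (s : Finset J) (f : J → (M ⟶ N)) (U : Aff S)
    (m : M.sec U) : PM.ap (∑ j ∈ s, f j) U m = ∑ j ∈ s, PM.ap (f j) U m := by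
  classical
  induction s using Finset.induction_on with
  | empty => rw [Finset.sum_empty, Finset.sum_empty, PM.ap_zero]
  | insert a s ha ih => rw [Finset.sum_insert ha, Finset.sum_insert ha, PM.ap_add, ih]

/-- An object which is a finite sum of retracts of quasi-coherent modules is quasi-coherent. -/
private lemma qab3_qc {J : Type} [Fintype J] (F : J → PM S) (X : PM S) (p : ∀ j, X ⟶ F j)
    (i : ∀ j, F j ⟶ X) (h : ∑ j, p j ≫ i j = 𝟙 X) (hF : ∀ j, IsQC (F j)) : IsQC X := by
  have key : ∀ (U : Aff S) (m : X.sec U), ∑ j, PM.ap (i j) U (PM.ap (p j) U m) = m := by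
    intro U m
    have h1 : PM.ap (∑ j, p j ≫ i j) U m = m := by rw [h, PM.ap_id]
    rw [qab3_ap_sum] at h1
    exact h1
  constructor
  · intro U f m hm
    have h1 : ∀ j, ∃ n : ℕ, f ^ n • PM.ap (p j) U m = 0 := by
      intro j
      refine (hF j).inj U f _ ?_
      rw [PM.res_ap, hm, map_zero]
    choose n hn using h1
    refine ⟨∑ j, n j, ?_⟩
    rw [← key U (f ^ (∑ j, n j) • m)]
    refine Finset.sum_eq_zero fun j _ => ?_
    have h2 : ∑ j, n j = (∑ j, n j - n j) + n j :=
      (Nat.sub_add_cancel (Finset.single_le_sum (fun _ _ => Nat.zero_le _) (Finset.mem_univ j))).symm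
    rw [map_smul, h2, pow_add, mul_smul, hn j, smul_zero, map_zero]
  · intro U f x
    have h1 : ∀ j, ∃ (n : ℕ) (m : (F j).sec U), (F j).res (bas_le U f) m =
        (rst (bas_le U f) f) ^ n • PM.ap (p j) (bas U f) x := fun j => (hF j).surj U f _
    choose n m hm using h1
    refine ⟨∑ j, n j, ∑ j, PM.ap (i j) U (f ^ (∑ j, n j - n j) • m j), ?_⟩
    rw [map_sum]
    have h3 : ∀ j, X.res (bas_le U f) (PM.ap (i j) U (f ^ (∑ j, n j - n j) • m j)) =
        (rst (bas_le U f) f) ^ (∑ j, n j) • PM.ap (i j) (bas U f) (PM.ap (p j) (bas U f) x) := by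
      intro j
      have h2 : ∑ j, n j = (∑ j, n j - n j) + n j :=
        (Nat.sub_add_cancel (Finset.single_le_sum (fun _ _ => Nat.zero_le _)
          (Finset.mem_univ j))).symm
      rw [PM.res_ap, PM.res_smul, hm j, smul_smul, map_pow, ← pow_add, ← h2, map_smul]
    rw [Finset.sum_congr rfl fun j _ => h3 j, ← Finset.smul_sum, key]

instance qc_products : (qcProp S).IsClosedUnderFiniteProducts where
  isClosedUnderLimitsOfShape J _ := by
    constructor
    rintro X ⟨h⟩
    cases nonempty_fintype J
    have ht := (IsLimit.postcomposeHomEquiv (Discrete.natIsoFunctor (F := h.diag)) _).symm h.isLimit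
    have htot := IsBilimit.total (biconeIsBilimitOfLimitConeOfIsLimit ht)
    exact qab3_qc (fun j => h.diag.obj ⟨j⟩) X (fun j => (Bicone.ofLimitCone ht).π j)
      (fun j => (Bicone.ofLimitCone ht).ι j) htot (fun j => h.prop_diag_obj ⟨j⟩)

end Pool.Agent.BE
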