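import Pool.Agent.BE.QAb1
import Pool.Agent.BE.QAb2
import Pool.Agent.BE.QAb3

/-!
# BE: the abelian category `QCoh S` and its elementwise API
-/

open CategoryTheory CategoryTheory.Limits AlgebraicGeometry Opposite TopologicalSpace

namespace Pool.Agent.BE

variable {S : Scheme.{0}}

noncomputable instance : Abelian (QCoh S) := inferInstance

/-- sections of a quasi-coherent module -/
abbrev sec (M : QCoh S) (U : Aff S) : Type := M.obj.sec U

/-- restriction -/
noncomputable abbrev res (M : QCoh S) {V U : Aff S} (h : V ≤ U) : sec M U →+ sec M V := M.obj.res h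

/-- action of a morphism on sections -/
noncomputable abbrev ap {M N : QCoh S} (f : M ⟶ N) (U : Aff S) : sec M U →ₗ[Γ(S, U.1)] sec N U :=
  PM.ap f.hom U

/-- morphisms of quasi-coherent modules from linear maps on sections -/
noncomputable def mkHom {M N : QCoh S} (φ : ∀ U : Aff S, sec M U →ₗ[Γ(S, U.1)] sec N U)
    (hφ : ∀ {V U : Aff S} (h : V ≤ U) (m : sec M U), res N h (φ U m) = φ V (res M h m)) :
    M ⟶ N :=
  ObjectProperty.homMk (PM.mkHom φ hφ)

lemma ap_mkHom {M N : QCoh S} (φ : ∀ U : Aff S, sec M U →ₗ[Γ(S, U.1)] sec N U)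
    (hφ : ∀ {V U : Aff S} (h : V ≤ U) (m : sec M U), res N h (φ U m) = φ V (res M h m))
    (U : Aff S) : ap (mkHom φ hφ) U = φ U := rfl

lemma qhom_ext {M N : QCoh S} {f g : M ⟶ N} (h : ∀ U m, ap f U m = ap g U m) : f = g :=
  ObjectProperty.hom_ext _ (PM.hom_ext h)

lemma res_ap {M N : QCoh S} (f : M ⟶ N) {V U : Aff S} (h : V ≤ U) (m : sec M U) :
    res N h (ap f U m) = ap f V (res M h m) := PM.res_ap f.hom h m

/-- coherent modules (on a locally noetherian scheme) -/
def Coh (M : QCoh S) : Prop := ∀ U : Aff S, Module.Finite Γ(S, U.1) (sec M U)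

/-- the support of a quasi-coherent module of finite type: the points `s` such that `M` does not
vanish on any affine neighbourhood of `s` -/
def Supp (M : QCoh S) : Set S := {s | ∀ U : Aff S, s ∈ U.1 → Nontrivial (sec M U)}

end Pool.Agent.BE
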