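import Pool.Agent.BE.SuppA
import Pool.Agent.BE.Sky0

/-!
# BE-CohA: fibres at points of the support

`fibre_ne`: `M(U)` f.g. over `A = Γ(U)`, `𝔭` the prime of `s`. If `M(U) ⊗ κ(s) = 0` then `M(U)_𝔭 = 0` by
Nakayama, so some `f ∉ 𝔭` kills `M(U)` and `M(D(f)) = 0`: `s ∉ Supp M`. A nonzero `κ(s)`-linear functional on
`κ(s) ⊗ M(U)` composed with `m ↦ 1 ⊗ m`. (`f ∈ 𝔭` iff `ev s hU f = 0`; `ev s hU f ≠ 0` iff `s ∈ D(f)`:
`Scheme.evaluation_ne_zero_iff_mem_basicOpen`.) `mem_supp_of_fibre`: if `M(V) = 0`, `s ∈ V`, take `D` basic in `U`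
and `V`, `M(D) = 0`, so `f^n m = 0` with `f(s) ≠ 0`.
-/

open CategoryTheory CategoryTheory.Limits AlgebraicGeometry Opposite TopologicalSpace

namespace Pool.Agent.BE

variable {S : Scheme.{0}}

private lemma exists_func {A K M : Type} [CommRing A] [Field K] (e : A →+* K) [AddCommGroup M]
    [Module A M] [Module.Finite A M] (h : ∀ f : A, e f ≠ 0 → ∃ m : M, f • m ≠ 0) :
    ∃ φ : M →+ K, (∀ (a : A) m, φ (a • m) = e a * φ m) ∧ φ ≠ 0 := by
  have hprime : (RingHom.ker e).IsPrime := RingHom.ker_isPrime e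
  let p : PrimeSpectrum A := ⟨RingHom.ker e, hprime⟩
  have hp : p ∈ Module.support A M := by
    rw [Module.mem_support_iff_of_finite]
    intro f hf
    rw [Module.mem_annihilator] at hf
    by_contra hne
    obtain ⟨m, hm⟩ := h f hne
    exact hm (hf m)
  rw [Module.mem_support_iff_nontrivial_residueField_tensorProduct] at hp
  obtain ⟨v, hv⟩ := exists_ne (0 : TensorProduct A p.asIdeal.ResidueField M)
  have hL : ∃ L : Module.Dual p.asIdeal.ResidueField
      (TensorProduct A p.asIdeal.ResidueField M), L v ≠ 0 := by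
    by_contra hne
    push Not at hne
    exact hv ((Module.forall_dual_apply_eq_zero_iff p.asIdeal.ResidueField v).1 hne)
  obtain ⟨L, hL⟩ := hL
  let σ : p.asIdeal.ResidueField →+* K := Ideal.ResidueField.lift p.asIdeal e le_rfl
    (fun x hx => (Ne.isUnit hx : IsUnit (e x)))
  have hσ : ∀ a : A, σ (algebraMap A p.asIdeal.ResidueField a) = e a := fun a =>
    Ideal.ResidueField.lift_algebraMap p.asIdeal e le_rfl _ a
  have hσi : Function.Injective σ := σ.injective
  let φ : M →+ K := (σ.toAddMonoidHom.comp L.toAddMonoidHom).comp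
    (TensorProduct.mk A p.asIdeal.ResidueField M 1).toAddMonoidHom
  have hφ : ∀ m, φ m = σ (L ((1 : p.asIdeal.ResidueField) ⊗ₜ[A] m)) := fun m => rfl
  refine ⟨φ, ?_, ?_⟩
  · intro a m
    rw [hφ, hφ, ← hσ, ← map_mul]
    congr 1
    have : ((1 : p.asIdeal.ResidueField) ⊗ₜ[A] (a • m)) =
        (algebraMap A p.asIdeal.ResidueField a) • ((1 : p.asIdeal.ResidueField) ⊗ₜ[A] m) := by
      rw [← TensorProduct.smul_tmul, TensorProduct.smul_tmul', smul_eq_mul, mul_one,
        Algebra.smul_def, mul_one]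
    rw [this, map_smul, smul_eq_mul]
  · intro h0
    apply hL
    have h1 : ∀ m, L ((1 : p.asIdeal.ResidueField) ⊗ₜ[A] m) = 0 := by
      intro m
      apply hσi
      rw [← hφ, h0, map_zero]
      rfl
    induction v using TensorProduct.induction_on with
    | zero => exact map_zero _
    | tmul k m =>
      have : k ⊗ₜ[A] m = k • ((1 : p.asIdeal.ResidueField) ⊗ₜ[A] m) := by
        rw [TensorProduct.smul_tmul', smul_eq_mul, mul_one]
      rw [this, map_smul, h1, smul_zero]
    | add x y hx hy =>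
      by_cases hx0 : x = 0
      · rw [hx0, zero_add] at hv hL ⊢
        exact hy hv hL
      · by_cases hy0 : y = 0
        · rw [hy0, add_zero] at hv hL ⊢
          exact hx hv hL
        · rw [map_add]
          have ex : L x = 0 := by
            by_contra hc
            exact hc (hx hx0 hc)
          have ey : L y = 0 := by
            by_contra hc
            exact hc (hy hy0 hc)
          rw [ex, ey, add_zero]

private lemma isUnit_rst {D U : Aff S} (h : D ≤ U) (f : Γ(S, U.1)) (hD : D.1 = S.basicOpen f) :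
    IsUnit (rst h f) := by
  obtain ⟨D, hD'⟩ := D
  simp only at hD
  subst hD
  exact RingedSpace.isUnit_res_basicOpen _ f

private lemma eq_zero_of_pow (M : QCoh S) {D U : Aff S} (h : D ≤ U) (f : Γ(S, U.1))
    (hD : D.1 = S.basicOpen f) (n : ℕ) (x : sec M D) (hx : (rst h f) ^ n • x = 0) : x = 0 := by
  have hu : IsUnit ((rst h f) ^ n) := (isUnit_rst h f hD).pow n
  exact (hu.smul_eq_zero).1 hx

/-- Nakayama: the fibre of a module of finite type at a point of the support has a nonzero
functional -/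
theorem fibre_ne (M : QCoh S) (s : S) (hs : s ∈ Supp M) (U : Aff S) (hU : s ∈ U.1)
    (hM : Module.Finite Γ(S, U.1) (sec M U)) :
    ∃ φ : sec M U →+ S.residueField s,
      (∀ (a : Γ(S, U.1)) m, φ (a • m) = ev s hU a * φ m) ∧ φ ≠ 0 := by
  refine exists_func (ev s hU) ?_
  intro f hf
  by_contra hne
  push Not at hne
  have hsD : s ∈ (bas U f).1 := (S.evaluation_ne_zero_iff_mem_basicOpen s hU f).1 hf
  have hnt := hs (bas U f) hsD
  obtain ⟨x, hx⟩ := exists_ne (0 : sec M (bas U f))
  apply hx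
  obtain ⟨n, m, hm⟩ := M.property.surj U f x
  refine eq_zero_of_pow M (bas_le U f) f rfl (n + 1) x ?_
  have h1 : res M (bas_le U f) (f • m) = 0 := by
    rw [hne m, map_zero]
  rw [PM.res_smul, hm, smul_smul] at h1
  rw [pow_succ', h1]

/-- conversely a nonzero functional to the residue field shows that the point is in the support -/
theorem mem_supp_of_fibre (M : QCoh S) (s : S) (U : Aff S) (hU : s ∈ U.1)
    (φ : sec M U →+ S.residueField s) (hφ : ∀ (a : Γ(S, U.1)) m, φ (a • m) = ev s hU a * φ m)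
    (h : φ ≠ 0) : s ∈ Supp M := by
  intro V hV
  by_contra hne
  rw [not_nontrivial_iff_subsingleton] at hne
  apply h
  ext m
  rw [AddMonoidHom.zero_apply]
  obtain ⟨D, h1, h2, f, g, hz, hf, hg⟩ := exists_basic U V s hU hV
  have h0 : res M h1 m = 0 := by
    obtain ⟨n, m', hm'⟩ := res_surj M h2 g hg (res M h1 m)
    have : m' = 0 := Subsingleton.elim _ _
    rw [this, map_zero] at hm'
    exact eq_zero_of_pow M h2 g hg n _ hm'.symm
  obtain ⟨n, hn⟩ := res_inj M h1 f hf m h0
  have h3 := congrArg φ hn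
  rw [hφ, map_zero, map_pow] at h3
  have hz' : s ∈ S.basicOpen f := hf ▸ hz
  have h4 : ev s hU f ≠ 0 := (S.evaluation_ne_zero_iff_mem_basicOpen s hU f).2 hz'
  exact (mul_eq_zero.1 h3).resolve_left (pow_ne_zero n h4)

end Pool.Agent.BE
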