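import Pool.Agent.BE.DerC1

/-!
# BE-DerC: Lemma C (see be/proof.md, (2))

With `δ` from `exists_delta`; `δ_Y = 0` for `Y = M0[0]`. `δ_X ≫ (J f)⟦1⟧ = J f ≫ δ_Y = 0`, so `δ_X` factors
through `(J Z) → (J X)⟦1⟧`... precisely: the rotated triangle `J Y → J Z → (J X)⟦1⟧ → (J Y)⟦1⟧` is
distinguished (`J.mapDerivedCategory` is triangulated), `δ_X : J X → (J X)⟦1⟧` composed with
`(J X)⟦1⟧ → (J Y)⟦1⟧` is zero, so `δ_X` factors through a map `J X → J Z`, which is zero by `h0`.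
Dually `J g ≫ δ_Z = δ_Y ≫ (J g)⟦1⟧ = 0`, so `δ_Z : J Z → (J Z)⟦1⟧` factors through `J Z → (J X)⟦1⟧` and a map
`(J X)⟦1⟧ → (J Z)⟦1⟧`, the shift of a map `J X → J Z`, zero.
-/

open CategoryTheory CategoryTheory.Limits CategoryTheory.Pretriangulated DerivedCategory

namespace Pool.Agent.BE

universe w v u

variable {A : Type u} [Category.{v} A] [Abelian A] [HasDerivedCategory.{w} A]

variable {J Ψ : A ⥤ A} [J.Additive] [PreservesFiniteLimits J] [PreservesFiniteColimits J]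
  [Ψ.Additive] [PreservesFiniteLimits Ψ] [PreservesFiniteColimits Ψ]

/-- Lemma C. `0 → J → Ψ → J → 0` a natural short exact sequence of exact functors, `X → Y → Z` a
distinguished triangle with `Y = M0[0]`, such that the sequence splits on `M0` and
`Hom(J X, J Z) = 0`. Then the sequences `0 → J H^n X → Ψ H^n X → J H^n X → 0` split, and the same
for `Z`. -/
theorem lemC (α : J ⟶ Ψ) (β : Ψ ⟶ J) (w : ∀ M, α.app M ≫ β.app M = 0)
    (ex : ∀ M, (ShortComplex.mk (α.app M) (β.app M) (w M)).ShortExact)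
    (M0 : A) (hs : ∃ r : Ψ.obj M0 ⟶ J.obj M0, α.app M0 ≫ r = 𝟙 _)
    (X Z : DerivedCategory A) (f : X ⟶ (singleFunctor A 0).obj M0)
    (g : (singleFunctor A 0).obj M0 ⟶ Z) (h : Z ⟶ X⟦(1 : ℤ)⟧)
    (hT : Triangle.mk f g h ∈ distTriang (DerivedCategory A))
    (h0 : ∀ u : J.mapDerivedCategory.obj X ⟶ J.mapDerivedCategory.obj Z, u = 0) (n : ℤ) :
    (∃ r : Ψ.obj (Hn n X) ⟶ J.obj (Hn n X), α.app (Hn n X) ≫ r = 𝟙 _) ∧
    (∃ r : Ψ.obj (Hn n Z) ⟶ J.obj (Hn n Z), α.app (Hn n Z) ≫ r = 𝟙 _) := by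
  obtain ⟨δ, hδ, hδ0⟩ := exists_delta α β w ex
  have hY : δ.app ((singleFunctor A 0).obj M0) = 0 := hδ0 M0 hs
  have hT' := J.mapDerivedCategory.map_distinguished _ hT
  have hX : δ.app X = 0 := by
    have h1 : δ.app X ≫ (J.mapDerivedCategory.map f)⟦(1 : ℤ)⟧' = 0 := by
      have := δ.naturality f
      rw [hY, comp_zero] at this
      exact this.symm
    obtain ⟨u, hu⟩ := Triangle.coyoneda_exact₁ _ hT' (δ.app X) h1
    rw [hu, h0 u]
    exact zero_comp
  have hZ : δ.app Z = 0 := by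
    have h1 : J.mapDerivedCategory.map g ≫ δ.app Z = 0 := by
      have := δ.naturality g
      rw [hY, zero_comp] at this
      exact this
    obtain ⟨u, hu⟩ := Triangle.yoneda_exact₃ _ hT' (δ.app Z) h1
    have h2 : ∀ a : (shiftFunctor (DerivedCategory A) (1 : ℤ)).obj (J.mapDerivedCategory.obj X) ⟶
        (shiftFunctor (DerivedCategory A) (1 : ℤ)).obj (J.mapDerivedCategory.obj Z), a = 0 := by
      intro a
      obtain ⟨v, rfl⟩ := (shiftFunctor (DerivedCategory A) (1 : ℤ)).map_surjective a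
      rw [h0 v, Functor.map_zero]
    rw [hu, show u = 0 from h2 u]
    exact comp_zero
  exact ⟨hδ X hX n, hδ Z hZ n⟩

end Pool.Agent.BE
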