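import Pool.Agent.BE.DerH

/-!
# BE-DerC1: the connecting transformation of a natural short exact sequence of exact functors

`0 → J → Ψ → J → 0`. For a complex `K`: `0 → J K → Ψ K → J K → 0` is a short exact sequence of complexes, functorial
in `K`; `DerivedCategory.triangleOfSES` (its `mor₃` is natural in the short exact sequence:
look in Mathlib/Algebra/Homology/DerivedCategory/ShortExact.lean) gives `δ_K : Q(J K) → Q(J K)⟦1⟧`, natural in
`K`; descend to the localisation (`Localization.liftNatTrans`). Item 2: if `δ_X = 0` the triangle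
`J X → Ψ X → J X → J X⟦1⟧` splits, so `J X → Ψ X` has a retraction in the derived category; apply `H^n` and
`homology_der`-type isomorphisms compatible with `α` (`homologyFunctor` of `Q(α K)` is `α` of the homology).
Item 3: for `X = M0[0]` with the sequence of `M0` split, take the complex `K = single M0`: the short exact
sequence of complexes splits, so `δ = 0`.
-/

open CategoryTheory CategoryTheory.Limits CategoryTheory.Pretriangulated DerivedCategory

namespace Pool.Agent.BE

universe w v u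

variable {A : Type u} [Category.{v} A] [Abelian A] [HasDerivedCategory.{w} A]

variable {J Ψ : A ⥤ A} [J.Additive] [PreservesFiniteLimits J] [PreservesFiniteColimits J]
  [Ψ.Additive] [PreservesFiniteLimits Ψ] [PreservesFiniteColimits Ψ]

section aux

omit [HasDerivedCategory.{w} A] [PreservesFiniteLimits J] [PreservesFiniteColimits J]
  [PreservesFiniteLimits Ψ] [PreservesFiniteColimits Ψ]

/-- the short complex of complexes attached to `α`, `β` -/
private noncomputable def dcSes (α : J ⟶ Ψ) (β : Ψ ⟶ J) (hw : ∀ M, α.app M ≫ β.app M = 0)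
    (K : CochainComplex A ℤ) : ShortComplex (CochainComplex A ℤ) :=
  ShortComplex.mk ((NatTrans.mapHomologicalComplex α (ComplexShape.up ℤ)).app K)
    ((NatTrans.mapHomologicalComplex β (ComplexShape.up ℤ)).app K) (by
      ext i
      exact hw (K.X i))

private lemma dcSes_exact (α : J ⟶ Ψ) (β : Ψ ⟶ J) (hw : ∀ M, α.app M ≫ β.app M = 0)
    (ex : ∀ M, (ShortComplex.mk (α.app M) (β.app M) (hw M)).ShortExact)
    (K : CochainComplex A ℤ) : (dcSes α β hw K).ShortExact :=
  HomologicalComplex.shortExact_of_degreewise_shortExact _ (fun i => ex (K.X i))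

private noncomputable def dcMap (α : J ⟶ Ψ) (β : Ψ ⟶ J) (hw : ∀ M, α.app M ≫ β.app M = 0)
    {K L : CochainComplex A ℤ} (f : K ⟶ L) : dcSes α β hw K ⟶ dcSes α β hw L where
  τ₁ := (J.mapHomologicalComplex _).map f
  τ₂ := (Ψ.mapHomologicalComplex _).map f
  τ₃ := (J.mapHomologicalComplex _).map f
  comm₁₂ := NatTrans.mapHomologicalComplex_naturality α f
  comm₂₃ := NatTrans.mapHomologicalComplex_naturality β f

private lemma dc_single_retr (α : J ⟶ Ψ) (M0 : A) (r : Ψ.obj M0 ⟶ J.obj M0)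
    (hr : α.app M0 ≫ r = 𝟙 _) :
    ∃ r' : (Ψ.mapHomologicalComplex (ComplexShape.up ℤ)).obj
        ((HomologicalComplex.single A (ComplexShape.up ℤ) 0).obj M0) ⟶
        (J.mapHomologicalComplex (ComplexShape.up ℤ)).obj
        ((HomologicalComplex.single A (ComplexShape.up ℤ) 0).obj M0),
      (NatTrans.mapHomologicalComplex α (ComplexShape.up ℤ)).app
        ((HomologicalComplex.single A (ComplexShape.up ℤ) 0).obj M0) ≫ r' = 𝟙 _ := by
  let K := (HomologicalComplex.single A (ComplexShape.up ℤ) 0).obj M0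
  let e : K.X 0 ≅ M0 := HomologicalComplex.singleObjXSelf (ComplexShape.up ℤ) 0 M0
  let φ : ∀ i : ℤ, Ψ.obj (K.X i) ⟶ J.obj (K.X i) := fun i =>
    if h : i = 0 then Ψ.map (eqToHom (by rw [h]) ≫ e.hom) ≫ r ≫ J.map (e.inv ≫ eqToHom (by rw [h]))
    else 0
  have hφ : ∀ i, α.app (K.X i) ≫ φ i = 𝟙 (J.obj (K.X i)) := by
    intro i
    by_cases h : i = 0
    · subst h
      simp only [φ, dif_pos, eqToHom_refl, Category.id_comp, Category.comp_id]
      rw [← NatTrans.naturality_assoc, reassoc_of% hr, ← Functor.map_comp, Iso.hom_inv_id,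
        CategoryTheory.Functor.map_id]
    · have hz : IsZero (K.X i) := HomologicalComplex.isZero_single_obj_X (ComplexShape.up ℤ) 0 M0 i h
      have hz' : IsZero (J.obj (K.X i)) := J.map_isZero hz
      exact hz'.eq_of_src _ _
  refine ⟨{ f := φ, comm' := ?_ }, ?_⟩
  · intro i j _
    have h0 : K.d i j = 0 := rfl
    change φ i ≫ J.map (K.d i j) = Ψ.map (K.d i j) ≫ φ j
    rw [h0, Functor.map_zero, Functor.map_zero, comp_zero, zero_comp]
  · ext i
    exact hφ i

end aux

private noncomputable def dcDelta (α : J ⟶ Ψ) (β : Ψ ⟶ J) (hw : ∀ M, α.app M ≫ β.app M = 0)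
    (ex : ∀ M, (ShortComplex.mk (α.app M) (β.app M) (hw M)).ShortExact) :
    J.mapHomologicalComplex (ComplexShape.up ℤ) ⋙ (Q : _ ⥤ DerivedCategory A) ⟶
      (J.mapHomologicalComplex (ComplexShape.up ℤ) ⋙ (Q : _ ⥤ DerivedCategory A)) ⋙
        shiftFunctor (DerivedCategory A) (1 : ℤ) where
  app K := triangleOfSESδ (dcSes_exact α β hw ex K)
  naturality K L f := (triangleOfSESδ_naturality (dcSes_exact α β hw ex K)
    (dcSes_exact α β hw ex L) (dcMap α β hw f)).symm

private noncomputable def dcLift (α : J ⟶ Ψ) (β : Ψ ⟶ J) (hw : ∀ M, α.app M ≫ β.app M = 0)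
    (ex : ∀ M, (ShortComplex.mk (α.app M) (β.app M) (hw M)).ShortExact) :
    J.mapDerivedCategory ⟶ J.mapDerivedCategory ⋙ shiftFunctor (DerivedCategory A) (1 : ℤ) :=
  Localization.liftNatTrans Q (HomologicalComplex.quasiIso A (ComplexShape.up ℤ))
    (J.mapHomologicalComplex (ComplexShape.up ℤ) ⋙ Q)
    ((J.mapHomologicalComplex (ComplexShape.up ℤ) ⋙ Q) ⋙ shiftFunctor (DerivedCategory A) (1 : ℤ))
    J.mapDerivedCategory (J.mapDerivedCategory ⋙ shiftFunctor (DerivedCategory A) (1 : ℤ))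
    (dcDelta α β hw ex)

private lemma dc_zero_of {C : Type*} [Category C] [HasZeroMorphisms C] {a b c d : C} (e1 : a ≅ b)
    (f : b ⟶ c) (e2 : d ≅ c) (h : e1.hom ≫ f ≫ e2.inv = 0) : f = 0 := by
  rw [← cancel_epi e1.hom, ← cancel_mono e2.inv]
  simpa using h

private lemma dc_retr (T : Triangle (DerivedCategory A)) (hT : T ∈ distTriang _)
    (h : T.mor₃ = 0) : ∃ r : T.obj₂ ⟶ T.obj₁, T.mor₁ ≫ r = 𝟙 _ := by
  obtain ⟨e, he1, -⟩ := exists_iso_binaryBiproduct_of_distTriang T hT h
  refine ⟨e.hom ≫ biprod.fst, ?_⟩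
  rw [← Category.assoc, he1, biprod.inl_fst]

private lemma dc_mor3_zero (T : Triangle (DerivedCategory A)) (hT : T ∈ distTriang _)
    (r : T.obj₂ ⟶ T.obj₁) (h : T.mor₁ ≫ r = 𝟙 _) : T.mor₃ = 0 := by
  have h5 := comp_distTriang_mor_zero₃₁ T hT
  have h7 : T.mor₁⟦(1 : ℤ)⟧' ≫ r⟦(1 : ℤ)⟧' = 𝟙 _ := by
    rw [← Functor.map_comp, h, CategoryTheory.Functor.map_id]
  rw [← Category.comp_id T.mor₃, ← h7, ← Category.assoc, h5, zero_comp]

private lemma dc_ses_zero {S : ShortComplex (CochainComplex A ℤ)} (hS : S.ShortExact)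
    (r : S.X₂ ⟶ S.X₁) (hr : S.f ≫ r = 𝟙 _) :
    (triangleOfSESδ hS : (Q.obj S.X₃ : DerivedCategory A) ⟶ _) = 0 := by
  refine dc_mor3_zero (triangleOfSES hS) (triangleOfSES_distinguished hS) (Q.map r) ?_
  have : Q.map S.f ≫ Q.map r = 𝟙 (Q.obj S.X₁ : DerivedCategory A) := by
    rw [← Functor.map_comp, hr, CategoryTheory.Functor.map_id]
  exact this

private lemma dc_hom_retr {K L : CochainComplex A ℤ} (f : K ⟶ L)
    (r0 : (Q.obj L : DerivedCategory A) ⟶ Q.obj K) (h : Q.map f ≫ r0 = 𝟙 _) (n : ℤ) :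
    ∃ ρ : L.homology n ⟶ K.homology n, HomologicalComplex.homologyMap f n ≫ ρ = 𝟙 _ := by
  let eK : (homologyFunctor A n).obj (Q.obj K) ≅ K.homology n := (homologyFunctorFactors A n).app K
  let eL : (homologyFunctor A n).obj (Q.obj L) ≅ L.homology n := (homologyFunctorFactors A n).app L
  have h3 : (homologyFunctor A n).map (Q.map f) ≫ eL.hom =
      eK.hom ≫ HomologicalComplex.homologyMap f n := homologyFunctorFactors_hom_naturality f n
  refine ⟨eL.inv ≫ (homologyFunctor A n).map r0 ≫ eK.hom, ?_⟩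
  rw [← cancel_epi eK.hom, ← reassoc_of% h3, Iso.hom_inv_id_assoc, ← Functor.map_comp_assoc, h]
  simp

private lemma dcLift_zero_iff (α : J ⟶ Ψ) (β : Ψ ⟶ J) (hw : ∀ M, α.app M ≫ β.app M = 0)
    (ex : ∀ M, (ShortComplex.mk (α.app M) (β.app M) (hw M)).ShortExact) (K : CochainComplex A ℤ) :
    (dcLift α β hw ex).app (Q.obj K) = 0 ↔ triangleOfSESδ (dcSes_exact α β hw ex K) = 0 := by
  rw [dcLift, Localization.liftNatTrans_app]
  constructor
  · intro h
    exact dc_zero_of
      ((Localization.Lifting.iso Q (HomologicalComplex.quasiIso A (ComplexShape.up ℤ))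
      (J.mapHomologicalComplex (ComplexShape.up ℤ) ⋙ Q) J.mapDerivedCategory).app K)
      ((dcDelta α β hw ex).app K)
      ((Localization.Lifting.iso Q (HomologicalComplex.quasiIso A (ComplexShape.up ℤ))
      ((J.mapHomologicalComplex (ComplexShape.up ℤ) ⋙ Q) ⋙ shiftFunctor (DerivedCategory A) (1 : ℤ))
      (J.mapDerivedCategory ⋙ shiftFunctor (DerivedCategory A) (1 : ℤ))).app K) h
  · intro h
    have : (dcDelta α β hw ex).app K = 0 := h
    rw [this, zero_comp, comp_zero]

private lemma dc_app_zero_of_iso {F : DerivedCategory A ⥤ DerivedCategory A}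
    (δ : F ⟶ F ⋙ shiftFunctor (DerivedCategory A) (1 : ℤ)) {X Y : DerivedCategory A}
    (e : X ≅ Y) (h : δ.app X = 0) : δ.app Y = 0 := by
  have := δ.naturality e.hom
  rw [h, zero_comp] at this
  rw [← cancel_epi (F.map e.hom), this, comp_zero]

theorem exists_delta (α : J ⟶ Ψ) (β : Ψ ⟶ J) (w : ∀ M, α.app M ≫ β.app M = 0)
    (ex : ∀ M, (ShortComplex.mk (α.app M) (β.app M) (w M)).ShortExact) :
    ∃ δ : J.mapDerivedCategory ⟶ J.mapDerivedCategory ⋙ shiftFunctor (DerivedCategory A) (1 : ℤ),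
      (∀ X, δ.app X = 0 → ∀ n, ∃ r : Ψ.obj (Hn n X) ⟶ J.obj (Hn n X), α.app (Hn n X) ≫ r = 𝟙 _) ∧
      (∀ M0 : A, (∃ r : Ψ.obj M0 ⟶ J.obj M0, α.app M0 ≫ r = 𝟙 _) →
        δ.app ((singleFunctor A 0).obj M0) = 0) := by
  refine ⟨dcLift α β w ex, ?_, ?_⟩
  · intro X hX n
    let K := Q.objPreimage X
    let eK : Q.obj K ≅ X := Q.objObjPreimageIso X
    have h1 : (dcLift α β w ex).app (Q.obj K) = 0 := dc_app_zero_of_iso _ eK.symm hX
    rw [dcLift_zero_iff] at h1
    obtain ⟨r0, hr0⟩ := dc_retr _ (triangleOfSES_distinguished (dcSes_exact α β w ex K)) h1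
    obtain ⟨ρ, h2⟩ := dc_hom_retr
      ((NatTrans.mapHomologicalComplex α (ComplexShape.up ℤ)).app K) r0 hr0 n
    -- homology
    let S := K.sc n
    have hα : HomologicalComplex.homologyMap
        ((NatTrans.mapHomologicalComplex α (ComplexShape.up ℤ)).app K) n =
        (S.mapHomologyIso J).hom ≫ α.app S.homology ≫ (S.mapHomologyIso Ψ).inv :=
      ShortComplex.homologyMap_mapNatTrans S α
    rw [hα] at h2
    let eH : Hn n X ≅ S.homology := (homologyFunctor A n).mapIso eK.symm ≪≫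
      (homologyFunctorFactors A n).app K
    let ρ' : (S.map Ψ).homology ⟶ (S.map J).homology := ρ
    have h2' : ((S.mapHomologyIso J).hom ≫ α.app S.homology ≫ (S.mapHomologyIso Ψ).inv) ≫ ρ' =
      𝟙 _ := h2
    have h4 : α.app S.homology ≫ (S.mapHomologyIso Ψ).inv ≫ ρ' = (S.mapHomologyIso J).inv := by
      rw [← cancel_epi (S.mapHomologyIso J).hom, Iso.hom_inv_id]
      simpa only [Category.assoc] using h2'
    refine ⟨Ψ.map eH.hom ≫ (S.mapHomologyIso Ψ).inv ≫ ρ' ≫ (S.mapHomologyIso J).hom ≫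
      J.map eH.inv, ?_⟩
    rw [← NatTrans.naturality_assoc, reassoc_of% h4]
    rw [Iso.inv_hom_id_assoc, ← Functor.map_comp, Iso.hom_inv_id, CategoryTheory.Functor.map_id]
  · rintro M0 ⟨r, hr⟩
    let K := (CochainComplex.singleFunctor A 0).obj M0
    have e : Q.obj K ≅ (singleFunctor A 0).obj M0 := (singleFunctorIsoCompQ A 0).symm.app M0
    refine dc_app_zero_of_iso _ e ?_
    rw [dcLift_zero_iff]
    -- retraction of complexes
    obtain ⟨r', hr'⟩ := dc_single_retr α M0 r hr
    change (NatTrans.mapHomologicalComplex α (ComplexShape.up ℤ)).app K ≫ r' = 𝟙 _ at hr'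
    exact dc_ses_zero (dcSes_exact α β w ex K) r' hr'

end Pool.Agent.BE
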