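import Pool.Agent.BE.DerN

/-!
# BE-DerD: Lemma D, decomposition by a finite family of exact functors

`η'_i : 𝟭 ⟶ (J i).mapDerivedCategory` from `exists_natTrans`. The map `Pi.lift (η'_i) : X → ∏ J_i X` in the
derived category induces isomorphisms on all cohomology objects (homology functors are additive, so
they preserve finite products; `hX`), so it is an isomorphism (`DerivedCategory.isIso_iff`); same for
`Y`. Let `u : J_i X → J_i Y`. `v : X → J_i X → J_i Y → ∏ J_j Y ≅ Y` is zero by `h0`, so
`X → J_i X → J_i Y` is zero; `X ≅ ∏ J_j X`, so `X → J_i X` is a split epimorphism, `u = 0`.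
-/

open CategoryTheory CategoryTheory.Limits CategoryTheory.Pretriangulated DerivedCategory

namespace Pool.Agent.BE

universe w v u

variable {A : Type u} [Category.{v} A] [Abelian A] [HasDerivedCategory.{w} A]

open Classical in
/-- the inclusion of a factor -/
private noncomputable def incl {D : Type*} [Category D] [HasZeroMorphisms D] {ι : Type} (f : ι → D)
    [HasProduct f] (i : ι) : f i ⟶ ∏ᶜ f :=
  Limits.Pi.lift fun j => if h : i = j then eqToHom (congrArg f h) else 0

private theorem incl_π {D : Type*} [Category D] [HasZeroMorphisms D] {ι : Type} (f : ι → D)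
    [HasProduct f] (i : ι) : incl f i ≫ Pi.π f i = 𝟙 _ := by
  simp [incl]

private theorem isIso_lift {ι : Type} [Fintype ι] (J : ι → (A ⥤ A)) [∀ i, (J i).Additive]
    [∀ i, PreservesFiniteLimits (J i)] [∀ i, PreservesFiniteColimits (J i)]
    (η : ∀ i, 𝟭 A ⟶ J i) (η' : ∀ i, 𝟭 (DerivedCategory A) ⟶ (J i).mapDerivedCategory)
    (hη : ∀ (i : ι) (n : ℤ),
      ∃ e : (J i).mapDerivedCategory ⋙ homologyFunctor A n ≅ homologyFunctor A n ⋙ J i,
        ∀ X : DerivedCategory A, (homologyFunctor A n).map ((η' i).app X) ≫ e.hom.app X =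
          (η i).app ((homologyFunctor A n).obj X))
    (X : DerivedCategory A) (hX : ∀ n, IsIso (Limits.Pi.lift (fun i => (η i).app (Hn n X)))) :
    IsIso (Limits.Pi.lift (P := X) (f := fun i => (J i).mapDerivedCategory.obj X) fun i => (η' i).app X) := by
  rw [DerivedCategory.isIso_iff]
  intro n
  choose e he using fun i => hη i n
  have hP : PreservesLimit (Discrete.functor fun i => (J i).mapDerivedCategory.obj X) (homologyFunctor A n) := by
    have : PreservesFiniteProducts (homologyFunctor A n) := inferInstance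
    infer_instance
  have h1 : (homologyFunctor A n).map (Limits.Pi.lift (P := X) (f := fun i => (J i).mapDerivedCategory.obj X)
        fun i => (η' i).app X) ≫
      piComparison (homologyFunctor A n) (fun i => (J i).mapDerivedCategory.obj X) ≫
      Limits.Pi.map (fun i => (e i).hom.app X) = Limits.Pi.lift (fun i => (η i).app (Hn n X)) := by
    refine Limits.Pi.hom_ext _ _ fun i => ?_
    simp only [Category.assoc, Limits.Pi.map_π, piComparison_comp_π_assoc]
    rw [← Functor.map_comp_assoc, Limits.Pi.lift_π, he i X]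
    exact (Limits.Pi.lift_π (fun i => (η i).app (Hn n X)) i).symm
  have h2 := hX n
  rw [← h1] at h2
  have h3 : IsIso (piComparison (homologyFunctor A n) (fun i => (J i).mapDerivedCategory.obj X) ≫
      Limits.Pi.map (fun i => (e i).hom.app X)) := inferInstance
  exact IsIso.of_isIso_comp_right _ (piComparison (homologyFunctor A n) (fun i => (J i).mapDerivedCategory.obj X) ≫
      Limits.Pi.map (fun i => (e i).hom.app X))

/-- Lemma D. Decomposition by a finite family of exact functors. -/
theorem lemD {ι : Type} [Fintype ι] (J : ι → (A ⥤ A)) [∀ i, (J i).Additive]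
    [∀ i, PreservesFiniteLimits (J i)] [∀ i, PreservesFiniteColimits (J i)]
    (η : ∀ i, 𝟭 A ⟶ J i) (X Y : DerivedCategory A)
    (hX : ∀ n, IsIso (Pi.lift (fun i => (η i).app (Hn n X))))
    (hY : ∀ n, IsIso (Pi.lift (fun i => (η i).app (Hn n Y))))
    (h0 : ∀ u : X ⟶ Y, u = 0) (i : ι)
    (u : (J i).mapDerivedCategory.obj X ⟶ (J i).mapDerivedCategory.obj Y) : u = 0 := by
  choose η' hη' using fun i => exists_natTrans (J i) (η i)
  have iX := isIso_lift J η η' hη' X hX
  have iY := isIso_lift J η η' hη' Y hY
  have h1 := h0 ((η' i).app X ≫ u ≫ incl (fun j => (J j).mapDerivedCategory.obj Y) i ≫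
    inv (Limits.Pi.lift (P := Y) (f := fun i => (J i).mapDerivedCategory.obj Y) fun i => (η' i).app Y))
  have h2 : (η' i).app X ≫ u = 0 := by
    have h3 : ((η' i).app X ≫ u ≫ incl (fun j => (J j).mapDerivedCategory.obj Y) i ≫
      inv (Limits.Pi.lift (P := Y) (f := fun i => (J i).mapDerivedCategory.obj Y) fun i => (η' i).app Y)) ≫ (Limits.Pi.lift (P := Y) (f := fun i => (J i).mapDerivedCategory.obj Y) fun i => (η' i).app Y) ≫ Limits.Pi.π _ i = (η' i).app X ≫ u := by
      simp only [Category.assoc, IsIso.inv_hom_id_assoc, incl_π, Category.comp_id]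
    rw [← h3, h1, zero_comp]
  have h4 : (incl (fun j => (J j).mapDerivedCategory.obj X) i ≫ inv (Limits.Pi.lift (P := X) (f := fun i => (J i).mapDerivedCategory.obj X) fun i => (η' i).app X)) ≫
      (η' i).app X = 𝟙 _ := by
    have h5 : (η' i).app X = (Limits.Pi.lift (P := X) (f := fun i => (J i).mapDerivedCategory.obj X) fun i => (η' i).app X) ≫ Limits.Pi.π _ i :=
      (Limits.Pi.lift_π (P := X) (f := fun i => (J i).mapDerivedCategory.obj X) (fun i => (η' i).app X) i).symm
    rw [h5, Category.assoc, IsIso.inv_hom_id_assoc, incl_π]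
  rw [← Category.id_comp u, ← h4, Category.assoc, h2, comp_zero]

end Pool.Agent.BE
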