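import Pool.Agent.BE.DerT

/-!
# BE-DerF: the final step (see be/proof.md, (6))

Suppose `X ≠ 0` and `Z ≠ 0`. Let `t` be the top degree with `Hn t X ≠ 0` and `b` the bottom degree with
`Hn b Z ≠ 0`. `u1 : X → (Hn t X)[-t] → M0[-t]` from `exists_from_top`, `u2 : M0[-b] → (Hn b Z)[-b] → Z`. The
composition `X → M0[-t] → Z⟦b - t⟧` is nonzero: on `H^t` it is `Hn t X ≅ Hn t X → M0 → Hn b Z`, where
`p : Hn t X → M0` is an epimorphism and `i : M0 → Hn b Z` a monomorphism because `M0` is simple. By `h0` we get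
`b - t > 0`, i.e. `t < b`. Long exact sequence (`homologyMap_exact...`): for `n ≠ 0` `H^n(M0[0]) = 0`, so
`H^n(Z) ≅ H^{n+1}(X)` for `n ≤ -2` and `n ≥ 1`, and `0 → H^{-1}Z → H^0 X → M0 → H^0 Z → H^1 X → 0` is exact. If
`Hn n X ≠ 0` then `n ≤ t < b`, so `Hn n Z = 0` and `Hn (n-1) Z = 0`, so the map `H^n X → H^n(M0[0])` is injective
(mono): `n = 0`. So `t = 0`, `H^0 X → M0` is a nonzero monomorphism, an isomorphism (`M0` simple). So
`H^n(Z) = 0` for all `n`: for `n ≥ 1` or `n ≤ -2` it is `H^{n+1}(X) = 0`; `n = -1`, `0`: exact sequence.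
-/

open CategoryTheory CategoryTheory.Limits CategoryTheory.Pretriangulated DerivedCategory

namespace Pool.Agent.BE

universe w v u

variable {A : Type u} [Category.{v} A] [Abelian A] [HasDerivedCategory.{w} A]

private theorem exists_shiftIso (t b : ℤ) :
    Nonempty (shiftFunctor (DerivedCategory A) (b - t) ⋙ homologyFunctor A t ≅
      homologyFunctor A b) :=
  ⟨(homologyFunctor A 0).shiftIso (b - t) t b (by ring)⟩

/-- Final step. -/
theorem lemFin (M0 : A) [Simple M0] (X Z : DerivedCategory A)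
    (f : X ⟶ (singleFunctor A 0).obj M0)
    (g : (singleFunctor A 0).obj M0 ⟶ Z) (h : Z ⟶ X⟦(1 : ℤ)⟧)
    (hT : Triangle.mk f g h ∈ distTriang (DerivedCategory A))
    (h0 : ∀ i : ℤ, i ≤ 0 → ∀ u : X ⟶ Z⟦i⟧, u = 0)
    (bX : ∃ b : ℤ, ∀ n, b < n → IsZero (Hn n X)) (bZ : ∃ b : ℤ, ∀ n, n < b → IsZero (Hn n Z))
    (hq : ∀ n, ¬ IsZero (Hn n X) → ∃ p : Hn n X ⟶ M0, p ≠ 0)
    (hs : ∀ n, ¬ IsZero (Hn n Z) → ∃ i : M0 ⟶ Hn n Z, i ≠ 0) :
    IsZero X ∨ IsZero Z := by
  by_contra hcon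
  rw [not_or] at hcon
  obtain ⟨hX, hZ⟩ := hcon
  have hX' : ∃ n, ¬ IsZero (Hn n X) := by
    by_contra h'
    push Not at h'
    exact hX (isZero_of_Hn X h')
  have hZ' : ∃ n, ¬ IsZero (Hn n Z) := by
    by_contra h'
    push Not at h'
    exact hZ (isZero_of_Hn Z h')
  obtain ⟨BX, hBX⟩ := bX
  obtain ⟨BZ, hBZ⟩ := bZ
  obtain ⟨t, ht, htop⟩ := Int.exists_greatest_of_bdd (P := fun n => ¬ IsZero (Hn n X))
    ⟨BX, fun z hz => by
      by_contra hlt
      exact hz (hBX z (not_le.1 hlt))⟩ hX'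
  obtain ⟨b, hb, hbot⟩ := Int.exists_least_of_bdd (P := fun n => ¬ IsZero (Hn n Z))
    ⟨BZ, fun z hz => by
      by_contra hlt
      exact hz (hBZ z (not_le.1 hlt))⟩ hZ'
  have hXz : ∀ n, t < n → IsZero (Hn n X) := fun n hn => by
    by_contra h'
    exact absurd (htop n h') (not_le.2 hn)
  have hZz : ∀ n, n < b → IsZero (Hn n Z) := fun n hn => by
    by_contra h'
    exact absurd (hbot n h') (not_le.2 hn)
  obtain ⟨p, hp⟩ := hq t ht
  obtain ⟨i, hi⟩ := hs b hb
  have : Epi p := epi_of_nonzero_to_simple hp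
  obtain ⟨u1, e1, he1⟩ := exists_from_top X t hXz M0 p
  obtain ⟨u2, e2, he2⟩ := exists_from_bottom Z b hZz M0 i
  have htb : t < b := by
    by_contra hle
    have hle' : b - t ≤ 0 := by omega
    let α := (shiftFunctorAdd' (DerivedCategory A) (-b) (b - t) (-t) (by ring)).app
      ((singleFunctor A 0).obj M0)
    have hw : u1 ≫ α.hom ≫ u2⟦(b - t)⟧' = 0 := h0 (b - t) hle' _
    obtain ⟨σ⟩ := exists_shiftIso (A := A) t b
    have h1 : (homologyFunctor A t).map (u2⟦(b - t)⟧') ≫ σ.hom.app Z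
        = σ.hom.app _ ≫ (homologyFunctor A b).map u2 := σ.hom.naturality u2
    have hu1 : (homologyFunctor A t).map u1 = p ≫ e1.inv := by
      rw [← he1, Category.assoc, e1.hom_inv_id, Category.comp_id]
    have hu2 : (homologyFunctor A b).map u2 = e2.inv ≫ i := by
      rw [← he2, e2.inv_hom_id_assoc]
    have h2 : (homologyFunctor A t).map (u1 ≫ α.hom ≫ u2⟦(b - t)⟧') ≫ σ.hom.app Z = 0 := by
      rw [hw, Functor.map_zero, zero_comp]
    rw [Functor.map_comp, Functor.map_comp, Category.assoc, Category.assoc, h1, hu1, hu2] at h2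
    have h3 : p ≫ ((e1.inv ≫ (homologyFunctor A t).map α.hom ≫ σ.hom.app _ ≫ e2.inv) ≫ i) = 0 := by
      simpa only [Category.assoc] using h2
    have h4 := zero_of_epi_comp p h3
    have : IsIso (e1.inv ≫ (homologyFunctor A t).map α.hom ≫
      σ.hom.app (((singleFunctor A 0).obj M0)⟦-b⟧) ≫ e2.inv) := by
      infer_instance
    exact hi (zero_of_epi_comp _ h4)
  -- long exact sequence
  have hiso : ∀ n, n < b → n ≠ 0 → IsZero (Hn n X) := by
    intro n hn hn0
    have hδ : HomologySequence.δ (Triangle.mk f g h) (n - 1) n (by omega) = 0 :=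
      (hZz (n - 1) (by omega)).eq_of_src _ _
    have hm : Mono ((homologyFunctor A n).map (Triangle.mk f g h).mor₁) :=
      (HomologySequence.mono_homologyMap_mor₁_iff (Triangle.mk f g h) hT (n - 1) n (by omega)).2 hδ
    have hz : (homologyFunctor A n).map (Triangle.mk f g h).mor₁ = 0 :=
      (Hn_single_ne M0 n hn0).eq_of_tgt _ _
    exact @IsZero.of_mono_eq_zero _ _ _ _ _ _ hm hz
  have ht0 : t = 0 := by
    by_contra hne
    exact ht (hiso t htb hne)
  have hepi : Epi ((homologyFunctor A b).map (Triangle.mk f g h).mor₂) :=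
    (HomologySequence.epi_homologyMap_mor₂_iff (Triangle.mk f g h) hT b (b + 1) rfl).2
      ((hXz (b + 1) (by omega)).eq_of_tgt _ _)
  have hz : (homologyFunctor A b).map (Triangle.mk f g h).mor₂ = 0 :=
    (Hn_single_ne M0 b (by omega)).eq_of_src _ _
  exact hb (@IsZero.of_epi_eq_zero _ _ _ _ _ _ hepi hz)

end Pool.Agent.BE
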