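import Pool.Agent.BE.DerH

/-!
# BE-DerZ

`F' = F.mapDerivedCategory` is triangulated, `F' (M0[0]) = 0` (all its cohomology is zero). The triangle
`F' X → 0 → F' Z → (F' X)⟦1⟧` shows `F' Z ≅ (F' X)⟦1⟧`, i.e. `F' X ≅ (F' Z)⟦-1⟧ ≅ F' (Z⟦-1⟧)`. By `h0` this
isomorphism is zero, so `F' X = 0`, `F' Z = 0`; `homology_der`.
-/

open CategoryTheory CategoryTheory.Limits CategoryTheory.Pretriangulated DerivedCategory

namespace Pool.Agent.BE

universe w v u

variable {A : Type u} [Category.{v} A] [Abelian A] [HasDerivedCategory.{w} A]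

/-- If the exact functor `F` kills the middle term of the triangle and
`Hom(F X, F Z[-1]) = 0` then `F` kills the cohomology of `X` and `Z`. -/
theorem lemZero (F : A ⥤ A) [F.Additive] [PreservesFiniteLimits F] [PreservesFiniteColimits F]
    (M0 : A) (X Z : DerivedCategory A)
    (f : X ⟶ (singleFunctor A 0).obj M0)
    (g : (singleFunctor A 0).obj M0 ⟶ Z) (h : Z ⟶ X⟦(1 : ℤ)⟧)
    (hT : Triangle.mk f g h ∈ distTriang (DerivedCategory A)) (hF : IsZero (F.obj M0))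
    (h0 : ∀ u : F.mapDerivedCategory.obj X ⟶ F.mapDerivedCategory.obj (Z⟦(-1 : ℤ)⟧), u = 0)
    (n : ℤ) : IsZero (F.obj (Hn n X)) ∧ IsZero (F.obj (Hn n Z)) := by
  have hH : ∀ (Y : DerivedCategory A) (k : ℤ), Nonempty (Hn k (F.mapDerivedCategory.obj Y) ≅ F.obj (Hn k Y)) := by
    intro Y k
    obtain ⟨e⟩ := homology_der F k
    exact ⟨e.app Y⟩
  have hM : IsZero (F.mapDerivedCategory.obj ((singleFunctor A 0).obj M0)) := by
    refine isZero_of_Hn _ fun k => ?_
    obtain ⟨e⟩ := hH ((singleFunctor A 0).obj M0) k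
    by_cases hk : k = 0
    · subst hk
      obtain ⟨e'⟩ := Hn_single M0
      exact hF.of_iso (e ≪≫ F.mapIso e')
    · exact (F.map_isZero (Hn_single_ne M0 k hk)).of_iso e
  have hT' := F.mapDerivedCategory.map_distinguished _ hT
  have h3 : IsIso (F.mapDerivedCategory.mapTriangle.obj (Triangle.mk f g h)).mor₃ :=
    (Triangle.isZero₂_iff_isIso₃ _ hT').1 hM
  let e₁ : F.mapDerivedCategory.obj Z ≅ (F.mapDerivedCategory.obj X)⟦(1 : ℤ)⟧ := @asIso _ _ _ _ _ h3
  let e₂ : F.mapDerivedCategory.obj X ≅ F.mapDerivedCategory.obj (Z⟦(-1 : ℤ)⟧) :=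
    (shiftShiftNeg (F.mapDerivedCategory.obj X) (1 : ℤ)).symm ≪≫
      (shiftFunctor (DerivedCategory A) (-1 : ℤ)).mapIso e₁.symm ≪≫
      ((F.mapDerivedCategory.commShiftIso (-1 : ℤ)).app Z).symm
  have hX : IsZero (F.mapDerivedCategory.obj X) := by
    rw [IsZero.iff_id_eq_zero, ← e₂.hom_inv_id, h0 e₂.hom, zero_comp]
  have hZ : IsZero (F.mapDerivedCategory.obj Z) :=
    ((shiftFunctor (DerivedCategory A) (1 : ℤ)).map_isZero hX).of_iso e₁
  obtain ⟨eX⟩ := hH X n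
  obtain ⟨eZ⟩ := hH Z n
  exact ⟨((homologyFunctor A n).map_isZero hX).of_iso eX.symm,
    ((homologyFunctor A n).map_isZero hZ).of_iso eZ.symm⟩

end Pool.Agent.BE
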