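import Mathlib

/-!
# BE-F1Alg: descent of the cocycle by traces

Let `d = [L : K]` (`φ` finite). `Algebra.trace K L` of an element integral over `A_i.map φ` is integral over
`A_i` (Mathlib `Algebra.isIntegral_trace`, for `A_i` as base ring, no fraction field needed; `t_i`
integral over `A_i` through `φ`), so it lies in `A_i` by `h_i`. `tr(n φ(f)) = n d f = tr t0 - tr t1`; divide by
`n d` (`q0`, `q1`; `n d ≠ 0`).
-/

open CategoryTheory CategoryTheory.Limits AlgebraicGeometry Opposite TopologicalSpace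

namespace Pool.Agent.BE

/-- the trace of an element integral over `A.map φ` lies in `A` -/
private theorem f1_trace {K L : Type} [Field K] [Field L] (φ : K →+* L) (hφ : φ.Finite)
    (A : Subring K) (hA : ∀ a : K, IsIntegral A a → a ∈ A) (t : L)
    (ht : IsIntegral (A.map φ) t) :
    (letI := φ.toAlgebra; Algebra.trace K L t) ∈ A := by
  let _ : Algebra K L := φ.toAlgebra
  have hfin : Module.Finite K L := hφ
  apply hA
  let ψ : A →+* A.map φ :=
    { toFun := fun a => ⟨φ a, ⟨a, a.2, rfl⟩⟩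
      map_one' := Subtype.ext (by simp)
      map_zero' := Subtype.ext (by simp)
      map_mul' := fun a b => Subtype.ext (by simp)
      map_add' := fun a b => Subtype.ext (by simp) }
  have hψ : Function.Surjective ψ := by
    rintro ⟨_, a, ha, rfl⟩
    exact ⟨⟨a, ha⟩, rfl⟩
  let _ : Algebra A (A.map φ) := ψ.toAlgebra
  have hint : Algebra.IsIntegral A (A.map φ) := ⟨fun x => by
    obtain ⟨a, rfl⟩ := hψ x
    exact isIntegral_algebraMap⟩
  have htow : IsScalarTower A (A.map φ) L := IsScalarTower.of_algebraMap_eq fun a => rfl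
  have h1 : IsIntegral A t := isIntegral_trans t ht
  exact Algebra.isIntegral_trace h1

/-- the algebra at the end of F1: `A0`, `A1` integrally closed subrings of the field `K`, with
fraction field `K`, `L/K` finite, `n f = t0 - t1` in `L` with `t_i` integral over `A_i` -/
theorem f1_algebra {K L : Type} [Field K] [CharZero K] [Field L] (φ : K →+* L) (hφ : φ.Finite)
    (A0 A1 : Subring K) (h0 : ∀ a : K, IsIntegral A0 a → a ∈ A0)
    (h1 : ∀ a : K, IsIntegral A1 a → a ∈ A1)
    (q0 : ∀ n : ℕ, n ≠ 0 → ((n : K)⁻¹) ∈ A0) (q1 : ∀ n : ℕ, n ≠ 0 → ((n : K)⁻¹) ∈ A1)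
    (f : K) (n : ℕ) (hn : n ≠ 0) (t0 t1 : L) (ht0 : IsIntegral (A0.map φ) t0)
    (ht1 : IsIntegral (A1.map φ) t1) (h : n • φ f = t0 - t1) :
    ∃ a0 ∈ A0, ∃ a1 ∈ A1, f = a0 + a1 := by
  have e0 := f1_trace φ hφ A0 h0 t0 ht0
  have e1 := f1_trace φ hφ A1 h1 t1 ht1
  let _ : Algebra K L := φ.toAlgebra
  have hfin : Module.Finite K L := hφ
  set d : ℕ := Module.finrank K L with hd
  have hd0 : d ≠ 0 := (Module.finrank_pos (R := K) (M := L)).ne'
  have hnd : n * d ≠ 0 := mul_ne_zero hn hd0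
  have htr : (n : K) * ((d : K) * f) = Algebra.trace K L t0 - Algebra.trace K L t1 := by
    rw [← map_sub, ← h, map_nsmul]
    have h2 : Algebra.trace K L (φ f) = d • f := Algebra.trace_algebraMap f
    rw [h2, nsmul_eq_mul, nsmul_eq_mul]
  refine ⟨((n * d : ℕ) : K)⁻¹ * Algebra.trace K L t0, A0.mul_mem (q0 _ hnd) e0,
    -(((n * d : ℕ) : K)⁻¹ * Algebra.trace K L t1), A1.neg_mem (A1.mul_mem (q1 _ hnd) e1), ?_⟩
  have hK : ((n * d : ℕ) : K) ≠ 0 := by exact_mod_cast hnd
  rw [← sub_eq_add_neg, ← mul_sub, ← htr]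
  push_cast at hK ⊢
  field_simp

end Pool.Agent.BE
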