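import Pool.Agent.BE.CohA

/-!
# BE-Fib: the fibre of a coherent module at a point

Fix an affine `U0` containing `z`, `V = κ(z) ⊗_{Γ(U0)} M(U0)` (via `ev z`). For affine `U` containing `z`
a semilinear map `ψ : M(U) → W` to a vector space extends uniquely to a compatible family of semilinear
maps `M(U') → W` (`ext_fam`): the value `w` at `m'` is characterised by `ψ(m) = g(z) w` whenever `m` and
`g m'` agree on a small affine open `D` containing `z` (`g` in `Γ(U)`). Apply this to `M(U0) → V`, to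
the composition with an endomorphism of `M(U)`, and to a nonzero functional (`fibre_ne`).
-/

open CategoryTheory CategoryTheory.Limits AlgebraicGeometry Opposite TopologicalSpace

namespace Pool.Agent.BE

variable {S : Scheme.{0}}

private lemma inj1 (M : QCoh S) {E U : Aff S} (h : E ≤ U) (z : S) (hE : z ∈ E.1) (m : sec M U)
    (hm : res M h m = 0) : ∃ f : Γ(S, U.1), ev z (h hE) f ≠ 0 ∧ f • m = 0 := by
  obtain ⟨D, h1, h2, f, g, hz, hf, hg⟩ := exists_basic U E z (h hE) hE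
  have h0 : res M h1 m = 0 := by
    have := M.obj.res_res h h2 m
    rw [hm, map_zero] at this
    exact this.symm
  obtain ⟨n, hn⟩ := res_inj M h1 f hf m h0
  refine ⟨f ^ n, ?_, hn⟩
  rw [map_pow]
  refine pow_ne_zero _ ?_
  have : z ∈ S.basicOpen f := hf ▸ hz
  exact (S.evaluation_ne_zero_iff_mem_basicOpen z (h hE) f).2 this

private lemma cmp1 (M : QCoh S) (U U' : Aff S) (z : S) (hU : z ∈ U.1) (hU' : z ∈ U'.1)
    (m' : sec M U') : ∃ (D : Aff S) (h : D ≤ U) (h' : D ≤ U') (_ : z ∈ D.1) (f : Γ(S, U.1))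
      (m : sec M U), ev z hU f ≠ 0 ∧ res M h m = rst h f • res M h' m' := by
  obtain ⟨D, h1, h2, f, g, hz, hf, hg⟩ := exists_basic U U' z hU hU'
  obtain ⟨n, m, hm⟩ := res_surj M h1 f hf (res M h2 m')
  refine ⟨D, h1, h2, hz, f ^ n, m, ?_, ?_⟩
  · rw [map_pow]
    refine pow_ne_zero _ ?_
    have : z ∈ S.basicOpen f := hf ▸ hz
    exact (S.evaluation_ne_zero_iff_mem_basicOpen z hU f).2 this
  · rw [hm, map_pow]

private lemma cmp2 (U U' : Aff S) (z : S) (hU : z ∈ U.1) (hU' : z ∈ U'.1) (a : Γ(S, U'.1)) :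
    ∃ (D : Aff S) (h : D ≤ U) (h' : D ≤ U') (_ : z ∈ D.1) (f b : Γ(S, U.1)),
      ev z hU f ≠ 0 ∧ rst h b = rst h f * rst h' a := by
  obtain ⟨⟨D, hD⟩, h1, h2, f, g, hz, hf, hg⟩ := exists_basic U U' z hU hU'
  simp only at hf
  subst hf
  have hloc := U.2.isLocalization_basicOpen f
  have hz' : z ∈ S.basicOpen f := hz
  obtain ⟨⟨b, ⟨s, hs⟩⟩, hb⟩ := @IsLocalization.surj _ _ (Submonoid.powers f) _ _ (_) hloc (rst h2 a)
  refine ⟨⟨_, hD⟩, h1, h2, hz, s, b, ?_, ?_⟩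
  · obtain ⟨n, rfl⟩ := hs
    rw [map_pow]
    refine pow_ne_zero _ ?_
    exact (S.evaluation_ne_zero_iff_mem_basicOpen z hU f).2 hz'
  · rw [mul_comm]
    exact hb.symm

/-- a small affine open in two given ones -/
private lemma small (D E : Aff S) (z : S) (hD : z ∈ D.1) (hE : z ∈ E.1) :
    ∃ (F : Aff S) (_ : F ≤ D) (_ : F ≤ E), z ∈ F.1 := by
  obtain ⟨F, h1, h2, _, _, hz, _⟩ := exists_basic D E z hD hE
  exact ⟨F, h1, h2, hz⟩

/-- the predicate characterising the value of the extension -/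
private def PV (M : QCoh S) (z : S) {W : Type} [AddCommGroup W] [Module (S.residueField z) W]
    (U : Aff S) (hU : z ∈ U.1) (ψ : sec M U →+ W) (U' : Aff S) (m' : sec M U') (w : W) : Prop :=
  ∀ (D : Aff S) (h : D ≤ U) (h' : D ≤ U') (_ : z ∈ D.1) (g : Γ(S, U.1)) (m : sec M U),
    res M h m = rst h g • res M h' m' → ψ m = ev z hU g • w

private lemma PV_exists (M : QCoh S) (z : S) {W : Type} [AddCommGroup W]
    [Module (S.residueField z) W] (U : Aff S) (hU : z ∈ U.1) (ψ : sec M U →+ W)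
    (hψ : ∀ (a : Γ(S, U.1)) m, ψ (a • m) = ev z hU a • ψ m) (U' : Aff S) (hU' : z ∈ U'.1)
    (m' : sec M U') : ∃ w, PV M z U hU ψ U' m' w := by
  obtain ⟨D₀, h₀, h₀', hz₀, f₀, m₀, hf₀, hm₀⟩ := cmp1 M U U' z hU hU' m'
  refine ⟨(ev z hU f₀)⁻¹ • ψ m₀, ?_⟩
  intro D h h' hz g m hm
  obtain ⟨E, hE, hE', hzE⟩ := small D D₀ z hz hz₀
  have e1 : res M (hE.trans h) m = rst (hE.trans h) g • res M (hE.trans h') m' := by
    have := congrArg (res M hE) hm
    rw [PM.res_smul, PM.res_res, PM.res_res, rst_rst] at this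
    exact this
  have e2 : res M (hE.trans h) m₀ = rst (hE.trans h) f₀ • res M (hE.trans h') m' := by
    have := congrArg (res M hE') hm₀
    rw [PM.res_smul, PM.res_res, PM.res_res, rst_rst] at this
    exact this
  have e3 : res M (hE.trans h) (f₀ • m - g • m₀) = 0 := by
    rw [map_sub, PM.res_smul, PM.res_smul, e1, e2, smul_smul, smul_smul, mul_comm, sub_self]
  obtain ⟨f, hf, hfm⟩ := inj1 M (hE.trans h) z hzE _ e3
  have e4 := congrArg ψ hfm
  rw [hψ, map_sub, hψ, hψ, map_zero] at e4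
  have e5 : ev z hU f₀ • ψ m = ev z hU g • ψ m₀ := by
    have := (smul_eq_zero.1 e4).resolve_left hf
    exact sub_eq_zero.1 this
  rw [smul_smul, mul_comm, mul_smul, ← e5, smul_smul, inv_mul_cancel₀ hf₀, one_smul]

private lemma PV_unique (M : QCoh S) (z : S) {W : Type} [AddCommGroup W]
    [Module (S.residueField z) W] (U : Aff S) (hU : z ∈ U.1) (ψ : sec M U →+ W)
    (U' : Aff S) (hU' : z ∈ U'.1)
    (m' : sec M U') (w w' : W) (h1 : PV M z U hU ψ U' m' w) (h2 : PV M z U hU ψ U' m' w') :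
    w = w' := by
  obtain ⟨D₀, h₀, h₀', hz₀, f₀, m₀, hf₀, hm₀⟩ := cmp1 M U U' z hU hU' m'
  have e1 := h1 D₀ h₀ h₀' hz₀ f₀ m₀ hm₀
  have e2 := h2 D₀ h₀ h₀' hz₀ f₀ m₀ hm₀
  rw [e1] at e2
  have e3 : ev z hU f₀ • (w - w') = 0 := by
    rw [smul_sub, e2, sub_self]
  exact sub_eq_zero.1 ((smul_eq_zero.1 e3).resolve_left hf₀)

/-- extension of a semilinear map to a compatible family -/
private lemma ext_fam (M : QCoh S) (z : S) {W : Type} [AddCommGroup W]
    [Module (S.residueField z) W] (U : Aff S) (hU : z ∈ U.1) (ψ : sec M U →+ W)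
    (hψ : ∀ (a : Γ(S, U.1)) m, ψ (a • m) = ev z hU a • ψ m) :
    ∃ Ψ : ∀ U' : Aff S, z ∈ U'.1 → (sec M U' →+ W), Ψ U hU = ψ ∧
      (∀ (U' : Aff S) (hU' : z ∈ U'.1) (a : Γ(S, U'.1)) (m : sec M U'),
        Ψ U' hU' (a • m) = ev z hU' a • Ψ U' hU' m) ∧
      (∀ (U' D : Aff S) (h : D ≤ U') (hU' : z ∈ U'.1) (hD : z ∈ D.1) (m : sec M U'),
        Ψ D hD (res M h m) = Ψ U' hU' m) := by
  classical
  let F : ∀ U' : Aff S, z ∈ U'.1 → sec M U' → W := fun U' hU' m' =>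
    (PV_exists M z U hU ψ hψ U' hU' m').choose
  have hF : ∀ (U' : Aff S) (hU' : z ∈ U'.1) (m' : sec M U'), PV M z U hU ψ U' m' (F U' hU' m') :=
    fun U' hU' m' => (PV_exists M z U hU ψ hψ U' hU' m').choose_spec
  have hFu : ∀ (U' : Aff S) (hU' : z ∈ U'.1) (m' : sec M U') (w : W) (D : Aff S) (h : D ≤ U)
      (h' : D ≤ U') (_ : z ∈ D.1) (g : Γ(S, U.1)) (m : sec M U), ev z hU g ≠ 0 →
      res M h m = rst h g • res M h' m' → ψ m = ev z hU g • w → F U' hU' m' = w := by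
    intro U' hU' m' w D h h' hz g m hg hm hw
    have e2 := hF U' hU' m' D h h' hz g m hm
    rw [hw] at e2
    have e3 : ev z hU g • (w - F U' hU' m') = 0 := by
      rw [smul_sub, e2, sub_self]
    exact (sub_eq_zero.1 ((smul_eq_zero.1 e3).resolve_left hg)).symm
  have hadd : ∀ (U' : Aff S) (hU' : z ∈ U'.1) (m₁ m₂ : sec M U'),
      F U' hU' (m₁ + m₂) = F U' hU' m₁ + F U' hU' m₂ := by
    intro U' hU' m₁ m₂
    obtain ⟨D₁, h₁, h₁', hz₁, f₁, n₁, hf₁, hn₁⟩ := cmp1 M U U' z hU hU' m₁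
    obtain ⟨D₂, h₂, h₂', hz₂, f₂, n₂, hf₂, hn₂⟩ := cmp1 M U U' z hU hU' m₂
    obtain ⟨E, hE, hE', hzE⟩ := small D₁ D₂ z hz₁ hz₂
    have e1 : res M (hE.trans h₁) n₁ = rst (hE.trans h₁) f₁ • res M (hE.trans h₁') m₁ := by
      have := congrArg (res M hE) hn₁
      rw [PM.res_smul, PM.res_res, PM.res_res, rst_rst] at this
      exact this
    have e2 : res M (hE.trans h₁) n₂ = rst (hE.trans h₁) f₂ • res M (hE.trans h₁') m₂ := by
      have := congrArg (res M hE') hn₂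
      rw [PM.res_smul, PM.res_res, PM.res_res, rst_rst] at this
      exact this
    refine hFu U' hU' _ _ E (hE.trans h₁) (hE.trans h₁') hzE (f₁ * f₂) (f₂ • n₁ + f₁ • n₂)
      (by rw [map_mul]; exact mul_ne_zero hf₁ hf₂) ?_ ?_
    · rw [map_add, PM.res_smul, PM.res_smul, e1, e2, map_add, smul_smul, smul_smul, map_mul,
        smul_add, mul_comm (rst (hE.trans h₁) f₂)]
    · rw [map_add, hψ, hψ, hF U' hU' m₁ D₁ h₁ h₁' hz₁ f₁ n₁ hn₁,
        hF U' hU' m₂ D₂ h₂ h₂' hz₂ f₂ n₂ hn₂, smul_smul, smul_smul, map_mul, smul_add,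
        mul_comm (ev z hU f₂)]
  refine ⟨fun U' hU' => AddMonoidHom.mk' (F U' hU') (hadd U' hU'), ?_, ?_, ?_⟩
  · ext m
    change F U hU m = ψ m
    refine hFu U hU m _ U le_rfl le_rfl hU 1 m (by rw [map_one]; exact one_ne_zero) ?_ ?_
    · rw [map_one, one_smul]
    · rw [map_one, one_smul]
  · intro U' hU' a m
    change F U' hU' (a • m) = ev z hU' a • F U' hU' m
    obtain ⟨D₁, h₁, h₁', hz₁, f₁, n₁, hf₁, hn₁⟩ := cmp1 M U U' z hU hU' m
    obtain ⟨D₂, h₂, h₂', hz₂, f₂, b, hf₂, hb⟩ := cmp2 U U' z hU hU' a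
    obtain ⟨E, hE, hE', hzE⟩ := small D₁ D₂ z hz₁ hz₂
    have e1 : res M (hE.trans h₁) n₁ = rst (hE.trans h₁) f₁ • res M (hE.trans h₁') m := by
      have := congrArg (res M hE) hn₁
      rw [PM.res_smul, PM.res_res, PM.res_res, rst_rst] at this
      exact this
    have e2 : rst (hE.trans h₁) b = rst (hE.trans h₁) f₂ * rst (hE.trans h₁') a := by
      have := congrArg (rst hE') hb
      rw [map_mul, rst_rst, rst_rst, rst_rst] at this
      exact this
    have e3 : ev z hU b = ev z hU f₂ * ev z hU' a := by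
      have := congrArg (ev z hzE) e2
      rw [map_mul, ev_rst, ev_rst, ev_rst] at this
      exact this
    refine hFu U' hU' _ _ E (hE.trans h₁) (hE.trans h₁') hzE (f₁ * f₂) (b • n₁)
      (by rw [map_mul]; exact mul_ne_zero hf₁ hf₂) ?_ ?_
    · rw [PM.res_smul, PM.res_smul, e1, e2, map_mul, smul_smul, smul_smul]
      congr 1
      ring
    · rw [hψ, hF U' hU' m D₁ h₁ h₁' hz₁ f₁ n₁ hn₁, e3, map_mul, smul_smul, smul_smul]
      congr 1
      ring
  · intro U' D h hU' hD m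
    change F D hD (res M h m) = F U' hU' m
    obtain ⟨D₁, h₁, h₁', hz₁, f₁, n₁, hf₁, hn₁⟩ := cmp1 M U D z hU hD (res M h m)
    refine hFu D hD _ _ D₁ h₁ h₁' hz₁ f₁ n₁ hf₁ hn₁ ?_
    refine hF U' hU' m D₁ h₁ (h₁'.trans h) hz₁ f₁ n₁ ?_
    rw [hn₁, PM.res_res]

/-- two compatible families which agree on one affine open agree -/
private lemma fam_eq (M : QCoh S) (z : S) {W : Type} [AddCommGroup W]
    [Module (S.residueField z) W] (U : Aff S) (hU : z ∈ U.1)
    (Ψ Ψ' : ∀ U' : Aff S, z ∈ U'.1 → (sec M U' →+ W))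
    (h1 : ∀ (U' : Aff S) (hU' : z ∈ U'.1) (a : Γ(S, U'.1)) (m : sec M U'),
        Ψ U' hU' (a • m) = ev z hU' a • Ψ U' hU' m)
    (h1' : ∀ (U' : Aff S) (hU' : z ∈ U'.1) (a : Γ(S, U'.1)) (m : sec M U'),
        Ψ' U' hU' (a • m) = ev z hU' a • Ψ' U' hU' m)
    (h2 : ∀ (U' D : Aff S) (h : D ≤ U') (hU' : z ∈ U'.1) (hD : z ∈ D.1) (m : sec M U'),
        Ψ D hD (res M h m) = Ψ U' hU' m)
    (h2' : ∀ (U' D : Aff S) (h : D ≤ U') (hU' : z ∈ U'.1) (hD : z ∈ D.1) (m : sec M U'),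
        Ψ' D hD (res M h m) = Ψ' U' hU' m)
    (h : ∀ m, Ψ U hU m = Ψ' U hU m) (U' : Aff S) (hU' : z ∈ U'.1) (m' : sec M U') :
    Ψ U' hU' m' = Ψ' U' hU' m' := by
  obtain ⟨D, k, k', hz, f, m, hf, hm⟩ := cmp1 M U U' z hU hU' m'
  have e1 : Ψ U hU m = ev z hU f • Ψ U' hU' m' := by
    rw [← h2 U D k hU hz m, hm, h1, h2 U' D k' hU' hz, ev_rst]
  have e2 : Ψ' U hU m = ev z hU f • Ψ' U' hU' m' := by
    rw [← h2' U D k hU hz m, hm, h1', h2' U' D k' hU' hz, ev_rst]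
  rw [h m, e2] at e1
  have e3 : ev z hU f • (Ψ' U' hU' m' - Ψ U' hU' m') = 0 := by
    rw [smul_sub, e1, sub_self]
  exact (sub_eq_zero.1 ((smul_eq_zero.1 e3).resolve_left hf)).symm

/-- extension of scalars along a ring homomorphism to a field -/
private lemma exists_tens {A K M : Type} [CommRing A] [Field K] (e : A →+* K) [AddCommGroup M]
    [Module A M] [Module.Finite A M] :
    ∃ (V : Type) (_ : AddCommGroup V) (_ : Module K V) (_ : FiniteDimensional K V) (j : M →+ V),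
      (∀ a m, j (a • m) = e a • j m) ∧ Submodule.span K (Set.range j) = ⊤ ∧
      ∀ (W : Type) [AddCommGroup W] [Module K W] (ψ : M →+ W),
        (∀ (a : A) m, ψ (a • m) = e a • ψ m) → ∃ H : V →ₗ[K] W, ∀ m, H (j m) = ψ m := by
  let : Algebra A K := e.toAlgebra
  refine ⟨TensorProduct A K M, inferInstance, inferInstance, inferInstance,
    (TensorProduct.mk A K M 1).toAddMonoidHom, ?_, ?_, ?_⟩
  · intro a m
    change (1 : K) ⊗ₜ[A] (a • m) = e a • ((1 : K) ⊗ₜ[A] m)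
    rw [← TensorProduct.smul_tmul, TensorProduct.smul_tmul', smul_eq_mul, mul_one,
      Algebra.smul_def, mul_one]
    rfl
  · rw [eq_top_iff]
    rintro x -
    induction x using TensorProduct.induction_on with
    | zero => exact Submodule.zero_mem _
    | tmul k m =>
      have : k ⊗ₜ[A] m = k • ((1 : K) ⊗ₜ[A] m) := by
        rw [TensorProduct.smul_tmul', smul_eq_mul, mul_one]
      rw [this]
      exact Submodule.smul_mem _ _ (Submodule.subset_span ⟨m, rfl⟩)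
    | add x y hx hy => exact Submodule.add_mem _ hx hy
  · intro W _ _ ψ hψ
    let : Module A W := Module.compHom W e
    have : IsScalarTower A K W := ⟨fun a k w => by
      change (a • k) • w = e a • (k • w)
      rw [Algebra.smul_def, mul_smul]
      rfl⟩
    let ψ' : M →ₗ[A] W := { ψ with map_smul' := fun a m => hψ a m }
    refine ⟨(TensorProduct.isBaseChange A M K).lift ψ', fun m => ?_⟩
    exact (TensorProduct.isBaseChange A M K).lift_eq ψ' m

/-- the fibre of a coherent module at a point `z` -/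
theorem exists_fibre (M : QCoh S) (hM : Coh M) (z : S) :
    ∃ (V : Type) (_ : AddCommGroup V) (_ : Module (S.residueField z) V)
      (_ : FiniteDimensional (S.residueField z) V)
      (ι : ∀ U : Aff S, z ∈ U.1 → (sec M U →+ V)),
      (∀ (U : Aff S) (hU : z ∈ U.1) (a : Γ(S, U.1)) (m : sec M U),
        ι U hU (a • m) = ev z hU a • ι U hU m) ∧
      (∀ (U D : Aff S) (h : D ≤ U) (hU : z ∈ U.1) (hD : z ∈ D.1) (m : sec M U),
        ι D hD (res M h m) = ι U hU m) ∧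
      (∀ (U : Aff S) (hU : z ∈ U.1),
        Submodule.span (S.residueField z) (Set.range (ι U hU)) = ⊤) ∧
      (∀ (U : Aff S) (hU : z ∈ U.1) (h : sec M U →ₗ[Γ(S, U.1)] sec M U),
        ∃ H : V →ₗ[S.residueField z] V, ∀ m, H (ι U hU m) = ι U hU (h m)) ∧
      (z ∈ Supp M → Nontrivial V) := by
  obtain ⟨U₀, hz⟩ : ∃ U₀ : Aff S, z ∈ U₀.1 := by
    obtain ⟨U0', hU0', hz0, -⟩ := (S.isBasis_affineOpens).exists_subset_of_mem_open
      (Set.mem_univ z) isOpen_univ
    obtain ⟨U0, hU0, rfl⟩ := hU0'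
    exact ⟨⟨U0, hU0⟩, hz0⟩
  have hfin : Module.Finite Γ(S, U₀.1) (sec M U₀) := hM U₀
  obtain ⟨V, iV1, iV2, iV3, j, j1, j2, j3⟩ := exists_tens (A := Γ(S, U₀.1)) (M := sec M U₀)
    (ev z hz)
  obtain ⟨ι, i0, i1, i2⟩ := ext_fam M z U₀ hz j j1
  refine ⟨V, iV1, iV2, iV3, ι, i1, i2, ?_, ?_, ?_⟩
  · intro U hU
    rw [eq_top_iff, ← j2, Submodule.span_le]
    rintro _ ⟨m₀, rfl⟩
    obtain ⟨D, h, h', hzD, f, m, hf, hm⟩ := cmp1 M U U₀ z hU hz m₀
    have e1 : ι U hU m = ev z hU f • j m₀ := by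
      rw [← i0, ← i2 U D h hU hzD m, hm, i1, i2 U₀ D h' hz hzD, ev_rst]
    have e2 : j m₀ = (ev z hU f)⁻¹ • ι U hU m := by
      rw [e1, smul_smul, inv_mul_cancel₀ hf, one_smul]
    rw [e2]
    exact Submodule.smul_mem _ _ (Submodule.subset_span ⟨m, rfl⟩)
  · intro U hU h
    obtain ⟨Ψ, p0, p1, p2⟩ := ext_fam M z U hU ((ι U hU).comp h.toAddMonoidHom) (fun a m => by
      change ι U hU (h (a • m)) = ev z hU a • ι U hU (h m)
      rw [map_smul, i1])
    obtain ⟨H, hH⟩ := j3 V (Ψ U₀ hz) (fun a m => p1 U₀ hz a m)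
    refine ⟨H, fun m => ?_⟩
    have e1 := fam_eq M z U₀ hz (fun U' hU' => H.toAddMonoidHom.comp (ι U' hU')) Ψ
      (fun U' hU' a m => by
        change H (ι U' hU' (a • m)) = ev z hU' a • H (ι U' hU' m)
        rw [i1, map_smul]) p1
      (fun U' D k hU' hD m => by
        change H (ι D hD (res M k m)) = H (ι U' hU' m)
        rw [i2 U' D k hU' hD]) p2
      (fun m => by
        change H (ι U₀ hz m) = Ψ U₀ hz m
        rw [i0, hH]) U hU m
    have e2 : Ψ U hU m = ι U hU (h m) := by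
      rw [p0]
      rfl
    exact e1.trans e2
  · intro hs
    obtain ⟨φ, f1, f2⟩ := fibre_ne M z hs U₀ hz (hM U₀)
    obtain ⟨H, hH⟩ := j3 (S.residueField z) φ (fun a m => f1 a m)
    have : ∃ m, φ m ≠ 0 := by
      by_contra hne
      push Not at hne
      exact f2 (by ext m; exact hne m)
    obtain ⟨m, hm⟩ := this
    refine ⟨⟨j m, 0, fun h0 => hm ?_⟩⟩
    rw [← hH, h0, map_zero]

end Pool.Agent.BE
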