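import Mathlib

/-!
# BE-FinPt: a closed set meeting the fibre of `p` over `c` contains a point `z` over `c` with `κ(z)/κ(c)` finite

The fibre `p.fiber c` is a Jacobson scheme (locally of finite type over `κ(c)`), so the closed subset
`Z ∩ fibre` contains a point `z` closed in the fibre; `Spec κ(z) → p.fiber (p z)` is a closed immersion, so
`Spec κ(z) → Spec κ(p z)` is locally of finite type, hence finite.
-/

open CategoryTheory CategoryTheory.Limits AlgebraicGeometry Opposite TopologicalSpace

namespace Pool.Agent.BE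

variable {S : Scheme.{0}}

private theorem closed_asFiber {C : Scheme.{0}} (p : S ⟶ C) (z : S) (c : C) (hc : p.base z = c)
    (h : IsClosed ({⟨z, hc⟩} : Set (p ⁻¹' {c} : Set S))) :
    IsClosed ({p.asFiber z} : Set (p.fiber (p.base z))) := by
  subst hc
  have h1 : ({p.asFiber z} : Set (p.fiber (p z))) =
      (p.fiberHomeo (p z)).symm '' ({⟨z, rfl⟩} : Set (p ⁻¹' {p z} : Set S)) := by
    rw [Set.image_singleton]
    rfl
  rw [h1]
  exact (p.fiberHomeo (p z)).symm.isClosedMap _ h

/-- every point of a closed set lying over `c` specialises, inside the fibre over `c`, to a point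
whose residue field is finite over `κ(c)` -/
theorem exists_finite_point {C : Scheme.{0}} (p : S ⟶ C) [LocallyOfFiniteType p] (s : S)
    (Z : Set S) (hZ : IsClosed Z) (hs : s ∈ Z) :
    ∃ (z : S) (hz : p.base z = p.base s), z ∈ Z ∧ (p.residueFieldMap z).hom.Finite := by
  have h1 : IsClosed ((p.fiberι (p s)) ⁻¹' Z) := hZ.preimage (p.fiberι (p s)).continuous
  have h2 : ((p.fiberι (p s)) ⁻¹' Z).Nonempty := ⟨p.asFiber s, by
    rw [Set.mem_preimage, Scheme.Hom.fiberι_asFiber]
    exact hs⟩
  obtain ⟨w, hwZ, hw⟩ := nonempty_inter_closedPoints h2 h1.isLocallyClosed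
  have hw' : IsClosed ({w} : Set (p.fiber (p s))) := hw
  have hz : p.base (p.fiberι (p s) w) = p.base s := by
    have h3 : p.fiberι (p s) w ∈ p ⁻¹' {p s} := by
      rw [← Scheme.Hom.range_fiberι]
      exact ⟨w, rfl⟩
    exact h3
  refine ⟨p.fiberι (p s) w, hz, hwZ, ?_⟩
  have h4 : IsClosed ({⟨p.fiberι (p s) w, hz⟩} : Set (p ⁻¹' {p.base s} : Set S)) := by
    have h5 : ({⟨p.fiberι (p s) w, hz⟩} : Set (p ⁻¹' {p.base s} : Set S)) =
        (p.fiberHomeo (p s)) '' {w} := by
      rw [Set.image_singleton]
      rfl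
    rw [h5]
    exact (p.fiberHomeo (p s)).isClosedMap _ hw'
  generalize p.fiberι (p s) w = z at *
  have h6 := closed_asFiber p z _ hz h4
  have h7 : IsClosedImmersion (p.asFiberHom z) :=
    .of_isPreimmersion _ (by rw [Scheme.Hom.range_asFiberHom]; exact h6)
  have h8 : LocallyOfFiniteType (p.fiberToSpecResidueField (p z)) :=
    MorphismProperty.pullback_snd _ _ inferInstance
  have h9 : LocallyOfFiniteType (Spec.map (p.residueFieldMap z)) := by
    rw [← Scheme.Hom.asFiberHom_fiberToSpecResidueField]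
    infer_instance
  rw [← IsFinite.SpecMap_iff, isFinite_iff_locallyOfFiniteType_of_jacobsonSpace]
  exact h9

end Pool.Agent.BE
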