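import Mathlib

/-!
# BE-Trace: the trace of an endomorphism of a finitely generated module is integral

Let `m_1..m_k` generate `M`, `h m_j = ∑ c_ij m_i`, `c : Matrix (Fin k) (Fin k) R`. Cayley-Hamilton
(Mathlib `LinearMap.exists_monic_and_aeval_eq_zero` or `Matrix.isRepresentation`...): a monic polynomial
`P` over `R` with `P(h) = 0`, so `P^φ(H) = 0` (`V` is spanned by the image). All roots (in an algebraic
closure of `K`) of the characteristic polynomial of `H` are roots of `P^φ`, so integral over
`φ(R)`; the trace is minus a coefficient of `H.charpoly`, i.e. the sum of the roots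
(`LinearMap.trace_eq_neg_charpoly_coeff`/`Matrix.trace_eq_sum_roots_charpoly`), so it is integral (integral
elements form a subring; for the descent from the algebraic closure to `K` use `isIntegral_algebraMap_iff`).
Alternative: `Polynomial` lemma: if a monic `Q` over `K` divides a power of the monic `P^φ` with `P` over `R`
then the coefficients of `Q` are integral over `R`
(Mathlib `IsIntegral.coeff_of_dvd`/`Polynomial.isIntegral_coeff_of_dvd`, `LinearMap.minpoly`, `charpoly`
divides a power of the `minpoly`).
-/

open CategoryTheory CategoryTheory.Limits AlgebraicGeometry Opposite TopologicalSpace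

namespace Pool.Agent.BE

open Polynomial in
private theorem be_aeval {R K : Type} [CommRing R] [Field K] (φ : R →+* K) {M V : Type}
    [AddCommGroup M] [Module R M] [AddCommGroup V] [Module K V]
    (ι : M →+ V) (hι : ∀ (a : R) m, ι (a • m) = φ a • ι m)
    (h : M →ₗ[R] M) (H : V →ₗ[K] V) (hH : ∀ m, H (ι m) = ι (h m)) (p : R[X]) (m : M) :
    aeval H (p.map φ) (ι m) = ι (aeval h p m) := by
  have hpow : ∀ n : ℕ, (H ^ n) (ι m) = ι ((h ^ n) m) := by
    intro n
    induction n with
    | zero => simp
    | succ n ih =>
      rw [pow_succ', pow_succ', Module.End.mul_apply, Module.End.mul_apply, ih, hH]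
  induction p using Polynomial.induction_on' with
  | add p q hp hq =>
    rw [Polynomial.map_add, map_add, map_add, LinearMap.add_apply, LinearMap.add_apply, hp, hq,
      map_add]
  | monomial n a =>
    rw [Polynomial.map_monomial, aeval_monomial, aeval_monomial, Module.End.mul_apply,
      Module.End.mul_apply, Module.algebraMap_end_apply, Module.algebraMap_end_apply, hpow, hι]

/-- trace of an endomorphism of a finitely generated module is integral -/
theorem trace_integral {R K : Type} [CommRing R] [Field K] (φ : R →+* K) {M V : Type}
    [AddCommGroup M] [Module R M] [Module.Finite R M] [AddCommGroup V] [Module K V]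
    [FiniteDimensional K V] (ι : M →+ V) (hι : ∀ (a : R) m, ι (a • m) = φ a • ι m)
    (hspan : Submodule.span K (Set.range ι) = ⊤) (h : M →ₗ[R] M) (H : V →ₗ[K] V)
    (hH : ∀ m, H (ι m) = ι (h m)) :
    IsIntegral φ.range (LinearMap.trace K V H) := by
  obtain ⟨p, hp, hp0⟩ := LinearMap.exists_monic_and_aeval_eq_zero R h
  have hq : Polynomial.aeval H (p.map φ) = 0 := by
    apply LinearMap.ext_on_range (v := ι) hspan
    intro m
    rw [be_aeval φ ι hι h H hH, hp0, LinearMap.zero_apply, LinearMap.zero_apply, map_zero]
  let L := AlgebraicClosure K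
  have hqL : Polynomial.aeval (H.baseChange L) ((p.map φ).map (algebraMap K L)) = 0 := by
    rw [Polynomial.aeval_map_algebraMap]
    have h1 := Polynomial.aeval_algHom_apply (Module.End.baseChangeHom K L V) H (p.map φ)
    rw [hq, map_zero] at h1
    exact h1
  rw [← isIntegral_algebraMap_iff (B := L) (algebraMap K L).injective,
    ← LinearMap.trace_baseChange,
    Module.End.trace_eq_sum_roots_charpoly_of_splits (IsAlgClosed.splits _)]
  have h2 : ∀ l ∈ (LinearMap.charpoly (H.baseChange L)).roots, IsIntegral φ.range l := by
    intro l hl
    have h3 : (LinearMap.charpoly (H.baseChange L)).IsRoot l := (Polynomial.mem_roots'.1 hl).2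
    have h4 : Module.End.HasEigenvalue (H.baseChange L) l :=
      (Module.End.hasEigenvalue_iff_isRoot_charpoly _ _).2 h3
    obtain ⟨v, hv⟩ := h4.exists_hasEigenvector
    have h5 := Module.End.aeval_apply_of_hasEigenvector (p := (p.map φ).map (algebraMap K L)) hv
    rw [hqL, LinearMap.zero_apply] at h5
    have h6 : ((p.map φ).map (algebraMap K L)).eval l = 0 :=
      (smul_eq_zero.1 h5.symm).resolve_right hv.2
    refine ⟨p.map φ.rangeRestrict, hp.map _, ?_⟩
    rw [Polynomial.eval₂_map]
    rw [Polynomial.eval_map, Polynomial.eval₂_map] at h6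
    exact h6
  generalize (LinearMap.charpoly (H.baseChange L)).roots = s at h2
  induction s using Multiset.induction_on with
  | empty =>
    rw [Multiset.sum_zero]
    exact isIntegral_zero
  | cons a s ih =>
    rw [Multiset.sum_cons]
    exact (h2 a (by simp)).add (ih fun l hl => h2 l (by simp [hl]))

end Pool.Agent.BE
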