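import Pool.Agent.BE.Sky0

/-!
# BE-ValA: the valuative criterion on residue fields

`S.fromSpecResidueField z : Spec κ(z) → S`, `Spec O → C0 ⊂ C` from `hO` (`C0` affine: ring hom
`Γ(C, C0) → O`), commutative square over `C` (equal on `Spec κ(z)`: check on `Γ(C, C0)`). `p` proper: the
valuative criterion (`UniversallyClosed.eq_valuativeCriterion`, `IsProper`...,
Mathlib/AlgebraicGeometry/ValuativeCriterion.lean) gives `l : Spec O → S` with `Spec κ(z) → Spec O → S`
equal to `fromSpecResidueField z`. Let `s` be the image of the closed point of `Spec O`, `U` an affine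
neighbourhood of `s` inside `p ⁻¹ᵁ C0`: `l` factors through `U` (`O` is local: `Spec O` is the only
neighbourhood of the closed point), so `z ∈ U` and `ev z` on `Γ(S, U)` factors through `O → κ(z)`.
-/

open CategoryTheory CategoryTheory.Limits AlgebraicGeometry Opposite TopologicalSpace

namespace Pool.Agent.BE

variable {S : Scheme.{0}}

/-- the point `Spec κ(x) → X` factors through every affine open containing `x` -/
private lemma valA_fromSpec {X : Scheme.{0}} {V : X.Opens} (hV : IsAffineOpen V) (x : X)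
    (hx : x ∈ V) :
    X.fromSpecResidueField x = Spec.map (X.evaluation V x hx) ≫ hV.fromSpec := by
  rw [Scheme.fromSpecResidueField, ← hV.fromSpecStalk_eq_fromSpecStalk hx,
    IsAffineOpen.fromSpecStalk, ← Scheme.germ_residue, Spec.map_comp, Category.assoc]

/-- valuative criterion: a valuation ring of `κ(z)` containing the functions of the affine open
`C0` contains the functions of an affine open `U` of `S` over `C0` containing `z` -/
theorem exists_affine_of_valuation {C : Scheme.{0}} (p : S ⟶ C) [IsProper p] (C0 : C.Opens)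
    (h0 : IsAffineOpen C0) (z : S) (hz : z ∈ p ⁻¹ᵁ C0) (O : ValuationSubring (S.residueField z))
    (hO : ∀ a : Γ(C, C0), ev (U := p ⁻¹ᵁ C0) z hz ((p.app C0).hom a) ∈ O) :
    ∃ (U : Aff S) (_ : U.1 ≤ p ⁻¹ᵁ C0) (hU : z ∈ U.1), ∀ a : Γ(S, U.1), ev z hU a ∈ O := by
  classical
  let ψ : Γ(C, C0) →+* O := RingHom.codRestrict
    ((ev (U := p ⁻¹ᵁ C0) z hz).comp (p.app C0).hom) O.toSubring hO
  let i₂ : Spec (.of O) ⟶ C := Spec.map (CommRingCat.ofHom ψ) ≫ h0.fromSpec
  have hψ : CommRingCat.ofHom ψ ≫ CommRingCat.ofHom (algebraMap O (S.residueField z)) =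
      p.app C0 ≫ S.evaluation (p ⁻¹ᵁ C0) z hz := by
    ext a
    rfl
  have w : S.fromSpecResidueField z ≫ p =
      Spec.map (CommRingCat.ofHom (algebraMap O (S.residueField z))) ≫ i₂ := by
    rw [← Scheme.Hom.SpecMap_residueFieldMap_fromSpecResidueField,
      valA_fromSpec h0 (p z) hz, ← Spec.map_comp_assoc, Scheme.evaluation_naturality]
    change _ = Spec.map (CommRingCat.ofHom (algebraMap O (S.residueField z))) ≫
      Spec.map (CommRingCat.ofHom ψ) ≫ h0.fromSpec
    rw [← Spec.map_comp_assoc, hψ]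
  have hex : ValuativeCriterion.Existence p := by
    have h1 : UniversallyClosed p := inferInstance
    rw [UniversallyClosed.eq_valuativeCriterion] at h1
    exact h1.1
  obtain ⟨l, hl₁, hl₂⟩ : ∃ l : Spec (.of O) ⟶ S,
      Spec.map (CommRingCat.ofHom (algebraMap O (S.residueField z))) ≫ l =
        S.fromSpecResidueField z ∧ l ≫ p = i₂ := by
    obtain ⟨l, hl₁, hl₂⟩ :=
      (hex { R := O, K := S.residueField z, commSq := ⟨w⟩, .. }).exists_lift
    exact ⟨l, hl₁, hl₂⟩
  have hs : l (IsLocalRing.closedPoint O) ∈ p ⁻¹ᵁ C0 := by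
    change p (l (IsLocalRing.closedPoint O)) ∈ C0
    rw [← Scheme.Hom.comp_apply, hl₂]
    have : Set.range h0.fromSpec = C0 := h0.range_fromSpec
    change _ ∈ (C0 : Set C)
    rw [← this]
    exact ⟨_, rfl⟩
  obtain ⟨U, hU, hsU, hle⟩ := exists_isAffineOpen_mem_and_subset hs
  have hl : l = Spec.map (S.presheaf.germ U _ hsU ≫ Scheme.stalkClosedPointTo l) ≫
      hU.fromSpec := by
    conv_lhs => rw [← Scheme.Spec_stalkClosedPointTo_fromSpecStalk l]
    rw [← hU.fromSpecStalk_eq_fromSpecStalk hsU, IsAffineOpen.fromSpecStalk, Spec.map_comp,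
      Category.assoc]
  have hzU : z ∈ U := by
    have h1 : S.fromSpecResidueField z (IsLocalRing.closedPoint (S.residueField z)) = z :=
      Scheme.fromSpecResidueField_apply _ _
    rw [← hl₁, Scheme.Hom.comp_apply, hl, Scheme.Hom.comp_apply] at h1
    have h2 : Set.range hU.fromSpec = U := hU.range_fromSpec
    change z ∈ (U : Set S)
    rw [← h2, ← h1]
    exact ⟨_, rfl⟩
  refine ⟨⟨U, hU⟩, hle, hzU, fun a => ?_⟩
  have key : S.evaluation U z hzU = (S.presheaf.germ U _ hsU ≫ Scheme.stalkClosedPointTo l) ≫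
      CommRingCat.ofHom (algebraMap O (S.residueField z)) := by
    apply Spec.map_injective
    rw [← cancel_mono hU.fromSpec, ← valA_fromSpec hU z hzU, ← hl₁, Spec.map_comp,
      Category.assoc, ← hl]
  change (S.evaluation U z hzU).hom a ∈ O
  rw [key]
  exact Subtype.property _

end Pool.Agent.BE
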