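import Pool.Agent.BE.Fam
import Pool.Agent.BE.Trace
import Pool.Agent.BE.Fib
import Pool.Agent.BE.FinPt
import Pool.Agent.BE.ValA
import Pool.Agent.BE.F1Alg
import Pool.Agent.BE.SuppA

/-!
# BE-F1: Lemma F1

Suppose `s ∈ Supp M`, `p s = η = genericPoint C`. `exists_finite_point` with `Z = Supp M` (closed) gives `z ∈ Supp M`
over `η` with `κ(η) → κ(z)` finite. `V`, `ι` from `exists_fibre` at `z`, `n = dim V ≠ 0`. Let `K = κ(η)`
(= function field), `A_i` = image of `Γ(C, C_i)` in `K` (injective because `C` is integral; integrally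
closed in `K`: `K` is the fraction field of `Γ(C, C_i)`, `n_i`). `tr(H_i) ∈ κ(z)` is integral over the image of
`A_i`: the integral closure of a subring of a field is the intersection of the valuation subrings
containing it (Mathlib `ValuationSubring`/`Valuation.Integral`: look for
`Subring.integralClosure_eq_iInf`/`bijective_..`; or `LocalSubring`/`ValuationSubring.exists_le...`:
for `t` not integral over `A`, `t⁻¹` is a nonunit in `A[t⁻¹]`, take a valuation subring dominating a
localisation at a maximal ideal containing `t⁻¹`). For `O` a valuation subring containing the image of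
`Γ(C, C_i)`, `exists_affine_of_valuation` gives an affine `U ≤ p⁻¹ C_i`, `z ∈ U`, with `Γ(U) → κ(z)` landing
in `O`. `H_i` is the endomorphism of `V` induced by `E.e_i U` (the same for all `U`, by compatibility with
restrictions and spanning), `trace_integral` over `Γ(U)`: the trace is integral over the image of `Γ(U)`,
so it is in `O` (integrally closed). `H_0 - H_1 = f(z)` (compare on a small affine in `p⁻¹(C_0 ∩ C_1)`).
Then `f1_algebra` with `φ = p.residueFieldMap z`: `f = a0 + a1` in `K`, hence in `Γ(C, C0 ⊓ C1)` (injects into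
`K`), contradicting `hf`. Characteristic zero of `K` and the inverses from `hi`.
-/

open CategoryTheory CategoryTheory.Limits AlgebraicGeometry Opposite TopologicalSpace

namespace Pool.Agent.BE

variable {S : Scheme.{0}}

private theorem f1_val {L : Type} [Field L] (B : Subring L) (t : L)
    (h : ∀ O : ValuationSubring L, B ≤ O.toSubring → t ∈ O) : IsIntegral B t := by
  have h1 : t ∈ (⨅ V : {V : ValuationSubring L // (B : Set L) ⊆ V.toSubring}, V.1.toSubring) := by
    rw [Subring.mem_iInf]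
    intro V
    exact h V.1 V.2
  rw [iInf_valuationSubring_superset] at h1
  have h2 : IsIntegral (Subring.closure (B : Set L)) t := h1
  rwa [Subring.closure_eq] at h2

private theorem f1_mem_val {R L : Type} [CommRing R] [Field L] (f : R →+* L) (O : ValuationSubring L)
    (hf : ∀ a, f a ∈ O) (t : L) (h : IsIntegral f.range t) : t ∈ O := by
  have hle : f.range ≤ O.toSubring := by
    rintro _ ⟨a, rfl⟩
    exact hf a
  have h1 : IsIntegral O.toSubring t :=
    IsIntegral.map_of_comp_eq (Subring.inclusion hle) (RingHom.id L) rfl h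
  have h2 : IsIntegral O t := h1
  obtain ⟨y, hy⟩ := IsIntegrallyClosedIn.algebraMap_eq_of_integral h2
  rw [← hy]
  exact y.2

private theorem f1_range_closed {R F K : Type} [CommRing R] [Field F] [Field K]
    [IsIntegrallyClosed R] [Algebra R F] [IsFractionRing R F] (g : F →+* K) (hg : Function.Bijective g)
    (f : R →+* K) (hf : f = g.comp (algebraMap R F)) (a : K) (ha : IsIntegral f.range a) :
    a ∈ f.range := by
  obtain ⟨b, rfl⟩ := hg.2 a
  let _ : Algebra R f.range := f.rangeRestrict.toAlgebra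
  let _ : Algebra R K := f.toAlgebra
  have : IsScalarTower R f.range K := IsScalarTower.of_algebraMap_eq fun x => rfl
  have : Algebra.IsIntegral R f.range := ⟨fun x => by
    obtain ⟨y, hy⟩ := f.rangeRestrict_surjective x
    rw [← hy]
    exact isIntegral_algebraMap⟩
  have h1 : IsIntegral R (g b) := isIntegral_trans (R := R) (A := f.range) (g b) ha
  let e : F ≃+* K := RingEquiv.ofBijective g hg
  have h2 : IsIntegral R b := by
    have h3 := IsIntegral.map_of_comp_eq (T := R) (U := F) (RingHom.id R) (e.symm : K →+* F) (by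
      ext x
      show algebraMap R F x = e.symm (f x)
      rw [hf]
      show algebraMap R F x = e.symm (e (algebraMap R F x))
      rw [e.symm_apply_apply]) h1
    have h4 : e.symm (g b) = b := e.symm_apply_apply b
    rw [← h4]
    exact h3
  obtain ⟨y, hy⟩ := (isIntegrallyClosed_iff F).1 ‹_› h2
  exact ⟨y, by rw [hf, ← hy]; rfl⟩

private theorem f1_residue_bij {C : Scheme.{0}} [IsIntegral C] :
    Function.Bijective (C.residue (genericPoint C)).hom := by
  constructor
  · exact RingHom.injective (C.residue (genericPoint C) : C.presheaf.stalk (genericPoint C) ⟶ _).hom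
  · exact C.residue_surjective _

private theorem f1_ev_inj {C : Scheme.{0}} [IsIntegral C] (x : C) (hx : x = genericPoint C)
    (U : C.Opens) (hU : x ∈ U) : Function.Injective (ev x hU) := by
  subst hx
  intro a b hab
  refine germ_injective_of_isIntegral C (genericPoint C) hU ?_
  exact f1_residue_bij.1 hab

private theorem f1_ev_closed {C : Scheme.{0}} [IsIntegral C] (x : C) (hx : x = genericPoint C)
    (U : C.Opens) (hU : x ∈ U) (hA : IsAffineOpen U) (hn : IsIntegrallyClosed Γ(C, U))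
    (a : C.residueField x) (ha : IsIntegral (ev x hU).range a) : a ∈ (ev x hU).range := by
  subst hx
  have : Nonempty U := ⟨⟨_, hU⟩⟩
  have := functionField_isFractionRing_of_isAffineOpen C U hA
  exact f1_range_closed (F := C.functionField) (C.residue (genericPoint C)).hom f1_residue_bij
    (ev (genericPoint C) hU) rfl a ha

/-- one side of the covering: the trace of the endomorphism is integral -/
private theorem f1_side {C : Scheme.{0}} (p : S ⟶ C) [IsProper p] (C0 : C.Opens)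
    (h0 : IsAffineOpen C0) (M : QCoh S) (hM : Coh M) (z : S) (hz : z ∈ p ⁻¹ᵁ C0)
    (V : Type) [AddCommGroup V] [Module (S.residueField z) V] [FiniteDimensional (S.residueField z) V]
    (ι : ∀ U : Aff S, z ∈ U.1 → (sec M U →+ V))
    (hs : ∀ (U : Aff S) (hU : z ∈ U.1) (a : Γ(S, U.1)) (m : sec M U),
        ι U hU (a • m) = ev z hU a • ι U hU m)
    (hr : ∀ (U D : Aff S) (h : D ≤ U) (hU : z ∈ U.1) (hD : z ∈ D.1) (m : sec M U),
        ι D hD (res M h m) = ι U hU m)
    (hspan : ∀ (U : Aff S) (hU : z ∈ U.1),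
        Submodule.span (S.residueField z) (Set.range (ι U hU)) = ⊤)
    (hend : ∀ (U : Aff S) (hU : z ∈ U.1) (h : sec M U →ₗ[Γ(S, U.1)] sec M U),
        ∃ H : V →ₗ[S.residueField z] V, ∀ m, H (ι U hU m) = ι U hU (h m))
    (e : ∀ U : Aff S, U.1 ≤ p ⁻¹ᵁ C0 → (sec M U →ₗ[Γ(S, U.1)] sec M U))
    (e_res : ∀ {D U : Aff S} (h : D ≤ U) (hU : U.1 ≤ p ⁻¹ᵁ C0) (m : sec M U),
      res M h (e U hU m) = e D (le_trans (show D.1 ≤ U.1 from h) hU) (res M h m)) :
    ∃ H : V →ₗ[S.residueField z] V,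
      (∀ (U : Aff S) (hU : U.1 ≤ p ⁻¹ᵁ C0) (hzU : z ∈ U.1) (m : sec M U),
        H (ι U hzU m) = ι U hzU (e U hU m)) ∧
      IsIntegral ((ev (U := C0) (p.base z) hz).range.map (p.residueFieldMap z).hom)
        (LinearMap.trace (S.residueField z) V H) := by
  -- any two choices agree
  have key : ∀ (U D : Aff S) (h : D ≤ U) (hU : U.1 ≤ p ⁻¹ᵁ C0) (hzU : z ∈ U.1) (hzD : z ∈ D.1)
      (H H' : V →ₗ[S.residueField z] V) (hH : ∀ m, H (ι U hzU m) = ι U hzU (e U hU m))
      (hH' : ∀ m, H' (ι D hzD m) = ι D hzD (e D (le_trans (show D.1 ≤ U.1 from h) hU) m)), H = H' := by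
    intro U D h hU hzU hzD H H' hH hH'
    refine LinearMap.ext_on_range (hspan U hzU) ?_
    intro m
    rw [hH, ← hr U D h hzU hzD, e_res h hU, ← hH', hr]
  obtain ⟨_, ⟨U0, hU0, rfl⟩, hzU0, hle0⟩ :=
    S.isBasis_affineOpens.exists_subset_of_mem_open hz (p ⁻¹ᵁ C0).isOpen
  obtain ⟨H, hH⟩ := hend ⟨U0, hU0⟩ hzU0 (e ⟨U0, hU0⟩ hle0)
  have hall : ∀ (U : Aff S) (hU : U.1 ≤ p ⁻¹ᵁ C0) (hzU : z ∈ U.1) (m : sec M U),
        H (ι U hzU m) = ι U hzU (e U hU m) := by
    intro U hU hzU
    obtain ⟨D, hD, hD', _, _, hzD, _, _⟩ := exists_basic U ⟨U0, hU0⟩ z hzU hzU0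
    obtain ⟨H1, hH1⟩ := hend U hzU (e U hU)
    obtain ⟨H2, hH2⟩ := hend D hzD (e D (le_trans (show D.1 ≤ U.1 from hD) hU))
    have e1 := key U D hD hU hzU hzD H1 H2 hH1 hH2
    have e2 := key ⟨U0, hU0⟩ D hD' hle0 hzU0 hzD H H2 hH hH2
    rw [e2, ← e1]
    exact hH1
  refine ⟨H, hall, ?_⟩
  refine f1_val _ _ fun O hO => ?_
  obtain ⟨U, hU, hzU, hev⟩ := exists_affine_of_valuation p C0 h0 z hz O (fun a => by
    refine hO ?_
    refine ⟨ev (U := C0) (p.base z) hz a, ⟨a, rfl⟩, ?_⟩
    exact Scheme.evaluation_naturality_apply p z hz a)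
  have : Module.Finite Γ(S, U.1) (sec M U) := hM U
  have ht := trace_integral (ev z hzU) (ι U hzU) (hs U hzU) (hspan U hzU) (e U hU) H (hall U hU hzU)
  exact f1_mem_val _ O hev _ ht

/-- LEMMA F1 -/
theorem lemF1 {C : Scheme.{0}} (p : S ⟶ C) [IsProper p] [IsIntegral C]
    (C0 C1 : C.Opens) (h0 : IsAffineOpen C0) (h1 : IsAffineOpen C1)
    (n0 : IsIntegrallyClosed Γ(C, C0)) (n1 : IsIntegrallyClosed Γ(C, C1))
    (hi : ∀ n : ℕ, n ≠ 0 → ∃ a : Γ(C, ⊤), (n : Γ(C, ⊤)) * a = 1)
    (f : Γ(C, C0 ⊓ C1))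
    (hf : ∀ (a0 : Γ(C, C0)) (a1 : Γ(C, C1)), f ≠ rst inf_le_left a0 + rst inf_le_right a1)
    (M : QCoh S) (hM : Coh M)
    (E : EndFam (p ⁻¹ᵁ C0) (p ⁻¹ᵁ C1) ((p.app (C0 ⊓ C1)).hom f) M) (s : S) (hs : s ∈ Supp M) :
    p.base s ≠ genericPoint C := by
  intro hgen
  obtain ⟨z, hz, hzM, hfin⟩ := exists_finite_point p s (Supp M) (supp_closed M) hs
  have hη : p.base z = genericPoint C := hz.trans hgen
  -- the generic point is in `C0 ⊓ C1`
  have hne : ((C0 ⊓ C1 : C.Opens) : Set C).Nonempty := by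
    by_contra hemp
    rw [Set.not_nonempty_iff_eq_empty] at hemp
    have hbot : (C0 ⊓ C1 : C.Opens) = ⊥ := Opens.ext hemp
    have hsub : Subsingleton Γ(C, C0 ⊓ C1) := by
      rw [hbot]; infer_instance
    exact hf 0 0 (Subsingleton.elim _ _)
  have hmem : p.base z ∈ C0 ⊓ C1 := by
    rw [hη]
    exact ((genericPoint_spec C).mem_open_set_iff (C0 ⊓ C1).isOpen).2 (by simpa using hne)
  have hm0 : p.base z ∈ C0 := hmem.1
  have hm1 : p.base z ∈ C1 := hmem.2
  obtain ⟨V, _, _, _, ι, hsm, hr, hspan, hend, hnt⟩ := exists_fibre M hM z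
  have hV : Nontrivial V := hnt hzM
  obtain ⟨H0, hH0, ht0⟩ := f1_side p C0 h0 M hM z hm0 V ι hsm hr hspan hend E.e0 E.e0_res
  obtain ⟨H1, hH1, ht1⟩ := f1_side p C1 h1 M hM z hm1 V ι hsm hr hspan hend E.e1 E.e1_res
  -- comparison
  set φ := (p.residueFieldMap z).hom with hφ
  have hcmp : H0 - H1 = (φ (ev (U := C0 ⊓ C1) (p.base z) hmem f)) •
      (LinearMap.id : V →ₗ[S.residueField z] V) := by
    obtain ⟨_, ⟨D, hD, rfl⟩, hzD, hle⟩ :=
      S.isBasis_affineOpens.exists_subset_of_mem_open (show z ∈ (p ⁻¹ᵁ (C0 ⊓ C1)) from hmem)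
        (p ⁻¹ᵁ (C0 ⊓ C1)).isOpen
    refine LinearMap.ext_on_range (hspan ⟨D, hD⟩ hzD) ?_
    intro m
    have hle' : D ≤ p ⁻¹ᵁ C0 ⊓ p ⁻¹ᵁ C1 := hle
    have hd := E.diff ⟨D, hD⟩ hle' m
    rw [LinearMap.sub_apply, hH0 ⟨D, hD⟩ (hle'.trans inf_le_left) hzD,
      hH1 ⟨D, hD⟩ (hle'.trans inf_le_right) hzD, ← map_sub, hd, hsm, ev_rst]
    rw [LinearMap.smul_apply, LinearMap.id_apply]
    congr 1
    exact (Scheme.evaluation_naturality_apply p z hmem f).symm
  set n := Module.finrank (S.residueField z) V with hn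
  have hn0 : n ≠ 0 := Module.finrank_pos.ne'
  have htr : n • φ (ev (U := C0 ⊓ C1) (p.base z) hmem f) =
      LinearMap.trace (S.residueField z) V H0 - LinearMap.trace (S.residueField z) V H1 := by
    rw [← map_sub, hcmp, map_smul, LinearMap.trace_id, smul_eq_mul, nsmul_eq_mul, mul_comm]
  -- characteristic zero
  have hinv : ∀ (U : C.Opens) (hU : p.base z ∈ U) (n : ℕ), n ≠ 0 →
      ∃ a : Γ(C, U), (n : C.residueField (p.base z)) * ev (U := U) (p.base z) hU a = 1 := by
    intro U hU n hn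
    obtain ⟨a, ha⟩ := hi n hn
    refine ⟨rst le_top a, ?_⟩
    rw [ev_rst]
    have := congrArg (ev (U := ⊤) (p.base z) (by trivial)) ha
    rw [map_mul, map_one, map_natCast] at this
    exact this
  have hchar : CharZero (C.residueField (p.base z)) := by
    refine charZero_of_inj_zero fun n hn => ?_
    by_contra h
    obtain ⟨a, ha⟩ := hinv _ hm0 n h
    rw [hn, zero_mul] at ha
    exact zero_ne_one ha
  have hq : ∀ (U : C.Opens) (hU : p.base z ∈ U) (n : ℕ), n ≠ 0 →
      ((n : C.residueField (p.base z))⁻¹) ∈ (ev (U := U) (p.base z) hU).range := by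
    intro U hU n hn
    obtain ⟨a, ha⟩ := hinv U hU n hn
    exact ⟨a, eq_inv_of_mul_eq_one_right ha⟩
  obtain ⟨a0, ⟨b0, hb0⟩, a1, ⟨b1, hb1⟩, hfa⟩ := f1_algebra φ hfin
    (ev (U := C0) (p.base z) hm0).range (ev (U := C1) (p.base z) hm1).range
    (f1_ev_closed _ hη C0 hm0 h0 n0) (f1_ev_closed _ hη C1 hm1 h1 n1) (hq C0 hm0) (hq C1 hm1)
    (ev (U := C0 ⊓ C1) (p.base z) hmem f) n hn0 _ _ ht0 ht1 htr
  refine hf b0 b1 (f1_ev_inj _ hη (C0 ⊓ C1) hmem ?_)
  rw [map_add, ev_rst, ev_rst, hfa, ← hb0, ← hb1]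

end Pool.Agent.BE
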