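import Pool.Agent.BE.Fam
import Pool.Agent.BE.Trace
import Pool.Agent.BE.Fib

/-!
# BE-F2: Lemma F2

Suppose `z ∈ Supp M`. Take `V`, `ι` from `exists_fibre`, `n = dim V ≠ 0`. `H_i` induced by `E.e_i W_i` on `V`;
`trace_integral` (with `φ = ev z z_i`, `M(W_i)` finite) and `n_i` give `tr H_i ∈ (ev z z_i).range`. On an affine
open `D ≤ W0 ⊓ W1` containing `z` the endomorphisms `E.e0 D`, `E.e1 D` are compatible with the restriction
from `W_i`, and `e0 - e1 = g`: so `H_0 - H_1 = g(z)` on the image of `M(D)`, which spans `V`. Traces: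
`tr H_0 - tr H_1 = n g(z)`, `n` is invertible in `Γ(S, ⊤)` (`hi`), so `g(z) = a0(z) + a1(z)`, contradiction
to `hg`.
-/

open CategoryTheory CategoryTheory.Limits AlgebraicGeometry Opposite TopologicalSpace

namespace Pool.Agent.BE

variable {S : Scheme.{0}}

/-- linear maps that agree on a spanning set -/
private lemma f2_ext {K V : Type} [Field K] [AddCommGroup V] [Module K V] {X : Type} (ι : X → V)
    (h : Submodule.span K (Set.range ι) = ⊤) (A B : V →ₗ[K] V) (hAB : ∀ m, A (ι m) = B (ι m)) :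
    A = B := by
  apply LinearMap.ext_on_range (v := ι) h
  exact hAB

/-- LEMMA F2 -/
theorem lemF2 (W0 W1 : Aff S) (g : Γ(S, W0.1 ⊓ W1.1)) (M : QCoh S) (hM : Coh M)
    (E : EndFam W0.1 W1.1 g M) (z : S) (z0 : z ∈ W0.1) (z1 : z ∈ W1.1)
    (hQ : ∀ n : ℕ, n ≠ 0 → (n : S.residueField z) ≠ 0)
    (hi : ∀ n : ℕ, n ≠ 0 → ∃ a : Γ(S, ⊤), (n : Γ(S, ⊤)) * a = 1)
    (n0 : ∀ a : S.residueField z, IsIntegral (ev z z0).range a → a ∈ (ev z z0).range)
    (n1 : ∀ a : S.residueField z, IsIntegral (ev z z1).range a → a ∈ (ev z z1).range)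
    (hg : ∀ (a0 : Γ(S, W0.1)) (a1 : Γ(S, W1.1)),
      ev (U := W0.1 ⊓ W1.1) z ⟨z0, z1⟩ g ≠ ev z z0 a0 + ev z z1 a1) :
    z ∉ Supp M := by
  intro hz
  obtain ⟨V, _, _, _, ι, hsm, hres, hspan, hend, hnt⟩ := exists_fibre M hM z
  have hntV := hnt hz
  obtain ⟨H0, hH0⟩ := hend W0 z0 (E.e0 W0 le_rfl)
  obtain ⟨H1, hH1⟩ := hend W1 z1 (E.e1 W1 le_rfl)
  have : Module.Finite Γ(S, W0.1) (sec M W0) := hM W0
  have : Module.Finite Γ(S, W1.1) (sec M W1) := hM W1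
  obtain ⟨b0, hb0⟩ := n0 _ (trace_integral (ev z z0) (ι W0 z0) (hsm W0 z0) (hspan W0 z0)
    (E.e0 W0 le_rfl) H0 hH0)
  obtain ⟨b1, hb1⟩ := n1 _ (trace_integral (ev z z1) (ι W1 z1) (hsm W1 z1) (hspan W1 z1)
    (E.e1 W1 le_rfl) H1 hH1)
  obtain ⟨D, hD0, hD1, -, -, hzD, -, -⟩ := exists_basic W0 W1 z z0 z1
  have hDW : D.1 ≤ W0.1 ⊓ W1.1 := le_inf hD0 hD1
  obtain ⟨A0, hA0⟩ := hend D hzD (E.e0 D (hDW.trans inf_le_left))
  obtain ⟨A1, hA1⟩ := hend D hzD (E.e1 D (hDW.trans inf_le_right))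
  have e0 : A0 = H0 := by
    apply f2_ext (ι W0 z0) (hspan W0 z0)
    intro m
    rw [hH0, ← hres W0 D hD0 z0 hzD, hA0, ← hres W0 D hD0 z0 hzD, E.e0_res hD0 le_rfl]
  have e1 : A1 = H1 := by
    apply f2_ext (ι W1 z1) (hspan W1 z1)
    intro m
    rw [hH1, ← hres W1 D hD1 z1 hzD, hA1, ← hres W1 D hD1 z1 hzD, E.e1_res hD1 le_rfl]
  have e2 : H0 - H1 = (ev (U := W0.1 ⊓ W1.1) z ⟨z0, z1⟩ g) • (LinearMap.id : V →ₗ[_] V) := by
    rw [← e0, ← e1]
    apply f2_ext (ι D hzD) (hspan D hzD)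
    intro m
    rw [LinearMap.sub_apply, hA0, hA1, ← map_sub, E.diff D hDW m, hsm, ev_rst]
    rfl
  have htr := congrArg (LinearMap.trace (S.residueField z) V) e2
  rw [map_sub, map_smul, LinearMap.trace_id, smul_eq_mul, ← hb0, ← hb1] at htr
  have hn : Module.finrank (S.residueField z) V ≠ 0 := (Module.finrank_pos).ne'
  obtain ⟨a, ha⟩ := hi _ hn
  have ha' := congrArg (ev (U := (⊤ : S.Opens)) z trivial) ha
  rw [map_mul, map_natCast, map_one] at ha'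
  apply hg (rst le_top a * b0) (-(rst le_top a * b1))
  rw [map_mul, map_neg, map_mul, ev_rst, ev_rst, ← sub_eq_add_neg, ← mul_sub, htr,
    mul_left_comm, mul_comm (ev z _ a), ha', mul_one]

end Pool.Agent.BE
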