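import Pool.Agent.BE.QCAb

/-!
# BE: families of endomorphisms
-/

open CategoryTheory CategoryTheory.Limits AlgebraicGeometry Opposite TopologicalSpace

namespace Pool.Agent.BE

variable {S : Scheme.{0}}

/-- endomorphisms `e0` of `M` over `W0` and `e1` of `M` over `W1` with `e0 - e1 = g` over
`W0 ∩ W1` -/
structure EndFam (W0 W1 : S.Opens) (g : Γ(S, W0 ⊓ W1)) (M : QCoh S) where
  /-- endomorphism over `W0` -/
  e0 : ∀ U : Aff S, U.1 ≤ W0 → (sec M U →ₗ[Γ(S, U.1)] sec M U)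
  /-- endomorphism over `W1` -/
  e1 : ∀ U : Aff S, U.1 ≤ W1 → (sec M U →ₗ[Γ(S, U.1)] sec M U)
  e0_res : ∀ {V U : Aff S} (h : V ≤ U) (hU : U.1 ≤ W0) (m : sec M U),
    res M h (e0 U hU m) = e0 V (le_trans (show V.1 ≤ U.1 from h) hU) (res M h m)
  e1_res : ∀ {V U : Aff S} (h : V ≤ U) (hU : U.1 ≤ W1) (m : sec M U),
    res M h (e1 U hU m) = e1 V (le_trans (show V.1 ≤ U.1 from h) hU) (res M h m)
  diff : ∀ (U : Aff S) (h : U.1 ≤ W0 ⊓ W1) (m : sec M U),
    e0 U (h.trans inf_le_left) m - e1 U (h.trans inf_le_right) m = rst h g • m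

end Pool.Agent.BE
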