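import Pool.Agent.BE.Glue1

/-!
# BE-Glue: the functor `Ψ`, the natural maps `alpha : J_W ⟶ Ψ`, `beta : Ψ ⟶ J_W`

Job: fill the small proofs in the definitions (keep the data and the `rfl` lemmas below).
-/

open CategoryTheory CategoryTheory.Limits AlgebraicGeometry Opposite TopologicalSpace

namespace Pool.Agent.BE

variable {S : Scheme.{0}}

private lemma jres_nat {W' W : S.Opens} (h' : AffInc W') (h : AffInc W) (hle : W' ≤ W) {M N : QCoh S}
    (f : M ⟶ N) (U : Aff S) (m : sec ((J h).obj M) U) :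
    jres h' h hle N U (ap ((J h).map f) U m) = ap ((J h').map f) U (jres h' h hle M U m) := by
  apply (jeq h' N U).injective
  exact res_ap f (cap_inc h' h hle U) (jeq h M U m)

private lemma jmul_nat {W : S.Opens} (h : AffInc W) (g : Γ(S, W)) {M N : QCoh S}
    (f : M ⟶ N) (U : Aff S) (m : sec ((J h).obj M) U) :
    jmul h g N U (ap ((J h).map f) U m) = ap ((J h).map f) U (jmul h g M U m) := by
  apply (jeq h N U).injective
  exact (map_smul (ap f (cap h U)) (rst (V := (cap h U).1) (inf_le_right : U.1 ⊓ W ≤ W) g)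
    (jeq h M U m)).symm

private lemma jres_jres {W'' W' W : S.Opens} (h'' : AffInc W'') (h' : AffInc W') (h : AffInc W)
    (hle' : W'' ≤ W') (hle : W' ≤ W) (M : QCoh S) (U : Aff S) (m : sec ((J h).obj M) U) :
    jres h'' h' hle' M U (jres h' h hle M U m) = jres h'' h (hle'.trans hle) M U m := by
  apply (jeq h'' M U).injective
  exact M.obj.res_res (cap_inc h' h hle U) (cap_inc h'' h' hle' U) (jeq h M U m)

private lemma jres_res {W' W : S.Opens} (h' : AffInc W') (h : AffInc W) (hle : W' ≤ W) (M : QCoh S)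
    {V U : Aff S} (hVU : V ≤ U) (m : sec ((J h).obj M) U) :
    res ((J h').obj M) hVU (jres h' h hle M U m) = jres h' h hle M V (res ((J h).obj M) hVU m) := by
  apply (jeq h' M V).injective
  exact (M.obj.res_res (cap_inc h' h hle U) (cap_mono h' hVU) (jeq h M U m)).trans
    (M.obj.res_res (cap_mono h hVU) (cap_inc h' h hle V) (jeq h M U m)).symm

namespace GlueData

variable (G : GlueData S)

private lemma d_nat {M N : QCoh S} (f : M ⟶ N) (U : Aff S)
    (t : sec ((J G.hW).obj M) U × sec ((J G.h0).obj M) U × sec ((J G.h1).obj M) U) :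
    G.d N U (ap ((J G.hW).map f) U t.1, ap ((J G.h0).map f) U t.2.1, ap ((J G.h1).map f) U t.2.2) =
      ap ((J G.h01).map f) U (G.d M U t) := by
  change jres G.h01 G.h1 inf_le_right N U (ap ((J G.h1).map f) U t.2.2) -
    jres G.h01 G.h0 inf_le_left N U (ap ((J G.h0).map f) U t.2.1) -
    jmul G.h01 G.g N U (jres G.h01 G.hW G.le01 N U (ap ((J G.hW).map f) U t.1)) =
    ap ((J G.h01).map f) U (jres G.h01 G.h1 inf_le_right M U t.2.2 -
      jres G.h01 G.h0 inf_le_left M U t.2.1 -
      jmul G.h01 G.g M U (jres G.h01 G.hW G.le01 M U t.1))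
  rw [map_sub, map_sub, jres_nat, jres_nat, jres_nat, jmul_nat]

/-- `Ψ M` -/
noncomputable def PsiObj (M : QCoh S) : QCoh S := ⟨(G.PsiData M).toPM, G.PsiData_isQC M⟩

/-- sections of `Ψ M` -/
noncomputable def peq (M : QCoh S) (U : Aff S) : sec (G.PsiObj M) U ≃ₗ[Γ(S, U.1)] G.X M U :=
  (G.PsiData M).secEquiv U

lemma peq_res (M : QCoh S) {V U : Aff S} (h : V ≤ U) (t : sec (G.PsiObj M) U) :
    (G.peq M V (res (G.PsiObj M) h t)).1 = G.r3 M h (G.peq M U t).1 := rfl

/-- the functor `Ψ` -/
noncomputable def Psi : QCoh S ⥤ QCoh S where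
  obj M := G.PsiObj M
  map {M N} f := mkHom (M := G.PsiObj M) (N := G.PsiObj N)
    (fun U => (G.peq N U).symm.toLinearMap ∘ₗ (LinearMap.restrict
      (((ap ((J G.hW).map f) U).prodMap ((ap ((J G.h0).map f) U).prodMap
        (ap ((J G.h1).map f) U)))) (by
          intro t ht
          rw [LinearMap.mem_ker] at ht ⊢
          have h1 := G.d_nat f U t
          rw [ht, map_zero] at h1
          exact h1)) ∘ₗ (G.peq M U).toLinearMap)
    (by
      intro V U h t
      apply (G.peq N V).injective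
      apply Subtype.ext
      exact Prod.ext (res_ap ((J G.hW).map f) h (G.peq M U t).1.1)
        (Prod.ext (res_ap ((J G.h0).map f) h (G.peq M U t).1.2.1)
          (res_ap ((J G.h1).map f) h (G.peq M U t).1.2.2)))
  map_id M := by
    apply qhom_ext
    intro U t
    rfl
  map_comp f g := by
    apply qhom_ext
    intro U t
    rfl

/-- `m ↦ (0, m, m)` -/
noncomputable def alpha : J G.hW ⟶ G.Psi where
  app M := mkHom (M := (J G.hW).obj M) (N := G.PsiObj M)
    (fun U => (G.peq M U).symm.toLinearMap ∘ₗ LinearMap.codRestrict _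
      ((0 : sec ((J G.hW).obj M) U →ₗ[Γ(S, U.1)] sec ((J G.hW).obj M) U).prod
        ((jres G.h0 G.hW G.le0 M U).prod (jres G.h1 G.hW G.le1 M U)))
      (by
        intro m
        rw [LinearMap.mem_ker]
        change jres G.h01 G.h1 inf_le_right M U (jres G.h1 G.hW G.le1 M U m) -
          jres G.h01 G.h0 inf_le_left M U (jres G.h0 G.hW G.le0 M U m) -
          jmul G.h01 G.g M U (jres G.h01 G.hW G.le01 M U 0) = 0
        rw [jres_jres, jres_jres, sub_self, map_zero, map_zero, sub_zero]))
    (by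
      intro V U h m
      apply (G.peq M V).injective
      apply Subtype.ext
      refine Prod.ext ?_ (Prod.ext ?_ ?_)
      · exact map_zero (res ((J G.hW).obj M) h)
      · exact jres_res G.h0 G.hW G.le0 M h m
      · exact jres_res G.h1 G.hW G.le1 M h m)
  naturality := by
    intro M N f
    apply qhom_ext
    intro U m
    apply (G.peq N U).injective
    apply Subtype.ext
    refine Prod.ext ?_ (Prod.ext ?_ ?_)
    · exact (map_zero (ap ((J G.hW).map f) U)).symm
    · exact jres_nat G.h0 G.hW G.le0 f U m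
    · exact jres_nat G.h1 G.hW G.le1 f U m

/-- `(b, a0, a1) ↦ b` -/
noncomputable def beta : G.Psi ⟶ J G.hW where
  app M := mkHom (M := G.PsiObj M) (N := (J G.hW).obj M)
    (fun U => LinearMap.fst _ _ _ ∘ₗ (Submodule.subtype _) ∘ₗ (G.peq M U).toLinearMap)
    (by
      intro V U h t
      rfl)
  naturality := by
    intro M N f
    apply qhom_ext
    intro U t
    rfl

lemma ap_alpha (M : QCoh S) (U : Aff S) (m : sec ((J G.hW).obj M) U) :
    (G.peq M U (ap (G.alpha.app M) U m)).1 =
      (0, jres G.h0 G.hW G.le0 M U m, jres G.h1 G.hW G.le1 M U m) := rfl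

lemma ap_beta (M : QCoh S) (U : Aff S) (t : sec (G.Psi.obj M) U) :
    ap (G.beta.app M) U t = (G.peq M U t).1.1 := rfl

lemma ap_Psi {M N : QCoh S} (f : M ⟶ N) (U : Aff S) (t : sec (G.Psi.obj M) U) :
    (G.peq N U (ap (G.Psi.map f) U t)).1 = (ap ((J G.hW).map f) U (G.peq M U t).1.1,
      ap ((J G.h0).map f) U (G.peq M U t).1.2.1, ap ((J G.h1).map f) U (G.peq M U t).1.2.2) := rfl


end GlueData

end Pool.Agent.BE
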