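import Pool.Agent.BE.Fam
import Pool.Agent.BE.Glue

/-!
# BE-FamR: a retraction of the gluing sequence gives a family of endomorphisms

`r : Ψ M → J_W M` with `alpha ≫ r = 𝟙`. For `U ≤ W0` (then `U ∩ W = U = U ∩ W0`, the restriction maps
`sec M U → sec M (cap _ U)` are bijective because `cap _ U = U`) put for `b` in `M(U)`:
`e0 b = r (b, 0, g b)`, where `(b, 0, g b)` means the triple with first component `b` in
`M(U ∩ W)`, second `0` in `M(U ∩ W0)`, third `g b` in `M(U ∩ W1)` (here `U ∩ W1 ≤ W0 ∩ W1`, so `g` acts).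
For `U ≤ W1`: `e1 b = r (b, -g b, 0)`. On `U ≤ W0 ∩ W1`: `e0 b - e1 b = r (0, g b, g b) = r (alpha (g b)) = g b`.
Linearity and compatibility with restriction: `r` is a morphism. Note that on `U ≤ W0 ∩ W1` the
condition `a1 - a0 = g b` is over `U ∩ (W0 ∩ W1)`.
-/

open CategoryTheory CategoryTheory.Limits AlgebraicGeometry Opposite TopologicalSpace

namespace Pool.Agent.BE

variable {S : Scheme.{0}}

namespace FamR

variable {W' Z : S.Opens}

private lemma le_cap (h : AffInc W') (U : Aff S) (hU : U.1 ≤ W') : U ≤ cap h U :=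
  (le_inf le_rfl hU : U.1 ≤ U.1 ⊓ W')

/-- `m ↦ g m` -/
private noncomputable def mulJ (h : AffInc W') (M : QCoh S) (U : Aff S) (hle : (cap h U).1 ≤ Z)
    (g : Γ(S, Z)) : sec M U →ₗ[Γ(S, U.1)] sec ((J h).obj M) U where
  toFun m := (jeq h M U).symm (rst hle g • res M (cap_le h U) m)
  map_add' a b := by simp only [map_add, smul_add]
  map_smul' a m := by
    rw [PM.res_smul, smul_comm, jeq_symm_smul]
    rfl

/-- `M(U ∩ W) = M(U)` -/
private noncomputable def up (h : AffInc W') (M : QCoh S) (U : Aff S) (hU : U.1 ≤ W') :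
    sec ((J h).obj M) U →ₗ[Γ(S, U.1)] sec M U where
  toFun m := res M (le_cap h U hU) (jeq h M U m)
  map_add' a b := by simp only [map_add]
  map_smul' a m := by
    rw [jeq_smul, PM.res_smul, rst_rst, rst_id]
    rfl

private lemma mulJ_res (h : AffInc W') (M : QCoh S) {V U : Aff S} (hle : (cap h U).1 ≤ Z)
    (hle' : (cap h V).1 ≤ Z) (g : Γ(S, Z)) (h' : V ≤ U) (m : sec M U) :
    res ((J h).obj M) h' (mulJ h M U hle g m) = mulJ h M V hle' g (res M h' m) := by
  apply (jeq h M V).injective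
  rw [jeq_res]
  change M.obj.res (cap_mono h h') (rst hle g • M.obj.res (cap_le h U) m) =
    rst hle' g • M.obj.res (cap_le h V) (M.obj.res h' m)
  rw [PM.res_smul, rst_rst, PM.res_res, PM.res_res]

private lemma up_res (h : AffInc W') (M : QCoh S) {V U : Aff S} (hU : U.1 ≤ W') (hV : V.1 ≤ W')
    (h' : V ≤ U) (m : sec ((J h).obj M) U) :
    res M h' (up h M U hU m) = up h M V hV (res ((J h).obj M) h' m) := by
  change M.obj.res h' (M.obj.res (le_cap h U hU) (jeq h M U m)) =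
    M.obj.res (le_cap h V hV) (jeq h M V (res ((J h).obj M) h' m))
  rw [jeq_res, PM.res_res, PM.res_res]

private lemma ιJ_res (h : AffInc W') (M : QCoh S) {V U : Aff S} (h' : V ≤ U) (m : sec M U) :
    res ((J h).obj M) h' (ap ((ιJ h).app M) U m) = ap ((ιJ h).app M) V (res M h' m) :=
  res_ap ((ιJ h).app M) h' m

variable {G : GlueData S} {M : QCoh S}

/-- the endomorphism of `M(U)` given by `r` -/
private noncomputable def fam (r : G.Psi.obj M ⟶ (J G.hW).obj M) (U : Aff S) (hU : U.1 ≤ G.W)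
    (a : sec M U →ₗ[Γ(S, U.1)] sec ((J G.h0).obj M) U)
    (c : sec M U →ₗ[Γ(S, U.1)] sec ((J G.h1).obj M) U)
    (hk : ∀ m, ((ap ((ιJ G.hW).app M) U).prod (a.prod c)) m ∈ LinearMap.ker (G.d M U)) :
    sec M U →ₗ[Γ(S, U.1)] sec M U :=
  up G.hW M U hU ∘ₗ ap r U ∘ₗ (G.peq M U).symm.toLinearMap ∘ₗ
    LinearMap.codRestrict _ ((ap ((ιJ G.hW).app M) U).prod (a.prod c)) hk

private lemma fam_apply (r : G.Psi.obj M ⟶ (J G.hW).obj M) (U : Aff S) (hU : U.1 ≤ G.W)
    (a : sec M U →ₗ[Γ(S, U.1)] sec ((J G.h0).obj M) U)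
    (c : sec M U →ₗ[Γ(S, U.1)] sec ((J G.h1).obj M) U)
    (hk : ∀ m, ((ap ((ιJ G.hW).app M) U).prod (a.prod c)) m ∈ LinearMap.ker (G.d M U))
    (m : sec M U) :
    fam r U hU a c hk m = up G.hW M U hU (ap r U ((G.peq M U).symm
      ⟨(ap ((ιJ G.hW).app M) U m, a m, c m), hk m⟩)) := rfl

private lemma fam_res (r : G.Psi.obj M ⟶ (J G.hW).obj M) {V U : Aff S} (h : V ≤ U)
    (hU : U.1 ≤ G.W) (hV : V.1 ≤ G.W)
    (a : sec M U →ₗ[Γ(S, U.1)] sec ((J G.h0).obj M) U)
    (c : sec M U →ₗ[Γ(S, U.1)] sec ((J G.h1).obj M) U)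
    (hk : ∀ m, ((ap ((ιJ G.hW).app M) U).prod (a.prod c)) m ∈ LinearMap.ker (G.d M U))
    (a' : sec M V →ₗ[Γ(S, V.1)] sec ((J G.h0).obj M) V)
    (c' : sec M V →ₗ[Γ(S, V.1)] sec ((J G.h1).obj M) V)
    (hk' : ∀ m, ((ap ((ιJ G.hW).app M) V).prod (a'.prod c')) m ∈ LinearMap.ker (G.d M V))
    (m : sec M U)
    (ha : res ((J G.h0).obj M) h (a m) = a' (res M h m))
    (hc : res ((J G.h1).obj M) h (c m) = c' (res M h m)) :
    res M h (fam r U hU a c hk m) = fam r V hV a' c' hk' (res M h m) := by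
  rw [fam_apply, fam_apply, up_res G.hW M hU hV h, res_ap]
  congr 2
  apply (G.peq M V).injective
  apply Subtype.ext
  rw [LinearEquiv.apply_symm_apply]
  refine (G.peq_res M h _).trans ?_
  rw [LinearEquiv.apply_symm_apply]
  exact Prod.ext (ιJ_res G.hW M h m) (Prod.ext ha hc)

end FamR

open FamR in
/-- a retraction of the gluing sequence gives a family of endomorphisms -/
theorem endFam_of_retraction (G : GlueData S) (M : QCoh S)
    (r : G.Psi.obj M ⟶ (J G.hW).obj M) (hr : G.alpha.app M ≫ r = 𝟙 _) :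
    Nonempty (EndFam G.W0 G.W1 G.g M) := by
  have c1 : ∀ U : Aff S, U.1 ≤ G.W0 → (cap G.h1 U).1 ≤ G.W0 ⊓ G.W1 := fun U hU =>
    (inf_le_inf_right G.W1 hU : U.1 ⊓ G.W1 ≤ G.W0 ⊓ G.W1)
  have c0 : ∀ U : Aff S, U.1 ≤ G.W1 → (cap G.h0 U).1 ≤ G.W0 ⊓ G.W1 := fun U hU =>
    (le_inf inf_le_right (inf_le_left.trans hU) : U.1 ⊓ G.W0 ≤ G.W0 ⊓ G.W1)
  have hk0 : ∀ (U : Aff S) (hU : U.1 ≤ G.W0) (m : sec M U),
      ((ap ((ιJ G.hW).app M) U).prod ((0 : sec M U →ₗ[Γ(S, U.1)] sec ((J G.h0).obj M) U).prod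
        (mulJ G.h1 M U (c1 U hU) G.g))) m ∈ LinearMap.ker (G.d M U) := by
    intro U hU m
    rw [LinearMap.mem_ker]
    apply (jeq G.h01 M U).injective
    change M.obj.res (cap_inc G.h01 G.h1 inf_le_right U)
        (rst (c1 U hU) G.g • M.obj.res (cap_le G.h1 U) m) -
      M.obj.res (cap_inc G.h01 G.h0 inf_le_left U) (0 : sec M (cap G.h0 U)) -
      rst (V := (cap G.h01 U).1) (inf_le_right : U.1 ⊓ (G.W0 ⊓ G.W1) ≤ G.W0 ⊓ G.W1) G.g •
        M.obj.res (cap_inc G.h01 G.hW G.le01 U) (M.obj.res (cap_le G.hW U) m) = 0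
    rw [map_zero, PM.res_smul, rst_rst, PM.res_res, PM.res_res, sub_zero, sub_self]
  have hk1 : ∀ (U : Aff S) (hU : U.1 ≤ G.W1) (m : sec M U),
      ((ap ((ιJ G.hW).app M) U).prod ((-(mulJ G.h0 M U (c0 U hU) G.g)).prod
        (0 : sec M U →ₗ[Γ(S, U.1)] sec ((J G.h1).obj M) U))) m ∈ LinearMap.ker (G.d M U) := by
    intro U hU m
    rw [LinearMap.mem_ker]
    apply (jeq G.h01 M U).injective
    change M.obj.res (cap_inc G.h01 G.h1 inf_le_right U) (0 : sec M (cap G.h1 U)) -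
      M.obj.res (cap_inc G.h01 G.h0 inf_le_left U)
        (-(rst (c0 U hU) G.g • M.obj.res (cap_le G.h0 U) m)) -
      rst (V := (cap G.h01 U).1) (inf_le_right : U.1 ⊓ (G.W0 ⊓ G.W1) ≤ G.W0 ⊓ G.W1) G.g •
        M.obj.res (cap_inc G.h01 G.hW G.le01 U) (M.obj.res (cap_le G.hW U) m) = 0
    rw [map_zero, map_neg, PM.res_smul, rst_rst, PM.res_res, PM.res_res, zero_sub, neg_neg,
      sub_self]
  refine ⟨{
    e0 := fun U hU => fam r U (hU.trans G.le0) _ _ (hk0 U hU)
    e1 := fun U hU => fam r U (hU.trans G.le1) _ _ (hk1 U hU)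
    e0_res := ?_
    e1_res := ?_
    diff := ?_ }⟩
  · intro V U h hU m
    refine fam_res r h _ _ _ _ _ _ _ _ m ?_ ?_
    · simp
    · exact mulJ_res G.h1 M _ _ G.g h m
  · intro V U h hU m
    refine fam_res r h _ _ _ _ _ _ _ _ m ?_ ?_
    · rw [LinearMap.neg_apply, LinearMap.neg_apply, map_neg, mulJ_res G.h0 M _ (c0 V (le_trans (show V.1 ≤ U.1 from h) hU)) G.g h m]
    · simp
  · intro U hU m
    have hUW : U.1 ≤ G.W := hU.trans G.le01
    have hcW : (cap G.hW U).1 ≤ G.W0 ⊓ G.W1 := (inf_le_left : U.1 ⊓ G.W ≤ U.1).trans hU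
    obtain ⟨x0, hx0⟩ : ∃ x : sec (G.Psi.obj M) U,
        x = (G.peq M U).symm ⟨_, hk0 U (hU.trans inf_le_left) m⟩ := ⟨_, rfl⟩
    obtain ⟨x1, hx1⟩ : ∃ x : sec (G.Psi.obj M) U,
        x = (G.peq M U).symm ⟨_, hk1 U (hU.trans inf_le_right) m⟩ := ⟨_, rfl⟩
    have h1 : x0 - x1 = ap (G.alpha.app M) U (mulJ G.hW M U hcW G.g m) := by
      apply (G.peq M U).injective
      apply Subtype.ext
      refine Eq.trans ?_ (G.ap_alpha M U _).symm
      rw [hx0, hx1]
      refine Prod.ext ?_ (Prod.ext ?_ ?_)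
      · exact sub_self (ap ((ιJ G.hW).app M) U m)
      · change (0 : sec ((J G.h0).obj M) U) - -(mulJ G.h0 M U _ G.g m) = _
        rw [zero_sub, neg_neg]
        apply (jeq G.h0 M U).injective
        change rst (c0 U (hU.trans inf_le_right)) G.g • M.obj.res (cap_le G.h0 U) m =
          M.obj.res (cap_inc G.h0 G.hW G.le0 U) (rst hcW G.g • M.obj.res (cap_le G.hW U) m)
        rw [PM.res_smul, rst_rst, PM.res_res]
      · change (mulJ G.h1 M U _ G.g m) - (0 : sec ((J G.h1).obj M) U) = _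
        rw [sub_zero]
        apply (jeq G.h1 M U).injective
        change rst (c1 U (hU.trans inf_le_left)) G.g • M.obj.res (cap_le G.h1 U) m =
          M.obj.res (cap_inc G.h1 G.hW G.le1 U) (rst hcW G.g • M.obj.res (cap_le G.hW U) m)
        rw [PM.res_smul, rst_rst, PM.res_res]
    have key : ap r U x0 - ap r U x1 = mulJ G.hW M U hcW G.g m := by
      rw [← map_sub, h1]
      have h2 : ap r U (ap (G.alpha.app M) U (mulJ G.hW M U hcW G.g m)) =
          ap (G.alpha.app M ≫ r) U (mulJ G.hW M U hcW G.g m) := rfl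
      rw [h2, hr]
      rfl
    have h3 : fam r U (((hU.trans inf_le_left)).trans G.le0) _ _
        (hk0 U (hU.trans inf_le_left)) m = up G.hW M U hUW (ap r U x0) := by
      rw [hx0]
      rfl
    have h4 : fam r U (((hU.trans inf_le_right)).trans G.le1) _ _
        (hk1 U (hU.trans inf_le_right)) m = up G.hW M U hUW (ap r U x1) := by
      rw [hx1]
      rfl
    refine (congrArg₂ (fun a b => a - b) h3 h4).trans ?_
    change up G.hW M U hUW (ap r U x0) - up G.hW M U hUW (ap r U x1) = _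
    rw [← map_sub, key]
    change M.obj.res (le_cap G.hW U hUW) (rst hcW G.g • M.obj.res (cap_le G.hW U) m) = _
    rw [PM.res_smul, rst_rst, PM.res_res, PM.res_id]

end Pool.Agent.BE
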