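import Pool.Agent.BE.GeoDefs

/-!
# BE-GeoA: finitely many points of a projective scheme lie in an affine open

Let `i : X → PN n` be the closed immersion. For each `z ∈ Z` the linear forms in the homogeneous prime
ideal of `i z` form a proper subspace of the `ℂ`-vector space of linear forms (otherwise it contains all
`X_j`, hence the irrelevant ideal). A vector space over an infinite field is not a finite union of proper
subspaces (Mathlib: `Submodule`/`Subspace`: search `iUnion_ssubset_of_forall_ne_top_of_card_lt`,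
`Subspace.biUnion_ne_univ_of_top_notMem`...), so there is a linear form `ℓ` in none of these ideals;
`U = i⁻¹ᵁ Proj.basicOpen ℓ` (`Proj.isAffineOpen_basicOpen`/`Proj.basicOpenIsoSpec`, degree `1 > 0`), affine because `i` is
affine. (`Z` empty: any `ℓ ≠ 0`.)
-/

open CategoryTheory CategoryTheory.Limits AlgebraicGeometry Opposite TopologicalSpace

namespace Pool.Agent.BE

private theorem geoA_adjoin (n : ℕ) :
    Algebra.adjoin (MvPolynomial.homogeneousSubmodule (Fin (n + 1)) ℂ 0)
      (Set.range fun j : Fin (n + 1) => (MvPolynomial.X j : MvPolynomial (Fin (n + 1)) ℂ)) = ⊤ := by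
  rw [eq_top_iff]
  intro f _
  induction f using MvPolynomial.induction_on with
  | C a =>
    have h : (MvPolynomial.C a : MvPolynomial (Fin (n + 1)) ℂ) ∈
        MvPolynomial.homogeneousSubmodule (Fin (n + 1)) ℂ 0 :=
      MvPolynomial.isHomogeneous_C _ a
    exact Subalgebra.algebraMap_mem _
      (⟨MvPolynomial.C a, h⟩ : MvPolynomial.homogeneousSubmodule (Fin (n + 1)) ℂ 0)
  | add p q hp hq => exact add_mem (hp trivial) (hq trivial)
  | mul_X p j hp => exact mul_mem (hp trivial) (Algebra.subset_adjoin ⟨j, rfl⟩)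

private theorem geoA_exists (n : ℕ) (z : PN n) :
    ∃ j : Fin (n + 1), (MvPolynomial.X j : MvPolynomial (Fin (n + 1)) ℂ) ∉
      z.asHomogeneousIdeal := by
  have h := Proj.iSup_basicOpen_eq_top' (MvPolynomial.homogeneousSubmodule (Fin (n + 1)) ℂ)
    (fun j : Fin (n + 1) => (MvPolynomial.X j : MvPolynomial (Fin (n + 1)) ℂ))
    (fun j => ⟨1, MvPolynomial.isHomogeneous_X ℂ j⟩) (geoA_adjoin n)
  have hz : z ∈ (⊤ : (PN n).Opens) := trivial
  rw [← h, Opens.mem_iSup] at hz
  exact hz

theorem exists_affine_contains {X : Scheme.{0}} (s : X ⟶ SpecC) (h : IsProj s) (Z : Set X)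
    (hZ : Z.Finite) : ∃ U : X.Opens, IsAffineOpen U ∧ Z ⊆ (U : Set X) := by
  obtain ⟨n, i, hi, -⟩ := h
  haveI : Finite Z := hZ.to_subtype
  let p : Z → Submodule ℂ (MvPolynomial.homogeneousSubmodule (Fin (n + 1)) ℂ 1) := fun z =>
    (Submodule.restrictScalars ℂ (i.base z.1 : PN n).asHomogeneousIdeal.toIdeal).comap
      (Submodule.subtype _)
  have hp : ∀ z, p z ≠ ⊤ := by
    intro z hz
    obtain ⟨j, hj⟩ := geoA_exists n (i.base z.1)
    have h1 : (⟨MvPolynomial.X j, MvPolynomial.isHomogeneous_X ℂ j⟩ :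
        MvPolynomial.homogeneousSubmodule (Fin (n + 1)) ℂ 1) ∈ p z := by
      rw [hz]
      trivial
    exact hj h1
  obtain ⟨x, hx⟩ := Submodule.exists_forall_notMem_of_forall_ne_top p hp
  refine ⟨i ⁻¹ᵁ Proj.basicOpen _ x.1,
    (Proj.isAffineOpen_basicOpen _ x.1 x.2 one_pos).preimage i, fun z hz => ?_⟩
  exact hx ⟨z, hz⟩

end Pool.Agent.BE
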