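import Pool.Agent.BE.GeoD
import Pool.Agent.BE.Sky0

/-!
# BE-GeoF: functions on a closed integral normal subscheme, at its generic point

`i : F → S` closed immersion, `F` integral, `z = i ξ`, `ξ` the generic point of `F`. `W` affine open of `S` containing
`z`. (a) `i.residueFieldMap ξ : κ(z) → κ(ξ)` is an isomorphism (closed immersions are surjective on stalks, so on
residue fields); `κ(ξ)` is the function field of `F` (the stalk at `ξ` is a field); (b) `Γ(S, W) → Γ(F, i⁻¹ᵁ W)` is
surjective (closed immersion, `W` affine: `IsClosedImmersion...`, `isAffineOpen preimage`), `Γ(F, i⁻¹ᵁ W) → κ(ξ)` is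
injective; (c) so `(ev z hz).range` is identified with `Γ(F, i⁻¹ᵁ W)`, integrally closed in its fraction field
`κ(ξ)` (`normal_affine`, `functionField_isFractionRing_of_isAffineOpen`).
`cocycle_lift`: `W0 ⊓ W1` is affine (`S` separated); lift `g'` to `g ∈ Γ(S, W0 ⊓ W1)`; if
`ev z g = ev z a0 + ev z a1` then `g' = a0| + a1|` in the function field of `F`, hence in `Γ(F, i⁻¹ W0 ⊓ i⁻¹ W1)`.
-/

open CategoryTheory CategoryTheory.Limits AlgebraicGeometry Opposite TopologicalSpace

namespace Pool.Agent.BE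

variable {S F : Scheme.{0}}

private theorem gf_range_closed {R F K : Type} [CommRing R] [Field F] [Field K]
    [IsIntegrallyClosed R] [Algebra R F] [IsFractionRing R F] (g : F →+* K) (hg : Function.Bijective g)
    (f : R →+* K) (hf : f = g.comp (algebraMap R F)) (a : K) (ha : IsIntegral f.range a) :
    a ∈ f.range := by
  obtain ⟨b, rfl⟩ := hg.2 a
  let _ : Algebra R f.range := f.rangeRestrict.toAlgebra
  let _ : Algebra R K := f.toAlgebra
  have : IsScalarTower R f.range K := IsScalarTower.of_algebraMap_eq fun x => rfl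
  have : Algebra.IsIntegral R f.range := ⟨fun x => by
    obtain ⟨y, hy⟩ := f.rangeRestrict_surjective x
    rw [← hy]
    exact isIntegral_algebraMap⟩
  have h1 : IsIntegral R (g b) := isIntegral_trans (R := R) (A := f.range) (g b) ha
  let e : F ≃+* K := RingEquiv.ofBijective g hg
  have h2 : IsIntegral R b := by
    have h3 := IsIntegral.map_of_comp_eq (T := R) (U := F) (RingHom.id R) (e.symm : K →+* F) (by
      ext x
      show algebraMap R F x = e.symm (f x)
      rw [hf]
      show algebraMap R F x = e.symm (e (algebraMap R F x))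
      rw [e.symm_apply_apply]) h1
    have h4 : e.symm (g b) = b := e.symm_apply_apply b
    rw [← h4]
    exact h3
  obtain ⟨y, hy⟩ := (isIntegrallyClosed_iff F).1 ‹_› h2
  exact ⟨y, by rw [hf, ← hy]; rfl⟩

private theorem gf_residue_bij {C : Scheme.{0}} [IsIntegral C] :
    Function.Bijective (C.residue (genericPoint C)).hom := by
  constructor
  · exact RingHom.injective (C.residue (genericPoint C) : C.presheaf.stalk (genericPoint C) ⟶ _).hom
  · exact C.residue_surjective _

private theorem gf_ev_inj {C : Scheme.{0}} [IsIntegral C]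
    (U : C.Opens) (hU : genericPoint C ∈ U) : Function.Injective (ev (genericPoint C) hU) := by
  intro a b hab
  refine germ_injective_of_isIntegral C (genericPoint C) hU ?_
  exact gf_residue_bij.1 hab

private theorem gf_ev_closed {C : Scheme.{0}} [IsIntegral C]
    (U : C.Opens) (hU : genericPoint C ∈ U) (hA : IsAffineOpen U) (hn : IsIntegrallyClosed Γ(C, U))
    (a : C.residueField (genericPoint C)) (ha : IsIntegral (ev (genericPoint C) hU).range a) :
    a ∈ (ev (genericPoint C) hU).range := by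
  have : Nonempty U := ⟨⟨_, hU⟩⟩
  have := functionField_isFractionRing_of_isAffineOpen C U hA
  exact gf_range_closed (F := C.functionField) (C.residue (genericPoint C)).hom gf_residue_bij
    (ev (genericPoint C) hU) rfl a ha

private theorem gf_nat (i : F ⟶ S) (ξ : F) (W : S.Opens) (hz : i.base ξ ∈ W) (a : Γ(S, W)) :
    (i.residueFieldMap ξ).hom (ev (i.base ξ) hz a) = ev (U := i ⁻¹ᵁ W) ξ hz ((i.app W).hom a) :=
  Scheme.evaluation_naturality_apply i ξ hz a

theorem range_integral (i : F ⟶ S) [IsClosedImmersion i] [IsIntegral F]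
    (hn : ∀ x : F, IsIntegrallyClosed (F.presheaf.stalk x)) (W : Aff S)
    (hz : i.base (genericPoint F) ∈ W.1) (a : S.residueField (i.base (genericPoint F)))
    (ha : IsIntegral (ev (i.base (genericPoint F)) hz).range a) :
    a ∈ (ev (i.base (genericPoint F)) hz).range := by
  have hA : IsAffineOpen (i ⁻¹ᵁ W.1) := W.2.preimage i
  set φ := (i.residueFieldMap (genericPoint F)).hom with hφ
  have h1 : IsIntegral (ev (U := i ⁻¹ᵁ W.1) (genericPoint F) hz).range (φ a) := by
    refine IsIntegral.map_of_comp_eq (T := (ev (U := i ⁻¹ᵁ W.1) (genericPoint F) hz).range)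
      ((φ.comp (ev (i.base (genericPoint F)) hz).range.subtype).codRestrict
        (ev (U := i ⁻¹ᵁ W.1) (genericPoint F) hz).range ?_) φ rfl ha
    rintro ⟨_, b, rfl⟩
    exact ⟨(i.app W.1).hom b, (gf_nat i (genericPoint F) W.1 hz b).symm⟩
  obtain ⟨b, hb⟩ := gf_ev_closed (i ⁻¹ᵁ W.1) hz hA (normal_affine hn _ hA) (φ a) h1
  obtain ⟨c, hc⟩ := i.app_surjective W.1 W.2 b
  refine ⟨c, φ.injective ?_⟩
  rw [← hb, hφ, gf_nat]
  congr 1

theorem cocycle_lift [S.IsSeparated] (i : F ⟶ S) [IsClosedImmersion i] [IsIntegral F]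
    (W0 W1 : Aff S) (h0 : i.base (genericPoint F) ∈ W0.1) (h1 : i.base (genericPoint F) ∈ W1.1)
    (g' : Γ(F, i ⁻¹ᵁ W0.1 ⊓ i ⁻¹ᵁ W1.1))
    (hg : ∀ (a : Γ(F, i ⁻¹ᵁ W0.1)) (b : Γ(F, i ⁻¹ᵁ W1.1)),
      g' ≠ rst inf_le_left a + rst inf_le_right b) :
    ∃ g : Γ(S, W0.1 ⊓ W1.1), ∀ (a0 : Γ(S, W0.1)) (a1 : Γ(S, W1.1)),
      ev (U := W0.1 ⊓ W1.1) (i.base (genericPoint F)) ⟨h0, h1⟩ g ≠
        ev (i.base (genericPoint F)) h0 a0 + ev (i.base (genericPoint F)) h1 a1 := by
  have hA : IsAffineOpen (W0.1 ⊓ W1.1) := W0.2.inf W1.2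
  obtain ⟨g, hgg⟩ := i.app_surjective (W0.1 ⊓ W1.1) hA g'
  refine ⟨g, fun a0 a1 h => ?_⟩
  have h2 := congrArg (i.residueFieldMap (genericPoint F)).hom h
  rw [map_add, gf_nat, gf_nat, gf_nat] at h2
  have h3 : (i.app (W0.1 ⊓ W1.1)).hom g = g' := hgg
  rw [h3] at h2
  refine hg ((i.app W0.1).hom a0) ((i.app W1.1).hom a1) ?_
  refine gf_ev_inj (i ⁻¹ᵁ W0.1 ⊓ i ⁻¹ᵁ W1.1) ⟨h0, h1⟩ ?_
  rw [map_add, ev_rst, ev_rst]
  exact h2

end Pool.Agent.BE
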