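import Pool.Agent.BE.Base

/-!
# BE-Glue0: gluing data and the presheaf `Ψ M`

Job: `d_r3` (`rst_rst`, `PM.res_res`, `PM.res_smul`; everything is an equality in
`sec M (cap G.h01 V)` after applying `jeq`).
-/

open CategoryTheory CategoryTheory.Limits AlgebraicGeometry Opposite TopologicalSpace

namespace Pool.Agent.BE

variable {S : Scheme.{0}}

lemma cap_inc {W' W : S.Opens} (h' : AffInc W') (h : AffInc W) (hle : W' ≤ W) (U : Aff S) :
    cap h' U ≤ cap h U := inf_le_inf_left U.1 hle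

/-- the restriction `M(U ∩ W) → M(U ∩ W')`, linear over `Γ(U)` -/
noncomputable def jres {W' W : S.Opens} (h' : AffInc W') (h : AffInc W) (hle : W' ≤ W)
    (M : QCoh S) (U : Aff S) :
    sec ((J h).obj M) U →ₗ[Γ(S, U.1)] sec ((J h').obj M) U where
  toFun m := (jeq h' M U).symm (res M (cap_inc h' h hle U) (jeq h M U m))
  map_add' a b := by simp only [map_add]
  map_smul' a m := by
    rw [jeq_smul, PM.res_smul, rst_rst]
    rfl

private lemma jres_res {W' W : S.Opens} (h' : AffInc W') (h : AffInc W) (hle : W' ≤ W)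
    (M : QCoh S) {V U : Aff S} (hVU : V ≤ U) (m : sec ((J h).obj M) U) :
    jres h' h hle M V (res ((J h).obj M) hVU m) =
      res ((J h').obj M) hVU (jres h' h hle M U m) := by
  apply (jeq h' M V).injective
  have h1 : res M (cap_inc h' h hle V) (res M (cap_mono h hVU) (jeq h M U m)) =
      res M (cap_mono h' hVU) (res M (cap_inc h' h hle U) (jeq h M U m)) := by
    rw [PM.res_res, PM.res_res]
  exact h1

/-- multiplication by a function `g` on `W` on `M(U ∩ W)` -/
noncomputable def jmul {W : S.Opens} (h : AffInc W) (g : Γ(S, W)) (M : QCoh S) (U : Aff S) :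
    sec ((J h).obj M) U →ₗ[Γ(S, U.1)] sec ((J h).obj M) U where
  toFun m := (jeq h M U).symm
    (rst (V := (cap h U).1) (inf_le_right : U.1 ⊓ W ≤ W) g • jeq h M U m)
  map_add' a b := by simp only [map_add, smul_add]
  map_smul' a m := by
    rw [jeq_smul, smul_comm]
    rfl

private lemma jmul_res {W : S.Opens} (h : AffInc W) (g : Γ(S, W)) (M : QCoh S) {V U : Aff S}
    (hVU : V ≤ U) (m : sec ((J h).obj M) U) :
    jmul h g M V (res ((J h).obj M) hVU m) = res ((J h).obj M) hVU (jmul h g M U m) := by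
  apply (jeq h M V).injective
  have h1 : rst (V := (cap h V).1) (inf_le_right : V.1 ⊓ W ≤ W) g •
        res M (cap_mono h hVU) (jeq h M U m) =
      res M (cap_mono h hVU) (rst (V := (cap h U).1) (inf_le_right : U.1 ⊓ W ≤ W) g •
        jeq h M U m) := by
    rw [PM.res_smul]
    have h2 : rst (V := (cap h V).1) (cap_mono h hVU)
        (rst (V := (cap h U).1) (inf_le_right : U.1 ⊓ W ≤ W) g) =
        rst (V := (cap h V).1) (inf_le_right : V.1 ⊓ W ≤ W) g :=
      rst_rst (W := (cap h V).1) (V := (cap h U).1) (inf_le_right : U.1 ⊓ W ≤ W)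
        (cap_mono h hVU) g
    exact congrArg (fun r => r • res M (cap_mono h hVU) (jeq h M U m)) h2.symm
  exact h1

/-- gluing data: `W = W0 ∪ W1` and a function `g` on `W0 ∩ W1` -/
structure GlueData (S : Scheme.{0}) where
  /-- the big open -/
  W : S.Opens
  /-- first piece -/
  W0 : S.Opens
  /-- second piece -/
  W1 : S.Opens
  hW : AffInc W
  h0 : AffInc W0
  h1 : AffInc W1
  h01 : AffInc (W0 ⊓ W1)
  sup : W0 ⊔ W1 = W
  /-- the cocycle -/
  g : Γ(S, W0 ⊓ W1)

namespace GlueData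

variable (G : GlueData S)

lemma le0 : G.W0 ≤ G.W := by rw [← G.sup]; exact le_sup_left
lemma le1 : G.W1 ≤ G.W := by rw [← G.sup]; exact le_sup_right
lemma le01 : G.W0 ⊓ G.W1 ≤ G.W := inf_le_left.trans G.le0

/-- the map `(b, a0, a1) ↦ a1 - a0 - g b` on `M(U ∩ W) × M(U ∩ W0) × M(U ∩ W1)` -/
noncomputable def d (M : QCoh S) (U : Aff S) :
    (sec ((J G.hW).obj M) U × sec ((J G.h0).obj M) U × sec ((J G.h1).obj M) U) →ₗ[Γ(S, U.1)]
      sec ((J G.h01).obj M) U :=
  (jres G.h01 G.h1 inf_le_right M U) ∘ₗ LinearMap.snd _ _ _ ∘ₗ LinearMap.snd _ _ _ -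
  (jres G.h01 G.h0 inf_le_left M U) ∘ₗ LinearMap.fst _ _ _ ∘ₗ LinearMap.snd _ _ _ -
  (jmul G.h01 G.g M U) ∘ₗ (jres G.h01 G.hW G.le01 M U) ∘ₗ LinearMap.fst _ _ _

/-- sections of `Ψ M` over `U` -/
abbrev X (M : QCoh S) (U : Aff S) : Type := LinearMap.ker (G.d M U)

/-- the restriction of triples -/
noncomputable def r3 (M : QCoh S) {V U : Aff S} (h : V ≤ U) :
    (sec ((J G.hW).obj M) U × sec ((J G.h0).obj M) U × sec ((J G.h1).obj M) U) →+
      (sec ((J G.hW).obj M) V × sec ((J G.h0).obj M) V × sec ((J G.h1).obj M) V) where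
  toFun t := (res ((J G.hW).obj M) h t.1, res ((J G.h0).obj M) h t.2.1,
    res ((J G.h1).obj M) h t.2.2)
  map_zero' := by simp
  map_add' a b := by simp

lemma d_r3 (M : QCoh S) {V U : Aff S} (h : V ≤ U)
    (t : sec ((J G.hW).obj M) U × sec ((J G.h0).obj M) U × sec ((J G.h1).obj M) U) :
    G.d M V (G.r3 M h t) = res ((J G.h01).obj M) h (G.d M U t) := by
  have h1 : G.d M V (G.r3 M h t) =
      jres G.h01 G.h1 inf_le_right M V (res ((J G.h1).obj M) h t.2.2) -
      jres G.h01 G.h0 inf_le_left M V (res ((J G.h0).obj M) h t.2.1) -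
      jmul G.h01 G.g M V (jres G.h01 G.hW G.le01 M V (res ((J G.hW).obj M) h t.1)) := rfl
  have h2 : G.d M U t = jres G.h01 G.h1 inf_le_right M U t.2.2 -
      jres G.h01 G.h0 inf_le_left M U t.2.1 -
      jmul G.h01 G.g M U (jres G.h01 G.hW G.le01 M U t.1) := rfl
  rw [h1, h2, jres_res, jres_res, jres_res, jmul_res, map_sub, map_sub]

/-- the presheaf `Ψ M` -/
noncomputable def PsiData (M : QCoh S) : SecData S where
  X U := G.X M U
  grp U := inferInstance
  mod U := inferInstance
  r {V U} h :=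
    { toFun := fun t => ⟨G.r3 M h t.1, by
        rw [LinearMap.mem_ker, d_r3, LinearMap.mem_ker.1 t.2, map_zero]⟩
      map_zero' := by ext1; simp
      map_add' := fun a b => by ext1; simp }
  r_smul {V U} h a m := by
    apply Subtype.ext
    exact Prod.ext (PM.res_smul _ h a _) (Prod.ext (PM.res_smul _ h a _) (PM.res_smul _ h a _))
  r_id U m := by
    apply Subtype.ext
    exact Prod.ext (PM.res_id _ _ _ _) (Prod.ext (PM.res_id _ _ _ _) (PM.res_id _ _ _ _))
  r_comp h h' m := by
    apply Subtype.ext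
    exact Prod.ext (PM.res_res _ _ _ _) (Prod.ext (PM.res_res _ _ _ _) (PM.res_res _ _ _ _))


end GlueData

end Pool.Agent.BE
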