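import Pool.Agent.BE.Glue0
import Pool.Agent.BE.JEx

/-!
# BE-Glue1: the presheaf `Ψ M` is quasi-coherent

`Ψ M` is the kernel of a map between the quasi-coherent modules `J_W M × J_{W0} M × J_{W1} M` and
`J_{W0 ∩ W1} M`. Elementwise: inj: take a common exponent for the three components (each `J M` is
quasi-coherent). surj: lift the three components of `f^n x` (common exponent), the difference `d`
of the lift dies on `D(f)`, so `f^k d = 0` (use `d_r3` and linearity of `G.d M U`); multiply by `f^k`.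
-/

open CategoryTheory CategoryTheory.Limits AlgebraicGeometry Opposite TopologicalSpace

namespace Pool.Agent.BE

variable {S : Scheme.{0}}

namespace GlueData

variable (G : GlueData S)

private lemma g1_smul {R A : Type*} [CommRing R] [AddCommGroup A] [Module R A] {f : R} {a : A}
    {n : ℕ} (h : f ^ n • a = 0) (k : ℕ) : f ^ (n + k) • a = 0 := by
  rw [add_comm, pow_add, mul_smul, h, smul_zero]

private lemma g1_inj (M : QCoh S) (U : Aff S) (f : Γ(S, U.1)) (m : G.X M U)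
    (hm : (G.PsiData M).r (bas_le U f) m = 0) : ∃ n : ℕ, f ^ n • m = 0 := by
  have h0 : G.r3 M (bas_le U f) m.1 = 0 := congrArg Subtype.val hm
  obtain ⟨n1, h1⟩ := ((J G.hW).obj M).property.inj U f m.1.1 (congrArg Prod.fst h0)
  obtain ⟨n2, h2⟩ := ((J G.h0).obj M).property.inj U f m.1.2.1
    (congrArg (fun t => t.2.1) h0)
  obtain ⟨n3, h3⟩ := ((J G.h1).obj M).property.inj U f m.1.2.2
    (congrArg (fun t => t.2.2) h0)
  refine ⟨n1 + n2 + n3, ?_⟩
  apply Subtype.ext
  refine Prod.ext ?_ (Prod.ext ?_ ?_)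
  · show f ^ (n1 + n2 + n3) • m.1.1 = 0
    rw [show n1 + n2 + n3 = n1 + (n2 + n3) by omega]
    exact g1_smul h1 _
  · show f ^ (n1 + n2 + n3) • m.1.2.1 = 0
    rw [show n1 + n2 + n3 = n2 + (n1 + n3) by omega]
    exact g1_smul h2 _
  · show f ^ (n1 + n2 + n3) • m.1.2.2 = 0
    rw [show n1 + n2 + n3 = n3 + (n1 + n2) by omega]
    exact g1_smul h3 _

private lemma g1_lift (M : QCoh S) (U : Aff S) (f : Γ(S, U.1)) (x : sec M (bas U f)) {n : ℕ}
    {m : sec M U} (h : res M (bas_le U f) m = (rst (bas_le U f) f) ^ n • x) (k : ℕ) :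
    res M (bas_le U f) (f ^ k • m) = (rst (bas_le U f) f) ^ (n + k) • x := by
  have h1 := PM.res_smul M.obj (bas_le U f) (f ^ k) m
  refine h1.trans ?_
  rw [map_pow, add_comm n k, pow_add, mul_smul]
  exact congrArg _ h

private lemma g1_surj (M : QCoh S) (U : Aff S) (f : Γ(S, U.1)) (x : G.X M (bas U f)) :
    ∃ (n : ℕ) (m : G.X M U), (G.PsiData M).r (bas_le U f) m = (rst (bas_le U f) f) ^ n • x := by
  obtain ⟨n1, a1, h1⟩ := ((J G.hW).obj M).property.surj U f x.1.1
  obtain ⟨n2, a2, h2⟩ := ((J G.h0).obj M).property.surj U f x.1.2.1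
  obtain ⟨n3, a3, h3⟩ := ((J G.h1).obj M).property.surj U f x.1.2.2
  have h1' := g1_lift _ U f x.1.1 h1 (n2 + n3)
  have h2' := g1_lift _ U f x.1.2.1 h2 (n1 + n3)
  have h3' := g1_lift _ U f x.1.2.2 h3 (n1 + n2)
  rw [show n1 + (n2 + n3) = n1 + n2 + n3 by omega] at h1'
  rw [show n2 + (n1 + n3) = n1 + n2 + n3 by omega] at h2'
  rw [show n3 + (n1 + n2) = n1 + n2 + n3 by omega] at h3'
  set t : sec ((J G.hW).obj M) U × sec ((J G.h0).obj M) U × sec ((J G.h1).obj M) U :=
    (f ^ (n2 + n3) • a1, f ^ (n1 + n3) • a2, f ^ (n1 + n2) • a3) with ht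
  have hr : G.r3 M (bas_le U f) t = (rst (bas_le U f) f) ^ (n1 + n2 + n3) • x.1 :=
    Prod.ext h1' (Prod.ext h2' h3')
  have hd : res ((J G.h01).obj M) (bas_le U f) (G.d M U t) = 0 := by
    rw [← d_r3, hr, map_smul, LinearMap.mem_ker.1 x.2, smul_zero]
  obtain ⟨k, hk⟩ := ((J G.h01).obj M).property.inj U f _ hd
  have hdk : G.d M U (f ^ k • t) = 0 := by
    rw [map_smul]
    exact hk
  refine ⟨k + (n1 + n2 + n3), ⟨f ^ k • t, LinearMap.mem_ker.2 hdk⟩, ?_⟩
  apply Subtype.ext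
  have h4 : G.r3 M (bas_le U f) (f ^ k • t) = (rst (bas_le U f) f) ^ k •
      G.r3 M (bas_le U f) t := by
    have hs := PM.res_smul ((J G.hW).obj M).obj (bas_le U f) (f ^ k) t.1
    have hs2 := PM.res_smul ((J G.h0).obj M).obj (bas_le U f) (f ^ k) t.2.1
    have hs3 := PM.res_smul ((J G.h1).obj M).obj (bas_le U f) (f ^ k) t.2.2
    rw [map_pow] at hs hs2 hs3
    exact Prod.ext hs (Prod.ext hs2 hs3)
  show G.r3 M (bas_le U f) (f ^ k • t) = (rst (bas_le U f) f) ^ (k + (n1 + n2 + n3)) • x.1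
  rw [h4, hr, pow_add _ k, mul_smul]

lemma PsiData_isQC (M : QCoh S) : IsQC (G.PsiData M).toPM where
  inj U f m hm := G.g1_inj M U f m hm
  surj U f x := G.g1_surj M U f x

end GlueData

end Pool.Agent.BE
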