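import Pool.Agent.BE.GlueS

/-!
# BE-GlueE: `Ψ` is additive and exact

Additive: `ap_Psi`. Exact: `exact_of_shortExact`; for a short exact sequence `T` the sequence
`Ψ T` is the middle column of a 3x3 diagram with rows `0 → J_W → Ψ → J_W → 0` and exact outer
columns: use the 3x3 (snake) lemma, or argue elementwise with `shortExact_iff`, `ap_Psi`,
`GlueData.shortExact`.
-/

open CategoryTheory CategoryTheory.Limits AlgebraicGeometry Opposite TopologicalSpace

namespace Pool.Agent.BE

variable {S : Scheme.{0}}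

namespace GlueData

variable (G : GlueData S)

private lemma gE_jres {W' W : S.Opens} (h' : AffInc W') (h : AffInc W) (hle : W' ≤ W)
    {M N : QCoh S} (f : M ⟶ N) (U : Aff S) (m : sec ((J h).obj M) U) :
    jres h' h hle N U (ap ((J h).map f) U m) = ap ((J h').map f) U (jres h' h hle M U m) := by
  apply (jeq h' N U).injective
  exact res_ap f (cap_inc h' h hle U) (jeq h M U m)

private lemma gE_jmul {W : S.Opens} (h : AffInc W) (g : Γ(S, W)) {M N : QCoh S} (f : M ⟶ N)
    (U : Aff S) (m : sec ((J h).obj M) U) :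
    jmul h g N U (ap ((J h).map f) U m) = ap ((J h).map f) U (jmul h g M U m) := by
  apply (jeq h N U).injective
  exact (map_smul (ap f (cap h U)) (rst (V := (cap h U).1) (inf_le_right : U.1 ⊓ W ≤ W) g)
    (jeq h M U m)).symm

private lemma gE_d {M N : QCoh S} (f : M ⟶ N) (U : Aff S)
    (t : sec ((J G.hW).obj M) U × sec ((J G.h0).obj M) U × sec ((J G.h1).obj M) U) :
    G.d N U (ap ((J G.hW).map f) U t.1, ap ((J G.h0).map f) U t.2.1,
      ap ((J G.h1).map f) U t.2.2) = ap ((J G.h01).map f) U (G.d M U t) := by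
  have h1 : ∀ (M : QCoh S) (t : sec ((J G.hW).obj M) U × sec ((J G.h0).obj M) U ×
      sec ((J G.h1).obj M) U), G.d M U t = jres G.h01 G.h1 inf_le_right M U t.2.2 -
      jres G.h01 G.h0 inf_le_left M U t.2.1 -
      jmul G.h01 G.g M U (jres G.h01 G.hW G.le01 M U t.1) := fun _ _ => rfl
  rw [h1, h1, gE_jres, gE_jres, gE_jres, gE_jmul, map_sub, map_sub]

instance Psi_additive : G.Psi.Additive where
  map_add {M N f g} := by
    apply qhom_ext
    intro U t
    apply (G.peq N U).injective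
    apply Subtype.ext
    have h1 : ap (G.Psi.map f + G.Psi.map g) U t = ap (G.Psi.map f) U t + ap (G.Psi.map g) U t :=
      rfl
    have h2 : (G.peq N U (ap (G.Psi.map f) U t + ap (G.Psi.map g) U t)).1 =
        (G.peq N U (ap (G.Psi.map f) U t)).1 + (G.peq N U (ap (G.Psi.map g) U t)).1 :=
      congrArg Subtype.val (map_add (G.peq N U) _ _)
    rw [h1]
    refine Eq.trans ?_ h2.symm
    rw [ap_Psi, ap_Psi, ap_Psi]
    rfl

private lemma gE_J {W : S.Opens} (hW : AffInc W) {T : ShortComplex (QCoh S)} (hT : T.ShortExact) :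
    (∀ U, Function.Injective (ap ((J hW).map T.f) U)) ∧
      (∀ U, Function.Exact (ap ((J hW).map T.f) U) (ap ((J hW).map T.g) U)) ∧
      (∀ U, Function.Surjective (ap ((J hW).map T.g) U)) :=
  (shortExact_iff (T.map (J hW))).1 (hT.map_of_exact (J hW))

private lemma gE_zero (M : QCoh S) (U : Aff S) :
    (G.peq M U (0 : sec (G.Psi.obj M) U)).1 = 0 := by
  have h : G.peq M U (0 : sec (G.Psi.obj M) U) = 0 := map_zero (G.peq M U)
  rw [h]
  rfl

theorem Psi_exact : PreservesFiniteLimits G.Psi ∧ PreservesFiniteColimits G.Psi := by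
  refine exact_of_shortExact G.Psi fun T hT => ?_
  rw [shortExact_iff]
  obtain ⟨iW, eW, sW⟩ := gE_J G.hW hT
  obtain ⟨i0, e0, s0⟩ := gE_J G.h0 hT
  obtain ⟨i1, e1, s1⟩ := gE_J G.h1 hT
  obtain ⟨i01, e01, s01⟩ := gE_J G.h01 hT
  have hzero : ∀ U (t : sec (G.Psi.obj T.X₁) U),
      ap (G.Psi.map T.g) U (ap (G.Psi.map T.f) U t) = 0 := by
    intro U t
    have h1 : ap (G.Psi.map T.f ≫ G.Psi.map T.g) U t = 0 := by
      rw [← G.Psi.map_comp, T.zero, Functor.map_zero]
      rfl
    exact h1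
  refine ⟨fun U => ?_, fun U => ?_, fun U => ?_⟩
  · show Function.Injective (ap (G.Psi.map T.f) U)
    rw [injective_iff_map_eq_zero]
    intro t ht
    have h1 := G.ap_Psi T.f U t
    rw [ht, gE_zero] at h1
    have h2 := Prod.ext_iff.1 h1
    have h3 := Prod.ext_iff.1 h2.2
    apply (G.peq T.X₁ U).injective
    apply Subtype.ext
    rw [gE_zero]
    refine Prod.ext ?_ (Prod.ext ?_ ?_)
    · exact iW U (h2.1.symm.trans (map_zero _).symm)
    · exact i0 U (h3.1.symm.trans (map_zero _).symm)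
    · exact i1 U (h3.2.symm.trans (map_zero _).symm)
  · show Function.Exact (ap (G.Psi.map T.f) U) (ap (G.Psi.map T.g) U)
    intro t
    constructor
    · intro ht
      have h1 := G.ap_Psi T.g U t
      rw [ht, gE_zero] at h1
      have h2 := Prod.ext_iff.1 h1
      have h3 := Prod.ext_iff.1 h2.2
      obtain ⟨b', hb'⟩ := (eW U _).1 h2.1.symm
      obtain ⟨a0', ha0'⟩ := (e0 U _).1 h3.1.symm
      obtain ⟨a1', ha1'⟩ := (e1 U _).1 h3.2.symm
      have h4 : G.d T.X₁ U (b', a0', a1') = 0 := by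
        apply i01 U
        have h5 := G.gE_d T.f U (b', a0', a1')
        have h6 : (ap ((J G.hW).map T.f) U b', ap ((J G.h0).map T.f) U a0',
            ap ((J G.h1).map T.f) U a1') = (G.peq T.X₂ U t).1 :=
          Prod.ext hb' (Prod.ext ha0' ha1')
        have h7 : G.d T.X₂ U (G.peq T.X₂ U t).1 = 0 := LinearMap.mem_ker.1 (G.peq T.X₂ U t).2
        rw [map_zero]
        refine h5.symm.trans ?_
        exact (congrArg (G.d T.X₂ U) h6).trans h7
      refine ⟨(G.peq T.X₁ U).symm ⟨(b', a0', a1'), LinearMap.mem_ker.2 h4⟩, ?_⟩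
      apply (G.peq T.X₂ U).injective
      apply Subtype.ext
      rw [ap_Psi]
      refine Prod.ext ?_ (Prod.ext ?_ ?_)
      · exact (congrArg (fun s : G.X T.X₁ U => ap ((J G.hW).map T.f) U s.1.1)
          (LinearEquiv.apply_symm_apply (G.peq T.X₁ U) ⟨(b', a0', a1'), _⟩)).trans hb'
      · exact (congrArg (fun s : G.X T.X₁ U => ap ((J G.h0).map T.f) U s.1.2.1)
          (LinearEquiv.apply_symm_apply (G.peq T.X₁ U) ⟨(b', a0', a1'), _⟩)).trans ha0'
      · exact (congrArg (fun s : G.X T.X₁ U => ap ((J G.h1).map T.f) U s.1.2.2)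
          (LinearEquiv.apply_symm_apply (G.peq T.X₁ U) ⟨(b', a0', a1'), _⟩)).trans ha1'
    · rintro ⟨s, rfl⟩
      exact hzero U s
  · show Function.Surjective (ap (G.Psi.map T.g) U)
    intro t
    obtain ⟨_, -, sβ⟩ := (shortExact_iff _).1 (G.shortExact T.X₂)
    obtain ⟨_, eβ, -⟩ := (shortExact_iff _).1 (G.shortExact T.X₃)
    obtain ⟨b, hb⟩ := sW U (ap (G.beta.app T.X₃) U t)
    obtain ⟨s, hs⟩ := sβ U b
    have hnatβ : ap (G.beta.app T.X₃) U (ap (G.Psi.map T.g) U s) =
        ap ((J G.hW).map T.g) U (ap (G.beta.app T.X₂) U s) :=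
      congrArg (fun φ => ap φ U s) (G.beta.naturality T.g)
    have h1 : ap (G.beta.app T.X₃) U (t - ap (G.Psi.map T.g) U s) = 0 := by
      rw [map_sub, hnatβ]
      have hs' : ap (G.beta.app T.X₂) U s = b := hs
      rw [hs', hb, sub_self]
    obtain ⟨m'', hm''⟩ := (eβ U _).1 h1
    obtain ⟨m, hm⟩ := sW U m''
    have hnatα : ap (G.alpha.app T.X₃) U (ap ((J G.hW).map T.g) U m) =
        ap (G.Psi.map T.g) U (ap (G.alpha.app T.X₂) U m) :=
      congrArg (fun φ => ap φ U m) (G.alpha.naturality T.g)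
    refine ⟨s + ap (G.alpha.app T.X₂) U m, ?_⟩
    have hm2 : ap (G.alpha.app T.X₃) U m'' = t - ap (G.Psi.map T.g) U s := hm''
    rw [map_add, ← hnatα, hm, hm2]
    abel

noncomputable instance Psi_finLim : PreservesFiniteLimits G.Psi := G.Psi_exact.1

noncomputable instance Psi_finColim : PreservesFiniteColimits G.Psi := G.Psi_exact.2

end GlueData

end Pool.Agent.BE
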