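import Pool.Agent.BE.Glue
import Pool.Agent.BE.SuppA

/-!
# BE-GlueS: the gluing sequence is short exact

Injectivity of `alpha` and exactness in the middle: sections of `M` over `U ∩ W` glue from
`U ∩ W0`, `U ∩ W1`: this sheaf property for a quasi-coherent module follows from
`eq_zero_of_local` and from the epimorphism argument: let `Q` be the cokernel of
`J_{W0} M ⊞ J_{W1} M → J_{W0 ∩ W1} M`, `(a0, a1) ↦ a1 - a0`; `Q` is quasi-coherent and vanishes on
every affine open `V ≤ W0` (there `J_{W0} M (V) = M(V)`, `J_{W0 ∩ W1} M (V) = M(V ∩ W1) = J_{W1} M (V)`), on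
every affine `V ≤ W1`, and on affine `V` ... in general use `subsingleton_of_local` on the affine open
`cap hW U`, covered by affine opens inside `W0` or `W1`. Same for the middle: the kernel of
`(a0,a1) ↦ a1 - a0` modulo the image of `J_W M` is quasi-coherent and vanishes locally on `W`.
All statements are about the affine open `U ∩ W`, which is covered by `U ∩ W0` and `U ∩ W1`.
-/

open CategoryTheory CategoryTheory.Limits AlgebraicGeometry Opposite TopologicalSpace

namespace Pool.Agent.BE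

variable {S : Scheme.{0}}

/-! ### local to global -/

private lemma gs_surj {M N : QCoh S} (f : M ⟶ N) (U : Aff S)
    (h : ∀ s ∈ U.1, ∃ V : Aff S, s ∈ V.1 ∧ Function.Surjective (ap f V)) :
    Function.Surjective (ap f U) := by
  have hπ := (epi_iff (cokernel.π f)).1 inferInstance
  have hex := (exact_iff _).1 (ShortComplex.exact_cokernel f)
  have hQ : Subsingleton (sec (cokernel f) U) := by
    refine subsingleton_of_local _ U fun s hs => ?_
    obtain ⟨V, hsV, hV⟩ := h s hs
    refine ⟨V, hsV, ⟨fun a b => ?_⟩⟩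
    have key : ∀ q : sec (cokernel f) V, q = 0 := by
      intro q
      obtain ⟨n, rfl⟩ := hπ V q
      obtain ⟨m, rfl⟩ := hV n
      exact (hex V (ap f V m)).2 ⟨m, rfl⟩
    rw [key a, key b]
  intro n
  exact (hex U n).1 (Subsingleton.elim _ _)

private lemma gs_inj {M N : QCoh S} (f : M ⟶ N) (U : Aff S)
    (h : ∀ s ∈ U.1, ∃ V : Aff S, s ∈ V.1 ∧ Function.Injective (ap f V)) :
    Function.Injective (ap f U) := by
  have hι := (mono_iff (kernel.ι f)).1 inferInstance
  have hex := (exact_iff _).1 (ShortComplex.exact_kernel f)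
  have hK : Subsingleton (sec (kernel f) U) := by
    refine subsingleton_of_local _ U fun s hs => ?_
    obtain ⟨V, hsV, hV⟩ := h s hs
    refine ⟨V, hsV, ⟨fun a b => ?_⟩⟩
    have key : ∀ q : sec (kernel f) V, q = 0 := by
      intro q
      have h1 : ap f V (ap (kernel.ι f) V q) = 0 := (hex V _).2 ⟨q, rfl⟩
      have h2 : ap (kernel.ι f) V q = 0 := hV (by rw [h1, map_zero])
      exact hι V (by rw [h2, map_zero])
    rw [key a, key b]
  rw [injective_iff_map_eq_zero]
  intro m hm
  obtain ⟨q, hq⟩ := (hex U m).1 hm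
  have hq0 : q = 0 := Subsingleton.elim _ _
  rw [hq0] at hq
  rw [← hq]
  exact map_zero _

private lemma gs_exact (T : ShortComplex (QCoh S)) (U : Aff S)
    (h : ∀ s ∈ U.1, ∃ V : Aff S, s ∈ V.1 ∧ Function.Exact (ap T.f V) (ap T.g V)) :
    Function.Exact (ap T.f U) (ap T.g U) := by
  have hex := (exact_iff _).1 (ShortComplex.exact_kernel T.g)
  have hι := (mono_iff (kernel.ι T.g)).1 inferInstance
  have hl : ∀ (V : Aff S) (x : sec T.X₁ V),
      ap (kernel.ι T.g) V (ap (kernel.lift T.g T.f T.zero) V x) = ap T.f V x := by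
    intro V x
    have h1 : kernel.lift T.g T.f T.zero ≫ kernel.ι T.g = T.f := kernel.lift_ι _ _ _
    conv_rhs => rw [← h1]
    rfl
  have hs : Function.Surjective (ap (kernel.lift T.g T.f T.zero) U) := by
    refine gs_surj _ U fun s hs => ?_
    obtain ⟨V, hsV, hV⟩ := h s hs
    refine ⟨V, hsV, fun k => ?_⟩
    have h1 : ap T.g V (ap (kernel.ι T.g) V k) = 0 := (hex V _).2 ⟨k, rfl⟩
    obtain ⟨x, hx⟩ := (hV _).1 h1
    refine ⟨x, hι V ?_⟩
    rw [hl, hx]
  intro y
  constructor
  · intro hy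
    obtain ⟨k, hk⟩ := (hex U y).1 hy
    obtain ⟨x, hx⟩ := hs k
    refine ⟨x, ?_⟩
    rw [← hl, hx]
    exact hk
  · rintro ⟨x, rfl⟩
    have h1 : ap (T.f ≫ T.g) U x = 0 := by
      rw [T.zero]
      rfl
    exact h1

/-! ### transfer along bijective restrictions -/

private lemma gs_tr_inj {M N : QCoh S} (f : M ⟶ N) {V U : Aff S} (h : V ≤ U)
    (hM : Function.Injective (res M h)) (hV : Function.Injective (ap f V)) :
    Function.Injective (ap f U) := by
  intro a b hab
  apply hM
  apply hV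
  rw [← res_ap, ← res_ap, hab]

private lemma gs_tr_surj {M N : QCoh S} (f : M ⟶ N) {V U : Aff S} (h : V ≤ U)
    (hM : Function.Surjective (res M h)) (hN : Function.Injective (res N h))
    (hV : Function.Surjective (ap f V)) : Function.Surjective (ap f U) := by
  intro z
  obtain ⟨y, hy⟩ := hV (res N h z)
  obtain ⟨x, rfl⟩ := hM y
  refine ⟨x, hN ?_⟩
  rw [res_ap, hy]

private lemma gs_tr_exact (T : ShortComplex (QCoh S)) {V U : Aff S} (h : V ≤ U)
    (h1 : Function.Surjective (res T.X₁ h)) (h2 : Function.Injective (res T.X₂ h))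
    (hV : Function.Exact (ap T.f V) (ap T.g V)) : Function.Exact (ap T.f U) (ap T.g U) := by
  intro y
  constructor
  · intro hy
    have h3 : ap T.g V (res T.X₂ h y) = 0 := by
      rw [← res_ap, hy, map_zero]
    obtain ⟨x', hx'⟩ := (hV _).1 h3
    obtain ⟨x, rfl⟩ := h1 x'
    refine ⟨x, h2 ?_⟩
    rw [res_ap, hx']
  · rintro ⟨x, rfl⟩
    have h1 : ap (T.f ≫ T.g) U x = 0 := by
      rw [T.zero]
      rfl
    exact h1

/-- restriction between equal opens is bijective -/
private lemma gs_res_bij (M : QCoh S) {V U : Aff S} (h : V ≤ U) (h' : U ≤ V) :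
    Function.Bijective (res M h) := by
  constructor
  · intro a b hab
    have h1 := congrArg (res M h') hab
    rw [PM.res_res, PM.res_res, PM.res_id, PM.res_id] at h1
    exact h1
  · intro x
    refine ⟨res M h' x, ?_⟩
    rw [PM.res_res, PM.res_id]

private lemma gs_jres_bij {W' W : S.Opens} (h' : AffInc W') (h : AffInc W) (hle : W' ≤ W)
    (M : QCoh S) (V : Aff S) (hV : V.1 ⊓ W ≤ W') :
    Function.Bijective (jres h' h hle M V) := by
  have hb := gs_res_bij M (cap_inc h' h hle V) (show cap h V ≤ cap h' V from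
    le_inf inf_le_left hV)
  exact (jeq h' M V).symm.bijective.comp (hb.comp (jeq h M V).bijective)

private lemma gs_jres_jres {W'' W' W : S.Opens} (h'' : AffInc W'') (h' : AffInc W') (h : AffInc W)
    (hle' : W'' ≤ W') (hle : W' ≤ W) (M : QCoh S) (V : Aff S) (m : sec ((J h).obj M) V) :
    jres h'' h' hle' M V (jres h' h hle M V m) = jres h'' h (hle'.trans hle) M V m := by
  apply (jeq h'' M V).injective
  exact PM.res_res M.obj (cap_inc h' h hle V) (cap_inc h'' h' hle' V) (jeq h M V m)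

private lemma gs_resJ {W W' : S.Opens} (h : AffInc W) (h' : AffInc W') (hle : W' ≤ W) (M : QCoh S)
    (U : Aff S) : Function.Bijective (res ((J h').obj M) (cap_le h U)) := by
  have hb := gs_res_bij M (cap_mono h' (cap_le h U))
    (show cap h' U ≤ cap h' (cap h U) from
      le_inf (le_inf inf_le_left (inf_le_right.trans hle)) inf_le_right)
  exact hb

namespace GlueData

variable (G : GlueData S)

lemma alpha_beta (M : QCoh S) : G.alpha.app M ≫ G.beta.app M = 0 := by
  apply qhom_ext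
  intro U m
  have h1 : ap (G.alpha.app M ≫ G.beta.app M) U m =
      ap (G.beta.app M) U (ap (G.alpha.app M) U m) := rfl
  rw [h1, ap_beta, ap_alpha]
  rfl

private lemma d_apply (M : QCoh S) (U : Aff S)
    (t : sec ((J G.hW).obj M) U × sec ((J G.h0).obj M) U × sec ((J G.h1).obj M) U) :
    G.d M U t = jres G.h01 G.h1 inf_le_right M U t.2.2 - jres G.h01 G.h0 inf_le_left M U t.2.1 -
      jmul G.h01 G.g M U (jres G.h01 G.hW G.le01 M U t.1) := rfl

/-- exactness over a small open: one of the two pieces is everything -/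
private lemma loc (M : QCoh S) (V : Aff S) (hV : V.1 ≤ G.W0 ∨ V.1 ≤ G.W1) :
    Function.Injective (ap (G.alpha.app M) V) ∧
    Function.Exact (ap (G.alpha.app M) V) (ap (G.beta.app M) V) ∧
    Function.Surjective (ap (G.beta.app M) V) := by
  have hex : (∀ a0 a1, jres G.h01 G.h1 inf_le_right M V a1 =
      jres G.h01 G.h0 inf_le_left M V a0 → ∃ m, jres G.h0 G.hW G.le0 M V m = a0 ∧
        jres G.h1 G.hW G.le1 M V m = a1) ∧
      (∀ c, ∃ a0 a1, jres G.h01 G.h1 inf_le_right M V a1 -
        jres G.h01 G.h0 inf_le_left M V a0 = c) ∧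
      (∀ m, jres G.h0 G.hW G.le0 M V m = 0 → jres G.h1 G.hW G.le1 M V m = 0 → m = 0) := by
    rcases hV with hV | hV
    · have hb0 := gs_jres_bij G.h0 G.hW G.le0 M V (inf_le_left.trans hV)
      have hb1 := gs_jres_bij G.h01 G.h1 inf_le_right M V
        (le_inf (inf_le_left.trans hV) inf_le_right)
      refine ⟨fun a0 a1 h => ?_, fun c => ?_, fun m h0 _ => ?_⟩
      · obtain ⟨m, rfl⟩ := hb0.2 a0
        refine ⟨m, rfl, hb1.1 ?_⟩
        rw [h, gs_jres_jres, gs_jres_jres]
      · obtain ⟨a1, ha1⟩ := hb1.2 c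
        exact ⟨0, a1, by rw [ha1, map_zero, sub_zero]⟩
      · exact hb0.1 (by rw [h0, map_zero])
    · have hb0 := gs_jres_bij G.h1 G.hW G.le1 M V (inf_le_left.trans hV)
      have hb1 := gs_jres_bij G.h01 G.h0 inf_le_left M V
        (le_inf inf_le_right (inf_le_left.trans hV))
      refine ⟨fun a0 a1 h => ?_, fun c => ?_, fun m _ h0 => ?_⟩
      · obtain ⟨m, rfl⟩ := hb0.2 a1
        refine ⟨m, hb1.1 ?_, rfl⟩
        rw [← h, gs_jres_jres, gs_jres_jres]
      · obtain ⟨a1, ha1⟩ := hb1.2 (-c)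
        exact ⟨a1, 0, by rw [ha1, map_zero, zero_sub, neg_neg]⟩
      · exact hb0.1 (by rw [h0, map_zero])
  obtain ⟨hg, hs, hi⟩ := hex
  refine ⟨?_, ?_, ?_⟩
  · rw [injective_iff_map_eq_zero]
    intro m hm
    have h0 : (G.peq M V (0 : sec (G.PsiObj M) V)).1 = 0 := by
      rw [map_zero]
      rfl
    have h1 := G.ap_alpha M V m
    rw [hm] at h1
    have h2 := Prod.ext_iff.1 (h0.symm.trans h1)
    have h3 := Prod.ext_iff.1 h2.2
    exact hi m h3.1.symm h3.2.symm
  · intro t
    constructor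
    · intro ht
      rw [ap_beta] at ht
      have h1 := LinearMap.mem_ker.1 (G.peq M V t).2
      rw [d_apply, ht, map_zero, map_zero, sub_zero, sub_eq_zero] at h1
      obtain ⟨m, hm0, hm1⟩ := hg _ _ h1
      refine ⟨m, (G.peq M V).injective (Subtype.ext ?_)⟩
      rw [ap_alpha, hm0, hm1, ← ht]
    · rintro ⟨m, rfl⟩
      rw [ap_beta, ap_alpha]
  · intro b
    obtain ⟨a0, a1, h⟩ := hs (jmul G.h01 G.g M V (jres G.h01 G.hW G.le01 M V b))
    have h0 : (b, a0, a1) ∈ LinearMap.ker (G.d M V) := by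
      rw [LinearMap.mem_ker, d_apply]
      show jres G.h01 G.h1 inf_le_right M V a1 - jres G.h01 G.h0 inf_le_left M V a0 -
        jmul G.h01 G.g M V (jres G.h01 G.hW G.le01 M V b) = 0
      rw [h, sub_self]
    exact ⟨(G.peq M V).symm ⟨(b, a0, a1), h0⟩, (G.ap_beta M V _).trans
      (congrArg (fun t : G.X M V => t.1.1)
        (LinearEquiv.apply_symm_apply (G.peq M V) ⟨(b, a0, a1), h0⟩))⟩

private lemma psi_res (M : QCoh S) (U : Aff S) :
    Function.Bijective (res (G.PsiObj M) (cap_le G.hW U)) := by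
  have b0 := gs_resJ G.hW G.hW le_rfl M U
  have b1 := gs_resJ G.hW G.h0 G.le0 M U
  have b2 := gs_resJ G.hW G.h1 G.le1 M U
  have b3 := gs_resJ G.hW G.h01 G.le01 M U
  constructor
  · rw [injective_iff_map_eq_zero]
    intro t ht
    have h1 := G.peq_res M (cap_le G.hW U) t
    rw [ht, map_zero] at h1
    have h2 := Prod.ext_iff.1 h1
    have h3 := Prod.ext_iff.1 h2.2
    apply (G.peq M U).injective
    rw [map_zero]
    apply Subtype.ext
    refine Prod.ext ?_ (Prod.ext ?_ ?_)
    · exact b0.1 (h2.1.symm.trans (map_zero (res ((J G.hW).obj M) (cap_le G.hW U))).symm)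
    · exact b1.1 (h3.1.symm.trans (map_zero (res ((J G.h0).obj M) (cap_le G.hW U))).symm)
    · exact b2.1 (h3.2.symm.trans (map_zero (res ((J G.h1).obj M) (cap_le G.hW U))).symm)
  · intro t'
    obtain ⟨x, hx⟩ := b0.2 (G.peq M _ t').1.1
    obtain ⟨y, hy⟩ := b1.2 (G.peq M _ t').1.2.1
    obtain ⟨z, hz⟩ := b2.2 (G.peq M _ t').1.2.2
    have h1 : G.r3 M (cap_le G.hW U) (x, y, z) = (G.peq M _ t').1 :=
      Prod.ext hx (Prod.ext hy hz)
    have h2 : G.d M U (x, y, z) = 0 := by
      apply b3.1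
      have h3 := G.d_r3 M (cap_le G.hW U) (x, y, z)
      rw [h1, LinearMap.mem_ker.1 (G.peq M _ t').2] at h3
      rw [map_zero]
      exact h3.symm
    refine ⟨(G.peq M U).symm ⟨(x, y, z), LinearMap.mem_ker.2 h2⟩, ?_⟩
    apply (G.peq M _).injective
    apply Subtype.ext
    rw [peq_res, LinearEquiv.apply_symm_apply]
    exact h1

theorem shortExact (M : QCoh S) :
    (ShortComplex.mk (G.alpha.app M) (G.beta.app M) (G.alpha_beta M)).ShortExact := by
  rw [shortExact_iff]
  have hcov : ∀ U : Aff S, ∀ s ∈ (cap G.hW U).1, ∃ V : Aff S, s ∈ V.1 ∧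
      (V.1 ≤ G.W0 ∨ V.1 ≤ G.W1) := by
    intro U s hs
    have h1 : s ∈ U.1 := hs.1
    have h2 : s ∈ G.W0 ⊔ G.W1 := by
      rw [G.sup]
      exact hs.2
    rcases h2 with h2 | h2
    · exact ⟨cap G.h0 U, ⟨h1, h2⟩, Or.inl inf_le_right⟩
    · exact ⟨cap G.h1 U, ⟨h1, h2⟩, Or.inr inf_le_right⟩
  refine ⟨fun U => ?_, fun U => ?_, fun U => ?_⟩
  · refine gs_tr_inj _ (cap_le G.hW U) (gs_resJ G.hW G.hW le_rfl M U).1 (gs_inj _ _ fun s hs => ?_)
    obtain ⟨V, hsV, hV⟩ := hcov U s hs
    exact ⟨V, hsV, (G.loc M V hV).1⟩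
  · refine gs_tr_exact _ (cap_le G.hW U) (gs_resJ G.hW G.hW le_rfl M U).2 (G.psi_res M U).1
      (gs_exact _ _ fun s hs => ?_)
    obtain ⟨V, hsV, hV⟩ := hcov U s hs
    exact ⟨V, hsV, (G.loc M V hV).2.1⟩
  · refine gs_tr_surj _ (cap_le G.hW U) (G.psi_res M U).2 (gs_resJ G.hW G.hW le_rfl M U).1
      (gs_surj _ _ fun s hs => ?_)
    obtain ⟨V, hsV, hV⟩ := hcov U s hs
    exact ⟨V, hsV, (G.loc M V hV).2.2⟩

end GlueData

end Pool.Agent.BE
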