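import Pool.Agent.BE.QCAb

/-!
# BE-JQC: the presheaf `U ↦ M(U ∩ W)` is quasi-coherent

`cap hW (bas U f)` is the basic open of `rst (cap_le hW U) f` in `cap hW U` (as subsets:
`D(f) ⊓ W = S.basicOpen (f|_{U ⊓ W})`, `Scheme.basicOpen_res`). Generalise: for `V ≤ U` with
`V.1 = S.basicOpen f` the two properties of `IsQC` hold for `res M (V ≤ U)` (`V = bas U f` by
`Subtype.ext`, then `subst`).
-/

open CategoryTheory CategoryTheory.Limits AlgebraicGeometry Opposite TopologicalSpace

namespace Pool.Agent.BE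

variable {S : Scheme.{0}}

/-- `U ∩ W` is affine for every affine open `U`. -/
def AffInc (W : S.Opens) : Prop := ∀ U : Aff S, IsAffineOpen (U.1 ⊓ W)

/-- `U ∩ W` as an affine open -/
def cap {W : S.Opens} (hW : AffInc W) (U : Aff S) : Aff S := ⟨U.1 ⊓ W, hW U⟩

lemma cap_le {W : S.Opens} (hW : AffInc W) (U : Aff S) : cap hW U ≤ U :=
  (inf_le_left : U.1 ⊓ W ≤ U.1)

lemma cap_mono {W : S.Opens} (hW : AffInc W) {V U : Aff S} (h : V ≤ U) : cap hW V ≤ cap hW U :=
  inf_le_inf_right W h

/-- the presheaf `U ↦ M(U ∩ W)` -/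
noncomputable def JData {W : S.Opens} (hW : AffInc W) (M : PM S) : SecData S where
  X U := M.sec (cap hW U)
  grp U := inferInstance
  mod U := Module.compHom (M.sec (cap hW U)) (rst (cap_le hW U))
  r h := M.res (cap_mono hW h)
  r_smul {V U} h a m := by
    change M.res (cap_mono hW h) (rst (cap_le hW U) a • m) = rst (cap_le hW V) (rst h a) • _
    rw [M.res_smul, rst_rst, rst_rst]
  r_id U m := M.res_id _ _ m
  r_comp h h' m := M.res_res _ _ m

private lemma gen_inj {M : PM S} (hM : IsQC M) {V U : Aff S} (h : V ≤ U) (f : Γ(S, U.1))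
    (hV : V.1 = S.basicOpen f) (m : M.sec U) (hm : M.res h m = 0) : ∃ n : ℕ, f ^ n • m = 0 := by
  have e : V = bas U f := Subtype.ext hV
  subst e
  exact hM.inj U f m hm

private lemma gen_surj {M : PM S} (hM : IsQC M) {V U : Aff S} (h : V ≤ U) (f : Γ(S, U.1))
    (hV : V.1 = S.basicOpen f) (x : M.sec V) :
    ∃ (n : ℕ) (m : M.sec U), M.res h m = (rst h f) ^ n • x := by
  have e : V = bas U f := Subtype.ext hV
  subst e
  exact hM.surj U f x

private lemma cap_bas {W : S.Opens} (hW : AffInc W) (U : Aff S) (f : Γ(S, U.1)) :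
    (cap hW (bas U f)).1 = S.basicOpen (rst (show (cap hW U).1 ≤ U.1 from cap_le hW U) f) := by
  have h1 : S.basicOpen (rst (show (cap hW U).1 ≤ U.1 from cap_le hW U) f) =
      (cap hW U).1 ⊓ S.basicOpen f := S.basicOpen_res f _
  have h2 : S.basicOpen f ≤ U.1 := S.basicOpen_le f
  rw [h1]
  change S.basicOpen f ⊓ W = (U.1 ⊓ W) ⊓ S.basicOpen f
  apply le_antisymm
  · exact le_inf (le_inf (inf_le_left.trans h2) inf_le_right) inf_le_left
  · exact le_inf inf_le_right (inf_le_left.trans inf_le_right)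

lemma JData_isQC {W : S.Opens} (hW : AffInc W) (M : QCoh S) : IsQC (JData hW M.obj).toPM where
  inj U f m hm := by
    obtain ⟨n, hn⟩ := gen_inj M.property (cap_mono hW (bas_le U f)) (rst (cap_le hW U) f)
      (cap_bas hW U f) m hm
    rw [← map_pow] at hn
    exact ⟨n, hn⟩
  surj U f x := by
    obtain ⟨n, m, hm⟩ := gen_surj M.property (cap_mono hW (bas_le U f)) (rst (cap_le hW U) f)
      (cap_bas hW U f) x
    refine ⟨n, m, ?_⟩
    rw [rst_rst, ← rst_rst (show (bas U f).1 ≤ U.1 from bas_le U f) (cap_le hW (bas U f)),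
      ← map_pow] at hm
    exact hm

end Pool.Agent.BE
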