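import Pool.Agent.BE.Pt

/-!
# BE-Loc: localisation and local vanishing

`exists_basic`: Mathlib `exists_basicOpen_le_affine_inter`. `subsingleton_of_local`: cover `U` by
basic opens `D(f)` of `U` which are also basic in the given `V`'s; `M(D(f)) = 0` there (by `res_surj` from
`M(V) = 0`), so every `m` is killed by powers of a family of `f`'s generating the unit ideal.
-/

open CategoryTheory CategoryTheory.Limits AlgebraicGeometry Opposite TopologicalSpace

namespace Pool.Agent.BE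

variable {S : Scheme.{0}}

/-! ### localisation for affine opens that are basic opens -/

theorem res_inj (M : QCoh S) {V U : Aff S} (h : V ≤ U) (f : Γ(S, U.1)) (hV : V.1 = S.basicOpen f)
    (m : sec M U) (hm : res M h m = 0) : ∃ n : ℕ, f ^ n • m = 0 := by
  obtain rfl : V = bas U f := Subtype.ext hV
  exact M.property.inj U f m hm

theorem res_surj (M : QCoh S) {V U : Aff S} (h : V ≤ U) (f : Γ(S, U.1)) (hV : V.1 = S.basicOpen f)
    (x : sec M V) : ∃ (n : ℕ) (m : sec M U), res M h m = (rst h f) ^ n • x := by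
  obtain rfl : V = bas U f := Subtype.ext hV
  exact M.property.surj U f x

/-- a small neighbourhood which is basic in two given affine opens -/
theorem exists_basic (U V : Aff S) (s : S) (hU : s ∈ U.1) (hV : s ∈ V.1) :
    ∃ (D : Aff S) (h : D ≤ U) (h' : D ≤ V) (f : Γ(S, U.1)) (g : Γ(S, V.1)), s ∈ D.1 ∧
      D.1 = S.basicOpen f ∧ D.1 = S.basicOpen g := by
  obtain ⟨f, g, h1, h2⟩ := exists_basicOpen_le_affine_inter U.2 V.2 s ⟨hU, hV⟩
  refine ⟨bas U f, bas_le U f, ?_, f, g, h2, rfl, h1⟩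
  have h3 : S.basicOpen f ≤ V.1 := by
    rw [h1]
    exact S.basicOpen_le g
  exact h3

/-- a section killed by a power of a function near every point is zero -/
private theorem loc_key (M : QCoh S) (U : Aff S) (m : sec M U)
    (h : ∀ s ∈ U.1, ∃ f : Γ(S, U.1), s ∈ S.basicOpen f ∧ ∃ n : ℕ, f ^ n • m = 0) : m = 0 := by
  set I : Ideal Γ(S, U.1) := (Ideal.span {a | ∃ n : ℕ, a ^ n • m = 0}) with hI
  have h1 : I = ⊤ := by
    rw [hI, ← U.2.iSup_basicOpen_eq_self_iff]
    apply le_antisymm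
    · exact iSup_le fun f => S.basicOpen_le _
    · intro s hs
      obtain ⟨f, hf, hn⟩ := h s hs
      exact Opens.mem_iSup.2 ⟨⟨f, hn⟩, hf⟩
  have h2 : I ≤ (Ideal.radical (LinearMap.ker (LinearMap.toSpanSingleton Γ(S, U.1) (sec M U) m))) := by
    rw [hI, Ideal.span_le]
    rintro a ⟨n, hn⟩
    refine ⟨n, ?_⟩
    rw [LinearMap.mem_ker, LinearMap.toSpanSingleton_apply]
    exact hn
  rw [h1] at h2
  obtain ⟨n, hn⟩ := h2 (Submodule.mem_top : (1 : Γ(S, U.1)) ∈ ⊤)
  rw [one_pow, LinearMap.mem_ker, LinearMap.toSpanSingleton_apply, one_smul] at hn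
  exact hn

private theorem loc_unit {V D : Aff S} (h : D ≤ V) (g : Γ(S, V.1)) (hD : D.1 = S.basicOpen g) :
    IsUnit (rst h g : Γ(S, D.1)) := by
  obtain rfl : D = bas V g := Subtype.ext hD
  exact S.toRingedSpace.isUnit_res_basicOpen g

/-- if every point of `U` has an affine neighbourhood on which `M` vanishes then `M(U) = 0` -/
theorem subsingleton_of_local (M : QCoh S) (U : Aff S)
    (h : ∀ s ∈ U.1, ∃ V : Aff S, s ∈ V.1 ∧ Subsingleton (sec M V)) : Subsingleton (sec M U) := by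
  have h0 : ∀ m : sec M U, m = 0 := by
    intro m
    apply loc_key
    intro s hs
    obtain ⟨V, hV, hV0⟩ := h s hs
    obtain ⟨D, h1, h2, f, g, hsD, hf, hg⟩ := exists_basic U V s hs hV
    refine ⟨f, hf ▸ hsD, res_inj M h1 f hf m ?_⟩
    obtain ⟨n, x, hx⟩ := res_surj M h2 g hg (res M h1 m)
    rw [hV0.elim x 0, map_zero] at hx
    obtain ⟨u, hu⟩ := (loc_unit h2 g hg).pow n
    rw [← hu] at hx
    have h3 : (u : Γ(S, D.1)) • res M h1 m = 0 := hx.symm
    have h4 : (↑u⁻¹ : Γ(S, D.1)) • ((u : Γ(S, D.1)) • res M h1 m) = 0 := by rw [h3, smul_zero]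
    rw [smul_smul, Units.inv_mul, one_smul] at h4
    exact h4
  exact ⟨fun a b => by rw [h0 a, h0 b]⟩

/-- a section which dies near every point is zero -/
theorem eq_zero_of_local (M : QCoh S) (U : Aff S) (m : sec M U)
    (h : ∀ s ∈ U.1, ∃ (V : Aff S) (hV : V ≤ U), s ∈ V.1 ∧ res M hV m = 0) : m = 0 := by
  apply loc_key
  intro s hs
  obtain ⟨V, hV, hsV, hm⟩ := h s hs
  obtain ⟨D, h1, h2, f, g, hsD, hf, hg⟩ := exists_basic U V s hs hsV
  refine ⟨f, hf ▸ hsD, res_inj M h1 f hf m ?_⟩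
  have h3 : res M h1 m = res M h2 (res M hV m) := (PM.res_res M.obj hV h2 m).symm
  rw [h3, hm, map_zero]

end Pool.Agent.BE
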