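import Pool.Agent.BE.Sky
import Pool.Agent.BE.Glue

/-!
# BE-SkyG: the gluing sequence splits on skyscraper sheaves

If `x ∉ W` then `J_W O_x = 0` and `r = 0` works. If `x ∈ W0`: `r (b, a0, a1)` is the section of `J_W O_x`
over `U` with the value of `a0` at `x` (`x ∈ U ∩ W0` iff `x ∈ U ∩ W`). If `x ∈ W1` use `a1`.
`alpha m = (0, m, m)`, so `r (alpha m) = m`.
-/

open CategoryTheory CategoryTheory.Limits AlgebraicGeometry Opposite TopologicalSpace

namespace Pool.Agent.BE

variable {S : Scheme.{0}}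

/-- the map `J_W' O_x → J_W O_x` for `x ∈ W'` -/
private noncomputable def spr {W' W : S.Opens} (h' : AffInc W') (h : AffInc W) (x : S)
    (hx : IsClosed ({x} : Set S)) (hxW : x ∈ W') :
    (J h').obj (sky x hx) ⟶ (J h).obj (sky x hx) :=
  mkHom (M := (J h').obj (sky x hx)) (N := (J h).obj (sky x hx))
    (fun U =>
      { toFun := fun m => (jeq h (sky x hx) U).symm ((skyeq x hx (cap h U)).symm
          (fun p => skyeq x hx (cap h' U) (jeq h' (sky x hx) U m) ⟨⟨p.down.1, hxW⟩⟩))
        map_add' := fun a b => rfl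
        map_smul' := fun a m => by
          apply (jeq h (sky x hx) U).injective
          apply (skyeq x hx (cap h U)).injective
          funext p
          have hp : x ∈ (cap h' U).1 := ⟨p.down.1, hxW⟩
          change ev x hp (rst (cap_le h' U) a) *
              skyeq x hx (cap h' U) (jeq h' (sky x hx) U m) ⟨hp⟩ =
            ev x p.down (rst (cap_le h U) a) *
              skyeq x hx (cap h' U) (jeq h' (sky x hx) U m) ⟨hp⟩
          have e1 := ev_rst (cap_le h' U) x hp a
          have e2 := ev_rst (cap_le h U) x p.down a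
          rw [e1, e2] })
    (fun {V U} hVU m => rfl)

private lemma spr_jres {W' W : S.Opens} (h' : AffInc W') (h : AffInc W) (hle : W' ≤ W) (x : S)
    (hx : IsClosed ({x} : Set S)) (hxW : x ∈ W') (U : Aff S) (m : sec ((J h).obj (sky x hx)) U) :
    ap (spr h' h x hx hxW) U (jres h' h hle (sky x hx) U m) = m := rfl

private noncomputable def pr0 (G : GlueData S) (M : QCoh S) : G.Psi.obj M ⟶ (J G.h0).obj M :=
  mkHom (M := G.PsiObj M) (N := (J G.h0).obj M)
    (fun U => LinearMap.fst _ _ _ ∘ₗ LinearMap.snd _ _ _ ∘ₗ (Submodule.subtype _) ∘ₗ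
      (G.peq M U).toLinearMap)
    (fun {V U} hVU m => rfl)

private noncomputable def pr1 (G : GlueData S) (M : QCoh S) : G.Psi.obj M ⟶ (J G.h1).obj M :=
  mkHom (M := G.PsiObj M) (N := (J G.h1).obj M)
    (fun U => LinearMap.snd _ _ _ ∘ₗ LinearMap.snd _ _ _ ∘ₗ (Submodule.subtype _) ∘ₗ
      (G.peq M U).toLinearMap)
    (fun {V U} hVU m => rfl)

/-- the gluing sequence splits on skyscraper sheaves -/
theorem sky_split (G : GlueData S) (x : S) (hx : IsClosed ({x} : Set S)) :
    ∃ r : G.Psi.obj (sky x hx) ⟶ (J G.hW).obj (sky x hx), G.alpha.app (sky x hx) ≫ r = 𝟙 _ := by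
  by_cases hx0 : x ∈ G.W0
  · exact ⟨pr0 G (sky x hx) ≫ spr G.h0 G.hW x hx hx0, qhom_ext fun U m => rfl⟩
  · by_cases hx1 : x ∈ G.W1
    · exact ⟨pr1 G (sky x hx) ≫ spr G.h1 G.hW x hx hx1, qhom_ext fun U m => rfl⟩
    · refine ⟨0, qhom_ext fun U m => ?_⟩
      apply (jeq G.hW (sky x hx) U).injective
      apply (skyeq x hx (cap G.hW U)).injective
      funext p
      have h : x ∈ G.W := p.down.2
      rw [← G.sup] at h
      rcases h with h | h
      · exact absurd h hx0
      · exact absurd h hx1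

end Pool.Agent.BE
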