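import Pool.Agent.BE.MainDefs
import Pool.Agent.BE.DerC
import Pool.Agent.BE.SkyG
import Pool.Agent.BE.FamR
import Pool.Agent.BE.GlueE

/-!
# BE-M1: Lemma C for the gluing functor and skyscrapers

`lemC` with `J := J G.hW`, `Ψ := G.Psi`, `α := G.alpha`, `β := G.beta`, `M0 := sky x hx`, `sky_split`; then
`endFam_of_retraction`.
-/

open CategoryTheory CategoryTheory.Limits CategoryTheory.Pretriangulated AlgebraicGeometry
  Opposite TopologicalSpace DerivedCategory

namespace Pool.Agent.BE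

universe w

variable {S : Scheme.{0}}

theorem endFam_of_triangle [HasDerivedCategory.{w} (QCoh S)] (G : GlueData S) (x : S)
    (hx : IsClosed ({x} : Set S)) (X Z : DerivedCategory (QCoh S)) (f : X ⟶ Ox x hx)
    (g : Ox x hx ⟶ Z) (h : Z ⟶ X⟦(1 : ℤ)⟧)
    (hT : Triangle.mk f g h ∈ distTriang (DerivedCategory (QCoh S)))
    (h0 : ∀ u : (J G.hW).mapDerivedCategory.obj X ⟶ (J G.hW).mapDerivedCategory.obj Z, u = 0)
    (n : ℤ) :
    Nonempty (EndFam G.W0 G.W1 G.g (Hn n X)) ∧ Nonempty (EndFam G.W0 G.W1 G.g (Hn n Z)) := by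
  obtain ⟨⟨r, hr⟩, ⟨r', hr'⟩⟩ := lemC G.alpha G.beta G.alpha_beta G.shortExact (sky x hx)
    (sky_split G x hx) X Z f g h hT h0 n
  exact ⟨endFam_of_retraction G _ r hr, endFam_of_retraction G _ r' hr'⟩

end Pool.Agent.BE
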