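import Pool.Agent.BE.MainDefs
import Pool.Agent.BE.DerD
import Pool.Agent.BE.SuppJ

/-!
# BE-M2: Lemma D for supports separated by opens: `lemD` with `J i := J (hW i)`, `η i := ιJ (hW i)`, `pi_iso`
-/

open CategoryTheory CategoryTheory.Limits CategoryTheory.Pretriangulated AlgebraicGeometry
  Opposite TopologicalSpace DerivedCategory

namespace Pool.Agent.BE

universe w

variable {S : Scheme.{0}}

theorem hom_zero_of_sep [HasDerivedCategory.{w} (QCoh S)] {ι : Type} [Fintype ι]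
    (W : ι → S.Opens) (hW : ∀ i, AffInc (W i)) (X Z : DerivedCategory (QCoh S))
    (hX : ∀ n, ∀ s ∈ Supp (Hn n X), ∃! i, s ∈ W i) (hZ : ∀ n, ∀ s ∈ Supp (Hn n Z), ∃! i, s ∈ W i)
    (h0 : ∀ u : X ⟶ Z, u = 0) (i : ι)
    (u : (J (hW i)).mapDerivedCategory.obj X ⟶ (J (hW i)).mapDerivedCategory.obj Z) : u = 0 :=
  lemD (fun i => J (hW i)) (fun i => ιJ (hW i)) X Z (fun n => pi_iso W hW _ (hX n))
    (fun n => pi_iso W hW _ (hZ n)) h0 i u

end Pool.Agent.BE
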