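import Pool.Agent.BE.M1
import Pool.Agent.BE.M2
import Pool.Agent.BE.Aff
import Pool.Agent.BE.F1

/-!
# BE-M3: the cohomology of a destabilising triangle is not supported over the generic point

`G : GlueData S` with `W = ⊤`, `W0 = p⁻¹ᵁ C0`, `W1 = p⁻¹ᵁ C1` (`B.sup`), `g = p.app (C0 ⊓ C1) f`, `affInc_top`,
`affInc_preimage`, `affInc_inf`. `Hom(J_⊤ X, J_⊤ Z) = 0` from `hom_zero_of_sep` with `ι = Unit`, `W = ⊤`. Then
`endFam_of_triangle` and `lemF1`.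
-/

open CategoryTheory CategoryTheory.Limits CategoryTheory.Pretriangulated AlgebraicGeometry
  Opposite TopologicalSpace DerivedCategory

namespace Pool.Agent.BE

universe w

variable {S : Scheme.{0}}

theorem step1 {C : Scheme.{0}} (p : S ⟶ C) [IsProper p] [IsIntegral C]
    [IsNoetherian S] [S.IsSeparated] [C.IsSeparated]
    (hi : ∀ n : ℕ, n ≠ 0 → ∃ a : Γ(C, ⊤), (n : Γ(C, ⊤)) * a = 1)
    (B : BaseData C)
    [HasDerivedCategory.{w} (QCoh S)] (x : S) (hx : IsClosed ({x} : Set S))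
    (X Z : DerivedCategory (QCoh S)) (f : X ⟶ Ox x hx) (g : Ox x hx ⟶ Z) (h : Z ⟶ X⟦(1 : ℤ)⟧)
    (hT : Triangle.mk f g h ∈ distTriang (DerivedCategory (QCoh S)))
    (hX : ∀ n, Coh (Hn n X)) (hZ : ∀ n, Coh (Hn n Z))
    (h0 : ∀ u : X ⟶ Z, u = 0) (n : ℤ) (s : S) (hs : s ∈ Supp (Hn n X) ∨ s ∈ Supp (Hn n Z)) :
    p.base s ≠ genericPoint C := by
  have hsup : p ⁻¹ᵁ B.C0 ⊔ p ⁻¹ᵁ B.C1 = (⊤ : S.Opens) := by
    rw [← Scheme.Hom.preimage_sup, B.sup]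
    rfl
  let G : GlueData S :=
    { W := ⊤
      W0 := p ⁻¹ᵁ B.C0
      W1 := p ⁻¹ᵁ B.C1
      hW := affInc_top
      h0 := affInc_preimage p _ B.h0
      h1 := affInc_preimage p _ B.h1
      h01 := affInc_inf (affInc_preimage p _ B.h0) (affInc_preimage p _ B.h1)
      sup := hsup
      g := (p.app (B.C0 ⊓ B.C1)).hom B.f }
  have hsep : ∀ s : S, ∃! _i : Unit, s ∈ (⊤ : S.Opens) :=
    fun s => ⟨(), trivial, fun _ _ => rfl⟩
  have hJ : ∀ u : (J G.hW).mapDerivedCategory.obj X ⟶ (J G.hW).mapDerivedCategory.obj Z, u = 0 :=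
    hom_zero_of_sep (ι := Unit) (fun _ => (⊤ : S.Opens)) (fun _ => affInc_top) X Z
      (fun n s _ => hsep s) (fun n s _ => hsep s) h0 ()
  obtain ⟨⟨E1⟩, ⟨E2⟩⟩ := endFam_of_triangle G x hx X Z f g h hT hJ n
  rcases hs with hs | hs
  · exact lemF1 p B.C0 B.C1 B.h0 B.h1 B.n0 B.n1 hi B.f B.hf _ (hX n) E1 s hs
  · exact lemF1 p B.C0 B.C1 B.h0 B.h1 B.n0 B.n1 hi B.f B.hf _ (hZ n) E2 s hs

end Pool.Agent.BE
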