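import Pool.Agent.BE.MainDefs
import Pool.Agent.BE.F2
import Pool.Agent.BE.Glue0
import Pool.Agent.BE.Aff

/-!
# BE-M5: gluing data at a good fibre

`S`, `C` separated. `V = N0 \ (p(S \ (W0 ∪ W1)) ∪ (T \ {c}))` is an open neighbourhood of `c` (`p` is closed; `D.cover`).
`c` closed: choose `t ∈ Γ(C, N0)` with `c ∈ N := D(t) ≤ V`. `W_i' := W_i ⊓ p⁻¹ᵁ N = D(p^*t|W_i)`, affine;
`G = (p⁻¹ᵁ N, W_0', W_1', g|)`; `p⁻¹ᵁ N ≤ W0 ⊔ W1`. `c ∈ N`, `N ∩ T ⊆ {c}`. Last clause: `lemF2` for `W_0'`, `W_1'`: the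
image `R_i'` of `Γ(W_i')` in `κ(z)` equals the image `R_i` of `Γ(W_i)`: an element of `Γ(W_i')` is `a / t^k`
(`a ∈ Γ(W_i)`, localisation), and `1/t(z)` is in the image of `Γ(C, N0) → κ(c) → κ(z)` because
`Γ(C, N0) → κ(c)` is surjective (`c` is a closed point of the affine `N0`). So `n0`, `n1`, `hg` hold for `W_i'`
(for `hg`: `g|`, `a_i' ∈ Γ(W_i')` have the same values at `z` as some `a_i ∈ Γ(W_i)`).
-/

open CategoryTheory CategoryTheory.Limits CategoryTheory.Pretriangulated AlgebraicGeometry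
  Opposite TopologicalSpace DerivedCategory

namespace Pool.Agent.BE

universe w

variable {S : Scheme.{0}}

private lemma ev_zero_iff {U : S.Opens} (x : S) (h : x ∈ U) (a : Γ(S, U)) :
    ev x h a = 0 ↔ x ∉ S.basicOpen a :=
  S.evaluation_eq_zero_iff_notMem_basicOpen x h a

private lemma inv_at {C : Scheme.{0}} {N0 : C.Opens} (hN0 : IsAffineOpen N0) {c : C} (hc0 : c ∈ N0)
    (hc : IsClosed ({c} : Set C)) (t : Γ(C, N0)) (ht : c ∈ C.basicOpen t) :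
    ∃ u : Γ(C, N0), ev c hc0 (1 - u * t) = 0 := by
  set s : Set Γ(C, N0) := {f | f = t ∨ ev c hc0 f = 0} with hs
  have hspan : Ideal.span s = ⊤ := by
    rw [← hN0.self_le_iSup_basicOpen_iff]
    intro x hx
    rw [Opens.mem_iSup]
    by_cases hxc : x = c
    · subst hxc
      exact ⟨⟨t, Or.inl rfl⟩, ht⟩
    · let V : C.Opens := ⟨{c}ᶜ, hc.isOpen_compl⟩
      obtain ⟨f, hf1, hf2⟩ := hN0.exists_basicOpen_le (V := V) ⟨x, hxc⟩ hx
      refine ⟨⟨f, Or.inr ?_⟩, hf2⟩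
      rw [ev_zero_iff]
      intro h
      exact hf1 h rfl
  have key : ∀ a ∈ Ideal.span s, ∃ u : Γ(C, N0), ev c hc0 (a - u * t) = 0 := by
    intro a ha
    induction ha using Submodule.span_induction with
    | mem x hx =>
      rcases hx with rfl | hx
      · exact ⟨1, by simp⟩
      · exact ⟨0, by simpa using hx⟩
    | zero => exact ⟨0, by simp⟩
    | add x y _ _ hx hy =>
      obtain ⟨u, hu⟩ := hx
      obtain ⟨v, hv⟩ := hy
      refine ⟨u + v, ?_⟩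
      have : x + y - (u + v) * t = (x - u * t) + (y - v * t) := by ring
      rw [this, map_add, hu, hv, add_zero]
    | smul a x _ hx =>
      obtain ⟨u, hu⟩ := hx
      refine ⟨a * u, ?_⟩
      have : a • x - a * u * t = a * (x - u * t) := by rw [smul_eq_mul]; ring
      rw [this, map_mul, hu, mul_zero]
  exact key 1 (by rw [hspan]; trivial)

private lemma range_eq {W W' : Aff S} (h : W' ≤ W) (t0 u0 : Γ(S, W.1))
    (hW' : W'.1 = S.basicOpen t0) {z : S} (hz' : z ∈ W'.1) (hu : ev z (h hz') (1 - u0 * t0) = 0)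
    (a' : Γ(S, W'.1)) : ∃ a : Γ(S, W.1), ev z hz' a' = ev z (h hz') a := by
  letI := (rst (V := W'.1) (U := W.1) h).toAlgebra
  have hloc : IsLocalization.Away t0 Γ(S, W'.1) :=
    W.2.isLocalization_of_eq_basicOpen t0 (homOfLE h) hW'
  obtain ⟨n, a, ha⟩ := IsLocalization.Away.surj t0 a'
  have ha' : a' * rst (V := W'.1) (U := W.1) h t0 ^ n = rst (V := W'.1) (U := W.1) h a := ha
  have h1 := congrArg (ev z hz') ha'
  rw [map_mul, map_pow, ev_rst, ev_rst] at h1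
  have h2 : ev z (h hz') u0 * ev z (h hz') t0 = 1 := by
    rw [map_sub, map_one, map_mul, sub_eq_zero] at hu
    exact hu.symm
  refine ⟨a * u0 ^ n, ?_⟩
  rw [map_mul, ← h1, map_pow, mul_assoc, ← mul_pow, mul_comm (ev z (h hz') t0), h2, one_pow,
    mul_one]

theorem exists_glue {C : Scheme.{0}} (p : S ⟶ C) [IsProper p] [S.IsSeparated] [C.IsSeparated]
    (hi : ∀ n : ℕ, n ≠ 0 → ∃ a : Γ(C, ⊤), (n : Γ(C, ⊤)) * a = 1)
    (c : C) (hc : IsClosed ({c} : Set C)) (F : FibreData p c) (T : Set C) (hT : T.Finite)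
    (hT' : ∀ t ∈ T, IsClosed ({t} : Set C)) :
    ∃ (G : GlueData S) (N : C.Opens), G.W = p ⁻¹ᵁ N ∧ c ∈ N ∧ (∀ t ∈ T, t ∈ N → t = c) ∧
      ∀ M : QCoh S, Coh M → Nonempty (EndFam G.W0 G.W1 G.g M) → F.z ∉ Supp M := by
  -- the open set `V`
  have hZ1 : IsClosed (p '' ((F.W0.1 : Set S) ∪ (F.W1.1 : Set S))ᶜ) :=
    p.isClosedMap _ (F.W0.1.2.union F.W1.1.2).isClosed_compl
  have hT2 : IsClosed (T \ {c}) := by
    rw [← Set.biUnion_of_singleton (T \ {c})]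
    exact (hT.subset Set.diff_subset).isClosed_biUnion fun t ht => hT' t ht.1
  let V : C.Opens := F.N0 ⊓ ⟨(p '' ((F.W0.1 : Set S) ∪ (F.W1.1 : Set S))ᶜ)ᶜ, hZ1.isOpen_compl⟩ ⊓
    ⟨(T \ {c})ᶜ, hT2.isOpen_compl⟩
  have hcV : c ∈ V := by
    refine ⟨⟨F.hc, ?_⟩, fun h => h.2 rfl⟩
    rintro ⟨s, hs, hsc⟩
    exact hs (F.cover s hsc)
  obtain ⟨t, htV, hct⟩ := F.hN0.exists_basicOpen_le (V := V) ⟨c, hcV⟩ F.hc
  obtain ⟨u, hu⟩ := inv_at F.hN0 F.hc hc t hct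
  set N : C.Opens := C.basicOpen t with hN
  have hNaff : IsAffineOpen N := F.hN0.basicOpen t
  have hNcov : ∀ s : S, p s ∈ N → s ∈ F.W0.1 ∨ s ∈ F.W1.1 := by
    intro s hs
    by_contra hcon
    exact (htV hs).1.2 ⟨s, hcon, rfl⟩
  have hzN : F.z ∈ p ⁻¹ᵁ N := by
    change p.base F.z ∈ N
    rw [F.hz]
    exact hct
  -- pieces
  have hb : ∀ (W : Aff S) (hW : W.1 ≤ p ⁻¹ᵁ F.N0), W.1 ⊓ p ⁻¹ᵁ N =
      S.basicOpen (rst (V := W.1) (U := p ⁻¹ᵁ F.N0) hW ((p.app F.N0).hom t)) := by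
    intro W hW
    have h1 := S.basicOpen_res ((p.app F.N0).hom t) (homOfLE hW).op
    rw [hN, p.preimage_basicOpen]
    exact h1.symm
  let W' : ∀ (W : Aff S) (hW : W.1 ≤ p ⁻¹ᵁ F.N0), Aff S := fun W hW =>
    ⟨W.1 ⊓ p ⁻¹ᵁ N, by rw [hb W hW]; exact W.2.basicOpen _⟩
  have huW : ∀ (W : Aff S) (hW : W.1 ≤ p ⁻¹ᵁ F.N0) (hz : F.z ∈ W.1),
      ev F.z hz (1 - rst (V := W.1) (U := p ⁻¹ᵁ F.N0) hW ((p.app F.N0).hom u) *
        rst (V := W.1) (U := p ⁻¹ᵁ F.N0) hW ((p.app F.N0).hom t)) = 0 := by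
    intro W hW hz
    have h1 : (1 - rst (V := W.1) (U := p ⁻¹ᵁ F.N0) hW ((p.app F.N0).hom u) *
        rst (V := W.1) (U := p ⁻¹ᵁ F.N0) hW ((p.app F.N0).hom t)) =
        rst (V := W.1) (U := p ⁻¹ᵁ F.N0) hW ((p.app F.N0).hom (1 - u * t)) := by
      simp only [map_sub, map_one, map_mul]
    rw [h1, ev_rst, ev_zero_iff]
    intro h2
    have h3 : F.z ∈ p ⁻¹ᵁ (C.basicOpen (1 - u * t)) := by
      rw [p.preimage_basicOpen]
      exact h2
    have h4 : p.base F.z ∈ C.basicOpen (1 - u * t) := h3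
    rw [F.hz] at h4
    exact (ev_zero_iff c F.hc _).1 hu h4
  have hval : ∀ (W : Aff S) (hW : W.1 ≤ p ⁻¹ᵁ F.N0) (hz : F.z ∈ W.1) (hz' : F.z ∈ (W' W hW).1)
      (a' : Γ(S, (W' W hW).1)), ∃ a : Γ(S, W.1), ev F.z hz' a' = ev F.z hz a :=
    fun W hW hz hz' a' => range_eq (W := W) (W' := W' W hW) (inf_le_left : W.1 ⊓ p ⁻¹ᵁ N ≤ W.1)
      _ _ (hb W hW) hz' (huW W hW hz) a'
  have hrange : ∀ (W : Aff S) (hW : W.1 ≤ p ⁻¹ᵁ F.N0) (hz : F.z ∈ W.1)
      (hz' : F.z ∈ (W' W hW).1), (ev F.z hz').range = (ev F.z hz).range := by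
    intro W hW hz hz'
    ext x
    constructor
    · rintro ⟨a', rfl⟩
      obtain ⟨a, ha⟩ := hval W hW hz hz' a'
      exact ⟨a, ha.symm⟩
    · rintro ⟨a, rfl⟩
      exact ⟨rst (inf_le_left : W.1 ⊓ p ⁻¹ᵁ N ≤ W.1) a, ev_rst _ _ _ _⟩
  let A0 : Aff S := W' F.W0 F.le0
  let A1 : Aff S := W' F.W1 F.le1
  have hz0 : F.z ∈ A0.1 := ⟨F.z0, hzN⟩
  have hz1 : F.z ∈ A1.1 := ⟨F.z1, hzN⟩
  have hA : A0.1 ⊓ A1.1 ≤ F.W0.1 ⊓ F.W1.1 := inf_le_inf inf_le_left inf_le_left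
  let G : GlueData S :=
    { W := p ⁻¹ᵁ N
      W0 := A0.1
      W1 := A1.1
      hW := affInc_preimage p N hNaff
      h0 := affInc_of_affine A0
      h1 := affInc_of_affine A1
      h01 := affInc_inf (affInc_of_affine A0) (affInc_of_affine A1)
      sup := by
        apply le_antisymm
        · exact sup_le inf_le_right inf_le_right
        · intro s hs
          rcases hNcov s hs with h | h
          · exact Or.inl ⟨h, hs⟩
          · exact Or.inr ⟨h, hs⟩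
      g := rst hA F.g }
  refine ⟨G, N, rfl, hct, ?_, ?_⟩
  · intro s hs hsN
    by_contra hne
    exact (htV hsN).2 ⟨hs, hne⟩
  · rintro M hM ⟨E⟩
    refine lemF2 A0 A1 (rst hA F.g) M hM E F.z hz0 hz1 ?_ ?_ ?_ ?_ ?_
    · intro n hn h0
      obtain ⟨a, ha⟩ := hi n hn
      have h1 := congrArg (fun x => ev (U := ⊤) F.z trivial (p.appTop.hom x)) ha
      simp only [map_mul, map_natCast, map_one, h0, zero_mul] at h1
      exact zero_ne_one h1
    · intro n hn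
      obtain ⟨a, ha⟩ := hi n hn
      refine ⟨p.appTop.hom a, ?_⟩
      have h1 := congrArg (fun x => p.appTop.hom x) ha
      simpa only [map_mul, map_natCast, map_one] using h1
    · rw [hrange F.W0 F.le0 F.z0 hz0]
      exact F.n0
    · rw [hrange F.W1 F.le1 F.z1 hz1]
      exact F.n1
    · intro a0 a1 h
      obtain ⟨b0, hb0⟩ := hval F.W0 F.le0 F.z0 hz0 a0
      obtain ⟨b1, hb1⟩ := hval F.W1 F.le1 F.z1 hz1 a1
      refine F.hg b0 b1 ?_
      rw [← hb0, ← hb1, ← h, ev_rst]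

end Pool.Agent.BE
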