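import Pool.Agent.BE.M1
import Pool.Agent.BE.M2
import Pool.Agent.BE.M3
import Pool.Agent.BE.M4
import Pool.Agent.BE.M5
import Pool.Agent.BE.DbcT

/-!
# BE-M6: the cohomology of a destabilising triangle is supported at closed points

`T` = the union over `n` of `p(Supp Hn n X)`, `p(Supp Hn n Z)`: finite by `step1`, `finite_image`, `supp_closed` and
boundedness (`hXb`, `hZb`: `Supp 0 = ∅`). All points of `T` are closed (`hC`). For `c ∈ T` take `G_c`, `N_c` from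
`exists_glue`. Family indexed by `T` (a finite type): each `s` in a support lies in exactly one `G_c.W = p⁻¹ᵁ N_c`,
namely `c = p s`. `hom_zero_of_sep` gives `Hom(J X, J Z) = 0` for `J = J G_c.hW` (`G_c.hW : AffInc G_c.W`),
`endFam_of_triangle` and the last clause of `exists_glue`: `F.z ∉ Supp`. Hence `s ≠ F.z` and `F.closed`.
-/

open CategoryTheory CategoryTheory.Limits CategoryTheory.Pretriangulated AlgebraicGeometry
  Opposite TopologicalSpace DerivedCategory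

namespace Pool.Agent.BE

universe w

variable {S : Scheme.{0}}

/-- the images of the supports -/
private theorem finite_union {C : Scheme.{0}} (p : S ⟶ C) [HasDerivedCategory.{w} (QCoh S)]
    (X : DerivedCategory (QCoh S)) (hX : Dbc S X) (hf : ∀ n, (p.base '' Supp (Hn n X)).Finite) :
    (⋃ n : ℤ, p.base '' Supp (Hn n X)).Finite := by
  obtain ⟨_, a, b, hab⟩ := hX
  have hsub : (⋃ n : ℤ, p.base '' Supp (Hn n X)) ⊆ ⋃ n ∈ Finset.Icc a b, p.base '' Supp (Hn n X) := by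
    intro c hc
    rw [Set.mem_iUnion] at hc
    obtain ⟨n, hn⟩ := hc
    rw [Set.mem_iUnion₂]
    by_cases hn' : n < a ∨ b < n
    · rw [(isZero_iff_supp _).1 (hab n hn'), Set.image_empty] at hn
      exact absurd hn (Set.notMem_empty _)
    · refine ⟨n, Finset.mem_Icc.2 ?_, hn⟩
      omega
  exact ((Finset.Icc a b).finite_toSet.biUnion fun n _ => hf n).subset (by simpa using hsub)

theorem step2 {C : Scheme.{0}} (p : S ⟶ C) [IsProper p] [IsIntegral C]
    [IsNoetherian S] [S.IsSeparated] [C.IsSeparated]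
    (hi : ∀ n : ℕ, n ≠ 0 → ∃ a : Γ(C, ⊤), (n : Γ(C, ⊤)) * a = 1)
    (hC : ∀ c : C, c ≠ genericPoint C → IsClosed ({c} : Set C))
    (B : BaseData C) (F : ∀ c : C, c ≠ genericPoint C → Nonempty (FibreData p c))
    [HasDerivedCategory.{w} (QCoh S)] (x : S) (hx : IsClosed ({x} : Set S))
    (X Z : DerivedCategory (QCoh S)) (f : X ⟶ Ox x hx) (g : Ox x hx ⟶ Z) (h : Z ⟶ X⟦(1 : ℤ)⟧)
    (hT : Triangle.mk f g h ∈ distTriang (DerivedCategory (QCoh S)))
    (hX : Dbc S X) (hZ : Dbc S Z)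
    (h0 : ∀ u : X ⟶ Z, u = 0) (n : ℤ) (s : S) (hs : s ∈ Supp (Hn n X) ∨ s ∈ Supp (Hn n Z)) :
    IsClosed ({s} : Set S) := by
  have hne : ∀ n : ℤ, ∀ s : S, s ∈ Supp (Hn n X) ∨ s ∈ Supp (Hn n Z) → p.base s ≠ genericPoint C :=
    fun n s hs => step1 p hi B x hx X Z f g h hT hX.1 hZ.1 h0 n s hs
  have hfX : ∀ n, (p.base '' Supp (Hn n X)).Finite := fun n =>
    finite_image p hC _ (supp_closed _) fun s hs => hne n s (Or.inl hs)
  have hfZ : ∀ n, (p.base '' Supp (Hn n Z)).Finite := fun n =>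
    finite_image p hC _ (supp_closed _) fun s hs => hne n s (Or.inr hs)
  let T : Set C := (⋃ n : ℤ, p.base '' Supp (Hn n X)) ∪ ⋃ n : ℤ, p.base '' Supp (Hn n Z)
  have hTf : T.Finite := (finite_union p X hX hfX).union (finite_union p Z hZ hfZ)
  have hmX : ∀ n : ℤ, ∀ s ∈ Supp (Hn n X), p.base s ∈ T := fun n s hs =>
    Or.inl (Set.mem_iUnion.2 ⟨n, s, hs, rfl⟩)
  have hmZ : ∀ n : ℤ, ∀ s ∈ Supp (Hn n Z), p.base s ∈ T := fun n s hs =>
    Or.inr (Set.mem_iUnion.2 ⟨n, s, hs, rfl⟩)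
  have hTg : ∀ c ∈ T, c ≠ genericPoint C := by
    intro c hc
    rcases hc with hc | hc
    · obtain ⟨n, s, hs, rfl⟩ := Set.mem_iUnion.1 hc
      exact hne n s (Or.inl hs)
    · obtain ⟨n, s, hs, rfl⟩ := Set.mem_iUnion.1 hc
      exact hne n s (Or.inr hs)
  have hTc : ∀ c ∈ T, IsClosed ({c} : Set C) := fun c hc => hC c (hTg c hc)
  have hFib : ∀ c : T, ∃ Fc : FibreData p c.1, ∃ (G : GlueData S) (N : C.Opens), G.W = p ⁻¹ᵁ N ∧ c.1 ∈ N ∧
      (∀ t ∈ T, t ∈ N → t = c.1) ∧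
      ∀ M : QCoh S, Coh M → Nonempty (EndFam G.W0 G.W1 G.g M) → Fc.z ∉ Supp M := by
    intro c
    obtain ⟨Fc⟩ := F c.1 (hTg c.1 c.2)
    exact ⟨Fc, exists_glue p hi c.1 (hTc c.1 c.2) Fc T hTf hTc⟩
  choose Fc G N hGW hcN huniq hlast using hFib
  have : Fintype T := hTf.fintype
  have hsep : ∀ s : S, p.base s ∈ T → ∃! c : T, s ∈ (G c).W := by
    intro s hs
    refine ⟨⟨p.base s, hs⟩, ?_, ?_⟩
    · show s ∈ (G ⟨p.base s, hs⟩).W
      rw [hGW]
      exact hcN ⟨p.base s, hs⟩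
    · intro c hc
      have hc' : s ∈ (G c).W := hc
      rw [hGW] at hc'
      exact Subtype.ext (huniq c (p.base s) hs hc').symm
  have hzero : ∀ (c : T) (u : (J (G c).hW).mapDerivedCategory.obj X ⟶
      (J (G c).hW).mapDerivedCategory.obj Z), u = 0 := fun c u =>
    hom_zero_of_sep (fun c => (G c).W) (fun c => (G c).hW) X Z
      (fun n s hs => hsep s (hmX n s hs)) (fun n s hs => hsep s (hmZ n s hs)) h0 c u
  have hz : ∀ (c : T) (n : ℤ), (Fc c).z ∉ Supp (Hn n X) ∧ (Fc c).z ∉ Supp (Hn n Z) := by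
    intro c n
    have h1 := endFam_of_triangle (G c) x hx X Z f g h hT (hzero c) n
    exact ⟨hlast c _ (hX.1 n) h1.1, hlast c _ (hZ.1 n) h1.2⟩
  rcases hs with hs | hs
  · refine (Fc ⟨p.base s, hmX n s hs⟩).closed s rfl ?_
    intro hsz
    exact (hz ⟨p.base s, hmX n s hs⟩ n).1 (hsz ▸ hs)
  · refine (Fc ⟨p.base s, hmZ n s hs⟩).closed s rfl ?_
    intro hsz
    exact (hz ⟨p.base s, hmZ n s hs⟩ n).2 (hsz ▸ hs)


end Pool.Agent.BE
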