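import Pool.Agent.BE.M2
import Pool.Agent.BE.M4
import Pool.Agent.BE.DbcT
import Pool.Agent.BE.DerZ
import Pool.Agent.BE.Aff
import Pool.Agent.BE.SkyS

/-!
# BE-M7: a destabilising triangle supported at closed points is supported at `x`

`Σ` = `{x}` and all supports: a finite set of closed points (`finite_of_closed_points`, boundedness). For `y ∈ Σ`
an affine open `U_y ∋ y` with `U_y ∩ Σ = {y}` (basic open in an affine neighbourhood). `hom_zero_of_sep` for
`X` and `Z⟦-1⟧` (`supp_shift`), `ι = Σ`: `Hom(J X, J (Z⟦-1⟧)) = 0` for `J = J_{U_y}`. For `y ≠ x`: `J_{U_y} (sky x) = 0`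
(`J_zero`, `supp_sky`), so `lemZero` gives `J_{U_y} (Hn n X) = 0`, hence `sec (Hn n X) U_y = 0` (`cap _ U_y = U_y`,
`isZero_iff`), so `y ∉ Supp`.
-/

open CategoryTheory CategoryTheory.Limits CategoryTheory.Pretriangulated AlgebraicGeometry
  Opposite TopologicalSpace DerivedCategory

namespace Pool.Agent.BE

universe w

variable {S : Scheme.{0}}

private theorem finite_supp [IsNoetherian S] (M : QCoh S)
    (h : ∀ s ∈ Supp M, IsClosed ({s} : Set S)) : (Supp M).Finite :=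
  finite_of_closed_points _ (supp_closed M) h

private theorem finite_supps [IsNoetherian S] [HasDerivedCategory.{w} (QCoh S)]
    (X : DerivedCategory (QCoh S)) (hX : Dbc S X)
    (h : ∀ n, ∀ s ∈ Supp (Hn n X), IsClosed ({s} : Set S)) :
    {s : S | ∃ n, s ∈ Supp (Hn n X)}.Finite := by
  obtain ⟨-, a, b, hab⟩ := hX
  refine ((Set.finite_Icc a b).biUnion (t := fun n => Supp (Hn n X)) fun n _ =>
    finite_supp _ (h n)).subset ?_
  rintro s ⟨n, hs⟩
  refine Set.mem_biUnion (x := n) ?_ hs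
  by_contra hn
  have hz : IsZero (Hn n X) := by
    apply hab
    rw [Set.mem_Icc, not_and_or, not_le, not_le] at hn
    exact hn
  have := (isZero_iff_supp _).1 hz
  rw [this] at hs
  exact hs

private theorem exists_affine_sep {T : Set S} (hT : T.Finite)
    (hcl : ∀ s ∈ T, IsClosed ({s} : Set S)) (y : S) :
    ∃ U : Aff S, y ∈ U.1 ∧ ∀ s ∈ U.1, s ∈ T → s = y := by
  have hc : IsClosed (T \ {y}) := by
    have h1 : T \ {y} = ⋃ s ∈ T \ {y}, {s} := (Set.biUnion_of_singleton _).symm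
    rw [h1]
    exact (hT.subset Set.sdiff_subset).isClosed_biUnion fun s hs => hcl s hs.1
  have hy : y ∈ (T \ {y})ᶜ := fun h => h.2 rfl
  obtain ⟨_, ⟨V, hV, rfl⟩, hyV, hVU⟩ :=
    S.isBasis_affineOpens.exists_subset_of_mem_open hy hc.isOpen_compl
  refine ⟨⟨V, hV⟩, hyV, fun s hs hsT => ?_⟩
  by_contra hne
  exact hVU hs ⟨hsT, hne⟩

private theorem not_mem_supp_of_J [S.IsSeparated] (M : QCoh S) (U : Aff S)
    (h : IsZero ((J (affInc_of_affine U)).obj M)) (s : S) (hs : s ∈ U.1) : s ∉ Supp M := by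
  intro hM
  have h1 : Nontrivial (sec M U) := hM U hs
  have h2 : Subsingleton (sec ((J (affInc_of_affine U)).obj M) U) := (isZero_iff _).1 h U
  have h3 : cap (affInc_of_affine U) U = U := Subtype.ext (inf_idem _)
  have h4 : Subsingleton (sec M (cap (affInc_of_affine U) U)) :=
    (jeq (affInc_of_affine U) M U).symm.toEquiv.subsingleton
  rw [h3] at h4
  exact not_subsingleton _ h4

theorem step3 [IsNoetherian S] [S.IsSeparated]
    [HasDerivedCategory.{w} (QCoh S)] (x : S) (hx : IsClosed ({x} : Set S))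
    (X Z : DerivedCategory (QCoh S)) (f : X ⟶ Ox x hx) (g : Ox x hx ⟶ Z) (h : Z ⟶ X⟦(1 : ℤ)⟧)
    (hT : Triangle.mk f g h ∈ distTriang (DerivedCategory (QCoh S)))
    (hX : Dbc S X) (hZ : Dbc S Z) (h0 : ∀ u : X ⟶ Z⟦(-1 : ℤ)⟧, u = 0)
    (hcl : ∀ n s, s ∈ Supp (Hn n X) ∨ s ∈ Supp (Hn n Z) → IsClosed ({s} : Set S)) (n : ℤ) :
    Supp (Hn n X) ⊆ {x} ∧ Supp (Hn n Z) ⊆ {x} := by
  classical
  set T : Set S := {x} ∪ ({s : S | ∃ n, s ∈ Supp (Hn n X)} ∪ {s : S | ∃ n, s ∈ Supp (Hn n Z)})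
    with hTdef
  have hTf : T.Finite := (Set.finite_singleton x).union
    ((finite_supps X hX fun n s hs => hcl n s (Or.inl hs)).union
      (finite_supps Z hZ fun n s hs => hcl n s (Or.inr hs)))
  have hTcl : ∀ s ∈ T, IsClosed ({s} : Set S) := by
    rintro s (hs | ⟨n, hs⟩ | ⟨n, hs⟩)
    · rw [Set.mem_singleton_iff.1 hs]
      exact hx
    · exact hcl n s (Or.inl hs)
    · exact hcl n s (Or.inr hs)
  choose U hU1 hU2 using fun y : T => exists_affine_sep hTf hTcl y.1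
  have : Fintype T := hTf.fintype
  have hTX : ∀ n, ∀ s ∈ Supp (Hn n X), s ∈ T := fun n s hs => Or.inr (Or.inl ⟨n, hs⟩)
  have hTZ : ∀ n, ∀ s ∈ Supp (Hn n Z), s ∈ T := fun n s hs => Or.inr (Or.inr ⟨n, hs⟩)
  have hex : ∀ s ∈ T, ∃! i : T, s ∈ (U i).1 := by
    intro s hs
    refine ⟨⟨s, hs⟩, hU1 ⟨s, hs⟩, fun j hj => ?_⟩
    exact Subtype.ext (hU2 j s hj hs).symm
  have hZ' : ∀ n, ∀ s ∈ Supp (Hn n (Z⟦(-1 : ℤ)⟧)), ∃! i : T, s ∈ (U i).1 := by
    intro n s hs
    rw [supp_shift] at hs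
    exact hex s (hTZ _ s hs)
  have hsep := fun (i : T) => hom_zero_of_sep (fun i : T => (U i).1)
    (fun i : T => affInc_of_affine (U i)) X (Z⟦(-1 : ℤ)⟧) (fun n s hs => hex s (hTX n s hs)) hZ' h0 i
  have key : ∀ s ∈ T, s ≠ x → ∀ n, s ∉ Supp (Hn n X) ∧ s ∉ Supp (Hn n Z) := by
    intro s hs hsx n
    have hF : IsZero ((J (affInc_of_affine (U ⟨s, hs⟩))).obj (sky x hx)) := by
      refine J_zero _ _ fun t ht htU => ?_
      rw [supp_sky] at ht
      rw [Set.mem_singleton_iff.1 ht] at htU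
      exact hsx (hU2 ⟨s, hs⟩ x htU (Or.inl rfl)).symm
    have h1 := lemZero (J (affInc_of_affine (U ⟨s, hs⟩))) (sky x hx) X Z f g h hT hF
      (hsep ⟨s, hs⟩) n
    exact ⟨not_mem_supp_of_J _ _ h1.1 s (hU1 ⟨s, hs⟩), not_mem_supp_of_J _ _ h1.2 s (hU1 ⟨s, hs⟩)⟩
  constructor
  · intro s hs
    by_contra hne
    exact (key s (hTX n s hs) hne n).1 hs
  · intro s hs
    by_contra hne
    exact (key s (hTZ n s hs) hne n).2 hs

end Pool.Agent.BE
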