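import Pool.Agent.BE.CohA
import Pool.Agent.BE.SkyS

/-!
# BE-SkyFrom: a nonzero module supported at a closed point, of finite type near it, contains the skyscraper

`S` locally noetherian, `U` affine containing `x`: `M(U)` is f.g. and supported at the maximal ideal
`𝔪` of `x` (for `g ∈ 𝔪`, `M(D(g)) = 0` because `x ∉ D(g)`, so `g` acts nilpotently), so `𝔪^n M(U) = 0`
(`𝔪` f.g.) and there is `0 ≠ m ∈ M(U)` with `𝔪 m = 0`. For affine `V` containing `x`, and `D` basic
in `U` and `V`: `M(V) ≅ M(D) ≅ M(U)` (`res_bijective`), `κ(x) → M(V)`, `ev(a) ↦ a m` (`ev_surjective`); for `V`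
not containing `x` both sides are `0`. Suggestion: first show that `M(V) → M(V ⊓ ...)`... or define, for
`c ∈ κ(x)`, the element of `M(V)` as the unique `m_V` such that on all small affine `D ≤ U`, `D ≤ V`, `x ∈ D`,
`res_D m_V = res_D (a m)` with `ev a = c`.
-/

open CategoryTheory CategoryTheory.Limits AlgebraicGeometry Opposite TopologicalSpace

namespace Pool.Agent.BE

variable {S : Scheme.{0}}

private theorem sf_ring {D U : Aff S} (hDU : D ≤ U) (f : Γ(S, U.1)) (hD : D.1 = S.basicOpen f) :
    IsUnit (rst (U := U.1) (V := D.1) hDU f) ∧ ∀ d : Γ(S, D.1), ∃ (n : ℕ) (b : Γ(S, U.1)),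
      rst (U := U.1) (V := D.1) hDU b = (rst (U := U.1) (V := D.1) hDU f) ^ n * d := by
  obtain rfl : D = bas U f := Subtype.ext hD
  haveI h1 : IsLocalization.Away f Γ(S, S.basicOpen f) := U.2.isLocalization_basicOpen f
  have h2 : ∀ a : Γ(S, U.1), algebraMap Γ(S, U.1) Γ(S, S.basicOpen f) a =
      rst (U := U.1) (V := S.basicOpen f) hDU a := fun a => rfl
  constructor
  · have h3 := IsLocalization.Away.algebraMap_isUnit (S := Γ(S, S.basicOpen f)) f
    rw [h2] at h3
    exact h3
  · intro d
    obtain ⟨n, b, hb⟩ := IsLocalization.Away.surj (S := Γ(S, S.basicOpen f)) f d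
    refine ⟨n, b, ?_⟩
    rw [h2, h2] at hb
    rw [mul_comm]
    exact hb.symm

private theorem sf_bij (M : QCoh S) {x : S} (h : Supp M = {x}) {D V : Aff S} (hDV : D ≤ V)
    (hD : x ∈ D.1) : Function.Bijective (res M hDV) :=
  res_bijective M hDV (fun s _ hs => by
    rw [h] at hs
    have h1 : s = x := hs
    rw [h1]
    exact hD)

private theorem sf_kill (M : QCoh S) {x : S} {U D : Aff S} (hDU : D ≤ U) (f : Γ(S, U.1))
    (hD : D.1 = S.basicOpen f) (hxD : x ∈ D.1) (hxU : x ∈ U.1) (m : sec M U)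
    (hm : ∀ a : Γ(S, U.1), ev x hxU a = 0 → a • m = 0) (d : Γ(S, D.1)) (hd : ev x hxD d = 0) :
    d • res M hDU m = 0 := by
  obtain ⟨hu, hs⟩ := sf_ring hDU f hD
  obtain ⟨n, b, hb⟩ := hs d
  have h1 : ev x hxU b = 0 := by
    have h2 := ev_rst (U := U.1) (V := D.1) hDU x hxD b
    rw [hb, map_mul, hd, mul_zero] at h2
    exact h2.symm
  have h2 : res M hDU (b • m) = 0 := by
    rw [hm b h1, map_zero]
  rw [PM.res_smul, hb, mul_smul] at h2
  exact ((hu.pow n).smul_eq_zero).1 h2

theorem exists_fromSky [IsLocallyNoetherian S] (M : QCoh S) (x : S)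
    (hx : IsClosed ({x} : Set S)) (h : Supp M = {x}) (U : Aff S) (hU : x ∈ U.1)
    (hM : Module.Finite Γ(S, U.1) (sec M U)) : ∃ i : sky x hx ⟶ M, i ≠ 0 := by
  classical
  -- an element killed by the maximal ideal
  have hxS : x ∈ Supp M := by rw [h]; rfl
  haveI hnt : Nontrivial (sec M U) := hxS U hU
  haveI : IsNoetherianRing Γ(S, U.1) := IsLocallyNoetherian.component_noetherian U
  obtain ⟨m, hm0, hm⟩ : ∃ m : sec M U, m ≠ 0 ∧ ∀ a : Γ(S, U.1), ev x hU a = 0 → a • m = 0 := by
    obtain ⟨p, hp⟩ := associatedPrimes.nonempty Γ(S, U.1) (sec M U)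
    obtain ⟨hpp, m, hpm⟩ := (isAssociatedPrime_iff).1 hp
    refine ⟨m, ?_, ?_⟩
    · rintro rfl
      apply hpp.ne_top
      rw [hpm]
      ext a
      simp
    · intro a ha
      have hx' : x ∉ (bas U a).1 := by
        intro hxa
        have h1 : x ∈ S.basicOpen a := hxa
        exact ((S.evaluation_ne_zero_iff_mem_basicOpen x hU a).2 h1) ha
      have hss : Subsingleton (sec M (bas U a)) := subsingleton_of_disjoint M _ (fun s hs hsM => by
        rw [h] at hsM
        have h1 : s = x := hsM
        rw [h1] at hs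
        exact hx' hs)
      obtain ⟨n, hn⟩ := M.property.inj U a m (Subsingleton.elim _ _)
      have h1 : a ^ n ∈ p := by
        rw [hpm, Submodule.mem_colon_singleton]
        exact hn
      have h2 : a ∈ p := hpp.mem_of_pow_mem n h1
      rw [hpm, Submodule.mem_colon_singleton] at h2
      exact h2
  -- transport to the other affine neighbourhoods
  have key : ∀ V : Aff S, x ∈ V.1 → ∃ mV : sec M V,
      (∀ (D : Aff S) (hDU : D ≤ U) (hDV : D ≤ V), x ∈ D.1 → res M hDV mV = res M hDU m) := by
    intro V hV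
    obtain ⟨D, hDU, hDV, f, g, hxD, hDf, hDg⟩ := exists_basic U V x hU hV
    obtain ⟨mV, hmV⟩ := (sf_bij M h hDV hxD).2 (res M hDU m)
    refine ⟨mV, fun D' hDU' hDV' hxD' => ?_⟩
    obtain ⟨E, hED, hED', -, -, hxE, -, -⟩ := exists_basic D D' x hxD hxD'
    apply (sf_bij M h hED' hxE).1
    have e1 := congrArg (res M hED) hmV
    have e2 := M.obj.res_res hDV hED mV
    have e3 := M.obj.res_res hDU hED m
    have e4 := M.obj.res_res hDV' hED' mV
    have e5 := M.obj.res_res hDU' hED' m
    exact e4.trans (e2.symm.trans (e1.trans (e3.trans e5.symm)))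
  choose! mm hmm using key
  -- uniqueness
  have huniq : ∀ (V : Aff S) (hV : x ∈ V.1) (y : sec M V),
      (∀ (D : Aff S) (hDU : D ≤ U) (hDV : D ≤ V), x ∈ D.1 → res M hDV y = res M hDU m) →
      y = mm V := by
    intro V hV y hy
    obtain ⟨D, hDU, hDV, f, g, hxD, hDf, hDg⟩ := exists_basic U V x hU hV
    apply (sf_bij M h hDV hxD).1
    exact (hy D hDU hDV hxD).trans (hmm V hV D hDU hDV hxD).symm
  have hres : ∀ (V' V : Aff S) (hle : V' ≤ V), x ∈ V'.1 → res M hle (mm V) = mm V' := by
    intro V' V hle hV'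
    apply huniq V' hV'
    intro D hDU hDV' hxD
    have e1 := M.obj.res_res hle hDV' (mm V)
    exact e1.trans (hmm V (hle hV') D hDU (hDV'.trans hle) hxD)
  have hkill : ∀ (V : Aff S) (hV : x ∈ V.1) (b : Γ(S, V.1)), ev x hV b = 0 → b • mm V = 0 := by
    intro V hV b hb
    obtain ⟨D, hDU, hDV, f, g, hxD, hDf, hDg⟩ := exists_basic U V x hU hV
    apply (sf_bij M h hDV hxD).1
    rw [map_zero]
    have e1 := M.obj.res_smul hDV b (mm V)
    have e2 := hmm V hV D hDU hDV hxD
    have e3 : ev x hxD (rst (U := V.1) (V := D.1) hDV b) = 0 := by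
      rw [ev_rst]
      exact hb
    have e4 := sf_kill M hDU f hDf hxD hU m hm _ e3
    rw [← e2] at e4
    exact e1.trans e4
  -- the linear maps
  have hlin : ∀ V : Aff S, ∃ φ : sec (sky x hx) V →ₗ[Γ(S, V.1)] sec M V,
      ∀ (hV : x ∈ V.1) (b : Γ(S, V.1)) (t : sec (sky x hx) V),
        ev x hV b = skyeq x hx V t ⟨hV⟩ → φ t = b • mm V := by
    intro V
    by_cases hV : x ∈ V.1
    · have hsurj := ev_surjective x hx V hV
      choose c hc using hsurj
      have hwd : ∀ b b' : Γ(S, V.1), ev x hV b = ev x hV b' → b • mm V = b' • mm V := by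
        intro b b' hbb
        have h1 := hkill V hV (b - b') (by rw [map_sub, hbb, sub_self])
        rw [sub_smul, sub_eq_zero] at h1
        exact h1
      refine ⟨{ toFun := fun t => c (skyeq x hx V t ⟨hV⟩) • mm V
                map_add' := ?_
                map_smul' := ?_ }, ?_⟩
      · intro t t'
        rw [← add_smul]
        apply hwd
        rw [hc, map_add (ev x hV), hc, hc]
        have e1 := congrFun (map_add (skyeq x hx V) t t') ⟨hV⟩
        exact e1
      · intro a t
        rw [RingHom.id_apply, ← mul_smul]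
        apply hwd
        rw [map_mul, hc, hc, skyeq_smul]
      · intro hV' b t hbt
        show c (skyeq x hx V t ⟨hV⟩) • mm V = b • mm V
        apply hwd
        rw [hc]
        exact hbt.symm
    · exact ⟨0, fun hV' => absurd hV' hV⟩
  choose φ hφ using hlin
  have hcomp : ∀ {V' V : Aff S} (hle : V' ≤ V) (t : sec (sky x hx) V),
      res M hle (φ V t) = φ V' (res (sky x hx) hle t) := by
    intro V' V hle t
    by_cases hV' : x ∈ V'.1
    · have hV : x ∈ V.1 := hle hV'
      obtain ⟨b, hb⟩ := ev_surjective x hx V hV (skyeq x hx V t ⟨hV⟩)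
      rw [hφ V hV b t hb, hφ V' hV' (rst (U := V.1) (V := V'.1) hle b) (res (sky x hx) hle t) (by
        rw [ev_rst, skyeq_res]
        exact hb)]
      have e1 := M.obj.res_smul hle b (mm V)
      rw [← hres V' V hle hV']
      exact e1
    · have hss : Subsingleton (sec M V') := subsingleton_of_disjoint M _ (fun s hs hsM => by
        rw [h] at hsM
        have h1 : s = x := hsM
        rw [h1] at hs
        exact hV' hs)
      exact Subsingleton.elim _ _
  refine ⟨mkHom φ (fun hle t => hcomp hle t), ?_⟩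
  intro h0
  have h1 : φ U ((skyeq x hx U).symm fun _ => 1) = 0 := by
    have h2 := congrArg (fun i : sky x hx ⟶ M => ap i U ((skyeq x hx U).symm fun _ => 1)) h0
    exact h2
  rw [hφ U hU 1 _ (by rw [map_one, AddEquiv.apply_symm_apply]), one_smul] at h1
  have h2 : m = mm U := huniq U hU m (fun D hDU hDV hxD => rfl)
  exact hm0 (h2.trans h1)

end Pool.Agent.BE
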