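import Pool.Agent.BE.M6
import Pool.Agent.BE.M7
import Pool.Agent.BE.DerF
import Pool.Agent.BE.SkyTo
import Pool.Agent.BE.SkyFrom

/-!
# BE-M8: no destabilising triangle

`step2`, `step3` (`h0` for `i = 0`: `Z⟦0⟧ ≅ Z`, and `i = -1`), then `lemFin` with `M0 = sky x hx` (`sky_simple`):
`hq` from `exists_toSky`, `hs` from `exists_fromSky` (`Supp = {x}` for a nonzero module: `isZero_iff_supp`).
-/

open CategoryTheory CategoryTheory.Limits CategoryTheory.Pretriangulated AlgebraicGeometry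
  Opposite TopologicalSpace DerivedCategory

namespace Pool.Agent.BE

universe w

variable {S : Scheme.{0}}

/-- Main lemma: no destabilising triangle. -/
theorem no_triangle {C : Scheme.{0}} (p : S ⟶ C) [IsProper p] [IsIntegral C]
    [IsNoetherian S] [S.IsSeparated] [C.IsSeparated]
    (hi : ∀ n : ℕ, n ≠ 0 → ∃ a : Γ(C, ⊤), (n : Γ(C, ⊤)) * a = 1)
    (hC : ∀ c : C, c ≠ genericPoint C → IsClosed ({c} : Set C))
    (B : BaseData C) (F : ∀ c : C, c ≠ genericPoint C → Nonempty (FibreData p c))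
    [HasDerivedCategory.{w} (QCoh S)] (x : S) (hx : IsClosed ({x} : Set S))
    (X Z : DerivedCategory (QCoh S)) (f : X ⟶ Ox x hx) (g : Ox x hx ⟶ Z) (h : Z ⟶ X⟦(1 : ℤ)⟧)
    (hT : Triangle.mk f g h ∈ distTriang (DerivedCategory (QCoh S)))
    (hX : Dbc S X) (hZ : Dbc S Z)
    (h0 : ∀ i : ℤ, i ≤ 0 → ∀ u : X ⟶ Z⟦i⟧, u = 0) : IsZero X ∨ IsZero Z := by
  have h00 : ∀ u : X ⟶ Z, u = 0 := by
    intro u
    have := h0 0 le_rfl (u ≫ ((shiftFunctorZero (DerivedCategory (QCoh S)) ℤ).app Z).inv)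
    have h2 : u = (u ≫ ((shiftFunctorZero (DerivedCategory (QCoh S)) ℤ).app Z).inv) ≫
        ((shiftFunctorZero (DerivedCategory (QCoh S)) ℤ).app Z).hom := by simp
    rw [h2, this, zero_comp]
  have hcl := fun n s hs => step2 p hi hC B F x hx X Z f g h hT hX hZ h00 n s hs
  have hsup := step3 x hx X Z f g h hT hX hZ (h0 (-1) (by norm_num)) hcl
  have hmem : ∀ M : QCoh S, ¬ IsZero M → Supp M ⊆ {x} → Supp M = {x} := by
    intro M hM hs
    rcases Set.subset_singleton_iff_eq.1 hs with h1 | h1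
    · exact absurd ((isZero_iff_supp M).2 h1) hM
    · exact h1
  obtain ⟨U, hU, hxU, -⟩ := exists_isAffineOpen_mem_and_subset (U := (⊤ : S.Opens)) (x := x) trivial
  haveI := sky_simple x hx
  refine lemFin (sky x hx) X Z f g h hT h0 ?_ ?_ ?_ ?_
  · obtain ⟨a, b, hab⟩ := hX.2
    exact ⟨b, fun n hn => hab n (Or.inr hn)⟩
  · obtain ⟨a, b, hab⟩ := hZ.2
    exact ⟨a, fun n hn => hab n (Or.inl hn)⟩
  · intro n hn
    refine exists_toSky _ x hx ?_ ⟨U, hU⟩ hxU (hX.1 n _)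
    rw [hmem _ hn (hsup n).1]
    rfl
  · intro n hn
    exact exists_fromSky _ x hx (hmem _ hn (hsup n).2) ⟨U, hU⟩ hxU (hZ.1 n _)

end Pool.Agent.BE
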