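import Pool.Agent.BE.StF

/-!
# BE-StG: the stability criterion (see be/proof.md, (7))

1. `X` semistable: take an HN filtration `φ :: l` of `X` (`X ≠ 0`), the last triangle `E → X → A`, `A ∈ P φ`,
`A ≠ 0`, `E` with phases `> φ`: `Hom(E, A⟦i⟧) = 0` for `i ≤ 0` (`A⟦i⟧ ∈ P(φ+i)`, `hn_hom_zero`). `hH` gives `E = 0`
(as `A ≠ 0`), so `X ≅ A ∈ P φ`.
2. Let `g : X → S0` with `S0` stable of phase `φ` (`exists_stable_quot`), `g ≠ 0` (`S0 ≠ 0`, the fibre is in
`P φ`: if `g = 0` then `S0 → A⟦1⟧` split mono with `Hom(A⟦1⟧, S0) = 0`, so `S0 = 0`). Claim by induction on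
`n`: either `Chain`-type conclusion, or there is a triangle `A → X → B` with `A, B ∈ P φ`, `B` a successive
extension of `n` copies of `S0`, and `A ≠ 0`: if `A ≠ 0` then `hH` says (as `B ≠ 0`) that some
`u : A → B⟦i⟧`, `i ≤ 0`, is nonzero; `i < 0` is impossible by phases, so `Hom(A, B) ≠ 0`, and as `B` is a
successive extension of copies of `S0`, `Hom(A, S0) ≠ 0`; `exists_kernel`: `K → A → S0`, `K ∈ P φ`; octahedral
axiom: `K → X → B'` with `S0 → B' → B`... (`B'` = cone of `K → A → X`: triangle `S0 → B' → B`), `B' ∈ P φ`.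
The chains in `X` get longer: `Chain (P φ)` argument: `K → A → S0` with `S0` nonzero; so by `fin_len`
the process stops with `A = 0`, i.e. `X ≅ B` is a successive extension of `n ≥ 1` copies of `S0`.
(To bound `n`: a successive extension of `n` copies of `S0` is an object `B` with `Chain (P φ) n B`; transfer
to `X`... simplest: define inductively `Ext n B` with sub `S0 → B' → B` as above and prove
`Chain (P φ) m A → Chain (P φ) (m + n) X` for the triangle `A → X → B`; then `n ≤ N`.)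
3. If `X ≅ B` with `n ≥ 2`: `B` has a sub `S0 → B` (nonzero) and a quotient `B → S0` (nonzero), so
`X → S0 → X` is an endomorphism which is nonzero (in `P φ` the first is epi: `exists_kernel`; `S0 → X` composed)
so it is an isomorphism by `hE`; then `X` is a direct summand of `S0`, `S0` stable, so `X ≅ S0`: stable anyway.
(Direct: `u = g ≫ k`, `g : X → S0`, `k : S0 → X`, `u` iso; then `k ≫ (inv u) ≫ g`... is an idempotent of `S0`,
`S0` stable ⇒ End(S0) has no nontrivial idempotents / `g` is a split mono with complement `C`: triangle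
`X → S0 → C` in `P φ`; stable ⇒ `C = 0`.) To see that `g ≫ k ≠ 0`: if it is zero then `k : S0 → X` ... `g` has
fibre `K ∈ P φ` and `k` factors through the cone of `K → X → S0`...: `g ≫ k = 0` implies `k` factors as
`S0 → K⟦1⟧ → X`, and `Hom(K⟦1⟧, X) = 0` by phases, so `k = 0`.
-/

open CategoryTheory CategoryTheory.Limits CategoryTheory.Pretriangulated
open scoped ZeroObject

namespace Pool.Agent.BE

universe v u

variable {D : Type u} [Category.{v} D] [Preadditive D] [HasZeroObject D] [HasShift D ℤ]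
  [∀ n : ℤ, (shiftFunctor D n).Additive] [Pretriangulated D] [IsTriangulated D]
  {T : ObjectProperty D} [T.IsTriangulated] [T.IsClosedUnderIsomorphisms]

namespace StabCond

variable (σ : StabCond T)

/-! auxiliary statements -/

omit [IsTriangulated D] [T.IsTriangulated] [T.IsClosedUnderIsomorphisms] in
private theorem stg_hn_single {χ : ℝ} {C : D} (hC : σ.P χ C) (h0 : ¬ IsZero C) :
    HNFilt σ.P [χ] C :=
  HNFilt.cons χ [] (0 : D) C C 0 (𝟙 C) 0 (contractible_distinguished₁ C) hC h0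
    (by simp) (HNFilt.zero _ (isZero_zero D))

/-- morphisms from an object with phases `> χ` to an object of `P χ` -/
private theorem stg_hom_zero {l : List ℝ} {E C : D} {χ : ℝ} (hE : HNFilt σ.P l E)
    (hl : ∀ ψ ∈ l, χ < ψ) (hC : σ.P χ C) (f : E ⟶ C) : f = 0 := by
  by_cases h0 : IsZero C
  · exact h0.eq_of_tgt _ _
  · exact σ.hn_hom_zero hE (stg_hn_single σ hC h0) (by simpa using hl) f

/-- no morphisms `A⟦1⟧ → B` -/
private theorem stg_shift_hom {φ : ℝ} {A B : D} (hA : σ.P φ A) (hB : σ.P φ B)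
    (f : A⟦(1 : ℤ)⟧ ⟶ B) : f = 0 :=
  σ.hom_zero (φ + 1) φ (by linarith) _ _ ((σ.P_shift φ A).1 hA) hB f

omit [IsTriangulated D] [T.IsTriangulated] [T.IsClosedUnderIsomorphisms] in
private theorem stg_isZero_of_shift {A : D} (h : IsZero (A⟦(1 : ℤ)⟧)) : IsZero A := by
  have h1 : (𝟙 A : A ⟶ A) = 0 := by
    apply (shiftFunctor D (1 : ℤ)).map_injective
    exact h.eq_of_src _ _
  exact (IsZero.iff_id_eq_zero _).2 h1

/-- iterated extensions of `n` copies of `S0` -/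
private inductive Iter (S0 : D) : ℕ → D → Prop
  | zero (X : D) (h : IsZero X) : Iter S0 0 X
  | succ (n : ℕ) (B' B : D) (f : S0 ⟶ B') (g : B' ⟶ B) (h : B ⟶ S0⟦(1 : ℤ)⟧)
      (hT : Triangle.mk f g h ∈ distTriang D) (hB : Iter S0 n B) : Iter S0 (n + 1) B'

omit [IsTriangulated D] in
private theorem stg_iter_hom {S0 A : D} (hS : ∀ f : A ⟶ S0, f = 0) {n : ℕ} {B : D}
    (hB : Iter S0 n B) : ∀ f : A ⟶ B, f = 0 := by
  induction hB with
  | zero X h => intro f; exact h.eq_of_tgt _ _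
  | succ n B' B f g h hT hB ih =>
    intro u
    obtain ⟨v, hv⟩ : ∃ v : A ⟶ S0, u = v ≫ f := Triangle.coyoneda_exact₂ _ hT u (ih _)
    rw [hv, hS v, zero_comp]

/-- the structure map `S0 → B'` is nonzero -/
private theorem stg_first_ne {φ : ℝ} {S0 B' B : D} (hS : σ.P φ S0) (hS0 : ¬ IsZero S0)
    (hB : σ.P φ B) (f : S0 ⟶ B') (g : B' ⟶ B) (h : B ⟶ S0⟦(1 : ℤ)⟧)
    (hT : Triangle.mk f g h ∈ distTriang D) : f ≠ 0 := by
  intro hf
  apply hS0
  apply stg_isZero_of_shift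
  obtain ⟨s, hs⟩ := Triangle.coyoneda_exact₁ _ hT (𝟙 (S0⟦(1 : ℤ)⟧)) (by
    change 𝟙 _ ≫ f⟦(1 : ℤ)⟧' = 0
    rw [hf, Functor.map_zero, comp_zero])
  have h1 : s = 0 := stg_shift_hom σ hS hB s
  rw [h1, zero_comp] at hs
  exact (IsZero.iff_id_eq_zero _).2 hs

/-- the invariant of the process -/
private def Inv (φ : ℝ) (S0 X : D) (n : ℕ) : Prop :=
  ∃ (A B : D) (f : A ⟶ X) (g : X ⟶ B) (h : B ⟶ A⟦(1 : ℤ)⟧),
    Triangle.mk f g h ∈ distTriang D ∧ σ.P φ A ∧ σ.P φ B ∧ Iter S0 n B ∧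
      ∀ m, Chain (σ.P φ) m A → Chain (σ.P φ) (m + n) X

omit [IsTriangulated D] [T.IsTriangulated] [T.IsClosedUnderIsomorphisms] in
private theorem stg_inv_zero {φ : ℝ} {S0 X : D} (hX : σ.P φ X) : Inv σ φ S0 X 0 :=
  ⟨X, 0, 𝟙 X, 0, 0, contractible_distinguished X, hX, σ.P_zero φ _ (isZero_zero D),
    Iter.zero _ (isZero_zero D), fun m hm => hm⟩

private theorem stg_inv_not {φ : ℝ} {S0 X : D} (hX : σ.P φ X) {N : ℕ}
    (hN : ∀ n, Chain (σ.P φ) n X → n ≤ N) : ¬ Inv σ φ S0 X (N + 1) := by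
  rintro ⟨A, B, f, g, h, hT, hA, hB, -, hm⟩
  by_cases h0 : IsZero A
  · have := hN _ (hm 0 (Chain.zero _ h0))
    omega
  · have h1 : Chain (σ.P φ) 1 A :=
      Chain.succ 0 (0 : D) A A 0 (𝟙 A) 0 (contractible_distinguished₁ A) hA h0 hA
        (Chain.zero _ (isZero_zero D)) (σ.P_zero φ _ (isZero_zero D))
    have := hN _ (hm 1 h1)
    omega

private theorem stg_step {φ : ℝ} {S0 X : D} (hX : σ.P φ X) (hS : σ.StableOf φ S0)
    (hmap : ∀ (A B : D) (f : A ⟶ X) (g : X ⟶ B) (h : B ⟶ A⟦(1 : ℤ)⟧),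
      Triangle.mk f g h ∈ distTriang D → σ.P φ A → σ.P φ B → ¬ IsZero A → ¬ IsZero B →
        ∃ u : A ⟶ B, u ≠ 0)
    (hq : ∃ g : X ⟶ S0, g ≠ 0) {n : ℕ} (hI : Inv σ φ S0 X n) :
    Inv σ φ S0 X (n + 1) ∨ ∃ B : D, Iter S0 n B ∧ σ.P φ B ∧ Nonempty (X ≅ B) := by
  obtain ⟨A, B, f, g, h, hT, hA, hB, hIt, hm⟩ := hI
  by_cases h0 : IsZero A
  · right
    have hiso : IsIso g := (Triangle.isZero₁_iff_isIso₂ _ hT).1 h0
    exact ⟨B, hIt, hB, ⟨asIso g⟩⟩
  · left
    -- a nonzero map from `A` to `S0`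
    have hw : ∃ w : A ⟶ S0, w ≠ 0 := by
      by_contra hcon
      push Not at hcon
      by_cases hB0 : IsZero B
      · -- `f` is an isomorphism
        have hiso : IsIso f := (Triangle.isZero₃_iff_isIso₁ _ hT).1 hB0
        obtain ⟨q, hq⟩ := hq
        apply hq
        have h1 := hcon (f ≫ q)
        have h2 : q = inv f ≫ (f ≫ q) := by simp
        rw [h2, h1, comp_zero]
      · obtain ⟨u, hu⟩ := hmap A B f g h hT hA hB h0 hB0
        exact hu (stg_iter_hom hcon hIt u)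
    obtain ⟨w, hw⟩ := hw
    obtain ⟨K, k, h', hT', hK⟩ := σ.exists_kernel hA hS w hw
    obtain ⟨B', v, w', hT''⟩ := distinguished_cocone_triangle (k ≫ f)
    have O := Triangulated.someOctahedron rfl hT' hT hT''
    have hB' : σ.P φ B' := σ.P_ext _ _ _ O.mem hS.1 hB
    refine ⟨K, B', k ≫ f, v, w', hT'', hK, hB', Iter.succ n B' B _ _ _ O.mem hIt, ?_⟩
    intro m hmK
    have h1 : Chain (σ.P φ) (m + 1) A :=
      Chain.succ m K A S0 k w h' hT' hS.1 hS.2.1 hA hmK hK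
    have h2 := hm (m + 1) h1
    have h3 : m + (n + 1) = m + 1 + n := by omega
    rw [h3]
    exact h2

private theorem stg_exists {φ : ℝ} {S0 X : D} (hX : σ.P φ X) (hX0 : ¬ IsZero X)
    (hS : σ.StableOf φ S0)
    (hmap : ∀ (A B : D) (f : A ⟶ X) (g : X ⟶ B) (h : B ⟶ A⟦(1 : ℤ)⟧),
      Triangle.mk f g h ∈ distTriang D → σ.P φ A → σ.P φ B → ¬ IsZero A → ¬ IsZero B →
        ∃ u : A ⟶ B, u ≠ 0)
    (hq : ∃ g : X ⟶ S0, g ≠ 0) : ∃ k : S0 ⟶ X, k ≠ 0 := by
  obtain ⟨N, hN⟩ := σ.fin_len φ X hX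
  have hall : ∀ n : ℕ, Inv σ φ S0 X n ∨
      ∃ (m : ℕ) (B : D), Iter S0 m B ∧ σ.P φ B ∧ Nonempty (X ≅ B) := by
    intro n
    induction n with
    | zero => exact Or.inl (stg_inv_zero σ hX)
    | succ n ih =>
      rcases ih with ih | ih
      · rcases stg_step σ hX hS hmap hq ih with h | ⟨B, h⟩
        · exact Or.inl h
        · exact Or.inr ⟨n, B, h⟩
      · exact Or.inr ih
  rcases hall (N + 1) with h | ⟨m, B', hIt, hB', ⟨e⟩⟩
  · exact absurd h (stg_inv_not σ hX hN)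
  · cases hIt with
    | zero _ h => exact absurd (h.of_iso e) hX0
    | succ n _ B f g h hT hB =>
      -- `f : S0 → B'` is nonzero
      have hf : f ≠ 0 := by
        intro hf
        apply hS.2.1
        apply stg_isZero_of_shift
        obtain ⟨s, hs⟩ := Triangle.coyoneda_exact₁ _ hT (𝟙 (S0⟦(1 : ℤ)⟧)) (by
          change 𝟙 _ ≫ f⟦(1 : ℤ)⟧' = 0
          rw [hf, Functor.map_zero, comp_zero])
        -- no maps from `S0⟦1⟧` to iterated extensions of `S0`
        have h1 : s = 0 := stg_iter_hom (fun u => stg_shift_hom σ hS.1 hS.1 u) hB s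
        rw [h1, zero_comp] at hs
        exact (IsZero.iff_id_eq_zero _).2 hs
      refine ⟨f ≫ e.inv, ?_⟩
      intro h0
      apply hf
      have h1 : f = (f ≫ e.inv) ≫ e.hom := by simp
      rw [h1, h0, zero_comp]

omit [IsTriangulated D] [T.IsTriangulated] [T.IsClosedUnderIsomorphisms] in
private theorem stg_stable_iso {φ : ℝ} {S0 X : D} (e : X ≅ S0) (hS : σ.StableOf φ S0) :
    σ.StableOf φ X := by
  obtain ⟨h1, h2, h3⟩ := hS
  refine ⟨σ.P_iso φ _ _ e.symm h1, fun h => h2 (h.of_iso e.symm), ?_⟩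
  intro A B f g h hT hA hB
  refine h3 A B (f ≫ e.hom) (e.inv ≫ g) h ?_ hA hB
  refine isomorphic_distinguished _ hT _ ?_
  exact Triangle.isoMk (Triangle.mk (f ≫ e.hom) (e.inv ≫ g) h) (Triangle.mk f g h)
    (Iso.refl A) e.symm (Iso.refl B)
    (by change (f ≫ e.hom) ≫ e.inv = 𝟙 A ≫ f; simp)
    (by change (e.inv ≫ g) ≫ 𝟙 B = e.inv ≫ g; simp)
    (by change h ≫ (shiftFunctor D (1 : ℤ)).map (𝟙 A) = 𝟙 B ≫ h; simp)

/-- the stability criterion -/
theorem stable_of_H {X : D} (hTX : T X) (hX0 : ¬ IsZero X)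
    (hE : ∀ u : X ⟶ X, u ≠ 0 → IsIso u)
    (hH : ∀ (A B : D) (f : A ⟶ X) (g : X ⟶ B) (h : B ⟶ A⟦(1 : ℤ)⟧),
      Triangle.mk f g h ∈ distTriang D → T A → T B →
      (∀ i : ℤ, i ≤ 0 → ∀ u : A ⟶ B⟦i⟧, u = 0) → IsZero A ∨ IsZero B) :
    σ.Stable X := by
  obtain ⟨l, hl⟩ := σ.hn X hTX
  -- step 1: `X` is semistable
  have hP : ∃ φ, σ.P φ X := by
    cases hl with
    | zero _ h => exact absurd h hX0
    | cons φ l E _ A f g h hT hA hA0 hl hE' =>
      refine ⟨φ, ?_⟩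
      have hTE : T E := σ.hn_mem hE'
      have hTA : T A := σ.P_le φ A hA
      have h1 := hH E A f g h hT hTE hTA (by
        intro i hi u
        have hAi : σ.P (φ + i) (A⟦i⟧) := (σ.P_shift_int φ i A).1 hA
        have hi' : (i : ℝ) ≤ 0 := by exact_mod_cast hi
        exact stg_hom_zero σ hE' (fun ψ hψ => by have := hl ψ hψ; linarith) hAi u)
      rcases h1 with h1 | h1
      · have hiso : IsIso g := (Triangle.isZero₁_iff_isIso₂ _ hT).1 h1
        exact σ.P_iso φ _ _ (asIso g).symm hA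
      · exact absurd h1 hA0
  obtain ⟨φ, hX⟩ := hP
  obtain ⟨K, S0, k0, g, h, hT, hK, hS⟩ := σ.exists_stable_quot hX hX0
  -- `g` is nonzero
  have hg : g ≠ 0 := by
    intro hg
    apply hS.2.1
    obtain ⟨s, hs⟩ := Triangle.yoneda_exact₃ _ hT (𝟙 S0) (by
      change g ≫ 𝟙 _ = 0
      rw [hg, zero_comp])
    have h1 : s = 0 := stg_shift_hom σ hK hS.1 s
    rw [h1, comp_zero] at hs
    exact (IsZero.iff_id_eq_zero _).2 hs
  have hmap : ∀ (A B : D) (f : A ⟶ X) (g : X ⟶ B) (h : B ⟶ A⟦(1 : ℤ)⟧),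
      Triangle.mk f g h ∈ distTriang D → σ.P φ A → σ.P φ B → ¬ IsZero A → ¬ IsZero B →
        ∃ u : A ⟶ B, u ≠ 0 := by
    intro A B f g h hT hA hB hA0 hB0
    by_contra hcon
    push Not at hcon
    rcases hH A B f g h hT (σ.P_le φ A hA) (σ.P_le φ B hB) (by
      intro i hi u
      rcases hi.lt_or_eq with hi | rfl
      · have hi' : (i : ℝ) < 0 := by exact_mod_cast hi
        exact σ.hom_zero φ (φ + i) (by linarith) _ _ hA ((σ.P_shift_int φ i B).1 hB) u
      · have h1 := hcon (u ≫ ((shiftFunctorZero D ℤ).app B).hom)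
        have h2 : u = (u ≫ ((shiftFunctorZero D ℤ).app B).hom) ≫
            ((shiftFunctorZero D ℤ).app B).inv := by
          rw [Category.assoc, Iso.hom_inv_id, Category.comp_id]
        rw [h2, h1, zero_comp]) with h1 | h1
    · exact hA0 h1
    · exact hB0 h1
  obtain ⟨k, hk⟩ := stg_exists σ hX hX0 hS hmap ⟨g, hg⟩
  -- `g ≫ k` is nonzero
  have hgk : g ≫ k ≠ 0 := by
    intro h0
    obtain ⟨s, hs⟩ := Triangle.yoneda_exact₃ _ hT k h0
    have h1 : s = 0 := stg_shift_hom σ hK hX s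
    rw [h1, comp_zero] at hs
    exact hk hs
  have hiso : IsIso (g ≫ k) := hE _ hgk
  -- `k0 = 0`
  have hk0 : k0 = 0 := by
    have h1 : k0 ≫ g = 0 := comp_distTriang_mor_zero₁₂ _ hT
    have h2 : k0 = (k0 ≫ g) ≫ k ≫ inv (g ≫ k) := by
      have h3 : g ≫ k ≫ inv (g ≫ k) = 𝟙 X := by
        rw [← Category.assoc]
        exact IsIso.hom_inv_id _
      rw [Category.assoc, h3, Category.comp_id]
    rw [h2, h1, zero_comp]
  have hK0 : IsZero K := by
    apply stg_isZero_of_shift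
    obtain ⟨s, hs⟩ := Triangle.coyoneda_exact₁ _ hT (𝟙 (K⟦(1 : ℤ)⟧)) (by
      change 𝟙 _ ≫ k0⟦(1 : ℤ)⟧' = 0
      rw [hk0, Functor.map_zero, comp_zero])
    have h1 : s = 0 := stg_shift_hom σ hK hS.1 s
    rw [h1, zero_comp] at hs
    exact (IsZero.iff_id_eq_zero _).2 hs
  have hgi : IsIso g := (Triangle.isZero₁_iff_isIso₂ _ hT).1 hK0
  exact ⟨φ, stg_stable_iso σ (asIso g) hS⟩

end StabCond

end Pool.Agent.BE
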