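import Pool.Agent.BE.M8
import Pool.Agent.BE.StG

/-!
# BE-M9: the main theorem: `stable_of_H` with `dbc_Ox`, `Ox_ne`, `Ox_end`, `no_triangle`
-/

open CategoryTheory CategoryTheory.Limits CategoryTheory.Pretriangulated AlgebraicGeometry
  Opposite TopologicalSpace DerivedCategory

namespace Pool.Agent.BE

universe w

variable {S : Scheme.{0}}

/-- MAIN THEOREM (fibred surfaces). -/
theorem stable_of_fibred {C : Scheme.{0}} (p : S ⟶ C) [IsProper p] [IsIntegral C]
    [IsNoetherian S] [S.IsSeparated] [C.IsSeparated]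
    (hi : ∀ n : ℕ, n ≠ 0 → ∃ a : Γ(C, ⊤), (n : Γ(C, ⊤)) * a = 1)
    (hC : ∀ c : C, c ≠ genericPoint C → IsClosed ({c} : Set C))
    (B : BaseData C) (F : ∀ c : C, c ≠ genericPoint C → Nonempty (FibreData p c))
    [HasDerivedCategory.{w} (QCoh S)] (σ : StabCond (Dbc S))
    (x : S) (hx : IsClosed ({x} : Set S)) : σ.Stable (Ox x hx) := by
  refine StabCond.stable_of_H σ (dbc_Ox x hx) (Ox_ne x hx) (fun u hu => Ox_end x hx u hu) ?_
  intro A B' f g h hT hA hB h0
  exact no_triangle p hi hC B F x hx A B' f g h hT hA hB h0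

end Pool.Agent.BE
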