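import Pool.Agent.BE.MainDefs
import Pool.Agent.BE.DerN
import Pool.Agent.BE.SuppJ
import Pool.Agent.BE.Aff
import Pool.Agent.BE.SkyS
import Pool.Agent.BE.DbcT

/-!
# BE-PhA: morphisms from `O_y` (see be/proof.md, (8)(i))

`hom_sky_zero`. Claim, by induction on a list `L` of affine opens not containing `y`: if every `s : S` lies in an
affine open `V` with `V ∩ Supp (Hn n X) = ∅` for all `n`, or in a member of `L`, then every `u : Ox y ⟶ X` is zero.
`L = []`: `X = 0` (`isZero_iff_supp`, `isZero_of_Hn`). `W :: L`: `η' : 𝟭 ⟶ (J hW).mapDerivedCategory` from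
`exists_natTrans` (`W` affine, `affInc_of_affine`), triangle `X' → X → J_W X → X'⟦1⟧`. `u ≫ η'_X = η'_{O_y} ≫ J_W(u) = 0`
because `J_W(O_y) = 0` (cohomology of `J_W(O_y)`: `homology_der`, `J_zero`, `supp_sky`), so `u` factors through `X'`. If
`V` does not meet the supports of `X` then it does not meet those of `J_W X` (`supp_J`) and so those of `X'`
(`supp_tri`, `supp_shift`); and `W` does not meet the supports of `X'`: `J_W(X → J_W X)` is an isomorphism on
cohomology (`ap_ιJ`: on `M(U ∩ W)` the restriction to `U ∩ W ∩ W` is bijective); or: sections over affine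
`V ≤ W` of `Hn n X → Hn n (J_W X) = J_W (Hn n X)` are bijective, so by the long exact sequence (pointwise,
`exact_iff`) `sec (Hn n X') V = 0`. Cover: `U` and finitely many affines covering the quasi-compact
open `S \ {y}` (`S` noetherian).
`lift_sky`: triangle `X → J_U X → K → X⟦1⟧`, `U` does not meet the supports of `K` (as above), so
`Hom(O_y, K) = 0` and `u` lifts.
-/

open CategoryTheory CategoryTheory.Limits CategoryTheory.Pretriangulated AlgebraicGeometry
  Opposite TopologicalSpace DerivedCategory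

namespace Pool.Agent.BE

universe w

variable {S : Scheme.{0}}

section aux

variable [HasDerivedCategory.{w} (QCoh S)]

omit [HasDerivedCategory (QCoh S)] in
/-- restriction to an affine open which is not smaller is bijective -/
private theorem pha_res_bij (M : QCoh S) {V U : Aff S} (h : V ≤ U) (h' : U ≤ V) :
    Function.Bijective (res M h) := by
  refine ⟨fun a b hab => ?_, fun x => ⟨res M h' x, ?_⟩⟩
  · have h1 := congrArg (res M h') hab
    change M.obj.res h' (M.obj.res h a) = M.obj.res h' (M.obj.res h b) at h1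
    rwa [PM.res_res, PM.res_res, PM.res_id, PM.res_id] at h1
  · change M.obj.res h (M.obj.res h' x) = x
    rw [PM.res_res, PM.res_id]

omit [HasDerivedCategory (QCoh S)] in
/-- `M → J_W M` is bijective on sections over `W` -/
private theorem pha_ι_bij (W : Aff S) (hW : AffInc W.1) (M : QCoh S) :
    Function.Bijective (ap ((ιJ hW).app M) W) := by
  have h1 : Function.Bijective (res M (cap_le hW W)) :=
    pha_res_bij M _ (show W.1 ≤ W.1 ⊓ W.1 from le_inf le_rfl le_rfl)
  have h2 : (fun m => (jeq hW M W).symm (res M (cap_le hW W) m)) = ap ((ιJ hW).app M) W := rfl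
  rw [← h2]
  exact (jeq hW M W).symm.bijective.comp h1

omit [HasDerivedCategory (QCoh S)] in
private theorem pha_iso_bij {M N : QCoh S} (f : M ⟶ N) [IsIso f] (U : Aff S) :
    Function.Bijective (ap f U) := (iso_iff f).1 inferInstance U

/-- `X → J_W X` is bijective on sections over `W` of the cohomology -/
private theorem pha_Hbij (W : Aff S) (hW : AffInc W.1)
    (η' : 𝟭 (DerivedCategory (QCoh S)) ⟶ (J hW).mapDerivedCategory)
    (hη : ∀ n : ℤ, ∃ e : (J hW).mapDerivedCategory ⋙ homologyFunctor (QCoh S) n ≅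
      homologyFunctor (QCoh S) n ⋙ (J hW), ∀ X : DerivedCategory (QCoh S),
        (homologyFunctor (QCoh S) n).map (η'.app X) ≫ e.hom.app X =
          (ιJ hW).app ((homologyFunctor (QCoh S) n).obj X)) (X : DerivedCategory (QCoh S)) (n : ℤ) :
    Function.Bijective (ap ((homologyFunctor (QCoh S) n).map (η'.app X)) W) := by
  obtain ⟨e, he⟩ := hη n
  have h1 := pha_ι_bij W hW ((homologyFunctor (QCoh S) n).obj X)
  rw [← he X] at h1
  have h2 : ap ((homologyFunctor (QCoh S) n).map (η'.app X) ≫ e.hom.app X) W =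
      (ap (e.hom.app X) W) ∘ (ap ((homologyFunctor (QCoh S) n).map (η'.app X)) W) := rfl
  rw [h2] at h1
  exact (Function.Bijective.of_comp_iff' (pha_iso_bij (e.hom.app X) W) _).1 h1

/-- the cone of `X → J_W X` has no cohomology on `W` -/
private theorem pha_cone (W : Aff S) {X Y K : DerivedCategory (QCoh S)} (f : X ⟶ Y) (g : Y ⟶ K)
    (h : K ⟶ X⟦(1 : ℤ)⟧) (hT : Triangle.mk f g h ∈ distTriang (DerivedCategory (QCoh S)))
    (hb : ∀ n : ℤ, Function.Bijective (ap ((homologyFunctor (QCoh S) n).map f) W)) (n : ℤ) :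
    Subsingleton (sec (Hn n K) W) := by
  refine ⟨?_⟩
  have key : ∀ x : sec (Hn n K) W, x = 0 := by
    intro x
    have e3 := (exact_iff _).1 (HomologySequence.exact₃ _ hT n (n + 1) rfl) W
    have e1 := (exact_iff _).1 (HomologySequence.exact₁ _ hT n (n + 1) rfl) W
    have e2 := (exact_iff _).1 (HomologySequence.exact₂ _ hT n) W
    have h1 := (e1 (ap (HomologySequence.δ (Triangle.mk f g h) n (n + 1) rfl) W x)).2 ⟨x, rfl⟩
    have h2 : ap (HomologySequence.δ (Triangle.mk f g h) n (n + 1) rfl) W x = 0 := by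
      apply (hb (n + 1)).1
      exact h1.trans (map_zero (ap ((homologyFunctor (QCoh S) (n + 1)).map f) W)).symm
    obtain ⟨y, hy⟩ := (e3 x).1 h2
    obtain ⟨z, hz⟩ := (hb n).2 y
    have h3 := (e2 y).2 ⟨z, hz⟩
    exact hy.symm.trans h3
  intro a b
  rw [key a, key b]

/-- `J_W O_y = 0` if `y` is not in `W` -/
private theorem pha_J_sky (y : S) (hy : IsClosed ({y} : Set S)) (W : Aff S) (hW : AffInc W.1)
    (hyW : y ∉ W.1) : IsZero ((J hW).mapDerivedCategory.obj (Ox y hy)) := by
  apply isZero_of_Hn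
  intro n
  obtain ⟨e⟩ := homology_der (J hW) n
  refine IsZero.of_iso ?_ (e.app (Ox y hy))
  change IsZero ((J hW).obj (Hn n (Ox y hy)))
  by_cases hn : n = 0
  · subst hn
    obtain ⟨i⟩ := Hn_single (sky y hy)
    refine IsZero.of_iso ?_ ((J hW).mapIso i)
    apply J_zero
    intro s hs
    rw [supp_sky] at hs
    rw [Set.mem_singleton_iff.1 hs]
    exact hyW
  · exact Functor.map_isZero _ (Hn_single_ne (sky y hy) n hn)

private theorem pha_main [IsNoetherian S] [S.IsSeparated]
    (y : S) (hy : IsClosed ({y} : Set S)) (L : List (Aff S)) (hL : ∀ W ∈ L, y ∉ W.1) :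
    ∀ (X : DerivedCategory (QCoh S)) (_ : ∀ s : S, (∀ n, s ∉ Supp (Hn n X)) ∨ ∃ W ∈ L, s ∈ W.1)
      (u : Ox y hy ⟶ X), u = 0 := by
  induction L with
  | nil =>
    intro X hX u
    have h1 : IsZero X := by
      apply isZero_of_Hn
      intro n
      rw [isZero_iff_supp]
      ext s
      simp only [Set.mem_empty_iff_false, iff_false]
      rcases hX s with h | ⟨W, hW, -⟩
      · exact h n
      · simp at hW
    exact h1.eq_of_tgt _ _
  | cons W L ih =>
    intro X hX u
    have hW : AffInc W.1 := affInc_of_affine W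
    obtain ⟨η', hη⟩ := exists_natTrans (J hW) (ιJ hW)
    obtain ⟨K, g, h, hT⟩ := distinguished_cocone_triangle (η'.app X)
    have hT' := inv_rot_of_distTriang _ hT
    have h0 : u ≫ η'.app X = 0 := by
      have h1 := η'.naturality u
      have h2 : u ≫ η'.app X = η'.app (Ox y hy) ≫ (J hW).mapDerivedCategory.map u := h1
      rw [h2, (pha_J_sky y hy W hW (hL W (by simp))).eq_of_tgt (η'.app (Ox y hy)) 0, zero_comp]
    obtain ⟨v, hv⟩ := Triangle.coyoneda_exact₂ _ hT' u h0
    have h3 : v = 0 := by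
      refine ih (fun W' hW' => hL W' (List.mem_cons_of_mem _ hW')) _ ?_ v
      intro s
      have hK : ∀ n, Supp (Hn n (K⟦(-1 : ℤ)⟧)) = Supp (Hn (n + (-1)) K) := fun n => supp_shift K n (-1)
      rcases hX s with h4 | ⟨W', hW', hs⟩
      · left
        intro n hs
        change s ∈ Supp (Hn n (K⟦(-1 : ℤ)⟧)) at hs
        rw [hK] at hs
        have h5 := supp_tri _ _ _ (rot_of_distTriang _ hT) (n + (-1)) hs
        rcases h5 with h5 | h5
        · obtain ⟨e, -⟩ := hη (n + (-1))
          have h6 : Supp (Hn (n + (-1)) ((J hW).mapDerivedCategory.obj X)) =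
              Supp ((J hW).obj (Hn (n + (-1)) X)) := supp_of_iso (e.app X)
          have h5' : s ∈ Supp (Hn (n + (-1)) ((J hW).mapDerivedCategory.obj X)) := h5
          rw [h6] at h5'
          exact h4 _ (supp_J hW _ h5')
        · have h5' : s ∈ Supp (Hn (n + (-1)) (X⟦(1 : ℤ)⟧)) := h5
          rw [supp_shift] at h5'
          exact h4 _ h5'
      · rcases List.mem_cons.1 hW' with rfl | hW'
        · left
          intro n hs'
          change s ∈ Supp (Hn n (K⟦(-1 : ℤ)⟧)) at hs'
          rw [hK] at hs'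
          have h5 := pha_cone W' _ _ _ hT (pha_Hbij W' hW η' hη X) (n + (-1))
          exact not_subsingleton_iff_nontrivial.2 (hs' W' hs) h5
        · exact Or.inr ⟨W', hW', hs⟩
    rw [h3] at hv
    exact hv.trans zero_comp

end aux

theorem hom_sky_zero [IsNoetherian S] [S.IsSeparated] [HasDerivedCategory.{w} (QCoh S)]
    (y : S) (hy : IsClosed ({y} : Set S)) (U : Aff S) (hU : y ∈ U.1)
    (X : DerivedCategory (QCoh S)) (h : ∀ n, ∀ s ∈ U.1, s ∉ Supp (Hn n X)) (u : Ox y hy ⟶ X) :
    u = 0 := by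
  let C : S.Opens := ⟨{y}ᶜ, hy.isOpen_compl⟩
  have hC : IsCompact (C : Set S) := NoetherianSpace.isCompact _
  obtain ⟨s, hs, e⟩ := isCompact_iff_finite_and_eq_biUnion_affineOpens.1 hC
  have hmem : ∀ t : S, t ∈ C ↔ ∃ W ∈ s, t ∈ W.1 := by
    intro t
    rw [e]
    simp
  refine pha_main y hy hs.toFinset.toList ?_ X ?_ u
  · intro W hW hyW
    rw [Finset.mem_toList, Set.Finite.mem_toFinset] at hW
    have h1 : y ∈ C := (hmem y).2 ⟨W, hW, hyW⟩
    exact h1 rfl
  · intro t
    by_cases ht : t ∈ U.1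
    · exact Or.inl fun n => h n t ht
    · right
      have h1 : t ∈ C := by
        intro h2
        rw [Set.mem_singleton_iff.1 h2] at ht
        exact ht hU
      obtain ⟨W, hW, htW⟩ := (hmem t).1 h1
      exact ⟨W, by rwa [Finset.mem_toList, Set.Finite.mem_toFinset], htW⟩

theorem lift_sky [IsNoetherian S] [S.IsSeparated] [HasDerivedCategory.{w} (QCoh S)]
    (y : S) (hy : IsClosed ({y} : Set S)) (U : Aff S) (hU : y ∈ U.1) (hA : AffInc U.1)
    (X : DerivedCategory (QCoh S)) (u : Ox y hy ⟶ (J hA).mapDerivedCategory.obj X) (hu : u ≠ 0) :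
    ∃ v : Ox y hy ⟶ X, v ≠ 0 := by
  obtain ⟨η', hη⟩ := exists_natTrans (J hA) (ιJ hA)
  obtain ⟨K, g, h, hT⟩ := distinguished_cocone_triangle (η'.app X)
  have h1 : u ≫ g = 0 := by
    refine hom_sky_zero y hy U hU K ?_ _
    intro n s hs hs'
    have h5 := pha_cone U _ _ _ hT (pha_Hbij U hA η' hη X) n
    exact not_subsingleton_iff_nontrivial.2 (hs' U hs) h5
  obtain ⟨v, hv⟩ := Triangle.coyoneda_exact₂ _ hT u h1
  refine ⟨v, ?_⟩
  rintro rfl
  exact hu (hv.trans zero_comp)

end Pool.Agent.BE
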