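import Pool.Agent.BE.PhA
import Pool.Agent.BE.CohA

/-!
# BE-PhB: one Koszul step

`μ : J hA ⟶ J hA` multiplication by `a ∈ Γ(U)` on `M(V ∩ U)` (for `V` affine restrict `a` to `V ∩ U`), natural.
`μ'` from `exists_natEnd`. Triangle `J_U X →(μ') J_U X → X' → (J_U X)⟦1⟧`. Cohomology (pointwise,
`exact_iff`, long exact sequence): `0 → coker(a | J_U H^n X) → H^n X' → ker(a | J_U H^{n+1} X) → 0`.
(1) finiteness over `Γ(U)` (noetherian); (2) `coker(a)` at `y`: a nonzero functional `φ` on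
`sec (Hn b X) U` with values in `κ(y)` (`fibre_ne`) kills `a • m` as `ev y a = 0`, so it factors through the cokernel:
if `M(D) = 0` for the cokernel near `y` then `φ = 0`, so `y ∈ Supp coker ⊆ Supp (H^b X')` (the cokernel injects); (3) low
degrees: `supp_tri`-like; (4) on `D(a)` multiplication by `a` is bijective, so the supports of `H^n X'` do not
meet `D(a) ∩ U`; (5) `H^n X'` is local on `U`: kernel and cokernel of maps between modules of the form
`J_U M`: five lemma for `ιJ` (pointwise; `J_U` exact); (6) a nonzero `O_y → X'⟦i⟧` gives a nonzero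
`O_y → (J_U X)⟦i⟧` or `O_y → (J_U X)⟦i+1⟧` (exact Hom sequence of the triangle), and `(J_U X)⟦i⟧ ≅ J_U (X⟦i⟧)`
(`commShiftIso`), `lift_sky`.
-/

open CategoryTheory CategoryTheory.Limits CategoryTheory.Pretriangulated AlgebraicGeometry
  Opposite TopologicalSpace DerivedCategory

namespace Pool.Agent.BE

universe w

variable {S : Scheme.{0}}

private lemma phb_cap_le {U : Aff S} (hA : AffInc U.1) (V : Aff S) : cap hA V ≤ U :=
  (inf_le_right : V.1 ⊓ U.1 ≤ U.1)

/-- multiplication by `a` on `M(V ∩ U)` -/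
private noncomputable def phbMul {U : Aff S} (hA : AffInc U.1) (a : Γ(S, U.1)) :
    J hA ⟶ J hA where
  app M := mkHom (M := (J hA).obj M) (N := (J hA).obj M)
    (fun V =>
      { toFun := fun m => (jeq hA M V).symm (rst (phb_cap_le hA V) a • jeq hA M V m)
        map_add' := fun x y => by
          simp only [map_add, smul_add]
        map_smul' := fun c m => by
          rw [jeq_smul, smul_comm, RingHom.id_apply]
          exact jeq_symm_smul hA M V c _ })
    (fun {V W} h m => by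
      apply (jeq hA M V).injective
      rw [jeq_res]
      change res M (cap_mono hA h) (rst (phb_cap_le hA W) a • jeq hA M W m) =
        rst (phb_cap_le hA V) a • jeq hA M V (res ((J hA).obj M) h m)
      rw [jeq_res, PM.res_smul, rst_rst])
  naturality M N f := by
    apply qhom_ext
    intro V m
    apply (jeq hA N V).injective
    exact (map_smul (ap f (cap hA V)) (rst (phb_cap_le hA V) a) (jeq hA M V m)).symm

private lemma phb_mul_ap {U : Aff S} (hA : AffInc U.1) (a : Γ(S, U.1)) (M : QCoh S) (V : Aff S)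
    (m : sec ((J hA).obj M) V) :
    jeq hA M V (ap ((phbMul hA a).app M) V m) = rst (phb_cap_le hA V) a • jeq hA M V m := rfl

/-- restriction along an equality of opens -/
private lemma phb_res_bij (M : QCoh S) {V W : Aff S} (h : V ≤ W) (h' : W ≤ V) :
    Function.Bijective (res M h) := by
  constructor
  · intro x y hxy
    have h1 := congrArg (res M h') hxy
    rw [PM.res_res, PM.res_res, PM.res_id, PM.res_id] at h1
    exact h1
  · intro x
    exact ⟨res M h' x, by rw [PM.res_res, PM.res_id]⟩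

private lemma phb_res_J (M : QCoh S) {U : Aff S} (hA : AffInc U.1) (V : Aff S) :
    Function.Bijective (res ((J hA).obj M) (cap_le hA V)) := by
  have h1 : cap hA V ≤ cap hA (cap hA V) :=
    (le_inf le_rfl inf_le_right : V.1 ⊓ U.1 ≤ (V.1 ⊓ U.1) ⊓ U.1)
  have h2 := phb_res_bij M (cap_mono hA (cap_le hA V)) h1
  constructor
  · intro x y hxy
    apply (jeq hA M V).injective
    apply h2.1
    have h3 := congrArg (jeq hA M (cap hA V)) hxy
    rw [jeq_res, jeq_res] at h3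
    exact h3
  · intro x
    obtain ⟨z, hz⟩ := h2.2 (jeq hA M (cap hA V) x)
    refine ⟨(jeq hA M V).symm z, ?_⟩
    apply (jeq hA M (cap hA V)).injective
    rw [jeq_res, AddEquiv.apply_symm_apply]
    exact hz

private lemma phb_J_finite (M : QCoh S) {U : Aff S} (hA : AffInc U.1)
    (hM : Module.Finite Γ(S, U.1) (sec M U)) :
    Module.Finite Γ(S, U.1) (sec ((J hA).obj M) U) := by
  have h1 : U ≤ cap hA U := (le_inf le_rfl le_rfl : U.1 ≤ U.1 ⊓ U.1)
  have h2 := phb_res_bij M (cap_le hA U) h1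
  have h3 : Module.Finite Γ(S, U.1) (sec ((𝟭 (QCoh S)).obj M) U) := hM
  refine Module.Finite.of_surjective (ap ((ιJ hA).app M) U) ?_
  intro x
  obtain ⟨z, hz⟩ := h2.2 (jeq hA M U x)
  refine ⟨z, ?_⟩
  apply (jeq hA M U).injective
  rw [ap_ιJ]
  exact hz

/-- the pointwise exact sequence `A → A → N → B → B` -/
private structure PhbSeq {A N B : QCoh S} (α : A ⟶ A) (p : A ⟶ N) (q : N ⟶ B) (β : B ⟶ B) :
    Prop where
  e1 : ∀ U, Function.Exact (ap α U) (ap p U)
  e2 : ∀ U, Function.Exact (ap p U) (ap q U)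
  e3 : ∀ U, Function.Exact (ap q U) (ap β U)

private lemma PhbSeq.finite [IsNoetherian S] {A N B : QCoh S} {α : A ⟶ A} {p : A ⟶ N} {q : N ⟶ B}
    {β : B ⟶ B} (H : PhbSeq α p q β) (U : Aff S) (hA : Module.Finite Γ(S, U.1) (sec A U))
    (hB : Module.Finite Γ(S, U.1) (sec B U)) : Module.Finite Γ(S, U.1) (sec N U) := by
  have : IsNoetherianRing Γ(S, U.1) := IsLocallyNoetherian.component_noetherian U
  have h1 : _root_.IsNoetherian Γ(S, U.1) (sec A U) := isNoetherian_of_isNoetherianRing_of_finite _ _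
  have h2 : _root_.IsNoetherian Γ(S, U.1) (sec B U) := isNoetherian_of_isNoetherianRing_of_finite _ _
  have h3 : _root_.IsNoetherian Γ(S, U.1) (sec N U) :=
    isNoetherian_of_range_eq_ker (ap p U) (ap q U) (LinearMap.exact_iff.1 (H.e2 U)).symm
  exact Module.IsNoetherian.finite _ _

private lemma PhbSeq.res_bij {A N B : QCoh S} {α : A ⟶ A} {p : A ⟶ N} {q : N ⟶ B} {β : B ⟶ B}
    (H : PhbSeq α p q β) {V W : Aff S} (h : V ≤ W) (hA : Function.Bijective (res A h))
    (hB : Function.Bijective (res B h)) : Function.Bijective (res N h) := by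
  constructor
  · rw [injective_iff_map_eq_zero]
    intro n hn
    have h1 : ap q W n = 0 := by
      apply hB.1
      rw [res_ap, hn, map_zero, map_zero]
    obtain ⟨m, rfl⟩ := (H.e2 W n).1 h1
    rw [res_ap] at hn
    obtain ⟨m1, hm1⟩ := (H.e1 V _).1 hn
    obtain ⟨m2, rfl⟩ := hA.2 m1
    rw [← res_ap] at hm1
    have h2 := hA.1 hm1
    exact (H.e1 W m).2 ⟨m2, h2⟩
  · intro n
    obtain ⟨x, hx⟩ := hB.2 (ap q V n)
    have h1 : ap β W x = 0 := by
      apply hB.1
      rw [res_ap, hx, map_zero]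
      exact (H.e3 V _).2 ⟨n, rfl⟩
    obtain ⟨n0, hn0⟩ := (H.e3 W x).1 h1
    have h2 : ap q V (res N h n0 - n) = 0 := by
      rw [map_sub, ← res_ap, hn0, hx, sub_self]
    obtain ⟨m1, hm1⟩ := (H.e2 V _).1 h2
    obtain ⟨m2, rfl⟩ := hA.2 m1
    refine ⟨n0 - ap p W m2, ?_⟩
    rw [map_sub, res_ap, hm1]
    abel

/-- the sequence of one Koszul step -/
private abbrev PhbK {U : Aff S} (hA : AffInc U.1) (a : Γ(S, U.1)) (M M' N : QCoh S) : Prop :=
  ∃ (p : (J hA).obj M ⟶ N) (q : N ⟶ (J hA).obj M'),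
    PhbSeq ((phbMul hA a).app M) p q ((phbMul hA a).app M')

private lemma phbK_finite [IsNoetherian S] {U : Aff S} {hA : AffInc U.1} {a : Γ(S, U.1)}
    {M M' N : QCoh S} (H : PhbK hA a M M' N) (hM : Module.Finite Γ(S, U.1) (sec M U))
    (hM' : Module.Finite Γ(S, U.1) (sec M' U)) : Module.Finite Γ(S, U.1) (sec N U) := by
  obtain ⟨p, q, H⟩ := H
  exact H.finite U (phb_J_finite M hA hM) (phb_J_finite M' hA hM')

private lemma phbK_iso {U : Aff S} {hA : AffInc U.1} {a : Γ(S, U.1)}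
    {M M' N : QCoh S} (H : PhbK hA a M M' N) : IsIso ((ιJ hA).app N) := by
  obtain ⟨p, q, H⟩ := H
  rw [iso_iff]
  intro V
  have h1 := H.res_bij (cap_le hA V) (phb_res_J M hA V) (phb_res_J M' hA V)
  constructor
  · intro x y hxy
    apply h1.1
    have h3 := congrArg (jeq hA N V) hxy
    rw [ap_ιJ, ap_ιJ] at h3
    exact h3
  · intro x
    obtain ⟨z, hz⟩ := h1.2 (jeq hA N V x)
    exact ⟨z, by apply (jeq hA N V).injective; rw [ap_ιJ]; exact hz⟩

private lemma phbK_supp {U : Aff S} {hA : AffInc U.1} {a : Γ(S, U.1)}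
    {M M' N : QCoh S} (H : PhbK hA a M M' N) : Supp N ⊆ Supp M ∪ Supp M' := by
  obtain ⟨p, q, H⟩ := H
  have w : p ≫ q = 0 := by
    apply qhom_ext
    intro V m
    exact (H.e2 V _).2 ⟨m, rfl⟩
  have h1 : (ShortComplex.mk p q w).Exact := (exact_iff _).2 H.e2
  have h2 := supp_of_exact _ h1
  intro s hs
  rcases h2 hs with h | h
  · exact Or.inl (supp_J hA M h)
  · exact Or.inr (supp_J hA M' h)

private lemma phbK_ev {U : Aff S} {hA : AffInc U.1} {a : Γ(S, U.1)}
    {M M' N : QCoh S} (H : PhbK hA a M M' N) (s : S) (hs : s ∈ U.1) (hN : s ∈ Supp N) :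
    ev s hs a = 0 := by
  obtain ⟨p, q, H⟩ := H
  by_contra h0
  have hD : s ∈ (bas U a).1 := by
    change s ∈ S.basicOpen a
    rw [← Scheme.evaluation_ne_zero_iff_mem_basicOpen S s hs a]
    exact h0
  have h1 := hN (bas U a) hD
  -- `a` is a unit over `D(a) ∩ U`
  have hu : IsUnit (rst (phb_cap_le hA (bas U a)) a) := by
    have h2 : cap hA (bas U a) ≤ bas U a := cap_le hA _
    have h3 : IsUnit (rst (bas_le U a) a) := RingedSpace.isUnit_res_basicOpen _ a
    have h4 := h3.map (rst h2)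
    rw [rst_rst] at h4
    exact h4
  obtain ⟨b, hb⟩ := hu.exists_left_inv
  have hsurj : ∀ (M0 : QCoh S) (x : sec ((J hA).obj M0) (bas U a)),
      ∃ z, ap ((phbMul hA a).app M0) (bas U a) z = x := by
    intro M0 x
    refine ⟨(jeq hA M0 (bas U a)).symm (b • jeq hA M0 (bas U a) x), ?_⟩
    apply (jeq hA M0 (bas U a)).injective
    rw [phb_mul_ap, AddEquiv.apply_symm_apply, smul_smul, mul_comm, hb, one_smul]
  have hinj : ∀ (M0 : QCoh S) (x : sec ((J hA).obj M0) (bas U a)),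
      ap ((phbMul hA a).app M0) (bas U a) x = 0 → x = 0 := by
    intro M0 x hx
    have h2 := congrArg (jeq hA M0 (bas U a)) hx
    rw [phb_mul_ap, map_zero] at h2
    have h3 := congrArg (fun z => b • z) h2
    simp only [smul_smul, hb, one_smul, smul_zero] at h3
    apply (jeq hA M0 (bas U a)).injective
    rw [h3, map_zero]
  obtain ⟨x, hx⟩ := exists_ne (0 : sec N (bas U a))
  apply hx
  have h2 : ap q (bas U a) x = 0 := by
    apply hinj
    exact (H.e3 _ _).2 ⟨x, rfl⟩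
  obtain ⟨m, hm⟩ := (H.e2 _ _).1 h2
  rw [← hm]
  exact (H.e1 _ _).2 (hsurj M m)

private lemma phbK_mem [IsNoetherian S] {U : Aff S} {hA : AffInc U.1} {a : Γ(S, U.1)}
    {M M' N : QCoh S} (H : PhbK hA a M M' N) (y : S) (hU : y ∈ U.1) (ha : ev y hU a = 0)
    (hM : Module.Finite Γ(S, U.1) (sec M U)) (hy : y ∈ Supp M) : y ∈ Supp N := by
  obtain ⟨p, q, H⟩ := H
  intro V hV
  by_contra hN
  rw [not_nontrivial_iff_subsingleton] at hN
  obtain ⟨D, hDU, hDV, f, g, hyD, hf, hg⟩ := exists_basic U V y hU hV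
  obtain ⟨φ, hφ, hφ0⟩ := fibre_ne M y hy U hU hM
  apply hφ0
  ext m
  rw [AddMonoidHom.zero_apply]
  have hfy : ev y hU f ≠ 0 := by
    rw [hf] at hyD
    exact (Scheme.evaluation_ne_zero_iff_mem_basicOpen S y hU f).2 hyD
  -- `N(D) = 0`
  have hND : ∀ x : sec N D, x = 0 := by
    intro x
    obtain ⟨n, z, hz⟩ := res_surj N hDV g hg x
    have hz0 : z = 0 := Subsingleton.elim _ _
    rw [hz0, map_zero] at hz
    have hu : IsUnit (rst hDV g) := by
      have h4 : ∀ (D' : S.Opens) (h : D' ≤ V.1), D' = S.basicOpen g → IsUnit (rst h g) := by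
        rintro D' h rfl
        exact RingedSpace.isUnit_res_basicOpen _ g
      exact h4 D.1 hDV hg
    have hu2 := hu.pow n
    obtain ⟨b, hb⟩ := hu2.exists_left_inv
    have h5 := congrArg (fun z => b • z) hz
    simp only [smul_smul, hb, one_smul, smul_zero] at h5
    exact h5.symm
  -- so `a` is surjective on `M(D)`
  have hDc : D ≤ cap hA D := (le_inf le_rfl hDU : D.1 ≤ D.1 ⊓ U.1)
  obtain ⟨x, hx⟩ := (H.e1 D ((jeq hA M D).symm (res M ((cap_le hA D).trans hDU) m))).1 (hND _)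
  have hx' := congrArg (jeq hA M D) hx
  rw [phb_mul_ap, AddEquiv.apply_symm_apply] at hx'
  have hx2 := congrArg (res M hDc) hx'
  rw [PM.res_smul, rst_rst, PM.res_res] at hx2
  obtain ⟨n, m', hm'⟩ := res_surj M hDU f hf (res M hDc (jeq hA M D x))
  have h6 : res M hDU (f ^ n • m - a • m') = 0 := by
    rw [map_sub, PM.res_smul, PM.res_smul, hm', map_pow, smul_comm, ← smul_sub]
    rw [sub_eq_zero.2 hx2.symm, smul_zero]
  obtain ⟨k, hk⟩ := res_inj M hDU f hf _ h6
  have h7 := congrArg φ hk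
  rw [hφ, map_sub, hφ, hφ, ha, zero_mul, sub_zero, map_zero, map_pow, map_pow] at h7
  rcases mul_eq_zero.1 h7 with h8 | h8
  · exact absurd h8 (pow_ne_zero _ hfy)
  · rcases mul_eq_zero.1 h8 with h9 | h9
    · exact absurd h9 (pow_ne_zero _ hfy)
    · exact h9

/-- transport of the pointwise exact sequence -/
private lemma phb_seq {A A' B B' N : QCoh S} (e : A ≅ A') (e' : B ≅ B') (f1 : A ⟶ A)
    (g1 : A ⟶ N) (d : N ⟶ B) (f2 : B ⟶ B) {m1 : A' ⟶ A'} {m2 : B' ⟶ B'}
    (c1 : e.hom ≫ m1 = f1 ≫ e.hom) (c2 : e'.hom ≫ m2 = f2 ≫ e'.hom)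
    (h1 : ∀ U, Function.Exact (ap f1 U) (ap g1 U)) (h2 : ∀ U, Function.Exact (ap g1 U) (ap d U))
    (h3 : ∀ U, Function.Exact (ap d U) (ap f2 U)) :
    ∃ (p : A' ⟶ N) (q : N ⟶ B'), PhbSeq m1 p q m2 := by
  have i1 : ∀ (U : Aff S) x, ap e.inv U (ap e.hom U x) = x := fun U x => by
    rw [← PM.ap_comp]
    exact congrArg (fun t : A ⟶ A => ap t U x) e.hom_inv_id
  have i2 : ∀ (U : Aff S) x, ap e.hom U (ap e.inv U x) = x := fun U x => by
    rw [← PM.ap_comp]
    exact congrArg (fun t : A' ⟶ A' => ap t U x) e.inv_hom_id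
  have i3 : ∀ (U : Aff S) x, ap e'.inv U (ap e'.hom U x) = x := fun U x => by
    rw [← PM.ap_comp]
    exact congrArg (fun t : B ⟶ B => ap t U x) e'.hom_inv_id
  have i4 : ∀ (U : Aff S) x, ap e'.hom U (ap e'.inv U x) = x := fun U x => by
    rw [← PM.ap_comp]
    exact congrArg (fun t : B' ⟶ B' => ap t U x) e'.inv_hom_id
  have k1 : ∀ (U : Aff S) x, ap m1 U (ap e.hom U x) = ap e.hom U (ap f1 U x) := fun U x => by
    rw [← PM.ap_comp, ← PM.ap_comp]
    exact congrArg (fun t : A ⟶ A' => ap t U x) c1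
  have k2 : ∀ (U : Aff S) x, ap m2 U (ap e'.hom U x) = ap e'.hom U (ap f2 U x) := fun U x => by
    rw [← PM.ap_comp, ← PM.ap_comp]
    exact congrArg (fun t : B ⟶ B' => ap t U x) c2
  refine ⟨e.inv ≫ g1, d ≫ e'.hom, ?_, ?_, ?_⟩
  · intro U x
    change ap g1 U (ap e.inv U x) = 0 ↔ _
    rw [h1 U]
    constructor
    · rintro ⟨z, hz⟩
      exact ⟨ap e.hom U z, by rw [k1, hz, i2]⟩
    · rintro ⟨z, hz⟩
      refine ⟨ap e.inv U z, ?_⟩
      rw [← hz, ← i1 U (ap f1 U _), ← k1, i2]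
  · intro U x
    change ap e'.hom U (ap d U x) = 0 ↔ ∃ z, ap g1 U (ap e.inv U z) = x
    constructor
    · intro h0
      have h4 := congrArg (ap e'.inv U) h0
      rw [i3, map_zero] at h4
      obtain ⟨z, hz⟩ := (h2 U x).1 h4
      exact ⟨ap e.hom U z, by rw [i1, hz]⟩
    · rintro ⟨z, hz⟩
      rw [(h2 U x).2 ⟨_, hz⟩, map_zero]
  · intro U x
    change ap m2 U x = 0 ↔ ∃ z, ap e'.hom U (ap d U z) = x
    constructor
    · intro h0
      rw [← i4 U x, k2] at h0
      have h4 := congrArg (ap e'.inv U) h0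
      rw [i3, map_zero] at h4
      obtain ⟨z, hz⟩ := (h3 U _).1 h4
      exact ⟨z, by rw [hz, i4]⟩
    · rintro ⟨z, rfl⟩
      rw [k2, (h3 U _).2 ⟨z, rfl⟩, map_zero]

private lemma phb_comp_iso {D : Type*} [Category D] [Preadditive D] {O A B : D} (w : O ⟶ A)
    (e : A ≅ B) (h : w ≫ e.hom = 0) : w = 0 := by
  rw [← cancel_mono e.hom, h, zero_comp]

/-- nonzero maps from an object to a shift of the cone -/
private lemma phb_cone {D : Type*} [Category D] [Preadditive D] [HasZeroObject D] [HasShift D ℤ]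
    [∀ n : ℤ, (shiftFunctor D n).Additive] [Pretriangulated D] {Y Z O : D} (φ : Y ⟶ Y) (g : Y ⟶ Z)
    (h : Z ⟶ Y⟦(1 : ℤ)⟧) (hT : Triangle.mk φ g h ∈ distTriang D) (i : ℤ) (u : O ⟶ Z⟦i⟧)
    (hu : u ≠ 0) : (∃ v : O ⟶ Y⟦i⟧, v ≠ 0) ∨ (∃ v : O ⟶ Y⟦i + 1⟧, v ≠ 0) := by
  have hT' := Triangle.shift_distinguished _ hT i
  let w : O ⟶ (Y⟦i⟧)⟦(1 : ℤ)⟧ := u ≫ ((Triangle.shiftFunctor D i).obj (Triangle.mk φ g h)).mor₃
  by_cases h0 : w = 0
  · left
    obtain ⟨v, hv⟩ := Triangle.coyoneda_exact₃ _ hT' u h0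
    refine ⟨v, ?_⟩
    rintro rfl
    apply hu
    rw [hv]
    exact zero_comp
  · right
    exact ⟨w ≫ ((shiftFunctorAdd D i 1).symm.app Y).hom, fun h1 => h0 (phb_comp_iso w _ h1)⟩

theorem koszul_step [IsNoetherian S] [S.IsSeparated] [HasDerivedCategory.{w} (QCoh S)]
    (y : S) (hy : IsClosed ({y} : Set S)) (U : Aff S) (hU : y ∈ U.1) (hA : AffInc U.1)
    (a : Γ(S, U.1)) (ha : ev y hU a = 0) (X : DerivedCategory (QCoh S))
    (hf : ∀ n, Module.Finite Γ(S, U.1) (sec (Hn n X) U)) (b l : ℤ) (hb : y ∈ Supp (Hn b X))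
    (hl : ∀ n, n < l → y ∉ Supp (Hn n X)) :
    ∃ X' : DerivedCategory (QCoh S),
      (∀ n, Module.Finite Γ(S, U.1) (sec (Hn n X') U)) ∧ y ∈ Supp (Hn b X') ∧
      (∀ n, n < l - 1 → y ∉ Supp (Hn n X')) ∧
      (∀ n, ∀ s (hs : s ∈ U.1), s ∈ Supp (Hn n X') →
        ev s hs a = 0 ∧ (s ∈ Supp (Hn n X) ∨ s ∈ Supp (Hn (n + 1) X))) ∧
      (∀ n, IsIso ((ιJ hA).app (Hn n X'))) ∧
      (∀ i : ℤ, (∃ u : Ox y hy ⟶ X'⟦i⟧, u ≠ 0) →
        (∃ u : Ox y hy ⟶ X⟦i⟧, u ≠ 0) ∨ (∃ u : Ox y hy ⟶ X⟦i + 1⟧, u ≠ 0)) := by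
  obtain ⟨μ', hμ'⟩ := exists_natEnd (J hA) (phbMul hA a)
  obtain ⟨X', g, h, hT⟩ := distinguished_cocone_triangle (μ'.app X)
  have hK : ∀ n, PhbK hA a (Hn n X) (Hn (n + 1) X) (Hn n X') := by
    intro n
    obtain ⟨e, he⟩ := hμ' n
    obtain ⟨e', he'⟩ := hμ' (n + 1)
    have c1 : (e.app X).hom ≫ (phbMul hA a).app (Hn n X) =
        (homologyFunctor (QCoh S) n).map (μ'.app X) ≫ (e.app X).hom := (he X).symm
    have c2 : (e'.app X).hom ≫ (phbMul hA a).app (Hn (n + 1) X) =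
        (homologyFunctor (QCoh S) (n + 1)).map (μ'.app X) ≫ (e'.app X).hom := (he' X).symm
    exact phb_seq (e.app X) (e'.app X) ((homologyFunctor (QCoh S) n).map (μ'.app X))
      ((homologyFunctor (QCoh S) n).map g)
      (HomologySequence.δ (Triangle.mk (μ'.app X) g h) n (n + 1) rfl)
      ((homologyFunctor (QCoh S) (n + 1)).map (μ'.app X)) c1 c2
      ((exact_iff _).1 (HomologySequence.exact₂ _ hT n))
      ((exact_iff _).1 (HomologySequence.exact₃ _ hT n (n + 1) rfl))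
      ((exact_iff _).1 (HomologySequence.exact₁ _ hT n (n + 1) rfl))
  refine ⟨X', fun n => phbK_finite (hK n) (hf n) (hf (n + 1)),
    phbK_mem (hK b) y hU ha (hf b) hb, ?_, ?_, fun n => phbK_iso (hK n), ?_⟩
  · intro n hn hy'
    rcases phbK_supp (hK n) hy' with h1 | h1
    · exact hl n (by omega) h1
    · exact hl (n + 1) (by omega) h1
  · intro n s hs hs'
    exact ⟨phbK_ev (hK n) s hs hs', phbK_supp (hK n) hs'⟩
  · rintro i ⟨u, hu⟩
    have key : ∀ j : ℤ, (∃ v : Ox y hy ⟶ ((J hA).mapDerivedCategory.obj X)⟦j⟧, v ≠ 0) →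
        ∃ u : Ox y hy ⟶ X⟦j⟧, u ≠ 0 := by
      rintro j ⟨v, hv⟩
      exact lift_sky y hy U hU hA (X⟦j⟧)
        (v ≫ (((J hA).mapDerivedCategory.commShiftIso j).app X).symm.hom)
        (fun h1 => hv (phb_comp_iso v _ h1))
    exact (phb_cone (μ'.app X) g h hT i u hu).imp (key i) (key (i + 1))

end Pool.Agent.BE
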