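import Pool.Agent.BE.PhB
import Pool.Agent.BE.DerT
import Pool.Agent.BE.SkyFrom
import Pool.Agent.BE.Aff

/-!
# BE-PhB2: Koszul cones (see be/proof.md, (8)(ii))

`koszul_step` twice: `X1` (with `a1`, `b`, `l = b`), `X2` (with `a2`, `b`, `l = b - 1`). The supports of `Hn n X2` meet `U` at most
in `y` (`s ∈ Supp (Hn n X2) ∩ U`: `a2(s) = 0`, `s` in a support of `X1`, so `a1(s) = 0`); as
`Hn n X2 ≅ J_U (Hn n X2)`, they are contained in `{y}` (for `s ∉ U` choose an affine `V ∋ s`, `y ∉ V`: then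
`M(V) ≅ M(V ∩ U) = 0` by `subsingleton_of_disjoint`). For `n < b - 2` they are empty, so `Hn n X2 = 0`. Let `b'` be the
least `n` with `Hn n X2 ≠ 0`: `b - 2 ≤ b' ≤ b`. `exists_fromSky` gives `sky y → Hn b' X2` nonzero,
`exists_from_bottom` a nonzero `O_y⟦-b'⟧ → X2`, hence a nonzero `O_y → X2⟦b'⟧`, then a nonzero `O_y → X1⟦i⟧`,
`i ∈ {b', b'+1}`, and a nonzero `O_y → X⟦i⟧`, `i ∈ {b', b'+1, b'+2}`.
-/

open CategoryTheory CategoryTheory.Limits CategoryTheory.Pretriangulated AlgebraicGeometry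
  Opposite TopologicalSpace DerivedCategory

namespace Pool.Agent.BE

universe w

variable {S : Scheme.{0}}

/-- a module local on `U` whose support meets `U` at most in the closed point `y` is supported
in `{y}` -/
private theorem supp_sub_single (M : QCoh S) (y : S) (hy : IsClosed ({y} : Set S)) (U : Aff S)
    (hA : AffInc U.1) (hi : IsIso ((ιJ hA).app M)) (h : ∀ s ∈ U.1, s ∈ Supp M → s = y) :
    ∀ s ∈ Supp M, s = y := by
  intro s hs
  by_contra hne
  -- affine neighbourhood of `s` not containing `y`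
  have hopen : IsOpen ({y}ᶜ : Set S) := hy.isOpen_compl
  have hmem : s ∈ (⟨{y}ᶜ, hopen⟩ : S.Opens) := hne
  obtain ⟨V, hVa, hsV, hVle⟩ := (TopologicalSpace.Opens.isBasis_iff_nbhd.1
    S.isBasis_affineOpens) hmem
  let V' : Aff S := ⟨V, hVa⟩
  have hdis : ∀ t ∈ (cap hA V').1, t ∉ Supp M := by
    intro t ht hts
    have h1 : t ∈ V := ht.1
    have h2 : t ∈ U.1 := ht.2
    have h3 := h t h2 hts
    have h4 : t ∈ ({y}ᶜ : Set S) := hVle h1
    exact h4 h3
  have hsub : Subsingleton (sec M (cap hA V')) := subsingleton_of_disjoint M _ hdis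
  have hJ : Subsingleton (sec ((J hA).obj M) V') := (jeq hA M V').toEquiv.subsingleton
  have hM : Subsingleton (sec M V') :=
    ((iso_iff ((ιJ hA).app M)).1 hi V').1.subsingleton
  exact not_nontrivial_iff_subsingleton.2 hM (hs V' hsV)

theorem koszul [IsNoetherian S] [S.IsSeparated] [HasDerivedCategory.{w} (QCoh S)]
    (y : S) (hy : IsClosed ({y} : Set S)) (U : Aff S) (hU : y ∈ U.1)
    (a1 a2 : Γ(S, U.1)) (h1 : ev y hU a1 = 0) (h2 : ev y hU a2 = 0)
    (hV : ∀ s (hs : s ∈ U.1), ev s hs a1 = 0 → ev s hs a2 = 0 → s = y)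
    (X : DerivedCategory (QCoh S)) (hX : ∀ n, Coh (Hn n X)) (b : ℤ) (hb : y ∈ Supp (Hn b X))
    (hl : ∀ n, n < b → y ∉ Supp (Hn n X)) :
    ∃ i : ℤ, i ≤ b + 2 ∧ ∃ u : Ox y hy ⟶ X⟦i⟧, u ≠ 0 := by
  have hA : AffInc U.1 := affInc_of_affine U
  obtain ⟨X1, f1, b1, l1, s1, -, k1⟩ := koszul_step y hy U hU hA a1 h1 X (fun n => hX n U) b b hb hl
  obtain ⟨X2, f2, b2, l2, s2, i2, k2⟩ := koszul_step y hy U hU hA a2 h2 X1 f1 b (b - 1) b1 l1
  have hsup : ∀ n, ∀ s ∈ Supp (Hn n X2), s = y := by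
    intro n
    refine supp_sub_single _ y hy U hA (i2 n) ?_
    intro s hs hss
    obtain ⟨e2, e1⟩ := s2 n s hs hss
    have e3 : ev s hs a1 = 0 := by
      rcases e1 with e1 | e1
      · exact (s1 _ s hs e1).1
      · exact (s1 _ s hs e1).1
    exact hV s hs e3 e2
  have hz : ∀ n, n < b - 1 - 1 → IsZero (Hn n X2) := by
    intro n hn
    rw [isZero_iff_supp, Set.eq_empty_iff_forall_notMem]
    intro s hs
    have := hsup n s hs
    subst this
    exact l2 n hn hs
  have hbn : ¬ IsZero (Hn b X2) := by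
    intro h
    rw [isZero_iff_supp] at h
    rw [h] at b2
    exact b2
  -- least degree
  obtain ⟨b', hb', hmin, hle⟩ : ∃ b' : ℤ, ¬ IsZero (Hn b' X2) ∧ (∀ n, n < b' → IsZero (Hn n X2)) ∧
      b' ≤ b := by
    by_cases c0 : IsZero (Hn (b - 2) X2)
    · by_cases c1 : IsZero (Hn (b - 1) X2)
      · refine ⟨b, hbn, fun n hn => ?_, le_rfl⟩
        rcases lt_trichotomy n (b - 2) with h | h | h
        · exact hz n (by omega)
        · subst h; exact c0
        · have : n = b - 1 := by omega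
          subst this; exact c1
      · refine ⟨b - 1, c1, fun n hn => ?_, by omega⟩
        rcases lt_or_eq_of_le (show n ≤ b - 2 by omega) with h | h
        · exact hz n (by omega)
        · subst h; exact c0
    · exact ⟨b - 2, c0, fun n hn => hz n (by omega), by omega⟩
  have hsupp : Supp (Hn b' X2) = {y} := by
    apply Set.Subset.antisymm
    · intro s hs; exact hsup b' s hs
    · intro s hs
      have hs' : s = y := hs
      subst hs'
      by_contra hn
      apply hb'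
      rw [isZero_iff_supp, Set.eq_empty_iff_forall_notMem]
      intro t ht
      have := hsup b' t ht
      subst this
      exact hn ht
  obtain ⟨i, hi⟩ := exists_fromSky (Hn b' X2) y hy hsupp U hU (f2 b')
  obtain ⟨u, e, hue⟩ := exists_from_bottom X2 b' hmin (sky y hy) i
  have hu : u ≠ 0 := by
    rintro rfl
    apply hi
    rw [← hue, Functor.map_zero, comp_zero]
  -- shift
  have hu2 : ∃ v : Ox y hy ⟶ X2⟦b'⟧, v ≠ 0 := by
    let e0 : Ox y hy ≅ ((Ox y hy)⟦-b'⟧)⟦b'⟧ := (shiftNegShift (Ox y hy) b').symm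
    refine ⟨e0.hom ≫ (show (Ox y hy)⟦-b'⟧ ⟶ X2 from u)⟦b'⟧', ?_⟩
    intro h
    apply hu
    have h' : (show (Ox y hy)⟦-b'⟧ ⟶ X2 from u)⟦b'⟧' = 0 := by
      rw [← cancel_epi e0.hom, h, comp_zero]
    exact (Functor.map_eq_zero_iff (shiftFunctor _ b')).1 h'
  rcases k2 b' hu2 with h | h
  · rcases k1 b' h with h | h
    · exact ⟨b', by omega, h⟩
    · exact ⟨b' + 1, by omega, h⟩
  · rcases k1 (b' + 1) h with h | h
    · exact ⟨b' + 1, by omega, h⟩
    · exact ⟨b' + 1 + 1, by omega, h⟩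

end Pool.Agent.BE
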