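import Pool.Agent.BE.SuppA

/-!
# BE-PhO: the structure sheaf

`SecData` with `X U := Γ(S, U.1)`, restriction `rst`; quasi-coherent: `IsAffineOpen.isLocalization_basicOpen`.
Its support is everything (on an integral scheme: sections over an affine neighbourhood of the generic point
are a nonzero ring).
-/

open CategoryTheory CategoryTheory.Limits AlgebraicGeometry Opposite TopologicalSpace

namespace Pool.Agent.BE

variable {S : Scheme.{0}}

/-- the structure sheaf as section data -/
private noncomputable def oData (S : Scheme.{0}) : SecData S where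
  X U := Γ(S, U.1)
  grp U := inferInstance
  mod U := inferInstance
  r h := (rst h).toAddMonoidHom
  r_smul h a m := map_mul (rst h) a m
  r_id U m := rst_id U.1 le_rfl m
  r_comp h h' m := rst_rst h h' m

private theorem oData_isQC : IsQC (oData S).toPM where
  inj U f m hm := by
    have hloc := U.2.isLocalization_basicOpen f
    let m' : Γ(S, U.1) := m
    have hm' : algebraMap Γ(S, U.1) Γ(S, S.basicOpen f) m' = 0 := hm
    rw [IsLocalization.map_eq_zero_iff (Submonoid.powers f)] at hm'
    obtain ⟨⟨c, n, rfl⟩, hc⟩ := hm'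
    exact ⟨n, hc⟩
  surj U f x := by
    have hloc := U.2.isLocalization_basicOpen f
    let x' : Γ(S, S.basicOpen f) := x
    obtain ⟨⟨a, ⟨c, n, rfl⟩⟩, hc⟩ := IsLocalization.surj (Submonoid.powers f) x'
    refine ⟨n, a, ?_⟩
    have h1 : algebraMap Γ(S, U.1) Γ(S, S.basicOpen f) (f ^ n) =
        (rst (S.basicOpen_le f) f) ^ n := map_pow (rst (S.basicOpen_le f)) f n
    have h2 : algebraMap Γ(S, U.1) Γ(S, S.basicOpen f) a =
        (rst (S.basicOpen_le f) f) ^ n * x' := by
      rw [← h1, ← hc, mul_comm]
    exact h2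

theorem exists_coh_generic [IsIntegral S] : ∃ M : QCoh S, Coh M ∧ genericPoint S ∈ Supp M := by
  refine ⟨⟨(oData S).toPM, oData_isQC⟩, fun U => ?_, fun U hU => ?_⟩
  · exact inferInstanceAs (Module.Finite Γ(S, U.1) Γ(S, U.1))
  · have : Nonempty U.1 := ⟨⟨genericPoint S, hU⟩⟩
    exact inferInstanceAs (Nontrivial Γ(S, U.1))

end Pool.Agent.BE
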