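import Pool.Agent.BE.QC

/-!
# BE-QAb1: quasi-coherent modules are closed under isomorphisms, zero, kernels

`IsQC` elementwise. For kernels: Mathlib's class is `IsClosedUnderKernels` (see
Mathlib/CategoryTheory/ObjectProperty/Kernels.lean, Mathlib/CategoryTheory/Abelian/Subcategory.lean).
`PresheafOfModules.evaluation` is exact, so for `i = kernel.ι f` the map `PM.ap i U` is
injective with range `ker (PM.ap f U)`. If `x` over `D(g)` is in the kernel, lift `g^n x` to `m` over
`U`; `f m` dies on `D(g)`, so `g^k f(m) = 0` and `g^k m` is in the kernel.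
-/

open CategoryTheory CategoryTheory.Limits AlgebraicGeometry Opposite TopologicalSpace

namespace Pool.Agent.BE

variable {S : Scheme.{0}}

private theorem qab1_of_iso {X Y : PM S} (e : X ≅ Y) (hX : IsQC X) : IsQC Y := by
  have h1 : ∀ (U : Aff S) (m : Y.sec U), PM.ap e.hom U (PM.ap e.inv U m) = m := by
    intro U m
    rw [← PM.ap_comp, e.inv_hom_id, PM.ap_id]
  refine ⟨fun U f m hm => ?_, fun U f x => ?_⟩
  · obtain ⟨n, hn⟩ := hX.inj U f (PM.ap e.inv U m) (by rw [PM.res_ap, hm, map_zero])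
    refine ⟨n, ?_⟩
    have := congrArg (PM.ap e.hom U) hn
    rw [map_smul, h1, map_zero] at this
    exact this
  · obtain ⟨n, m, hm⟩ := hX.surj U f (PM.ap e.inv _ x)
    refine ⟨n, PM.ap e.hom U m, ?_⟩
    rw [PM.res_ap, hm, map_smul, h1]

instance qc_iso : (qcProp S).IsClosedUnderIsomorphisms :=
  ⟨fun e hX => qab1_of_iso e hX⟩

instance qc_zero : (qcProp S).ContainsZero := by
  obtain ⟨Z, hZ⟩ := HasZeroObject.zero (C := PM S)
  refine ⟨Z, hZ, ?_⟩
  have h : ∀ (U : Aff S) (m : Z.sec U), m = 0 := by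
    intro U m
    have h1 : PM.ap (𝟙 Z) U m = 0 := by
      rw [hZ.eq_of_src (𝟙 Z) 0]
      rfl
    exact h1
  exact ⟨fun U f m _ => ⟨0, h U _⟩, fun U f x => ⟨0, 0, (h _ _).trans (h _ _).symm⟩⟩

private theorem qab1_ker {X Y : PM S} {f : X ⟶ Y} {k : KernelFork f} (hk : IsLimit k) (U : Aff S) :
    Function.Injective (PM.ap (M := k.pt) (N := X) k.ι U) ∧
      ∀ m : X.sec U, PM.ap f U m = 0 → ∃ m' : k.pt.sec U, PM.ap (M := k.pt) (N := X) k.ι U m' = m := by
  constructor
  · have hm : Mono k.ι := mono_of_isLimit_fork hk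
    exact PresheafOfModules.injective_of_mono k.ι (op U)
  · intro m hm
    let T : ShortComplex (PM S) := ShortComplex.mk k.ι f k.condition
    have hT : T.Exact := by
      refine ShortComplex.exact_of_f_is_kernel T ?_
      exact IsLimit.ofIsoLimit hk (Fork.ext (Iso.refl _))
    have hT' := hT.map (PresheafOfModules.evaluation (RAff S) (op U))
    rw [ShortComplex.moduleCat_exact_iff] at hT'
    exact hT' m hm

private theorem qab1_kernel {X Y : PM S} {f : X ⟶ Y} {k : KernelFork f} (hk : IsLimit k)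
    (hX : IsQC X) (hY : IsQC Y) : IsQC k.pt := by
  have hf : ∀ (U : Aff S) (m : k.pt.sec U), PM.ap f U (PM.ap (M := k.pt) (N := X) k.ι U m) = 0 := by
    intro U m
    rw [← PM.ap_comp, k.condition]
    rfl
  refine ⟨fun U g m hm => ?_, fun U g x => ?_⟩
  · obtain ⟨n, hn⟩ := hX.inj U g (PM.ap (M := k.pt) (N := X) k.ι U m)
      (by rw [PM.res_ap, hm, map_zero])
    refine ⟨n, (qab1_ker hk U).1 ?_⟩
    rw [map_smul, hn, map_zero]
  · obtain ⟨n, m, hm⟩ := hX.surj U g (PM.ap (M := k.pt) (N := X) k.ι _ x)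
    obtain ⟨l, hl⟩ := hY.inj U g (PM.ap f U m) (by rw [PM.res_ap, hm, map_smul, hf, smul_zero])
    rw [← map_smul] at hl
    obtain ⟨m', hm'⟩ := (qab1_ker hk U).2 _ hl
    refine ⟨l + n, m', (qab1_ker hk _).1 ?_⟩
    rw [← PM.res_ap, hm', PM.res_smul, hm, map_smul, smul_smul, map_pow, pow_add]

instance qc_kernels : (qcProp S).IsClosedUnderKernels := by
  refine ⟨?_⟩
  rintro _ ⟨f, k, hk, hf⟩
  exact qab1_kernel hk hf.1 hf.2

end Pool.Agent.BE
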