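import Mathlib

/-!
# Project BE: quasi-coherent modules on a scheme, as modules on the poset of affine opens
-/

open CategoryTheory CategoryTheory.Limits AlgebraicGeometry Opposite TopologicalSpace

namespace Pool.Agent.BE

/-- The poset of affine opens of `S`. -/
abbrev Aff (S : Scheme.{0}) : Type := S.affineOpens

/-- The structure presheaf on the poset of affine opens. -/
noncomputable def OAff (S : Scheme.{0}) : (Aff S)ᵒᵖ ⥤ CommRingCat.{0} :=
  (Subtype.mono_coe (· ∈ S.affineOpens)).functor.op ⋙ S.presheaf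

/-- The associated presheaf of rings. -/
noncomputable abbrev RAff (S : Scheme.{0}) : (Aff S)ᵒᵖ ⥤ RingCat.{0} :=
  OAff S ⋙ forget₂ CommRingCat RingCat

/-- Presheaves of modules on the poset of affine opens. -/
abbrev PM (S : Scheme.{0}) := PresheafOfModules.{0} (RAff S)

variable {S : Scheme.{0}}

/-- sections over an affine open -/
abbrev PM.sec (M : PM S) (U : Aff S) : Type := M.obj (op U)

noncomputable instance (M : PM S) (U : Aff S) : Module Γ(S, U.1) (M.sec U) :=
  inferInstanceAs (Module ((OAff S).obj (op U)) (M.obj (op U)))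

/-- restriction map of a presheaf of modules -/
noncomputable def PM.res (M : PM S) {V U : Aff S} (h : V ≤ U) : M.sec U →+ M.sec V :=
  AddMonoidHom.mk' (fun m => M.map (homOfLE h).op m)
    (by intro a b; exact map_add (M.map (homOfLE h).op).hom a b)

/-- restriction of functions -/
noncomputable def rst {V U : S.Opens} (h : V ≤ U) : Γ(S, U) →+* Γ(S, V) :=
  (S.presheaf.map (homOfLE h).op).hom

lemma rst_id (U : S.Opens) (h : U ≤ U) (a : Γ(S, U)) : rst h a = a := by
  simp [rst]

lemma rst_rst {W V U : S.Opens} (h : V ≤ U) (h' : W ≤ V) (a : Γ(S, U)) :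
    rst h' (rst h a) = rst (h'.trans h) a := by
  have : (homOfLE (h'.trans h)).op = (homOfLE h).op ≫ (homOfLE h').op := rfl
  simp [rst, this]

lemma PM.res_smul (M : PM S) {V U : Aff S} (h : V ≤ U) (a : Γ(S, U.1)) (m : M.sec U) :
    M.res h (a • m) = rst h a • M.res h m :=
  M.map_smul (homOfLE h).op a m

lemma PM.res_id (M : PM S) (U : Aff S) (h : U ≤ U) (m : M.sec U) : M.res h m = m := by
  have : (homOfLE h).op = 𝟙 (op U) := rfl
  change M.map (𝟙 (op U)) m = m
  rw [M.map_id]
  rfl

lemma PM.res_res (M : PM S) {W V U : Aff S} (h : V ≤ U) (h' : W ≤ V) (m : M.sec U) :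
    M.res h' (M.res h m) = M.res (h'.trans h) m :=
  (M.map_comp_apply (homOfLE h).op (homOfLE h').op m).symm

/-- The linear map induced on sections by a morphism. -/
noncomputable def PM.ap {M N : PM S} (f : M ⟶ N) (U : Aff S) : M.sec U →ₗ[Γ(S, U.1)] N.sec U :=
  (f.app (op U)).hom

lemma PM.res_ap {M N : PM S} (f : M ⟶ N) {V U : Aff S} (h : V ≤ U) (m : M.sec U) :
    N.res h (PM.ap f U m) = PM.ap f V (M.res h m) :=
  (PresheafOfModules.naturality_apply f (homOfLE h).op m).symm

lemma PM.ap_comp {M N K : PM S} (f : M ⟶ N) (g : N ⟶ K) (U : Aff S) (m : M.sec U) :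
    PM.ap (f ≫ g) U m = PM.ap g U (PM.ap f U m) := rfl

lemma PM.ap_id (M : PM S) (U : Aff S) (m : M.sec U) : PM.ap (𝟙 M) U m = m := rfl

lemma PM.ap_add {M N : PM S} (f g : M ⟶ N) (U : Aff S) (m : M.sec U) :
    PM.ap (f + g) U m = PM.ap f U m + PM.ap g U m := rfl

lemma PM.ap_sub {M N : PM S} (f g : M ⟶ N) (U : Aff S) (m : M.sec U) :
    PM.ap (f - g) U m = PM.ap f U m - PM.ap g U m := rfl

lemma PM.ap_zero {M N : PM S} (U : Aff S) (m : M.sec U) :
    PM.ap (0 : M ⟶ N) U m = 0 := rfl

lemma PM.hom_ext {M N : PM S} {f g : M ⟶ N} (h : ∀ U m, PM.ap f U m = PM.ap g U m) : f = g := by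
  apply PresheafOfModules.hom_ext
  intro X
  ext m
  exact h X.unop m

/-- Data defining a presheaf of modules on the affine opens. -/
structure SecData (S : Scheme.{0}) where
  /-- sections -/
  X : Aff S → Type
  /-- group structure -/
  grp : ∀ U, AddCommGroup (X U)
  /-- module structure -/
  mod : ∀ U, Module Γ(S, U.1) (X U)
  /-- restriction maps -/
  r : ∀ {V U : Aff S}, V ≤ U → X U →+ X V
  r_smul : ∀ {V U : Aff S} (h : V ≤ U) (a : Γ(S, U.1)) (m : X U), r h (a • m) = rst h a • r h m
  r_id : ∀ (U : Aff S) (m : X U), r le_rfl m = m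
  r_comp : ∀ {W V U : Aff S} (h : V ≤ U) (h' : W ≤ V) (m : X U), r h' (r h m) = r (h'.trans h) m

attribute [instance] SecData.grp SecData.mod

/-- The presheaf of abelian groups with given sections. -/
noncomputable def SecData.toAb (d : SecData S) : (Aff S)ᵒᵖ ⥤ Ab.{0} where
  obj U := AddCommGrpCat.of (d.X U.unop)
  map {U V} f := AddCommGrpCat.ofHom (d.r (leOfHom f.unop))
  map_id U := by
    ext m
    exact d.r_id U.unop m
  map_comp {U V W} f g := by
    ext m
    exact (d.r_comp (leOfHom f.unop) (leOfHom g.unop) m).symm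

noncomputable instance (d : SecData S) (U : (Aff S)ᵒᵖ) :
    Module ((RAff S).obj U) (d.toAb.obj U) :=
  inferInstanceAs (Module Γ(S, U.unop.1) (d.X U.unop))

/-- The presheaf of modules with given sections. -/
noncomputable def SecData.toPM (d : SecData S) : PM S :=
  PresheafOfModules.ofPresheaf d.toAb
    (fun {_ _} f a m => d.r_smul (leOfHom f.unop) a m)

/-- Sections of `d.toPM` over `U` are (definitionally) `d.X U`. -/
noncomputable def SecData.secEquiv (d : SecData S) (U : Aff S) :
    d.toPM.sec U ≃ₗ[Γ(S, U.1)] d.X U where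
  toFun m := m
  invFun m := m
  map_add' _ _ := rfl
  map_smul' _ _ := rfl
  left_inv _ := rfl
  right_inv _ := rfl

lemma SecData.res_toPM (d : SecData S) {V U : Aff S} (h : V ≤ U) (m : d.X U) :
    d.toPM.res h ((d.secEquiv U).symm m) = (d.secEquiv V).symm (d.r h m) := rfl

/-- Construct a morphism of presheaves of modules from its linear maps on sections. -/
noncomputable def PM.mkHom {M N : PM S} (φ : ∀ U : Aff S, M.sec U →ₗ[Γ(S, U.1)] N.sec U)
    (hφ : ∀ {V U : Aff S} (h : V ≤ U) (m : M.sec U), N.res h (φ U m) = φ V (M.res h m)) :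
    M ⟶ N where
  app X := ModuleCat.ofHom (φ X.unop)
  naturality {X Y} f := by
    ext m
    exact (hφ (leOfHom f.unop) m).symm

lemma PM.ap_mkHom {M N : PM S} (φ : ∀ U : Aff S, M.sec U →ₗ[Γ(S, U.1)] N.sec U)
    (hφ : ∀ {V U : Aff S} (h : V ≤ U) (m : M.sec U), N.res h (φ U m) = φ V (M.res h m))
    (U : Aff S) : PM.ap (PM.mkHom φ hφ) U = φ U := rfl

/-- `D(f)` as an affine open. -/
noncomputable abbrev bas (U : Aff S) (f : Γ(S, U.1)) : Aff S := S.affineBasicOpen f

lemma bas_le (U : Aff S) (f : Γ(S, U.1)) : bas U f ≤ U := S.affineBasicOpen_le f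

/-- Quasi-coherence: for every affine open `U` and every `f ∈ Γ(S, U)` the module of sections
over `D(f)` is the localisation at `f` of the module of sections over `U`. -/
structure IsQC (M : PM S) : Prop where
  inj : ∀ (U : Aff S) (f : Γ(S, U.1)) (m : M.sec U), M.res (bas_le U f) m = 0 →
    ∃ n : ℕ, f ^ n • m = 0
  surj : ∀ (U : Aff S) (f : Γ(S, U.1)) (x : M.sec (bas U f)), ∃ (n : ℕ) (m : M.sec U),
    M.res (bas_le U f) m = (rst (bas_le U f) f) ^ n • x

/-- The property of being quasi-coherent. -/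
def qcProp (S : Scheme.{0}) : ObjectProperty (PM S) := fun M => IsQC M

/-- The category of quasi-coherent modules on `S`. -/
abbrev QCoh (S : Scheme.{0}) := (qcProp S).FullSubcategory

end Pool.Agent.BE
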