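import Pool.Agent.BE.Sky0

/-!
# BE: skyscraper sheaves
-/

open CategoryTheory CategoryTheory.Limits AlgebraicGeometry Opposite TopologicalSpace

namespace Pool.Agent.BE

variable {S : Scheme.{0}}

/-- the skyscraper sheaf `O_x = κ(x)` at a closed point `x` -/
noncomputable def sky (x : S) (hx : IsClosed ({x} : Set S)) : QCoh S :=
  ⟨(kData x).toPM, kData_isQC x hx⟩

/-- sections of the skyscraper sheaf -/
noncomputable def skyeq (x : S) (hx : IsClosed ({x} : Set S)) (U : Aff S) :
    sec (sky x hx) U ≃+ (PLift (x ∈ U.1) → S.residueField x) := AddEquiv.refl _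

lemma skyeq_smul (x : S) (hx : IsClosed ({x} : Set S)) (U : Aff S) (a : Γ(S, U.1))
    (m : sec (sky x hx) U) (h : PLift (x ∈ U.1)) :
    skyeq x hx U (a • m) h = ev x h.down a * skyeq x hx U m h := rfl

lemma skyeq_res (x : S) (hx : IsClosed ({x} : Set S)) {V U : Aff S} (hVU : V ≤ U)
    (m : sec (sky x hx) U) (h : PLift (x ∈ V.1)) :
    skyeq x hx V (res (sky x hx) hVU m) h = skyeq x hx U m ⟨hVU h.down⟩ := rfl

end Pool.Agent.BE
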