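import Pool.Agent.BE.Stab

/-!
# BE-StA: elementary properties of slicings and Harder-Narasimhan filtrations

`P_shift_int`: induction on `n` (natural numbers, then negatives), `P_shift`, `P_iso`,
`shiftFunctorAdd`, `shiftFunctorZero`. `hn_iso`: cases. `hn_shift`: induction on the filtration;
shift the triangle (`Triangle.shift_distinguished`), the sign of the maps is absorbed by changing the
maps, the commutation `(E⟦1⟧)⟦n⟧ ≅ (E⟦n⟧)⟦1⟧`. `hn_mem`: induction, `T` is triangulated (closed under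
extensions: `ObjectProperty.IsTriangulated`, `ext_of_isTriangulatedClosed₂`).
-/

open CategoryTheory CategoryTheory.Limits CategoryTheory.Pretriangulated

namespace Pool.Agent.BE

universe v u

variable {D : Type u} [Category.{v} D] [Preadditive D] [HasZeroObject D] [HasShift D ℤ]
  [∀ n : ℤ, (shiftFunctor D n).Additive] [Pretriangulated D] [IsTriangulated D]
  {T : ObjectProperty D} [T.IsTriangulated] [T.IsClosedUnderIsomorphisms]

namespace StabCond

variable (σ : StabCond T)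

omit [IsTriangulated D] [T.IsTriangulated] [T.IsClosedUnderIsomorphisms] in
private theorem sta_iso {φ : ℝ} {X Y : D} (e : X ≅ Y) : σ.P φ X ↔ σ.P φ Y :=
  ⟨σ.P_iso φ _ _ e, σ.P_iso φ _ _ e.symm⟩

omit [IsTriangulated D] [T.IsTriangulated] [T.IsClosedUnderIsomorphisms] in
private theorem sta_shift_nat (φ : ℝ) (n : ℕ) (X : D) :
    σ.P φ X ↔ σ.P (φ + n) (X⟦(n : ℤ)⟧) := by
  induction n with
  | zero =>
    have e : X⟦((0 : ℕ) : ℤ)⟧ ≅ X := (shiftFunctorZero' D ((0 : ℕ) : ℤ) (by simp)).app X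
    rw [Nat.cast_zero, add_zero]
    exact (sta_iso σ e).symm
  | succ n ih =>
    have e : X⟦((n + 1 : ℕ) : ℤ)⟧ ≅ (X⟦(n : ℤ)⟧)⟦(1 : ℤ)⟧ :=
      (shiftFunctorAdd' D (n : ℤ) 1 ((n + 1 : ℕ) : ℤ) (by push_cast; ring)).app X
    rw [ih, σ.P_shift, sta_iso σ e]
    have h1 : φ + (n : ℝ) + 1 = φ + ((n + 1 : ℕ) : ℝ) := by push_cast; ring
    rw [h1]

theorem P_shift_int (φ : ℝ) (n : ℤ) (X : D) : σ.P φ X ↔ σ.P (φ + n) (X⟦n⟧) := by
  obtain ⟨m, rfl | rfl⟩ := n.eq_nat_or_neg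
  · have := sta_shift_nat σ φ m X
    simpa using this
  · have h1 := sta_shift_nat σ (φ - m) m (X⟦(-(m : ℤ))⟧)
    have e : (X⟦(-(m : ℤ))⟧)⟦(m : ℤ)⟧ ≅ X :=
      (shiftFunctorCompIsoId D (-(m : ℤ)) (m : ℤ) (by ring)).app X
    rw [sta_iso σ e] at h1
    have h2 : φ - (m : ℝ) + (m : ℝ) = φ := by ring
    have h3 : φ + ((-(m : ℤ) : ℤ) : ℝ) = φ - m := by push_cast; ring
    rw [h2] at h1
    rw [h3]
    exact h1.symm

theorem hn_iso {l : List ℝ} {X Y : D} (e : X ≅ Y) (h : HNFilt σ.P l X) : HNFilt σ.P l Y := by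
  cases h with
  | zero _ h => exact HNFilt.zero _ (h.of_iso e.symm)
  | cons φ l E _ A f g h hT hA hA0 hl hE =>
    refine HNFilt.cons φ l E Y A (f ≫ e.hom) (e.inv ≫ g) h ?_ hA hA0 hl hE
    refine isomorphic_distinguished _ hT _ ?_
    exact Triangle.isoMk (Triangle.mk (f ≫ e.hom) (e.inv ≫ g) h) (Triangle.mk f g h)
      (Iso.refl E) e.symm (Iso.refl A)
      (by change (f ≫ e.hom) ≫ e.inv = 𝟙 E ≫ f; simp)
      (by change (e.inv ≫ g) ≫ 𝟙 A = e.inv ≫ g; simp)
      (by change h ≫ (shiftFunctor D (1 : ℤ)).map (𝟙 E) = 𝟙 A ≫ h; simp)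

theorem hn_shift {l : List ℝ} {X : D} (n : ℤ) (h : HNFilt σ.P l X) :
    HNFilt σ.P (l.map (· + (n : ℝ))) (X⟦n⟧) := by
  induction h with
  | zero X h => exact HNFilt.zero _ ((shiftFunctor D n).map_isZero h)
  | cons φ l E X A f g h hT hA hA0 hl hE ih =>
    rw [List.map_cons]
    refine HNFilt.cons (φ + n) _ (E⟦n⟧) (X⟦n⟧) (A⟦n⟧) _ _ _
      (Triangle.shift_distinguished _ hT n) ((P_shift_int σ φ n A).1 hA) ?_ ?_ ih
    · intro h0
      apply hA0
      have h1 : (𝟙 A : A ⟶ A) = 0 := by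
        apply (shiftFunctor D n).map_injective
        exact h0.eq_of_src _ _
      exact (IsZero.iff_id_eq_zero _).2 h1
    · intro ψ hψ
      rw [List.mem_map] at hψ
      obtain ⟨a, ha, rfl⟩ := hψ
      have := hl a ha
      linarith

theorem hn_mem {l : List ℝ} {X : D} (h : HNFilt σ.P l X) : T X := by
  induction h with
  | zero X h => exact T.prop_of_isZero h
  | cons φ l E X A f g h hT hA hA0 hl hE ih =>
    exact T.ext_of_isTriangulatedClosed₂ _ hT ih (σ.P_le φ A hA)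

end StabCond

end Pool.Agent.BE
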