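import Pool.Agent.BE.StA

/-!
# BE-StB: morphisms and Harder-Narasimhan filtrations

`hn_hom_zero`: induction on `hX` then on `hY` (long exact Hom sequences, `yoneda_exact`/`coyoneda_exact`:
Mathlib `Pretriangulated.Triangle.yoneda_exact₂`, `coyoneda_exact₂`), `σ.hom_zero`. `hn_not_isZero`: if
`X = 0` then `A → E⟦1⟧` is an isomorphism; by `σ.hom_zero` type argument `Hom(A, E⟦1⟧) = 0`: the factors of
`E⟦1⟧` have phases `> φ + 1 > φ`: hmm, this is the wrong direction. Instead: `X = 0` gives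
`E ≅ A⟦-1⟧`, an object of `P (φ - 1)`, while `E` has a filtration with phases `> φ`: so
`Hom(E, A⟦-1⟧) = 0` by `hn_hom_zero` and `E = 0`, `A = 0`, contradiction. `P_of_hn`: `l` is strictly
increasing towards the head: `l = []` or `l = [φ]` (two equal entries are impossible), `X ≅ A`.
-/

open CategoryTheory CategoryTheory.Limits CategoryTheory.Pretriangulated
open scoped ZeroObject

namespace Pool.Agent.BE

universe v u

variable {D : Type u} [Category.{v} D] [Preadditive D] [HasZeroObject D] [HasShift D ℤ]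
  [∀ n : ℤ, (shiftFunctor D n).Additive] [Pretriangulated D] [IsTriangulated D]
  {T : ObjectProperty D} [T.IsTriangulated] [T.IsClosedUnderIsomorphisms]

namespace StabCond

variable (σ : StabCond T)

omit [IsTriangulated D] [T.IsTriangulated] [T.IsClosedUnderIsomorphisms] in
private theorem stb_hom_zero {l : List ℝ} {X : D} (hX : HNFilt σ.P l X) :
    ∀ {χ : ℝ} {C : D}, σ.P χ C → (∀ ψ ∈ l, χ < ψ) → ∀ f : X ⟶ C, f = 0 := by
  induction hX with
  | zero X h => intro χ C _ _ f; exact h.eq_of_src _ _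
  | cons φ l E X A f g h hT hA hA0 hl hE ih =>
    intro χ C hC hχ u
    have h1 : f ≫ u = 0 := ih hC (fun ψ hψ => hχ ψ (List.mem_cons_of_mem _ hψ)) _
    obtain ⟨v, hv⟩ : ∃ v : A ⟶ C, u = g ≫ v := Triangle.yoneda_exact₂ _ hT u h1
    have h2 : v = 0 := σ.hom_zero φ χ (hχ φ List.mem_cons_self) _ _ hA hC v
    rw [hv, h2, comp_zero]

omit [IsTriangulated D] [T.IsTriangulated] [T.IsClosedUnderIsomorphisms] in
private theorem stb_hom_zero' {l l' : List ℝ} {X Y : D} (hX : HNFilt σ.P l X)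
    (hY : HNFilt σ.P l' Y) : (∀ ψ ∈ l, ∀ ψ' ∈ l', ψ' < ψ) → ∀ f : X ⟶ Y, f = 0 := by
  induction hY with
  | zero Y h => intro _ f; exact h.eq_of_tgt _ _
  | cons φ l' E Y A f g h hT hA hA0 hl hE ih =>
    intro hφ u
    have h1 : u ≫ g = 0 :=
      stb_hom_zero σ hX hA (fun ψ hψ => hφ ψ hψ φ List.mem_cons_self) _
    obtain ⟨v, hv⟩ : ∃ v : X ⟶ E, u = v ≫ f := Triangle.coyoneda_exact₂ _ hT u h1
    have h2 : v = 0 := ih (fun ψ hψ ψ' hψ' => hφ ψ hψ ψ' (List.mem_cons_of_mem _ hψ')) v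
    rw [hv, h2, zero_comp]

theorem hn_hom_zero {l l' : List ℝ} {X Y : D} (hX : HNFilt σ.P l X) (hY : HNFilt σ.P l' Y)
    (h : ∀ ψ ∈ l, ∀ ψ' ∈ l', ψ' < ψ) (f : X ⟶ Y) : f = 0 :=
  stb_hom_zero' σ hX hY h f

theorem hn_not_isZero {φ : ℝ} {l : List ℝ} {X : D} (h : HNFilt σ.P (φ :: l) X) :
    ¬ IsZero X := by
  intro h0
  cases h with
  | cons _ _ E _ A f g h hT hA hA0 hl hE =>
    have hiso : IsIso h := (Triangle.isZero₂_iff_isIso₃ _ hT).1 h0
    have h1 := hn_shift σ 1 hE
    have h2 : (inv h : E⟦(1 : ℤ)⟧ ⟶ A) = 0 := by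
      refine stb_hom_zero σ h1 hA ?_ _
      intro ψ hψ
      rw [List.mem_map] at hψ
      obtain ⟨a, ha, rfl⟩ := hψ
      have := hl a ha
      push_cast
      linarith
    apply hA0
    rw [IsZero.iff_id_eq_zero]
    have h3 : 𝟙 A = h ≫ inv h := (IsIso.hom_inv_id h).symm
    rw [h3, h2, comp_zero]

theorem P_of_hn {φ : ℝ} {l : List ℝ} {X : D} (h : HNFilt σ.P l X) (hl : ∀ ψ ∈ l, ψ = φ) :
    σ.P φ X := by
  cases h with
  | zero _ h => exact σ.P_zero φ _ h
  | cons φ' l' E _ A f g h hT hA hA0 hl' hE =>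
    have e1 : φ' = φ := hl φ' List.mem_cons_self
    subst e1
    have e2 : l' = [] := by
      rcases l' with _ | ⟨a, l'⟩
      · rfl
      · exfalso
        have h1 := hl' a List.mem_cons_self
        have h2 := hl a (List.mem_cons_of_mem _ List.mem_cons_self)
        linarith
    subst e2
    have hE0 : IsZero E := by
      cases hE with
      | zero _ h => exact h
    have hiso : IsIso g := (Triangle.isZero₁_iff_isIso₂ _ hT).1 hE0
    exact σ.P_iso _ _ _ (asIso g).symm hA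

end StabCond

end Pool.Agent.BE
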