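import Pool.Agent.BE.StB

/-!
# BE-StC: bounds for the Harder-Narasimhan phases

`hn_le`: let `ψ` be the largest entry of `l` (the last one: the first step of the filtration
`0 → E_1`, `E_1 ≅ A_1 ∈ P ψ`). The map `E_1 → X` is nonzero: induction, at each step the kernel
`Hom(E_1, A_i⟦-1⟧) = 0` (`A_i⟦-1⟧ ∈ P(φ_i - 1)`), so `Hom(E_1, E_{i-1}) → Hom(E_1, E_i)` is injective. Hence
`ψ ≤ φ` by `h0`. (Prove first: for `hE : HNFilt σ.P l X` with `l ≠ []` there are `ψ ∈ l` with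
`∀ ψ' ∈ l, ψ' ≤ ψ`, `A` with `σ.P ψ A` and a nonzero map `A ⟶ X`.) `hn_ge`: the last triangle
`E → X → A`, `A ∈ P ψ`, `ψ` the head (smallest) of `l`, is nonzero on `X → A`: otherwise `A → E⟦1⟧` is a split
monomorphism, but ... `E → X` would be split epi: `X` is a direct summand of `E`, so
`Hom(X, A) = 0` is consistent; use instead: `X → A` zero implies `A` is a summand of `E⟦1⟧`: the map
`A → E⟦1⟧` has a retraction `E⟦1⟧ → A`, and `Hom(E⟦1⟧, A) = 0` because the phases of `E⟦1⟧` are `> φ + 1 > φ`; so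
`A = 0`, contradiction.
-/

open CategoryTheory CategoryTheory.Limits CategoryTheory.Pretriangulated
open scoped ZeroObject

namespace Pool.Agent.BE

universe v u

variable {D : Type u} [Category.{v} D] [Preadditive D] [HasZeroObject D] [HasShift D ℤ]
  [∀ n : ℤ, (shiftFunctor D n).Additive] [Pretriangulated D] [IsTriangulated D]
  {T : ObjectProperty D} [T.IsTriangulated] [T.IsClosedUnderIsomorphisms]

namespace StabCond

variable (σ : StabCond T)

omit [IsTriangulated D] [T.IsTriangulated] [T.IsClosedUnderIsomorphisms] in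
private theorem stc_shift_zero {A B : D} (f : A ⟶ B) (h : f⟦(1 : ℤ)⟧' = 0) : f = 0 := by
  apply (shiftFunctor D (1 : ℤ)).map_injective
  rw [h, Functor.map_zero]

private theorem stc_single {χ : ℝ} {C : D} (hC : σ.P χ C) (h0 : ¬ IsZero C) :
    HNFilt σ.P [χ] C :=
  HNFilt.cons χ [] (0 : D) C C 0 (𝟙 C) 0 (contractible_distinguished₁ C) hC h0
    (by simp) (HNFilt.zero _ (isZero_zero D))

private theorem stc_top {l : List ℝ} {X : D} (h : HNFilt σ.P l X) : l ≠ [] →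
    ∃ ψ ∈ l, (∀ ψ' ∈ l, ψ' ≤ ψ) ∧ ∃ A : D, σ.P ψ A ∧ ∃ f : A ⟶ X, f ≠ 0 := by
  induction h with
  | zero X h => intro h; exact absurd rfl h
  | cons φ l E X A f g h hT hA hA0 hl hE ih =>
    intro _
    by_cases hnil : l = []
    · subst hnil
      have hE0 : IsZero E := by
        cases hE with
        | zero _ h => exact h
      have hiso : IsIso g := (Triangle.isZero₁_iff_isIso₂ _ hT).1 hE0
      refine ⟨φ, List.mem_cons_self, by simp, A, hA, inv g, ?_⟩
      intro h1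
      apply hA0
      rw [IsZero.iff_id_eq_zero]
      have h3 : 𝟙 A = inv g ≫ g := (IsIso.inv_hom_id g).symm
      rw [h3, h1, zero_comp]
    · obtain ⟨ψ, hψ, hmax, A', hA', u, hu⟩ := ih hnil
      refine ⟨ψ, List.mem_cons_of_mem _ hψ, ?_, A', hA', u ≫ f, ?_⟩
      · intro ψ' hψ'
        rcases List.mem_cons.1 hψ' with rfl | h1
        · exact (hl ψ hψ).le
        · exact hmax ψ' h1
      · intro h1
        apply hu
        apply stc_shift_zero
        obtain ⟨v, hv⟩ : ∃ v : A'⟦(1 : ℤ)⟧ ⟶ A, u⟦(1 : ℤ)⟧' = v ≫ h :=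
          Triangle.coyoneda_exact₁ _ hT (u⟦(1 : ℤ)⟧') (by
            change u⟦(1 : ℤ)⟧' ≫ f⟦(1 : ℤ)⟧' = 0
            rw [← Functor.map_comp, h1, Functor.map_zero])
        have h2 : v = 0 := σ.hom_zero (ψ + 1) φ (by have := hl ψ hψ; linarith) _ _
          ((σ.P_shift ψ A').1 hA') hA v
        rw [hv, h2, zero_comp]

theorem hn_le {l : List ℝ} {X : D} (h : HNFilt σ.P l X) (φ : ℝ)
    (h0 : ∀ ψ A, φ < ψ → σ.P ψ A → ∀ f : A ⟶ X, f = 0) : ∀ ψ ∈ l, ψ ≤ φ := by
  intro ψ' hψ'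
  by_contra hlt
  push Not at hlt
  obtain ⟨ψ, hψ, hmax, A, hA, f, hf⟩ := stc_top σ h (List.ne_nil_of_mem hψ')
  exact hf (h0 ψ A (hlt.trans_le (hmax ψ' hψ')) hA f)

theorem hn_ge {l : List ℝ} {X : D} (h : HNFilt σ.P l X) (φ : ℝ)
    (h0 : ∀ ψ A, ψ < φ → σ.P ψ A → ∀ f : X ⟶ A, f = 0) : ∀ ψ ∈ l, φ ≤ ψ := by
  intro ψ hψ
  by_contra hlt
  push Not at hlt
  cases h with
  | zero _ h => simp at hψ
  | cons φ' l' E _ A f g h hT hA hA0 hl' hE =>
    have hle : φ' ≤ ψ := by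
      rcases List.mem_cons.1 hψ with rfl | h1
      · exact le_refl _
      · exact (hl' ψ h1).le
    have hg : g = 0 := h0 φ' A (hle.trans_lt hlt) hA g
    apply hA0
    rw [IsZero.iff_id_eq_zero]
    obtain ⟨s, hs⟩ : ∃ s : E⟦(1 : ℤ)⟧ ⟶ A, 𝟙 A = h ≫ s :=
      Triangle.yoneda_exact₃ _ hT (𝟙 A) (by
        change g ≫ 𝟙 A = 0
        rw [hg, zero_comp])
    have h1 := hn_shift σ 1 hE
    have h2 : s = 0 := by
      refine σ.hn_hom_zero h1 (stc_single σ hA hA0) ?_ s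
      intro ψ hψ ψ' hψ'
      rw [List.mem_map] at hψ
      obtain ⟨a, ha, rfl⟩ := hψ
      rw [List.mem_singleton] at hψ'
      subst hψ'
      have := hl' a ha
      push_cast
      linarith
    rw [hs, h2, comp_zero]

end StabCond

end Pool.Agent.BE
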