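import Pool.Agent.BE.StC

/-!
# BE-StD: `P φ` is closed under extensions

`X` is in `T`, so it has an HN filtration `l` (`σ.hn`). For `ψ > φ`, `C ∈ P ψ`: `Hom(C, A) = Hom(C, B) = 0`, so
`Hom(C, X) = 0`: `hn_le` gives all entries `≤ φ`. Same with `hn_ge`. Then `P_of_hn`.
-/

open CategoryTheory CategoryTheory.Limits CategoryTheory.Pretriangulated
open scoped ZeroObject

namespace Pool.Agent.BE

universe v u

variable {D : Type u} [Category.{v} D] [Preadditive D] [HasZeroObject D] [HasShift D ℤ]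
  [∀ n : ℤ, (shiftFunctor D n).Additive] [Pretriangulated D] [IsTriangulated D]
  {T : ObjectProperty D} [T.IsTriangulated] [T.IsClosedUnderIsomorphisms]

namespace StabCond

variable (σ : StabCond T)

/-- extensions of objects of `P φ` are in `P φ` -/
theorem P_ext {φ : ℝ} {A X B : D} (f : A ⟶ X) (g : X ⟶ B) (h : B ⟶ A⟦(1 : ℤ)⟧)
    (hT : Triangle.mk f g h ∈ distTriang D) (hA : σ.P φ A) (hB : σ.P φ B) : σ.P φ X := by
  have hTX : T X := T.ext_of_isTriangulatedClosed₂ _ hT (σ.P_le φ A hA) (σ.P_le φ B hB)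
  obtain ⟨l, hl⟩ := σ.hn X hTX
  apply σ.P_of_hn hl
  intro ψ hψ
  apply le_antisymm
  · refine σ.hn_le hl φ ?_ ψ hψ
    intro ψ C hψ hC u
    obtain ⟨v, hv⟩ : ∃ v : C ⟶ A, u = v ≫ f :=
      Triangle.coyoneda_exact₂ _ hT u (σ.hom_zero ψ φ hψ _ _ hC hB _)
    rw [hv, σ.hom_zero ψ φ hψ _ _ hC hA v, zero_comp]
  · refine σ.hn_ge hl φ ?_ ψ hψ
    intro ψ C hψ hC u
    obtain ⟨v, hv⟩ : ∃ v : B ⟶ C, u = g ≫ v :=
      Triangle.yoneda_exact₂ _ hT u (σ.hom_zero φ ψ hψ _ _ hA hC _)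
    rw [hv, σ.hom_zero φ ψ hψ _ _ hB hC v, comp_zero]

end StabCond

end Pool.Agent.BE
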