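import Pool.Agent.BE.StD

/-!
# BE-StE: kernels in `P φ`

Complete `f` to a triangle `K → A → S0 → K⟦1⟧`, `K ∈ T`. Let `l` be an HN filtration of `K`. For `ψ > φ`,
`C ∈ P ψ`: `Hom(C, A) = 0`, `Hom(C, S0⟦-1⟧) = 0` so `Hom(C, K) = 0`: all entries of `l` are `≤ φ` (`hn_le`).
For the lower bound use that the phases of `K` are `≥ φ - 1`... precisely: (`K → A → S0`) for `C ∈ P ψ` with
`ψ < φ - 1`: `Hom(A, C) = 0` and `Hom(S0⟦-1⟧, C) = 0`, so `Hom(K, C) = 0`: entries `≥ φ - 1`. So `K` is an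
extension `K' → K → K''` with `K'` having HN factors of phase exactly `φ` (or zero), `K''` HN factors of phases in
`[φ-1, φ)`. Let `K → K''` and let `I` be the cone of `K' → A` (octahedral axiom, `K' → K → A`):
triangles `K' → A → I` and `K'' → I → S0` (`K''` = cone of `K' → K`). `I`: from `K' → A → I → K'⟦1⟧` the phases of `I`
are... For `C ∈ P ψ`, `ψ < φ`: `Hom(A, C) = 0`, `Hom(K'⟦1⟧, C) = 0`, so `Hom(I, C) = 0`: phases of `I` `≥ φ`;
for `C ∈ P ψ`, `ψ > φ`: `Hom(C, S0) = 0`, `Hom(C, K'') = 0`: `Hom(C, I) = 0`: so `I ∈ P φ`. The triangle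
`I → S0 → K''⟦1⟧`: `K''⟦1⟧` has phases in `[φ, φ+1)`, and from `I → S0 → K''⟦1⟧ → I⟦1⟧`: for `C ∈ P ψ`, `ψ > φ`:
`Hom(C, K''⟦1⟧)`: `Hom(C, S0) = 0` and `Hom(C, I⟦1⟧)`, nonzero possibly only for `ψ ≤ φ + 1`. Consider
the HN filtration of `K''⟦1⟧`: an extension of a part `Q0 ∈ P φ` (lowest phases, a quotient) by a part
`Q1` with phases in `(φ, φ+1)`: `Q1 → K''⟦1⟧ → Q0`. Composite `S0 → Q0`, with fibre `I'`: octahedral axiom:
`I → I' → Q1`. `I'` has phases `≥ φ` (`I`, `Q1` do) and `≤ φ` (`S0`, `Q0⟦-1⟧`), so `I' ∈ P φ`; `S0` stable, triangle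
`I' → S0 → Q0` in `P φ`: `I' = 0` or `Q0 = 0`. If `I' = 0`: `I → S0` is zero, so `f : A → I → S0` is zero,
contradiction. So `Q0 = 0`, `S0 ≅ I'`, and `K''⟦1⟧ = Q1`: triangle `I → S0 → Q1`, `Hom(S0, Q1)`... `Q1` has
phases in `(φ, φ+1)`, `I⟦1⟧ ∈ P(φ+1)`: `S0 → Q1 → I⟦1⟧`: for `C ∈ P ψ` with `ψ < φ + 1`...: `Hom(Q1, Q1)`:
the identity of `Q1`; `Hom(C, I⟦1⟧)`. This is the abelian category statement: in the heart `P((φ-1, φ])`
shifted... the cone of a map `I → S0` of objects of `P φ`. Standard proof that `P φ` is abelian (Bridgeland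
Lemma 5.2): the cone `Q1` of `I → S0` has phases in `[φ, φ+1]`, being an extension of `I⟦1⟧ ∈ P(φ+1)` and
`S0 ∈ P φ`; for a stability condition `Z(Q1) = Z(S0) - Z(I)` lies on the line `ℝ e^{iπφ}`, and all HN
factors have phases in `[φ, φ+1]`, `Z` of a factor of phase in `(φ, φ+1)` has strictly positive
component orthogonal to the line: so all the factors have phase `φ` or `φ+1` (this uses the central charge:
`Z_P`, `Z_add`). USE THIS FROM THE START: `Z(K) = Z(A) - Z(S0)` lies on the line `ℝ e^{iπφ}`; all HN phases of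
`K` are in `[φ-1, φ]`; a factor with phase in `(φ-1, φ)` contributes a nonzero component on one side
(`Im (Z e^{-iπφ}) < 0`), the others `0`: so all HN factors of `K` have phase `φ` or `φ - 1`. So there is a
triangle `K' → K → K''` with `K' ∈ P φ`, `K'' ∈ P (φ-1)`. Octahedral axiom as above: `I` = cone of `K' → A` is in
`P φ`, triangle `I → S0 → K''⟦1⟧` with `K''⟦1⟧ ∈ P φ`; `S0` stable: `I = 0` or `K''⟦1⟧ = 0`. If `I = 0` then
`f = 0`, contradiction. So `K'' = 0` and `K ≅ K' ∈ P φ`.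
(So the plan is: (a) bounds `[φ-1, φ]` by `hn_le`, `hn_ge`; (b) central charge; (c) octahedron; (d) stability.)
-/

open CategoryTheory CategoryTheory.Limits CategoryTheory.Pretriangulated

namespace Pool.Agent.BE

universe v u

variable {D : Type u} [Category.{v} D] [Preadditive D] [HasZeroObject D] [HasShift D ℤ]
  [∀ n : ℤ, (shiftFunctor D n).Additive] [Pretriangulated D] [IsTriangulated D]
  {T : ObjectProperty D} [T.IsTriangulated] [T.IsClosedUnderIsomorphisms]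

namespace StabCond

variable (σ : StabCond T)

omit [IsTriangulated D] [T.IsTriangulated] [T.IsClosedUnderIsomorphisms] in
theorem Z_isZero {X : D} (hX : IsZero X) : σ.Z X = 0 := by
  have hT : Triangle.mk (𝟙 X) (0 : X ⟶ X) (0 : X ⟶ X⟦(1 : ℤ)⟧) ∈ distTriang D := by
    refine isomorphic_distinguished _ (contractible_distinguished X) _ ?_
    exact Triangle.isoMk _ _ (Iso.refl _) (Iso.refl _) (hX.iso (isZero_zero D))
      (hX.eq_of_src _ _) (hX.eq_of_src _ _) (hX.eq_of_src _ _)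
  have hTX : T X := σ.P_le 0 X (σ.P_zero 0 X hX)
  have h := σ.Z_add X X X _ _ _ hT hTX hTX hTX
  have h2 : σ.Z X + 0 = σ.Z X + σ.Z X := by rw [add_zero]; exact h
  exact (add_left_cancel h2).symm

/-- the component of the central charge orthogonal to the ray of phase `φ` -/
noncomputable def cc (φ : ℝ) (X : D) : ℝ :=
  (σ.Z X * Complex.exp (-(Real.pi * φ * Complex.I))).im

omit [IsTriangulated D] [T.IsTriangulated] [T.IsClosedUnderIsomorphisms] in
theorem cc_add (φ : ℝ) {X Y W : D} (f : X ⟶ Y) (g : Y ⟶ W) (h : W ⟶ X⟦(1 : ℤ)⟧)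
    (hT : Triangle.mk f g h ∈ distTriang D) (hX : T X) (hY : T Y) (hW : T W) :
    σ.cc φ Y = σ.cc φ X + σ.cc φ W := by
  simp only [cc]
  rw [σ.Z_add X Y W f g h hT hX hY hW, add_mul, Complex.add_im]

omit [IsTriangulated D] [T.IsTriangulated] [T.IsClosedUnderIsomorphisms] in
theorem cc_isZero (φ : ℝ) {X : D} (hX : IsZero X) : σ.cc φ X = 0 := by
  simp only [cc]
  rw [σ.Z_isZero hX, zero_mul, Complex.zero_im]

omit [IsTriangulated D] [T.IsTriangulated] [T.IsClosedUnderIsomorphisms] in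
theorem cc_P (φ ψ : ℝ) {X : D} (hX : σ.P ψ X) (hX0 : ¬ IsZero X) :
    ∃ m : ℝ, 0 < m ∧ σ.cc φ X = m * Real.sin (Real.pi * (ψ - φ)) := by
  obtain ⟨m, hm, h⟩ := σ.Z_P ψ X hX hX0
  refine ⟨m, hm, ?_⟩
  simp only [cc]
  rw [h, mul_assoc, ← Complex.exp_add]
  have e : (Real.pi : ℂ) * ψ * Complex.I + -(Real.pi * φ * Complex.I)
      = ((Real.pi * (ψ - φ) : ℝ) : ℂ) * Complex.I := by
    push_cast; ring
  rw [e, Complex.im_ofReal_mul, Complex.exp_ofReal_mul_I_im]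

theorem cc_hn (φ : ℝ) {l : List ℝ} {X : D} (h : HNFilt σ.P l X)
    (hl : ∀ ψ ∈ l, φ - 1 ≤ ψ ∧ ψ ≤ φ) :
    σ.cc φ X ≤ 0 ∧ (σ.cc φ X = 0 → ∀ ψ ∈ l, ψ = φ ∨ ψ = φ - 1) := by
  induction h with
  | zero X hX => exact ⟨(σ.cc_isZero φ hX).le, fun _ ψ hψ => by simp at hψ⟩
  | cons φ' l E X A f g h hT hA hA0 hll hE ih =>
    obtain ⟨ih1, ih2⟩ := ih (fun ψ hψ => hl ψ (List.mem_cons_of_mem _ hψ))
    have hTE : T E := σ.hn_mem hE
    have hTA : T A := σ.P_le _ _ hA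
    have hTX : T X := σ.hn_mem (HNFilt.cons φ' l E X A f g h hT hA hA0 hll hE)
    have hadd := σ.cc_add φ f g h hT hTE hTX hTA
    obtain ⟨m, hm, hc⟩ := σ.cc_P φ φ' hA hA0
    obtain ⟨b1, b2⟩ := hl φ' List.mem_cons_self
    have hpi := Real.pi_pos
    have hs : Real.sin (Real.pi * (φ' - φ)) ≤ 0 := by
      apply Real.sin_nonpos_of_nonpos_of_neg_pi_le
      · nlinarith
      · nlinarith
    have hcA : σ.cc φ A ≤ 0 := by rw [hc]; exact mul_nonpos_of_nonneg_of_nonpos hm.le hs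
    refine ⟨by linarith, fun h0 => ?_⟩
    have hE0 : σ.cc φ E = 0 := by linarith
    have hA00 : σ.cc φ A = 0 := by linarith
    intro ψ hψ
    rcases List.mem_cons.1 hψ with rfl | hψ
    · by_contra hcon
      push Not at hcon
      have h1 : ψ < φ := lt_of_le_of_ne b2 hcon.1
      have h2 : φ - 1 < ψ := lt_of_le_of_ne b1 (Ne.symm hcon.2)
      have : Real.sin (Real.pi * (ψ - φ)) < 0 := by
        apply Real.sin_neg_of_neg_of_neg_pi_lt
        · nlinarith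
        · nlinarith
      have h3 : σ.cc φ A < 0 := by rw [hc]; exact mul_neg_of_pos_of_neg hm this
      linarith
    · exact ih2 hE0 ψ hψ

/-- kernels: a nonzero map from an object of `P φ` to a stable object of phase `φ` is surjective
in `P φ` -/
theorem exists_kernel {φ : ℝ} {A S0 : D} (hA : σ.P φ A) (hS : σ.StableOf φ S0) (f : A ⟶ S0)
    (hf : f ≠ 0) : ∃ (K : D) (k : K ⟶ A) (h : S0 ⟶ K⟦(1 : ℤ)⟧),
      Triangle.mk k f h ∈ distTriang D ∧ σ.P φ K := by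
  obtain ⟨K, k, h, hT⟩ := distinguished_cocone_triangle₁ f
  refine ⟨K, k, h, hT, ?_⟩
  obtain ⟨hS1, hS2, hS3⟩ := hS
  have hTA : T A := σ.P_le _ _ hA
  have hTS : T S0 := σ.P_le _ _ hS1
  have hTK : T K := T.ext_of_isTriangulatedClosed₁ _ hT hTA hTS
  have hA0 : ¬ IsZero A := fun h0 => hf (h0.eq_of_src _ _)
  obtain ⟨l, hl⟩ := σ.hn K hTK
  have hup : ∀ ψ ∈ l, ψ ≤ φ := by
    refine σ.hn_le hl φ ?_
    intro ψ C hψ hC g
    have h1 : g ≫ k = 0 := σ.hom_zero ψ φ hψ C A hC hA _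
    obtain ⟨u, hu⟩ := Triangle.coyoneda_exact₁ _ hT (g⟦(1 : ℤ)⟧') (by
      change g⟦(1 : ℤ)⟧' ≫ k⟦(1 : ℤ)⟧' = 0
      rw [← Functor.map_comp, h1, Functor.map_zero])
    have h2 : u = 0 := σ.hom_zero (ψ + 1) φ (by linarith) _ _ ((σ.P_shift ψ C).1 hC) hS1 u
    rw [h2, zero_comp] at hu
    exact (shiftFunctor D (1 : ℤ)).map_injective (hu.trans (Functor.map_zero _ _ _).symm)
  have hlow : ∀ ψ ∈ l, φ - 1 ≤ ψ := by
    refine σ.hn_ge hl (φ - 1) ?_
    intro ψ C hψ hC g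
    have h1 : h ≫ g⟦(1 : ℤ)⟧' = 0 :=
      σ.hom_zero φ (ψ + 1) (by linarith) _ _ hS1 ((σ.P_shift ψ C).1 hC) _
    obtain ⟨u, hu⟩ := Triangle.yoneda_exact₃ _ (rot_of_distTriang _ hT) (g⟦(1 : ℤ)⟧') h1
    have h2 : u = 0 := σ.hom_zero (φ + 1) (ψ + 1) (by linarith) _ _ ((σ.P_shift φ A).1 hA)
      ((σ.P_shift ψ C).1 hC) u
    rw [h2, comp_zero] at hu
    exact (shiftFunctor D (1 : ℤ)).map_injective (hu.trans (Functor.map_zero _ _ _).symm)
  have hcA : σ.cc φ A = 0 := by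
    obtain ⟨m, _, hm⟩ := σ.cc_P φ φ hA hA0
    rw [hm, sub_self, mul_zero, Real.sin_zero, mul_zero]
  have hcS : σ.cc φ S0 = 0 := by
    obtain ⟨m, _, hm⟩ := σ.cc_P φ φ hS1 hS2
    rw [hm, sub_self, mul_zero, Real.sin_zero, mul_zero]
  have hcK : σ.cc φ K = 0 := by
    have := σ.cc_add φ k f h hT hTK hTA hTS
    linarith
  have hent := (σ.cc_hn φ hl (fun ψ hψ => ⟨hlow ψ hψ, hup ψ hψ⟩)).2 hcK
  cases hl with
  | zero _ hK => exact σ.P_zero φ K hK
  | cons φ' l' E _ A2 f' g' h' hT' hA2 hA20 hll hE =>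
    rcases hent φ' List.mem_cons_self with hφ | hφ
    · subst hφ
      refine σ.P_of_hn (HNFilt.cons φ' l' E K A2 f' g' h' hT' hA2 hA20 hll hE) ?_
      intro ψ hψ
      rcases List.mem_cons.1 hψ with rfl | hψ'
      · rfl
      · exact absurd (hll ψ hψ') (not_lt.2 (hup ψ hψ))
    · exfalso
      have hPE : σ.P φ E := by
        refine σ.P_of_hn hE ?_
        intro ψ hψ
        have h1 := hll ψ hψ
        rcases hent ψ (List.mem_cons_of_mem _ hψ) with h2 | h2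
        · exact h2
        · exact absurd h1 (by rw [h2, hφ]; exact lt_irrefl _)
      obtain ⟨I, v, w, hI⟩ := distinguished_cocone_triangle (f' ≫ k)
      have oct := Triangulated.someOctahedron (rfl : f' ≫ k = f' ≫ k) hT' hT hI
      have hTI : T I := T.ext_of_isTriangulatedClosed₃ _ hI (σ.P_le _ _ hPE) hTA
      obtain ⟨l2, hl2⟩ := σ.hn I hTI
      have hge : ∀ ψ ∈ l2, φ ≤ ψ := by
        refine σ.hn_ge hl2 φ ?_
        intro ψ C hψ hC g
        have h1 : v ≫ g = 0 := σ.hom_zero φ ψ hψ _ _ hA hC _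
        obtain ⟨u, hu⟩ := Triangle.yoneda_exact₃ _ hI g h1
        have h2 : u = 0 := σ.hom_zero (φ + 1) ψ (by linarith) _ _ ((σ.P_shift φ E).1 hPE) hC u
        rw [hu, h2, comp_zero]; rfl
      have hle : ∀ ψ ∈ l2, ψ ≤ φ := by
        refine σ.hn_le hl2 φ ?_
        intro ψ C hψ hC g
        have h1 : g ≫ oct.m₃ = 0 := σ.hom_zero ψ φ hψ _ _ hC hS1 _
        obtain ⟨u, hu⟩ := Triangle.coyoneda_exact₂ _ oct.mem g h1
        have h2 : u = 0 := σ.hom_zero ψ φ' (by linarith) _ _ hC hA2 u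
        rw [hu, h2, zero_comp]; rfl
      have hPI : σ.P φ I := σ.P_of_hn hl2 (fun ψ hψ => le_antisymm (hle ψ hψ) (hge ψ hψ))
      have hPA2 : σ.P φ (A2⟦(1 : ℤ)⟧) := by
        have := (σ.P_shift φ' A2).1 hA2
        rwa [hφ, sub_add_cancel] at this
      rcases hS3 I (A2⟦(1 : ℤ)⟧) oct.m₃ _ _ (rot_of_distTriang _ oct.mem) hPI hPA2 with h0 | h0
      · apply hf
        have hm : oct.m₃ = 0 := h0.eq_of_src _ _
        exact oct.comm₃.symm.trans (by rw [hm, comp_zero])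
      · apply hA20
        rw [IsZero.iff_id_eq_zero] at h0 ⊢
        exact (shiftFunctor D (1 : ℤ)).map_injective
          (((shiftFunctor D (1 : ℤ)).map_id A2).trans (h0.trans (Functor.map_zero _ _ _).symm))

end StabCond

end Pool.Agent.BE
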