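import Pool.Agent.BE.StE

/-!
# BE-StF: stable quotients

By `fin_len` the lengths of chains `Chain (P φ) n X` are bounded. Claim: if `X ∈ P φ` nonzero has no stable
quotient, then for every quotient triangle `A → X → B` (all in `P φ`), `B ≠ 0`, `B` is not stable: so there is a
triangle `A' → B → B'` in `P φ` with `A', B'` nonzero; octahedral axiom: `X → B → B'` has fibre `A''` with
`A → A'' → A'` a triangle, `A'' ∈ P φ` (`P_ext`). So we get chains `A ⊂ A'' ⊂ ...` in `X` of strictly increasing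
subobjects of unbounded length: contradiction with `fin_len`. Precisely prove by induction on `n`: there are
a triangle `A → X → B` in `P φ` with `B ≠ 0` and `Chain (P φ) n A`; then `Chain (P φ) (n+1) X`.
(Start `n = 0`: `A = 0`, `B = X`.) Step: `Chain (P φ) n A` and the triangle `A → A'' → A'` with `A'` nonzero give
`Chain (P φ) (n+1) A''`.
-/

open CategoryTheory CategoryTheory.Limits CategoryTheory.Pretriangulated

namespace Pool.Agent.BE

universe v u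

variable {D : Type u} [Category.{v} D] [Preadditive D] [HasZeroObject D] [HasShift D ℤ]
  [∀ n : ℤ, (shiftFunctor D n).Additive] [Pretriangulated D] [IsTriangulated D]
  {T : ObjectProperty D} [T.IsTriangulated] [T.IsClosedUnderIsomorphisms]

namespace StabCond

variable (σ : StabCond T)

omit [IsTriangulated D] [T.IsTriangulated] [T.IsClosedUnderIsomorphisms] in
/-- a nonzero semistable object which is not stable has a proper strict subobject -/
private theorem exists_sub {φ : ℝ} {B : D} (hB : σ.P φ B) (hB0 : ¬ IsZero B)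
    (hs : ¬ σ.StableOf φ B) : ∃ (A' B' : D) (f : A' ⟶ B) (g : B ⟶ B') (h : B' ⟶ A'⟦(1 : ℤ)⟧),
      Triangle.mk f g h ∈ distTriang D ∧ σ.P φ A' ∧ σ.P φ B' ∧ ¬ IsZero A' ∧ ¬ IsZero B' := by
  by_contra hcon
  apply hs
  refine ⟨hB, hB0, fun A' B' f g h hT hA' hB' => ?_⟩
  by_contra hz
  push Not at hz
  exact hcon ⟨A', B', f, g, h, hT, hA', hB', hz.1, hz.2⟩

/-- a longer chain -/
private theorem chain_step {φ : ℝ} {X A B : D} {n : ℕ} (f : A ⟶ X) (g : X ⟶ B)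
    (h : B ⟶ A⟦(1 : ℤ)⟧) (hT : Triangle.mk f g h ∈ distTriang D) (hA : σ.P φ A)
    (hc : Chain (σ.P φ) n A) {A' B' : D} (f' : A' ⟶ B) (g' : B ⟶ B') (h' : B' ⟶ A'⟦(1 : ℤ)⟧)
    (hT' : Triangle.mk f' g' h' ∈ distTriang D) (hA' : σ.P φ A') (hB' : σ.P φ B')
    (hA'0 : ¬ IsZero A') :
    ∃ (A'' : D) (f'' : A'' ⟶ X) (h'' : B' ⟶ A''⟦(1 : ℤ)⟧),
      Triangle.mk f'' (g ≫ g') h'' ∈ distTriang D ∧ σ.P φ A'' ∧ Chain (σ.P φ) (n + 1) A'' := by
  obtain ⟨A'', f'', h'', hT''⟩ := distinguished_cocone_triangle₁ (g ≫ g')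
  -- the map `A ⟶ A''`
  have hfg : f ≫ g = 0 := comp_distTriang_mor_zero₁₂ _ hT
  obtain ⟨a, ha⟩ := Triangle.coyoneda_exact₂ _ hT'' f (by
    show f ≫ (g ≫ g') = 0
    rw [← Category.assoc, hfg, zero_comp])
  have ha' : a ≫ f'' = f := ha.symm
  obtain ⟨C, c, w, hC⟩ := distinguished_cocone_triangle a
  have oct := Triangulated.someOctahedron ha' hC hT'' hT
  -- `oct.m₃ : B ⟶ B'` equals `g'`
  have hm : g ≫ oct.m₃ = g ≫ g' := oct.comm₃
  have hm2 : oct.m₃ = g' := by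
    have h1 : g ≫ (oct.m₃ - g') = 0 := by rw [Preadditive.comp_sub, hm, sub_self]
    obtain ⟨z, hz⟩ := Triangle.yoneda_exact₃ _ hT (oct.m₃ - g') h1
    have h2 : z = 0 := σ.hom_zero (φ + 1) φ (by linarith) _ _ ((σ.P_shift φ A).1 hA) hB' z
    rw [h2, comp_zero] at hz
    exact sub_eq_zero.1 hz
  have hCB := oct.mem
  rw [hm2] at hCB
  -- `C ≅ A'`
  let e : (Triangle.mk oct.m₁ g' (h'' ≫ c⟦(1 : ℤ)⟧')).rotate ≅ (Triangle.mk f' g' h').rotate :=
    isoTriangleOfIso₁₂ _ _ (rot_of_distTriang _ hCB) (rot_of_distTriang _ hT') (Iso.refl _)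
      (Iso.refl _) ((Category.comp_id _).trans (Category.id_comp _).symm)
  have e1 : C⟦(1 : ℤ)⟧ ≅ A'⟦(1 : ℤ)⟧ := Triangle.π₃.mapIso e
  have e2 : C ≅ A' := (shiftFunctor D (1 : ℤ)).preimageIso e1
  have hCP : σ.P φ C := σ.P_iso φ _ _ e2.symm hA'
  have hC0 : ¬ IsZero C := fun hz => hA'0 (hz.of_iso e2.symm)
  have hA''P : σ.P φ A'' := σ.P_ext a c w hC hA hCP
  exact ⟨A'', f'', h'', hT'', hA''P, Chain.succ n A A'' C a c w hC hCP hC0 hA''P hc hA⟩

/-- a nonzero semistable object has a stable quotient -/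
theorem exists_stable_quot {φ : ℝ} {X : D} (hX : σ.P φ X) (h0 : ¬ IsZero X) :
    ∃ (A B : D) (f : A ⟶ X) (g : X ⟶ B) (h : B ⟶ A⟦(1 : ℤ)⟧),
      Triangle.mk f g h ∈ distTriang D ∧ σ.P φ A ∧ σ.StableOf φ B := by
  by_contra hno
  have key : ∀ n : ℕ, ∃ (A B : D) (f : A ⟶ X) (g : X ⟶ B) (h : B ⟶ A⟦(1 : ℤ)⟧),
      Triangle.mk f g h ∈ distTriang D ∧ σ.P φ A ∧ σ.P φ B ∧ ¬ IsZero B ∧ Chain (σ.P φ) n A := by
    intro n
    induction n with
    | zero =>
      obtain ⟨A, f, h, hT⟩ := distinguished_cocone_triangle₁ (𝟙 X)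
      have hA : IsZero A := Triangle.isZero₁_of_isIso₂ _ hT (by
        show IsIso (𝟙 X)
        infer_instance)
      exact ⟨A, X, f, 𝟙 X, h, hT, σ.P_zero φ A hA, hX, h0, Chain.zero A hA⟩
    | succ n ih =>
      obtain ⟨A, B, f, g, h, hT, hA, hB, hB0, hc⟩ := ih
      have hs : ¬ σ.StableOf φ B := fun hs => hno ⟨A, B, f, g, h, hT, hA, hs⟩
      obtain ⟨A', B', f', g', h', hT', hA', hB', hA'0, hB'0⟩ := σ.exists_sub hB hB0 hs
      obtain ⟨A'', f'', h'', hT'', hA'', hc''⟩ :=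
        σ.chain_step f g h hT hA hc f' g' h' hT' hA' hB' hA'0
      exact ⟨A'', B', f'', g ≫ g', h'', hT'', hA'', hB', hB'0, hc''⟩
  obtain ⟨N, hN⟩ := σ.fin_len φ X hX
  obtain ⟨A, B, f, g, h, hT, hA, hB, hB0, hc⟩ := key N
  have := hN (N + 1) (Chain.succ N A X B f g h hT hB hB0 hX hc hA)
  omega

end StabCond

end Pool.Agent.BE
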